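import Pool.Agent.W_MP_b4801b_h67.Defs

/-!
# Semisimplicity for many primes from two Frobenius polynomials: definitions

Paper proof (helper32, helper41).  `S` = polarized pure `ℚ`-rational compatible system with dense
Frobenius elements, `D` = the maximal number of distinct roots of the Frobenius polynomials `P_x`.
A place `x` is neat if `P_x` has `D` distinct roots whose quotients are not roots of unity;
`frobField P_x ⊆ ℂ` is the splitting field, `common S D` the intersection over the neat places.

THEOREM. If there is a neat place then the set `conjPrimes` of the primes `ℓ` such that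
`α ↦ q_x ^ w / α` permutes the roots of the irreducible factors of `P_x` over `ℚ_ℓ` for a neat `x` has
lower Dirichlet density at least `1 / [common S : ℚ]`; for these primes `V_ℓ` is semisimple if
`D = dim V`.
-/

set_option autoImplicit false

noncomputable section

open Polynomial Filter Topology

universe u v

namespace Pool.Agent.T10

open Pool.Agent.B4801b

/-! ### Systems -/

/-- The Frobenius elements are dense in the absolute Galois group (Chebotarev): for every open subgroup
`U`, every `g` and every finite set `T` of primes there is a place `x` of the system with `p_x ∉ T` such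
that a conjugate of the Frobenius element of `x` lies in `g U`. -/
def DenseFrob {k : Type u} [Field k] {w : ℕ} (S : CompSys.{u, v} k w) : Prop :=
  ∀ (U : Subgroup (Gal k)), IsOpen (U : Set (Gal k)) → ∀ (g : Gal k) (T : Finset ℕ),
    ∃ x ∈ S.Pl, x.p ∉ T ∧ ∃ h : Gal k, g⁻¹ * (h * x.frob * h⁻¹) ∈ U

/-- `P` has exactly `D` distinct complex roots, and no quotient of two different roots is a root of
unity. -/
def NeatPoly (D : ℕ) (P : ℚ[X]) : Prop :=
  P ≠ 0 ∧ (P.rootSet ℂ).ncard = D ∧
    ∀ a b : ℂ, aeval a P = 0 → aeval b P = 0 → a ≠ b → ∀ m : ℕ, 0 < m → a ^ m ≠ b ^ m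

/-- The place `x` of the system is neat (with respect to the number `D`): `P_x` has exactly `D` distinct
roots and no quotient of two different roots is a root of unity. -/
def Neat {k : Type u} [Field k] {w : ℕ} (S : CompSys.{u, v} k w) (D : ℕ) (x : Place k) : Prop :=
  x ∈ S.Pl ∧ NeatPoly D (S.P x)

/-- For some open subgroup `U` (a finite extension of `k`), the Frobenius polynomials of the places whose
Frobenius elements lie in `U`, up to conjugation, have at most `D` distinct roots.  (`U` may be the whole
group.) -/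
def MaxRoots {k : Type u} [Field k] {w : ℕ} (S : CompSys.{u, v} k w) (D : ℕ) : Prop :=
  ∃ U : Subgroup (Gal k), IsOpen (U : Set (Gal k)) ∧
    ∀ x ∈ S.Pl, (∃ h : Gal k, h * x.frob * h⁻¹ ∈ U) → ((S.P x).rootSet ℂ).ncard ≤ D

/-- The splitting field of `P` in `ℂ`. -/
def frobField (P : ℚ[X]) : IntermediateField ℚ ℂ := IntermediateField.adjoin ℚ (P.rootSet ℂ)

/-- The intersection of the splitting fields of the Frobenius polynomials of the neat places. -/
def common {k : Type u} [Field k] {w : ℕ} (S : CompSys.{u, v} k w) (D : ℕ) : IntermediateField ℚ ℂ :=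
  ⨅ x : {x : Place k // Neat S D x}, frobField (S.P x.1)

/-- The primes `ℓ` for which some neat place `x` has the property that the roots of every irreducible
factor of `P_x` over `ℚ_ℓ` are permuted by `α ↦ q_x ^ w / α`. -/
def conjPrimes {k : Type u} [Field k] {w : ℕ} (S : CompSys.{u, v} k w) (D : ℕ) : Set ℕ :=
  {ℓ | ℓ.Prime ∧ ∃ x, Neat S D x ∧ x.p ≠ ℓ ∧ ℓ ∈ S.dualPrimes x}

/-- The primes `ℓ` such that `V_ℓ` is semisimple. -/
def semisimplePrimes {k : Type u} [Field k] {w : ℕ} (S : CompSys.{u, v} k w) : Set ℕ :=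
  {ℓ | ∃ h : ℓ.Prime, haveI : Fact ℓ.Prime := ⟨h⟩; (S.rep ℓ).Semisimple}

/-! ### Dirichlet density -/

/-- The sum of `ℓ ^ (-s)` over the elements `ℓ` of `A`. -/
def dsum (A : Set ℕ) (s : ℝ) : ℝ := ∑' ℓ : A, ((ℓ : ℕ) : ℝ) ^ (-s)

/-- `A` is a set of primes whose Dirichlet density is `d`, with bounded error term. -/
def HasDens (A : Set ℕ) (d : ℝ) : Prop :=
  (∀ ℓ ∈ A, ℓ.Prime) ∧
    ∃ C : ℝ, ∀ᶠ s : ℝ in 𝓝[>] 1, |dsum A s - d * Real.log (1 / (s - 1))| ≤ C

/-- The set `A` of primes has lower Dirichlet density at least `d`. -/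
def LowerDensityGE (A : Set ℕ) (d : ℝ) : Prop :=
  ∀ ε : ℝ, 0 < ε → ∀ᶠ s : ℝ in 𝓝[>] 1, (d - ε) * Real.log (1 / (s - 1)) ≤ dsum A s

/-! ### Fields -/

/-- The primes `ℓ` such that `K` can be embedded into `ℚ_ℓ` (for `K / ℚ` Galois: the totally split
primes, up to finitely many). -/
def Spl (K : Type) [Field K] : Set ℕ :=
  {ℓ | ∃ h : ℓ.Prime, haveI : Fact ℓ.Prime := ⟨h⟩; Nonempty (K →+* ℚ_[ℓ])}

/-- The real numbers as a subfield of `ℂ`. -/
def Rfld : IntermediateField ℚ ℂ := (IsScalarTower.toAlgHom ℚ ℝ ℂ).fieldRange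

/-- Complex conjugation commutes with the embeddings of `K`. -/
def ConjCentral (K : IntermediateField ℚ ℂ) : Prop :=
  ∀ (σ : K →+* ℂ) (z z' : K), (z' : ℂ) = starRingEnd ℂ z → σ z' = starRingEnd ℂ (σ z)

/-- The primes `ℓ` such that the real subfield of `K` can be embedded into `ℚ_ℓ`, but not `K` (for
`K / ℚ` Galois with central complex conjugation: Frobenius is the complex conjugation, up to finitely
many `ℓ`). -/
def EE (K : IntermediateField ℚ ℂ) : Set ℕ := Spl ↥(K ⊓ Rfld) \ Spl ↥K

end Pool.Agent.T10
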