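import Pool.Agent.W_b4801b_t10.ZmB
import Pool.Agent.W_f569db_h62.NTJ

/-! The sum over the primes of degree one of a number field. -/

set_option autoImplicit false

noncomputable section

namespace Pool.Agent.T10

open Pool.Agent.H62D NumberField IsDedekindDomain Filter Topology
open scoped ENNReal

/-- The sum of `N(𝔭) ^ (-s)` over the primes `𝔭` of degree one. -/
def d1sum (F : Type) [Field F] [NumberField F] (s : ℝ) : ℝ :=
  ∑' P : {P : HeightOneSpectrum (𝓞 F) // (Ideal.absNorm P.asIdeal).Prime},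
    ((Ideal.absNorm P.1.asIdeal : ℕ) : ℝ) ^ (-s)

theorem DegOne_norm_ge (F : Type) [Field F] [NumberField F] (P : HeightOneSpectrum (𝓞 F)) :
    (2 : ℝ) ≤ ((Ideal.absNorm P.asIdeal : ℕ) : ℝ) := by
  exact_mod_cast NTJ_absNorm_ge F P

theorem DegOne_tsum_le_Zms {A : Type} (w : A → ℝ≥0∞) : ∑' a, w a ≤ Zms w := by
  unfold Zms
  have h : ∀ a, w a = ((({a} : Multiset A)).map w).prod := by
    intro a
    simp
  calc ∑' a, w a = ∑' a, ((({a} : Multiset A)).map w).prod := tsum_congr h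
    _ ≤ ∑' m : Multiset A, (m.map w).prod :=
      ENNReal.tsum_comp_le_tsum_of_injective (f := fun a : A => ({a} : Multiset A))
        (fun a b hab => Multiset.singleton_inj.1 hab) (fun m => (m.map w).prod)

theorem DegOne_mono (x s t : ℝ) (hx : 2 ≤ x) (hst : s ≤ t) : x ^ (-t) ≤ x ^ (-s) :=
  Real.rpow_le_rpow_of_exponent_le (by linarith) (by linarith)

theorem DegOne_summable_of {A : Type} (f : A → ℝ) (h0 : ∀ a, 0 ≤ f a)
    (h : ∑' a, ENNReal.ofReal (f a) < ∞) : Summable f := by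
  have h1 := ENNReal.summable_toReal h.ne
  refine h1.congr fun a => ?_
  exact ENNReal.toReal_ofReal (h0 a)

/-- Proof. There are at most `[F : ℚ]` primes of degree one above a prime `p` (`card_primes_over_le`), or:
`∑ w ≤ Zms w = Zid F s < ∞` for `s` close to `1` (`Zid_asymp`; multisets with one element), and the
terms decrease with `s`. -/
theorem all_summable (F : Type) [Field F] [NumberField F] (s : ℝ) (hs : 1 < s) :
    Summable (fun P : HeightOneSpectrum (𝓞 F) => ((Ideal.absNorm P.asIdeal : ℕ) : ℝ) ^ (-s)) := by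
  obtain ⟨c, C, s₀, hc, hC, hs₀, H⟩ := Zid_asymp F
  obtain ⟨t, ht1, ht2⟩ : ∃ t, 1 < t ∧ t < min s s₀ := exists_between (lt_min hs hs₀)
  have h1 := (H t ht1 (ht2.trans_le (min_le_right _ _))).2
  have h2 : Summable (fun P : HeightOneSpectrum (𝓞 F) =>
      ((Ideal.absNorm P.asIdeal : ℕ) : ℝ) ^ (-t)) := by
    refine DegOne_summable_of _ (fun P => by positivity) ?_
    calc ∑' P : HeightOneSpectrum (𝓞 F), ENNReal.ofReal (((Ideal.absNorm P.asIdeal : ℕ) : ℝ) ^ (-t))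
        ≤ Zms (wt F t) := DegOne_tsum_le_Zms (wt F t)
      _ = Zid F t := (Zid_eq_Zms F t).symm
      _ ≤ ENNReal.ofReal (C / (t - 1)) := h1
      _ < ∞ := ENNReal.ofReal_lt_top
  refine Summable.of_nonneg_of_le (fun P => by positivity) (fun P => ?_) h2
  exact DegOne_mono _ _ _ (DegOne_norm_ge F P) ((ht2.trans_le (min_le_left _ _)).le)

theorem DegOne_bad_summable (F : Type) [Field F] [NumberField F] :
    Summable (fun P : {P : HeightOneSpectrum (𝓞 F) // ¬ (Ideal.absNorm P.asIdeal).Prime} =>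
      ((Ideal.absNorm P.1.asIdeal : ℕ) : ℝ) ^ (-(1 : ℝ))) := by
  have h := tsum_bad_lt_top F ∅ (by
    have : IsEmpty (∅ : Set ℕ) := ⟨fun x => x.2⟩
    exact hasSum_empty.summable)
  refine DegOne_summable_of _ (fun P => by positivity) (lt_of_le_of_lt ?_ h)
  exact ENNReal.tsum_comp_le_tsum_of_injective
    (f := fun P : {P : HeightOneSpectrum (𝓞 F) // ¬ (Ideal.absNorm P.asIdeal).Prime} =>
      (⟨P.1, Or.inl P.2⟩ : {P : HeightOneSpectrum (𝓞 F) //
        ¬ (Ideal.absNorm P.asIdeal).Prime ∨ Ideal.absNorm P.asIdeal ∈ (∅ : Set ℕ)}))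
    (fun P Q h => Subtype.ext (congrArg (fun x => x.1) h)) (fun P => wt F 1 P.1)

/-- Proof. Put `w P = N(P) ^ (-s)`, `0 ≤ w ≤ 1 / 2` (`N(P) ≥ 2`, `s ≥ 1`), summable by
`all_summable`, and `Zid F s = Zms w` (`Zid_eq_Zms`; `wt F s P = ofReal (w P)` by definition). By
`Zms_ge_exp` and `Zms_le_exp`: `exp (∑ w) ≤ Zid F s ≤ exp (∑ w + 2 ∑ w ^ 2)`, where
`w ^ 2 = N ^ (-2s) ≤ N ^ (-2)` has a bounded sum (`all_summable F 2`). With `Zid_asymp`
(`c / (s - 1) ≤ Zid F s ≤ C / (s - 1)` for `1 < s < s₀`) and logarithms: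
`|∑ w - log (1 / (s - 1))| ≤ C'`. Finally `∑ w = d1sum F s + ∑_{N P not prime} w` and the second sum is
between `0` and the finite number `∑_{N P not prime} N(P) ^ (-1)` (`tsum_bad_lt_top F ∅`). -/
theorem d1_asymp (F : Type) [Field F] [NumberField F] :
    ∃ C : ℝ, ∀ᶠ s : ℝ in 𝓝[>] 1, |d1sum F s - Real.log (1 / (s - 1))| ≤ C := by
  obtain ⟨c, C, s₀, hc, hC, hs₀, H⟩ := Zid_asymp F
  set Q : ℝ := ∑' P : HeightOneSpectrum (𝓞 F), ((Ideal.absNorm P.asIdeal : ℕ) : ℝ) ^ (-(2 : ℝ))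
    with hQ
  set Bd : ℝ := ∑' P : {P : HeightOneSpectrum (𝓞 F) // ¬ (Ideal.absNorm P.asIdeal).Prime},
      ((Ideal.absNorm P.1.asIdeal : ℕ) : ℝ) ^ (-(1 : ℝ)) with hBd
  refine ⟨|Real.log C| + |Real.log c| + 2 * Q + Bd, ?_⟩
  filter_upwards [Ioo_mem_nhdsGT hs₀] with s hs
  obtain ⟨hs1, hs2⟩ := hs
  have hsum := all_summable F s hs1
  have hw0 : ∀ P : HeightOneSpectrum (𝓞 F), 0 ≤ ((Ideal.absNorm P.asIdeal : ℕ) : ℝ) ^ (-s) :=
    fun P => by positivity
  have hw1 : ∀ P : HeightOneSpectrum (𝓞 F), ((Ideal.absNorm P.asIdeal : ℕ) : ℝ) ^ (-s) ≤ 1 / 2 := by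
    intro P
    have h2 := DegOne_norm_ge F P
    calc ((Ideal.absNorm P.asIdeal : ℕ) : ℝ) ^ (-s)
        ≤ ((Ideal.absNorm P.asIdeal : ℕ) : ℝ) ^ (-(1 : ℝ)) := DegOne_mono _ _ _ h2 hs1.le
      _ ≤ 1 / 2 := by
          rw [Real.rpow_neg_one, one_div]
          exact inv_anti₀ (by norm_num) h2
  have e1 := Zms_ge_exp _ hw0 hw1 hsum
  have e2 := Zms_le_exp _ hw0 hw1 hsum
  have e3 : Zms (fun P : HeightOneSpectrum (𝓞 F) =>
      ENNReal.ofReal (((Ideal.absNorm P.asIdeal : ℕ) : ℝ) ^ (-s))) = Zid F s :=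
    (Zid_eq_Zms F s).symm
  rw [e3] at e1 e2
  obtain ⟨g1, g2⟩ := H s hs1 hs2
  have hpos : 0 < s - 1 := by linarith
  set W : ℝ := ∑' P : HeightOneSpectrum (𝓞 F), ((Ideal.absNorm P.asIdeal : ℕ) : ℝ) ^ (-s) with hW
  set W2 : ℝ := ∑' P : HeightOneSpectrum (𝓞 F), (((Ideal.absNorm P.asIdeal : ℕ) : ℝ) ^ (-s)) ^ 2
    with hW2
  have hW2Q : W2 ≤ Q := by
    have hle : ∀ P : HeightOneSpectrum (𝓞 F), (((Ideal.absNorm P.asIdeal : ℕ) : ℝ) ^ (-s)) ^ 2 ≤
        ((Ideal.absNorm P.asIdeal : ℕ) : ℝ) ^ (-(2 : ℝ)) := by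
      intro P
      have h2 := DegOne_norm_ge F P
      rw [← Real.rpow_natCast, ← Real.rpow_mul (by linarith)]
      exact Real.rpow_le_rpow_of_exponent_le (by linarith) (by push_cast; linarith)
    have hs2' := all_summable F 2 (by norm_num)
    exact Summable.tsum_le_tsum hle
      (Summable.of_nonneg_of_le (fun P => by positivity) hle hs2') hs2'
  have hup : W ≤ Real.log C + Real.log (1 / (s - 1)) := by
    have h1 : Real.exp W ≤ C / (s - 1) := by
      have := e1.trans g2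
      rwa [ENNReal.ofReal_le_ofReal_iff (by positivity)] at this
    have h2 := (Real.le_log_iff_exp_le (by positivity)).2 h1
    rw [div_eq_mul_one_div, Real.log_mul hC.ne' (by positivity)] at h2
    exact h2
  have hlo : Real.log c + Real.log (1 / (s - 1)) ≤ W + 2 * W2 := by
    have h1 : c / (s - 1) ≤ Real.exp (W + 2 * W2) := by
      have := g1.trans e2
      rwa [ENNReal.ofReal_le_ofReal_iff (Real.exp_pos _).le] at this
    have h2 := (Real.log_le_iff_le_exp (by positivity)).2 h1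
    rw [div_eq_mul_one_div, Real.log_mul hc.ne' (by positivity)] at h2
    exact h2
  -- splitting
  have hsplit : d1sum F s + ∑' P : {P : HeightOneSpectrum (𝓞 F) //
      ¬ (Ideal.absNorm P.asIdeal).Prime}, ((Ideal.absNorm P.1.asIdeal : ℕ) : ℝ) ^ (-s) = W :=
    hsum.tsum_subtype_add_tsum_subtype_compl
      {P : HeightOneSpectrum (𝓞 F) | (Ideal.absNorm P.asIdeal).Prime}
  set b : ℝ := ∑' P : {P : HeightOneSpectrum (𝓞 F) //
      ¬ (Ideal.absNorm P.asIdeal).Prime}, ((Ideal.absNorm P.1.asIdeal : ℕ) : ℝ) ^ (-s) with hb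
  have hb0 : 0 ≤ b := tsum_nonneg fun P => by positivity
  have hbB : b ≤ Bd := by
    have hle : ∀ P : {P : HeightOneSpectrum (𝓞 F) // ¬ (Ideal.absNorm P.asIdeal).Prime},
        ((Ideal.absNorm P.1.asIdeal : ℕ) : ℝ) ^ (-s) ≤
        ((Ideal.absNorm P.1.asIdeal : ℕ) : ℝ) ^ (-(1 : ℝ)) := fun P =>
      DegOne_mono _ _ _ (DegOne_norm_ge F P.1) hs1.le
    exact Summable.tsum_le_tsum hle
      (Summable.of_nonneg_of_le (fun P => by positivity) hle (DegOne_bad_summable F))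
      (DegOne_bad_summable F)
  have hQ0 : 0 ≤ Q := tsum_nonneg fun P => by positivity
  have hBd0 : 0 ≤ Bd := hb0.trans hbB
  have a1 := le_abs_self (Real.log C)
  have a2 := neg_abs_le (Real.log c)
  have a3 := abs_nonneg (Real.log C)
  have a4 := abs_nonneg (Real.log c)
  rw [abs_le]
  constructor
  · linarith
  · linarith

end Pool.Agent.T10
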