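import Pool.Agent.W_b4801b_t10.Defs

/-! Degrees of composites and of real subfields. -/

set_option autoImplicit false

noncomputable section

namespace Pool.Agent.T10

theorem sup_fd (K L : IntermediateField ℚ ℂ) (hKf : FiniteDimensional ℚ K)
    (hLf : FiniteDimensional ℚ L) : FiniteDimensional ℚ ↥(K ⊔ L) :=
  inferInstance

/-- The two structures of `ℚ`-algebra. -/
theorem Deg_galIff (K : IntermediateField ℚ ℂ) :
    IsGalois ℚ K ↔ @IsGalois ℚ _ K _ K.algebra' := by
  rw [show (DivisionRing.toRatAlgebra : Algebra ℚ K) = K.algebra' from Subsingleton.elim _ _]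

theorem sup_galois (K L : IntermediateField ℚ ℂ) (hK : IsGalois ℚ K) (hL : IsGalois ℚ L) :
    IsGalois ℚ ↥(K ⊔ L) := by
  rw [Deg_galIff] at hK hL ⊢
  infer_instance

theorem inf_galois (K L : IntermediateField ℚ ℂ) (hK : IsGalois ℚ K) (hL : IsGalois ℚ L) :
    IsGalois ℚ ↥(K ⊓ L) := by
  rw [Deg_galIff] at hK hL ⊢
  infer_instance

theorem Deg_aux {F E : Type*} [Field F] [Field E] [Algebra F E] [FiniteDimensional F E]
    [IsGalois F E] (K L : IntermediateField F E) [IsGalois F K] :
    Module.finrank F ↥(K ⊔ L) * Module.finrank F ↥(K ⊓ L) =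
      Module.finrank F K * Module.finrank F L := by
  have hinf : (K ⊓ L).fixingSubgroup = K.fixingSubgroup ⊔ L.fixingSubgroup := by
    have h1 : K ⊓ L = IntermediateField.fixedField (K.fixingSubgroup ⊔ L.fixingSubgroup) := by
      apply le_antisymm
      · rw [IntermediateField.le_iff_le]
        exact sup_le (IntermediateField.fixingSubgroup_antitone inf_le_left)
          (IntermediateField.fixingSubgroup_antitone inf_le_right)
      · apply le_inf
        · refine (IntermediateField.fixedField_le le_sup_left).trans ?_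
          rw [IsGalois.fixedField_fixingSubgroup]
        · refine (IntermediateField.fixedField_le le_sup_right).trans ?_
          rw [IsGalois.fixedField_fixingSubgroup]
    rw [h1, IntermediateField.fixingSubgroup_fixedField]
  rw [IntermediateField.finrank_eq_fixingSubgroup_index, IntermediateField.finrank_eq_fixingSubgroup_index,
    IntermediateField.finrank_eq_fixingSubgroup_index, IntermediateField.finrank_eq_fixingSubgroup_index,
    IntermediateField.fixingSubgroup_sup, hinf]
  have h2 := Subgroup.relIndex_mul_index (inf_le_right :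
    K.fixingSubgroup ⊓ L.fixingSubgroup ≤ L.fixingSubgroup)
  rw [Subgroup.inf_relIndex_right] at h2
  have h3 := Subgroup.relIndex_mul_index (le_sup_left :
    K.fixingSubgroup ≤ K.fixingSubgroup ⊔ L.fixingSubgroup)
  rw [Subgroup.relIndex_sup_left] at h3
  rw [← h2, ← h3]
  ring

theorem Deg_aux2 {F E : Type*} [Field F] [Field E] [Algebra F E] (K L : IntermediateField F E)
    [FiniteDimensional F K] [FiniteDimensional F L] [IsGalois F K]
    (hKL : IsGalois F ↥(K ⊔ L)) :
    Module.finrank F ↥(K ⊔ L) * Module.finrank F ↥(K ⊓ L) =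
      Module.finrank F K * Module.finrank F L := by
  let C : IntermediateField F E := K ⊔ L
  have : FiniteDimensional F C := IntermediateField.finiteDimensional_sup K L
  have : IsGalois F C := hKL
  let A : IntermediateField F C := K.restrict le_sup_left
  let B : IntermediateField F C := L.restrict le_sup_right
  have hA : IntermediateField.lift A = K := IntermediateField.lift_restrict le_sup_left
  have hB : IntermediateField.lift B = L := IntermediateField.lift_restrict le_sup_right
  have : IsGalois F A := IsGalois.of_algEquiv <| IntermediateField.restrictAlgEquiv ..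
  have hlift : ∀ D : IntermediateField F C, Module.finrank F (IntermediateField.lift D) =
      Module.finrank F D := fun D =>
    (IntermediateField.liftAlgEquiv D).toLinearEquiv.finrank_eq.symm
  have h1 := Deg_aux A B
  rw [← hlift, ← hlift, ← hlift A, ← hlift B, IntermediateField.lift_sup,
    IntermediateField.lift_inf, hA, hB] at h1
  exact h1

theorem finrank_sup_mul_inf (K L : IntermediateField ℚ ℂ) (hKf : FiniteDimensional ℚ K)
    (hLf : FiniteDimensional ℚ L) (hK : IsGalois ℚ K) (hL : IsGalois ℚ L) :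
    Module.finrank ℚ ↥(K ⊔ L) * Module.finrank ℚ ↥(K ⊓ L) =
      Module.finrank ℚ K * Module.finrank ℚ L := by
  have hKL := (Deg_galIff _).mp (sup_galois K L hK hL)
  rw [Deg_galIff] at hK hL
  exact Deg_aux2 K L hKL

theorem mem_Rfld (z : ℂ) : z ∈ Rfld ↔ starRingEnd ℂ z = z := by
  rw [Rfld, AlgHom.mem_fieldRange, Complex.conj_eq_iff_real]
  constructor
  · rintro ⟨r, hr⟩
    exact ⟨r, hr.symm⟩
  · rintro ⟨r, hr⟩
    exact ⟨r, hr.symm⟩

theorem Deg_aux3 {F E : Type*} [Field F] [Field E] [Algebra F E] (K R : IntermediateField F E)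
    [IsGalois F K] (h : ∀ (σ : K ≃ₐ[F] K) (z : K), (z : E) ∈ R → ((σ z : K) : E) ∈ R) :
    IsGalois F ↥(K ⊓ R) := by
  let A := IntermediateField.restrict (inf_le_left : K ⊓ R ≤ K)
  have hmem : ∀ z : K, z ∈ A ↔ (z : E) ∈ K ⊓ R := fun z => IntermediateField.mem_restrict _ z
  have hN : Normal F A := by
    rw [IntermediateField.normal_iff_forall_map_le']
    intro σ
    rintro _ ⟨z, hz, rfl⟩
    have hz' : (z : E) ∈ K ⊓ R := (hmem z).mp hz
    exact (hmem _).mpr ⟨(σ z).2, h σ z hz'.2⟩
  have : IsGalois F A := ⟨⟩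
  exact IsGalois.of_algEquiv (IntermediateField.restrictAlgEquiv (inf_le_left : K ⊓ R ≤ K)).symm

theorem Deg_aux4 {F E : Type*} [Field F] [Field E] [Algebra F E] (K R : IntermediateField F E)
    [FiniteDimensional F K] [IsGalois F K] (τ : E ≃ₐ[F] E) (hτ : ∀ z, τ (τ z) = z)
    (hR : ∀ z, z ∈ R ↔ τ z = z) (hr : ¬ K ≤ R) :
    Module.finrank F K = 2 * Module.finrank F ↥(K ⊓ R) := by
  let c : K ≃ₐ[F] K := τ.restrictNormal K
  have hc : ∀ z : K, ((c z : K) : E) = τ (z : E) := fun z =>
    AlgEquiv.restrictNormal_commutes τ K z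
  have hcc : c ^ 2 = 1 := by
    ext z
    rw [pow_two, AlgEquiv.mul_apply, hc, hc, hτ]
    rfl
  have hc1 : c ≠ 1 := by
    intro h
    apply hr
    intro z hz
    rw [hR]
    have := hc ⟨z, hz⟩
    rw [h] at this
    exact this.symm
  have hord : orderOf c = 2 := orderOf_eq_prime hcc hc1
  let A := IntermediateField.restrict (inf_le_left : K ⊓ R ≤ K)
  have hA : A = IntermediateField.fixedField (Subgroup.zpowers c) := by
    ext z
    have h1 : z ∈ A ↔ c z = z := by
      have : z ∈ A ↔ (z : E) ∈ K ⊓ R := IntermediateField.mem_restrict _ z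
      rw [this, IntermediateField.mem_inf, hR]
      constructor
      · intro h
        exact Subtype.ext ((hc z).trans h.2)
      · intro h
        refine ⟨z.2, ?_⟩
        rw [← hc, h]
    rw [h1, IntermediateField.mem_fixedField_iff]
    constructor
    · rintro h _ ⟨n, rfl⟩
      have h2 : c ∈ MulAction.stabilizer (K ≃ₐ[F] K) z := h
      exact (MulAction.stabilizer (K ≃ₐ[F] K) z).zpow_mem h2 n
    · intro h
      exact h c (Subgroup.mem_zpowers c)
  have h2 : Module.finrank A K = 2 := by
    rw [hA, IntermediateField.finrank_fixedField_eq_card, Nat.card_zpowers, hord]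
  have h3 : Module.finrank F A = Module.finrank F ↥(K ⊓ R) :=
    (IntermediateField.restrictAlgEquiv (inf_le_left : K ⊓ R ≤ K)).toLinearEquiv.finrank_eq.symm
  rw [← Module.finrank_mul_finrank F A K, h2, h3, mul_comm]

theorem real_galois (K : IntermediateField ℚ ℂ) (hKf : FiniteDimensional ℚ K) (hK : IsGalois ℚ K)
    (hc : ConjCentral K) : IsGalois ℚ ↥(K ⊓ Rfld) := by
  rw [Deg_galIff] at hK ⊢
  apply Deg_aux3
  intro σ z hz
  have h1 : (starRingEnd ℂ) (z : ℂ) = z := (mem_Rfld _).mp hz
  have h2 := hc ((algebraMap K ℂ).comp (σ : K →+* K)) z z h1.symm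
  exact (mem_Rfld _).mpr h2.symm

/-- Complex conjugation over the rational numbers. -/
def Deg_conj : ℂ ≃ₐ[ℚ] ℂ := Complex.conjAe.restrictScalars ℚ

theorem real_index (K : IntermediateField ℚ ℂ) (hKf : FiniteDimensional ℚ K) (hK : IsGalois ℚ K)
    (hr : ¬ K ≤ Rfld) :
    Module.finrank ℚ K = 2 * Module.finrank ℚ ↥(K ⊓ Rfld) := by
  rw [Deg_galIff] at hK
  exact Deg_aux4 K Rfld Deg_conj (fun z => Complex.conj_conj z) (fun z => mem_Rfld z) hr

end Pool.Agent.T10
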