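import Pool.Agent.W_b4801b_t10.SplInt
import Pool.Agent.W_b4801b_t10.Deg

/-! Densities of the sets `EE K`. -/

set_option autoImplicit false

noncomputable section

namespace Pool.Agent.T10

/-- `K` is a Galois number field in `ℂ`, not real, with central complex conjugation. -/
structure CMField' (K : IntermediateField ℚ ℂ) : Prop where
  fd : FiniteDimensional ℚ K
  gal : IsGalois ℚ K
  cc : ConjCentral K
  nr : ¬ K ≤ Rfld

private theorem EDens_fd_inf (K L : IntermediateField ℚ ℂ) (hK : FiniteDimensional ℚ K) :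
    FiniteDimensional ℚ ↥(K ⊓ L) :=
  FiniteDimensional.of_injective (IntermediateField.inclusion (inf_le_left : K ⊓ L ≤ K)).toLinearMap
    (IntermediateField.inclusion (inf_le_left : K ⊓ L ≤ K)).injective

private theorem EDens_pos (K : IntermediateField ℚ ℂ) (hK : FiniteDimensional ℚ K) :
    (0 : ℝ) < Module.finrank ℚ K := by
  have h : 0 < Module.finrank ℚ K := Module.finrank_pos
  exact_mod_cast h

/-- Proof. `EE K = Spl K⁺ \ Spl K`, `HasDens.diff`, `spl_dens`, `Spl_anti`, and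
`1 / [K⁺ : ℚ] - 1 / [K : ℚ] = 1 / [K : ℚ]` by `real_index`. -/
theorem EE_dens (K : IntermediateField ℚ ℂ) (hK : CMField' K) :
    HasDens (EE K) (1 / Module.finrank ℚ K) := by
  have hfd := EDens_fd_inf K Rfld hK.fd
  have hg := real_galois K hK.fd hK.gal hK.cc
  have h1 := (spl_dens (K ⊓ Rfld) hfd hg).diff (spl_dens K hK.fd hK.gal) (Spl_anti inf_le_left)
  have h2 := real_index K hK.fd hK.gal hK.nr
  have h3 := EDens_pos _ hfd
  have h4 : (Module.finrank ℚ K : ℝ) = 2 * Module.finrank ℚ ↥(K ⊓ Rfld) := by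
    exact_mod_cast h2
  have h5 : (1 / Module.finrank ℚ ↥(K ⊓ Rfld) - 1 / Module.finrank ℚ K : ℝ) =
      1 / Module.finrank ℚ K := by
    rw [h4]
    field_simp
    norm_num
  rw [h5] at h1
  exact h1

private theorem EDens_inter (K L : IntermediateField ℚ ℂ) (hKf : FiniteDimensional ℚ K)
    (hLf : FiniteDimensional ℚ L) (hK : IsGalois ℚ K) (hL : IsGalois ℚ L) :
    HasDens (Spl ↥K ∩ Spl ↥L) ((Module.finrank ℚ ↥(K ⊓ L) : ℝ) /
      (Module.finrank ℚ K * Module.finrank ℚ L)) := by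
  rw [← Spl_sup K L hKf hLf hK hL]
  have hs := sup_fd K L hKf hLf
  have h1 := spl_dens (K ⊔ L) hs (sup_galois K L hK hL)
  have h2 := finrank_sup_mul_inf K L hKf hLf hK hL
  have h3 : (Module.finrank ℚ ↥(K ⊔ L) : ℝ) * Module.finrank ℚ ↥(K ⊓ L) =
      Module.finrank ℚ K * Module.finrank ℚ L := by exact_mod_cast h2
  have h4 := EDens_pos _ hs
  have h5 := EDens_pos _ hKf
  have h6 := EDens_pos _ hLf
  have h7 := EDens_pos _ (EDens_fd_inf K L hKf)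
  have h8 : (1 / Module.finrank ℚ ↥(K ⊔ L) : ℝ) = (Module.finrank ℚ ↥(K ⊓ L) : ℝ) /
      (Module.finrank ℚ K * Module.finrank ℚ L) := by
    rw [← h3]
    field_simp
  rw [h8] at h1
  exact h1

/-- Proof. `HasDens.inter_diff` with `A₁ = Spl K⁺`, `B₁ = Spl K`, `A₂ = Spl L⁺`, `B₂ = Spl L`; the
intersections are `Spl (K⁺ ⊔ L⁺)` etc. (`Spl_sup`) with densities `1 / [K⁺ ⊔ L⁺ : ℚ]` etc. (`spl_dens`),
and by `finrank_sup_mul_inf` `1 / [A ⊔ B : ℚ] = [A ⊓ B : ℚ] / ([A : ℚ] [B : ℚ])`. With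
`l = [K ⊓ L : ℚ]`, `l⁺ = [K ⊓ L ⊓ ℝ : ℚ]`, `a = [K : ℚ] = 2 [K⁺ : ℚ]`, `b = [L : ℚ] = 2 [L⁺ : ℚ]`
(`real_index`), and `K⁺ ⊓ L⁺ = K⁺ ⊓ L = K ⊓ L⁺ = K ⊓ L ⊓ ℝ` the sum is
`(4 l⁺ - 2 l⁺ - 2 l⁺ + l) / (a b) = l / (a b)`. -/
theorem EE_inter_dens (K L : IntermediateField ℚ ℂ) (hK : CMField' K) (hL : CMField' L) :
    HasDens (EE K ∩ EE L) ((Module.finrank ℚ ↥(K ⊓ L) : ℝ) /
      (Module.finrank ℚ K * Module.finrank ℚ L)) := by
  have fK := EDens_fd_inf K Rfld hK.fd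
  have fL := EDens_fd_inf L Rfld hL.fd
  have gK := real_galois K hK.fd hK.gal hK.cc
  have gL := real_galois L hL.fd hL.gal hL.cc
  have h1 := EDens_inter (K ⊓ Rfld) (L ⊓ Rfld) fK fL gK gL
  have h2 := EDens_inter (K ⊓ Rfld) L fK hL.fd gK hL.gal
  have h3 := EDens_inter K (L ⊓ Rfld) hK.fd fL hK.gal gL
  have h4 := EDens_inter K L hK.fd hL.fd hK.gal hL.gal
  have e1 : K ⊓ Rfld ⊓ (L ⊓ Rfld) = K ⊓ L ⊓ Rfld := by
    rw [inf_inf_inf_comm, inf_idem]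
  have e2 : K ⊓ Rfld ⊓ L = K ⊓ L ⊓ Rfld := inf_right_comm _ _ _
  have e3 : K ⊓ (L ⊓ Rfld) = K ⊓ L ⊓ Rfld := (inf_assoc _ _ _).symm
  rw [e1] at h1
  rw [e2] at h2
  rw [e3] at h3
  have h5 := HasDens.inter_diff (Spl_anti (inf_le_left : K ⊓ Rfld ≤ K))
    (Spl_anti (inf_le_left : L ⊓ Rfld ≤ L)) h1 h2 h3 h4
  have pK := EDens_pos _ fK
  have pL := EDens_pos _ fL
  have rK : (Module.finrank ℚ K : ℝ) = 2 * Module.finrank ℚ ↥(K ⊓ Rfld) := by
    exact_mod_cast real_index K hK.fd hK.gal hK.nr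
  have rL : (Module.finrank ℚ L : ℝ) = 2 * Module.finrank ℚ ↥(L ⊓ Rfld) := by
    exact_mod_cast real_index L hL.fd hL.gal hL.nr
  have h6 : (Module.finrank ℚ ↥(K ⊓ L ⊓ Rfld) : ℝ) /
        (Module.finrank ℚ ↥(K ⊓ Rfld) * Module.finrank ℚ ↥(L ⊓ Rfld)) -
      (Module.finrank ℚ ↥(K ⊓ L ⊓ Rfld) : ℝ) /
        (Module.finrank ℚ ↥(K ⊓ Rfld) * Module.finrank ℚ L) -
      (Module.finrank ℚ ↥(K ⊓ L ⊓ Rfld) : ℝ) /
        (Module.finrank ℚ K * Module.finrank ℚ ↥(L ⊓ Rfld)) +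
      (Module.finrank ℚ ↥(K ⊓ L) : ℝ) / (Module.finrank ℚ K * Module.finrank ℚ L) =
      (Module.finrank ℚ ↥(K ⊓ L) : ℝ) / (Module.finrank ℚ K * Module.finrank ℚ L) := by
    rw [rK, rL]
    field_simp
    ring
  rw [h6] at h5
  exact h5

end Pool.Agent.T10
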