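import Pool.Agent.W_b4801b_t10.FrobField
import Pool.Agent.W_b4801b_t10.EDens
import Pool.Agent.W_f569db_h62.NTH

/-! The primes in `EE (frobField P)` are dual primes. -/

set_option autoImplicit false

noncomputable section

open Polynomial

namespace Pool.Agent.T10

open Pool.Agent.B4801b Pool.Agent.H62D

/-- Proof. `K = frobField P`, `c₀ : K ≃ₐ[ℚ] K` complex conjugation (`K` is normal), `c₀ ≠ 1` as `K` is not
real, `c₀ (c₀ x) = x`. The fixed field of `⟨c₀⟩` is `K ⊓ Rfld`, so an embedding `K⁺ → ℚ_ℓ` gives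
`τ₀ : fixedField (zpowers c₀) →+* ℚ_[ℓ]`. By `good_or_extends` and `ℓ ∉ Spl K`, `(K, c₀)` is `Good` at
`ℓ`: `σ (τ x) = τ (c₀ x)`. Let `g` be an irreducible factor over `ℚ_ℓ` of `P` and
`α ∈ AlgebraicClosure ℚ_[ℓ]` a root of `g`. `α = τ x` for a root `x` of `P` in `K` (`P` splits in `K`),
`c₀ x = c / x` because `|x|² = c` in `ℂ`, so `σ α = τ (c / x) = c / α`, and `σ α` is a root of `g` (`g` has
coefficients in `ℚ_ℓ`). (Compare `not_summable_dualPrimes` in `W_MP_b4801b_h67/Lam.lean`.) -/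
theorem EE_subset_dual (P : ℚ[X]) (hP : P ≠ 0) (c : ℚ) (hc : 0 < c)
    (hpure : ∀ z : ℂ, aeval z P = 0 → ‖z‖ ^ 2 = (c : ℝ)) (hr : ¬ frobField P ≤ Rfld) (ℓ : ℕ)
    (hℓ : ℓ ∈ EE (frobField P)) : ℓ ∈ dualPrimes P c := by
  classical
  haveI : FiniteDimensional ℚ (frobField P) := frobField_fd P
  haveI : IsGalois ℚ (frobField P) := frobField_galois P
  haveI : NumberField (frobField P) := { to_charZero := inferInstance, to_finiteDimensional := inferInstance }
  haveI : Normal ℚ (frobField P) := IsGalois.to_normal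
  have hspl : (P.map (algebraMap ℚ (frobField P))).Splits := (frobField_splitting P).splits'
  -- complex conjugation
  let conj : ℂ ≃ₐ[ℚ] ℂ := Complex.conjAe.restrictScalars ℚ
  have hconj : ∀ z : ℂ, conj z = starRingEnd ℂ z := fun z => rfl
  let c₀ : frobField P ≃ₐ[ℚ] frobField P := conj.restrictNormal (frobField P)
  have hc₀ : ∀ x : frobField P, ((c₀ x : frobField P) : ℂ) = starRingEnd ℂ (x : ℂ) := fun x =>
    AlgEquiv.restrictNormal_commutes conj (frobField P) x
  have hc2 : ∀ x, c₀ (c₀ x) = x := by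
    intro x
    apply Subtype.ext
    rw [hc₀, hc₀, Complex.conj_conj]
  have hc1 : c₀ ≠ 1 := by
    intro h
    apply hr
    intro z hz
    have h1 : starRingEnd ℂ z = z := by
      have := hc₀ ⟨z, hz⟩
      rw [h] at this
      exact this.symm
    rw [Complex.conj_eq_iff_real] at h1
    obtain ⟨r, hr⟩ := h1
    exact ⟨r, hr.symm⟩
  obtain ⟨⟨hprime, ⟨φ⟩⟩, hnot⟩ := hℓ
  haveI : Fact ℓ.Prime := ⟨hprime⟩
  -- the fixed field
  have hfixmem : ∀ x : IntermediateField.fixedField (Subgroup.zpowers c₀),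
      (((x : frobField P)) : ℂ) ∈ frobField P ⊓ Rfld := by
    intro x
    have h1 : c₀ (x : frobField P) = x :=
      (IntermediateField.mem_fixedField_iff _ _).mp x.2 c₀ (Subgroup.mem_zpowers c₀)
    refine ⟨(x : frobField P).2, ?_⟩
    have h2 := hc₀ (x : frobField P)
    rw [h1] at h2
    obtain ⟨r, hr⟩ := Complex.conj_eq_iff_real.mp h2.symm
    exact ⟨r, hr.symm⟩
  let τ₀ : IntermediateField.fixedField (Subgroup.zpowers c₀) →+* ℚ_[ℓ] :=
    φ.comp
      { toFun := fun x => ⟨(((x : frobField P)) : ℂ), hfixmem x⟩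
        map_one' := rfl
        map_mul' := fun _ _ => rfl
        map_zero' := rfl
        map_add' := fun _ _ => rfl }
  have hgood : Good (frobField P) c₀ ℓ := by
    rcases good_or_extends (frobField P) c₀ hc1 hc2 ℓ τ₀ with h | ⟨τ, -⟩
    · exact h
    · exact absurd ⟨hprime, ⟨τ⟩⟩ hnot
  obtain ⟨τ, σ, hσ⟩ := hgood
  refine ⟨hprime, ?_⟩
  intro g hg hgP α hα
  have hαP : aeval α P = 0 := by
    have h1 : aeval α (P.map (algebraMap ℚ ℚ_[ℓ])) = 0 := by
      obtain ⟨R, hR⟩ := hgP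
      rw [hR, map_mul, hα, zero_mul]
    rwa [aeval_map_algebraMap] at h1
  -- `α = τ x`
  obtain ⟨x, hx, hxα⟩ : ∃ x : frobField P, aeval x P = 0 ∧ τ x = α := by
    have h2 := hspl.roots_map τ
    have h3 : α ∈ ((P.map (algebraMap ℚ (frobField P))).map τ).roots := by
      rw [Polynomial.mem_roots, Polynomial.IsRoot.def, Polynomial.map_map, Polynomial.eval_map,
        ← hαP, Polynomial.aeval_def]
      · congr 1
        exact Subsingleton.elim _ _
      · exact (Polynomial.map_ne_zero_iff τ.injective).mpr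
          ((Polynomial.map_ne_zero_iff (algebraMap ℚ (frobField P)).injective).mpr hP)
    rw [h2, Multiset.mem_map] at h3
    obtain ⟨x, hx, hxα⟩ := h3
    refine ⟨x, ?_, hxα⟩
    have h4 := Polynomial.isRoot_of_mem_roots hx
    rwa [Polynomial.IsRoot.def, Polynomial.eval_map, ← Polynomial.aeval_def] at h4
  have hxC : aeval ((x : frobField P) : ℂ) P = 0 := by
    have h5 := congrArg (algebraMap (frobField P) ℂ) hx
    rw [map_zero, ← Polynomial.aeval_algebraMap_apply] at h5
    exact h5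
  have hxn := hpure _ hxC
  have hc' : (0 : ℝ) < c := by exact_mod_cast hc
  have hx0 : ((x : frobField P) : ℂ) ≠ 0 := by
    intro h
    rw [h, norm_zero] at hxn
    simp at hxn
    linarith
  have hx0' : x ≠ 0 := by
    rintro rfl
    exact hx0 rfl
  have hmul : x * c₀ x = algebraMap ℚ (frobField P) c := by
    apply Subtype.ext
    have h6 : ((x : frobField P) : ℂ) * starRingEnd ℂ ((x : frobField P) : ℂ) = (c : ℂ) := by
      rw [Complex.mul_conj, Complex.normSq_eq_norm_sq, hxn]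
      simp
    have h7 : ((x * c₀ x : frobField P) : ℂ) = ((x : frobField P) : ℂ) * ((c₀ x : frobField P) : ℂ) :=
      rfl
    rw [h7, hc₀, h6]
    simp
  have hα0 : α ≠ 0 := by
    rw [← hxα]
    exact (map_ne_zero τ).mpr hx0'
  have hσα : σ α = algebraMap ℚ (AlgebraicClosure ℚ_[ℓ]) c / α := by
    rw [eq_div_iff hα0, ← hxα, hσ, ← map_mul, mul_comm, hmul]
    simp
  rw [← IsScalarTower.algebraMap_apply, ← hσα]
  have := Polynomial.aeval_algHom_apply (σ : AlgebraicClosure ℚ_[ℓ] →ₐ[ℚ_[ℓ]] AlgebraicClosure ℚ_[ℓ]) α g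
  rw [hα, map_zero] at this
  exact this

end Pool.Agent.T10
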