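import Pool.Agent.W_b4801b_t10.CS
import Pool.Agent.W_b4801b_t10.EDens

/-! Families of fields with constant pairwise intersection. -/

set_option autoImplicit false

noncomputable section

open Filter Topology

namespace Pool.Agent.T10

/-- Proof. `l = [E : ℚ] ≥ 1` (`E ≤ M 0` is finite over `ℚ`). For `m : ℕ` apply `second_moment` to
`A i = EE (M i)`, `a i = 1 / [M i : ℚ] ≥ 1 / D`, `i < m`: by `EE_dens` and `EE_inter_dens` the densities are
`a i` and `l a i a j`. So `⋃_{i < m} EE (M i)` has lower density at least `P / (1 + l P)` with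
`P ≥ m / D`, which tends to `1 / l` for `m → ∞`: given `ε`, choose `m` with
`P / (1 + l P) ≥ 1 / l - ε / 2`. The union is contained in `A` up to a finite set:
`LowerDensityGE.mono`. -/
theorem density_family (E : IntermediateField ℚ ℂ) (D : ℕ) (M : ℕ → IntermediateField ℚ ℂ)
    (hM : ∀ i, CMField' (M i)) (hD : ∀ i, Module.finrank ℚ (M i) ≤ D)
    (hE : ∀ i j, i ≠ j → M i ⊓ M j = E) (A : Set ℕ)
    (hA : ∀ i, ∃ T : Finset ℕ, ∀ ℓ ∈ EE (M i), ℓ ∉ T → ℓ ∈ A) :
    LowerDensityGE A (1 / Module.finrank ℚ E) := by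
  classical
  have hEM : E ≤ M 0 := by
    rw [← hE 0 1 (by norm_num)]
    exact inf_le_left
  have hfd := fun i => (hM i).fd
  have : FiniteDimensional ℚ E :=
    FiniteDimensional.of_injective (IntermediateField.inclusion hEM).toLinearMap
      (IntermediateField.inclusion hEM).injective
  have hl : 0 < Module.finrank ℚ E := Module.finrank_pos
  have hMpos : ∀ i, 0 < Module.finrank ℚ (M i) := fun i => Module.finrank_pos
  have hDpos : 0 < D := lt_of_lt_of_le (hMpos 0) (hD 0)
  set l : ℝ := (Module.finrank ℚ E : ℝ) with hldef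
  have hl1 : (1 : ℝ) ≤ l := by
    rw [hldef]
    exact_mod_cast hl
  have hl0 : 0 < l := by linarith
  have hD0 : (0 : ℝ) < D := by exact_mod_cast hDpos
  choose T hT using hA
  -- the union
  have key : ∀ m : ℕ, LowerDensityGE A
      ((∑ i : Fin m, (1 : ℝ) / Module.finrank ℚ (M i)) /
        (1 + l * ∑ i : Fin m, (1 : ℝ) / Module.finrank ℚ (M i))) := by
    intro m
    have h2 := second_moment m (fun i : Fin m => EE (M i))
      (fun i : Fin m => (1 : ℝ) / Module.finrank ℚ (M i)) l hl0
      (fun i => by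
        have := hMpos i
        positivity) (fun i => EE_dens (M i) (hM i))
      (fun i j hij => by
        have h3 := EE_inter_dens (M i) (M j) (hM i) (hM j)
        rw [hE i j (fun h => hij (Fin.ext h))] at h3
        have h4 : (Module.finrank ℚ E : ℝ) / (Module.finrank ℚ (M i) * Module.finrank ℚ (M j))
            = l * (1 / Module.finrank ℚ (M i)) * (1 / Module.finrank ℚ (M j)) := by
          rw [hldef]
          field_simp
        rw [h4] at h3
        exact h3)
    refine LowerDensityGE.mono h2 (Finset.univ.biUnion fun i : Fin m => T i) ?_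
    intro ℓ hℓ hn
    obtain ⟨i, hi⟩ := Set.mem_iUnion.1 hℓ
    refine hT i ℓ hi ?_
    intro h
    exact hn (Finset.mem_biUnion.2 ⟨i, Finset.mem_univ _, h⟩)
  intro ε hε
  obtain ⟨m, hm⟩ := exists_nat_gt (2 * D / ε)
  have hm0 : (0 : ℝ) < m := lt_trans (by positivity) hm
  set P : ℝ := ∑ i : Fin m, (1 : ℝ) / Module.finrank ℚ (M i) with hP
  have hPge : (m : ℝ) / D ≤ P := by
    have h1 : ∑ i : Fin m, (1 : ℝ) / D ≤ P := by
      apply Finset.sum_le_sum
      intro i _
      have h2 : (0 : ℝ) < Module.finrank ℚ (M i) := by exact_mod_cast hMpos i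
      have h3 : (Module.finrank ℚ (M i) : ℝ) ≤ D := by exact_mod_cast hD i
      exact one_div_le_one_div_of_le h2 h3
    rw [Finset.sum_const, Finset.card_univ, Fintype.card_fin, nsmul_eq_mul] at h1
    calc (m : ℝ) / D = m * (1 / D) := by ring
      _ ≤ P := h1
  have hP0 : 0 < P := lt_of_lt_of_le (by positivity) hPge
  have hclose : 1 / l - ε / 2 ≤ P / (1 + l * P) := by
    have h1 : 1 / l - P / (1 + l * P) = 1 / (l * (1 + l * P)) := by
      field_simp
      ring
    have h2 : 1 / (l * (1 + l * P)) ≤ 1 / P := by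
      apply one_div_le_one_div_of_le hP0
      nlinarith [mul_nonneg (sub_nonneg.2 hl1) hP0.le]
    have h3 : 1 / P ≤ D / m := by
      rw [div_le_div_iff₀ hP0 hm0, one_mul]
      rw [div_le_iff₀ hD0] at hPge
      linarith
    have h4 : D / (m : ℝ) ≤ ε / 2 := by
      rw [div_le_div_iff₀ hm0 (by norm_num)]
      rw [div_lt_iff₀ hε] at hm
      linarith
    linarith
  have h5 := key m (ε / 2) (half_pos hε)
  filter_upwards [h5, log_tendsto.eventually_ge_atTop 0] with s hs1 hs2
  refine le_trans ?_ hs1
  apply mul_le_mul_of_nonneg_right _ hs2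
  rw [← hP]
  linarith

end Pool.Agent.T10
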