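import Pool.Agent.W_b4801b_t10.Seq
import Pool.Agent.W_b4801b_t10.Fam
import Pool.Agent.W_b4801b_t10.DualE
import Pool.Agent.W_MP_b4801b_h67.Main

/-! The density theorem. -/

set_option autoImplicit false

noncomputable section

open Polynomial

universe u v

namespace Pool.Agent.T10

open Pool.Agent.B4801b

variable {k : Type u} [Field k] {w : ℕ}

theorem Final_natDegree (S : CompSys.{u, v} k w) (x : Place k) (hx : x ∈ S.Pl) (ℓ : ℕ)
    [Fact ℓ.Prime] (hℓ : ℓ ≠ x.p) : Module.finrank ℚ_[ℓ] (S.rep ℓ).V = (S.P x).natDegree := by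
  have hchar : ((S.rep ℓ).ρ x.frob).charpoly = (S.P x).map (algebraMap ℚ ℚ_[ℓ]) :=
    S.charpoly_frob x hx ℓ hℓ
  rw [← LinearMap.charpoly_natDegree ((S.rep ℓ).ρ x.frob), hchar, Polynomial.natDegree_map]

theorem Final_ne_zero (S : CompSys.{u, v} k w) (x : Place k) (hx : x ∈ S.Pl) : S.P x ≠ 0 := by
  obtain ⟨ℓ, hℓp, hℓ⟩ : ∃ ℓ : ℕ, ℓ.Prime ∧ ℓ ≠ x.p := by
    by_cases h : x.p = 2
    · exact ⟨3, Nat.prime_three, by rw [h]; decide⟩
    · exact ⟨2, Nat.prime_two, fun h' => h h'.symm⟩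
  have : Fact ℓ.Prime := ⟨hℓp⟩
  intro h
  have hchar : ((S.rep ℓ).ρ x.frob).charpoly = (S.P x).map (algebraMap ℚ ℚ_[ℓ]) :=
    S.charpoly_frob x hx ℓ hℓ
  rw [h, Polynomial.map_zero] at hchar
  exact (LinearMap.charpoly_monic ((S.rep ℓ).ρ x.frob)).ne_zero hchar

/-- If `P` has at most one complex root and all complex roots have `‖z‖ ^ 2 = c`, then every root of
`P` in an extension of `ℚ` has square `c`. -/
theorem Final_sq_eq (P : ℚ[X]) (hP : P ≠ 0) (c : ℚ)
    (hpure : ∀ z : ℂ, aeval z P = 0 → ‖z‖ ^ 2 = (c : ℝ)) (h1 : (P.rootSet ℂ).ncard ≤ 1)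
    {L : Type*} [Field L] [Algebra ℚ L] (β : L) (hβ : aeval β P = 0) :
    β ^ 2 = algebraMap ℚ L c := by
  have halg : IsAlgebraic ℚ β := ⟨P, hP, hβ⟩
  have hint : IsIntegral ℚ β := halg.isIntegral
  obtain ⟨z, hz⟩ := IsAlgClosed.exists_aeval_eq_zero ℂ (minpoly ℚ β)
    (minpoly.degree_pos hint).ne'
  have hzP : aeval z P = 0 := by
    obtain ⟨q, hq⟩ := minpoly.dvd ℚ β hβ
    rw [hq, map_mul, hz, zero_mul]
  have hzP' : aeval (starRingEnd ℂ z) P = 0 := by
    have h3 := Polynomial.hom_eval₂ P (algebraMap ℚ ℂ) (starRingEnd ℂ) z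
    rw [← Polynomial.aeval_def, hzP, map_zero] at h3
    rw [Polynomial.aeval_def]
    have h4 : (starRingEnd ℂ).comp (algebraMap ℚ ℂ) = algebraMap ℚ ℂ := Subsingleton.elim _ _
    rw [h4] at h3
    exact h3.symm
  have hmem : z ∈ P.rootSet ℂ := (Polynomial.mem_rootSet).2 ⟨hP, hzP⟩
  have hmem' : starRingEnd ℂ z ∈ P.rootSet ℂ := (Polynomial.mem_rootSet).2 ⟨hP, hzP'⟩
  have hconj : starRingEnd ℂ z = z :=
    (Set.ncard_le_one (Polynomial.rootSet_finite P ℂ)).1 h1 _ hmem' _ hmem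
  have hz2 : z ^ 2 = (c : ℂ) := by
    have h5 := hpure z hzP
    have h6 : z * starRingEnd ℂ z = ((‖z‖ ^ 2 : ℝ) : ℂ) := by
      rw [Complex.mul_conj, Complex.normSq_eq_norm_sq]
    rw [hconj, h5] at h6
    rw [pow_two, h6]
    push_cast
    rfl
  have hmin : minpoly ℚ β = minpoly ℚ z :=
    minpoly.eq_of_irreducible_of_monic (minpoly.irreducible hint) hz (minpoly.monic hint)
  have hdvd : minpoly ℚ β ∣ (X ^ 2 - C c : ℚ[X]) := by
    rw [hmin]
    refine minpoly.dvd ℚ z ?_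
    rw [map_sub, map_pow, aeval_X, aeval_C, hz2]
    simp
  obtain ⟨q, hq⟩ := hdvd
  have h7 : aeval β (X ^ 2 - C c : ℚ[X]) = 0 := by
    rw [hq, map_mul, minpoly.aeval, zero_mul]
  rw [map_sub, map_pow, aeval_X, aeval_C] at h7
  exact sub_eq_zero.1 h7

/-- The argument of `W_MP_b4801b_h67`: see the proof of `OneFrobenius.result`
(`isSemisimpleRep_of_selfDual`). -/
theorem semisimple_of_dual (S : CompSys.{u, v} k w) (x : Place k) (hx : x ∈ S.Pl) (ℓ : ℕ)
    [Fact ℓ.Prime] (hℓ : ℓ ≠ x.p) (hd : ℓ ∈ S.dualPrimes x)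
    (hs : (S.P x).Separable ∨ (S.rep ℓ).IrredAt x.frob) : (S.rep ℓ).Semisimple := by
  have hq0 : x.q ≠ 0 := by
    intro h0
    have := x.cyc_frob ℓ hℓ
    rw [h0, Nat.cast_zero, mul_zero] at this
    exact zero_ne_one this
  have hchar : ((S.rep ℓ).ρ x.frob).charpoly = (S.P x).map (algebraMap ℚ ℚ_[ℓ]) :=
    S.charpoly_frob x hx ℓ hℓ
  obtain ⟨_, hdual⟩ := hd
  have hqc : ((x.q : ℚ_[ℓ]) ^ w) ≠ 0 := pow_ne_zero _ (Nat.cast_ne_zero.mpr hq0)
  have hφc : ∀ a b, (S.rep ℓ).ψ ((S.rep ℓ).ρ x.frob a) ((S.rep ℓ).ρ x.frob b) =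
      (x.q : ℚ_[ℓ]) ^ w * (S.rep ℓ).ψ a b := by
    intro a b
    rw [← (S.rep ℓ).equivariant x.frob a b, ← mul_assoc, ← mul_pow, mul_comm (x.q : ℚ_[ℓ]),
      x.cyc_frob ℓ hℓ, one_pow, one_mul]
  have hdual' : ∀ g : ℚ_[ℓ][X], Irreducible g → g ∣ ((S.rep ℓ).ρ x.frob).charpoly →
      SelfDualPoly ((x.q : ℚ_[ℓ]) ^ w) g := by
    intro g hg hd
    rw [hchar] at hd
    have := hdual g hg hd
    rwa [map_pow, map_natCast] at this
  rcases hs with hsep | ⟨C, hγ, hirr⟩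
  · refine isSemisimpleRep_of_selfDual (S.rep ℓ).ρ (S.rep ℓ).ψ (S.rep ℓ).nondeg
      (fun σ => cyc k ℓ σ ^ w) (S.rep ℓ).equivariant ⊤ inferInstance ∅ (by simp [CommutesWith])
      (by simp [AdjointClosed]) x.frob (Subgroup.mem_top _) _ hqc hφc hdual' ?_
    intro g hg U hU _ hUg
    refine irred_of_squarefree _ ?_ g hg U hU hUg
    rw [hchar]
    exact (hsep.map).squarefree
  · exact isSemisimpleRep_of_selfDual (S.rep ℓ).ρ (S.rep ℓ).ψ (S.rep ℓ).nondeg
      (fun σ => cyc k ℓ σ ^ w) (S.rep ℓ).equivariant C.Γ C.finiteIndex C.E C.comm C.adj x.frob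
      hγ _ hqc hφc hdual' hirr

/-- The set of all primes has density one. Proof. `spl_dens ⊥`. -/
theorem dens_primes : HasDens {ℓ : ℕ | ℓ.Prime} 1 := by
  have h1 : Spl ↥(⊥ : IntermediateField ℚ ℂ) = {ℓ : ℕ | ℓ.Prime} := by
    ext ℓ
    constructor
    · rintro ⟨h, _⟩
      exact h
    · intro h
      have : Fact ℓ.Prime := ⟨h⟩
      exact ⟨h, ⟨(algebraMap ℚ ℚ_[ℓ]).comp
        (IntermediateField.botEquiv ℚ ℂ).toAlgHom.toRingHom⟩⟩
  have hgal : IsGalois ℚ ↥(⊥ : IntermediateField ℚ ℂ) :=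
    IsGalois.of_algEquiv (IntermediateField.botEquiv ℚ ℂ).symm
  have h2 := spl_dens ⊥ inferInstance hgal
  rw [h1, IntermediateField.finrank_bot, Nat.cast_one, div_one] at h2
  exact h2

/-- The degrees of the Frobenius polynomials are bounded (they are the dimension of `V_2`, or of
`V_3` if `p_x = 2`). -/
theorem degree_bound (S : CompSys.{u, v} k w) : ∃ D : ℕ, ∀ x ∈ S.Pl, (S.P x).natDegree ≤ D := by
  have h2 : Fact (Nat.Prime 2) := ⟨Nat.prime_two⟩
  have h3 : Fact (Nat.Prime 3) := ⟨Nat.prime_three⟩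
  refine ⟨Module.finrank ℚ_[2] (S.rep 2).V + Module.finrank ℚ_[3] (S.rep 3).V, fun x hx => ?_⟩
  by_cases h : x.p = 2
  · have := Final_natDegree S x hx 3 (by rw [h]; decide)
    omega
  · have := Final_natDegree S x hx 2 (fun h' => h h'.symm)
    omega

/-- `q_x > 0` (from `χ_ℓ(frob) q = 1`). -/
theorem q_pos (x : Place k) : 0 < x.q := by
  obtain ⟨ℓ, hℓp, hℓ⟩ : ∃ ℓ : ℕ, ℓ.Prime ∧ ℓ ≠ x.p := by
    by_cases h : x.p = 2
    · exact ⟨3, Nat.prime_three, by rw [h]; decide⟩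
    · exact ⟨2, Nat.prime_two, fun h' => h h'.symm⟩
  have : Fact ℓ.Prime := ⟨hℓp⟩
  rcases Nat.eq_zero_or_pos x.q with h0 | h0
  · exfalso
    have := x.cyc_frob ℓ hℓ
    rw [h0, Nat.cast_zero, mul_zero] at this
    exact zero_ne_one this
  · exact h0

/-- The density theorem.

Proof. Case `D ≤ 1`: for a neat `x` the polynomial `P_x` has at most one root `α` in `ℂ`, so in every
algebraic closure (`ncard_rootSet_eq`); it is rational up to ... (`P_x` is a power of `X - α`, `α ∈ ℚ`), and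
`α ^ 2 = q ^ w` by purity, so `q ^ w / α = α` and every prime `ℓ ≠ p_x` lies in `conjPrimes`; `dens_primes`
(with `1 / [common : ℚ] ≤ 1`) gives the claim.
Case `D ≥ 2`: take the sequence `x_i` of `exists_seq`, `M i = frobField (S.P (x i))`, and apply
`density_family` with `E = common S D`, `D' = (max degree)!`, `A = conjPrimes S D`: `M i` is a
`CMField'` by `frobField_fd`, `frobField_galois`, `frobField_conj`, `frobField_nonreal`
(`c = q ^ w`, `S.pure`), and for `ℓ ∈ EE (M i)`, `ℓ ≠ p_{x_i}`, `ℓ ∈ conjPrimes S D` by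
`EE_subset_dual`. -/
theorem density_theorem (S : CompSys.{u, v} k w) (hd : DenseFrob S) (D : ℕ) (hm : MaxRoots S D)
    (hx : ∃ x, Neat S D x) :
    0 < Module.finrank ℚ (common S D) ∧
      LowerDensityGE (conjPrimes S D) (1 / Module.finrank ℚ (common S D)) := by
  have hfd := common_fd S D hx
  have hpos : 0 < Module.finrank ℚ (common S D) := Module.finrank_pos
  refine ⟨hpos, ?_⟩
  have hcx : ∀ x : Place k, (0 : ℚ) < (x.q : ℚ) ^ w := fun x =>
    pow_pos (Nat.cast_pos.mpr (q_pos x)) w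
  have hpx : ∀ x ∈ S.Pl, ∀ z : ℂ, aeval z (S.P x) = 0 →
      ‖z‖ ^ 2 = (((x.q : ℚ) ^ w : ℚ) : ℝ) := by
    intro x hx z hz
    rw [S.pure x hx z hz]
    push_cast
    rfl
  rcases Nat.lt_or_ge D 2 with hD1 | hD2
  · obtain ⟨x, hxn⟩ := hx
    have h1 : LowerDensityGE (conjPrimes S D) 1 := by
      refine dens_primes.lower.mono {x.p} ?_
      intro ℓ hℓ hℓT
      have hℓ' : ℓ.Prime := hℓ
      have hℓx : ℓ ≠ x.p := by simpa using hℓT
      have : Fact ℓ.Prime := ⟨hℓ'⟩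
      refine ⟨hℓ', x, hxn, fun h => hℓx h.symm, hℓ', ?_⟩
      intro g hg hgP α hα
      have hαP : aeval α (S.P x) = 0 := by
        obtain ⟨g', hg'⟩ := hgP
        have h2 : aeval α ((S.P x).map (algebraMap ℚ ℚ_[ℓ])) = 0 := by
          rw [hg', map_mul, hα, zero_mul]
        rwa [Polynomial.aeval_map_algebraMap] at h2
      have h3 : α ^ 2 = algebraMap ℚ (AlgebraicClosure ℚ_[ℓ]) ((x.q : ℚ) ^ w) :=
        Final_sq_eq (S.P x) hxn.2.1 _ (hpx x hxn.1) (by rw [hxn.2.2.1]; omega) α hαP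
      rw [IsScalarTower.algebraMap_apply ℚ ℚ_[ℓ] (AlgebraicClosure ℚ_[ℓ])] at h3
      rw [← h3]
      have hα0 : α ≠ 0 := by
        intro h0
        rw [h0, zero_pow two_ne_zero] at h3
        exact (hcx x).ne' ((map_eq_zero _).1 ((map_eq_zero _).1 h3.symm))
      rw [pow_two, mul_div_assoc, div_self hα0, mul_one]
      exact hα
    intro ε hε
    filter_upwards [h1 ε hε, log_tendsto.eventually_ge_atTop 0] with s hs hs0
    refine le_trans (mul_le_mul_of_nonneg_right ?_ hs0) hs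
    have h2 : (1 : ℝ) / Module.finrank ℚ (common S D) ≤ 1 := by
      rw [div_le_one (by exact_mod_cast hpos)]
      exact_mod_cast hpos
    linarith
  · obtain ⟨x, hxn, hxE⟩ := exists_seq S hd D hm hx
    obtain ⟨B, hB⟩ := degree_bound S
    have hnr : ∀ i, ¬ frobField (S.P (x i)) ≤ Rfld := fun i =>
      frobField_nonreal (S.P (x i)) _ (hcx (x i)) (hpx (x i) (hxn i).1) D hD2 (hxn i).2
    refine density_family (common S D) B.factorial (fun i => frobField (S.P (x i))) (fun i => ?_)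
      (fun i => ?_) hxE (conjPrimes S D) (fun i => ?_)
    · exact ⟨frobField_fd _, frobField_galois _,
        frobField_conj _ (hxn i).2.1 _ (hcx (x i)) (hpx (x i) (hxn i).1), hnr i⟩
    · exact (frobField_finrank_le _).trans (Nat.factorial_le (hB (x i) (hxn i).1))
    · refine ⟨{(x i).p}, fun ℓ hℓ hℓT => ?_⟩
      have h1 : ℓ ∈ S.dualPrimes (x i) :=
        EE_subset_dual (S.P (x i)) (hxn i).2.1 _ (hcx (x i)) (hpx (x i) (hxn i).1) (hnr i)
          ℓ hℓ
      have h2 : ℓ ≠ (x i).p := by simpa using hℓT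
      exact ⟨h1.choose, x i, hxn i, fun h => h2 h.symm, h1⟩

/-- Proof. If `D` is the degree of `P_x` for one neat `x` then `D = dim V_ℓ` for all `ℓ ≠ p_x`, so for
`ℓ ∈ conjPrimes S D` (up to one prime) the polynomial `P_z` of the neat place `z` has `D = deg P_z` distinct
roots, so it is separable, and `semisimple_of_dual` applies. -/
theorem semisimple_density (S : CompSys.{u, v} k w) (hd : DenseFrob S) (D : ℕ)
    (hx : ∃ x, Neat S D x ∧ (S.P x).natDegree = D) :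
    0 < Module.finrank ℚ (common S D) ∧
      LowerDensityGE (semisimplePrimes S) (1 / Module.finrank ℚ (common S D)) := by
  obtain ⟨x, hxn, hxd⟩ := hx
  have hcard : ∀ y ∈ S.Pl, (S.P y).natDegree = D := by
    intro y hy
    obtain ⟨ℓ, hℓ, hℓp⟩ := Nat.exists_infinite_primes (x.p + y.p + 1)
    have : Fact ℓ.Prime := ⟨hℓp⟩
    rw [← Final_natDegree S y hy ℓ (by omega), Final_natDegree S x hxn.1 ℓ (by omega), hxd]
  have hm : MaxRoots S D := by
    refine ⟨⊤, isOpen_univ, fun y hy _ => ?_⟩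
    rw [← hcard y hy]
    have h1 := Polynomial.card_roots' ((S.P y).map (algebraMap ℚ ℂ))
    rw [Polynomial.natDegree_map] at h1
    refine le_trans ?_ h1
    rw [Polynomial.rootSet, Set.ncard_coe_finset]
    exact Multiset.toFinset_card_le _
  obtain ⟨hpos, hdens⟩ := density_theorem S hd D hm ⟨x, hxn⟩
  refine ⟨hpos, hdens.mono {x.p} ?_⟩
  rintro ℓ ⟨hℓ, z, hz, hzp, hzd⟩ _
  have : Fact ℓ.Prime := ⟨hℓ⟩
  have hsep : (S.P z).Separable := by
    have hfin := Polynomial.rootSet_finite (S.P z) ℂ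
    have h1 : Fintype.card ((S.P z).rootSet ℂ) = (S.P z).natDegree := by
      rw [hcard z hz.1, ← hz.2.2.1, Set.ncard_eq_toFinset_card', Set.toFinset_card]
    exact (Polynomial.card_rootSet_eq_natDegree_iff_of_splits hz.2.1
      (IsAlgClosed.splits _)).1 h1
  exact ⟨hℓ, semisimple_of_dual S z hz.1 ℓ (fun h => hzp h.symm) hzd (Or.inl hsep)⟩

end Pool.Agent.T10
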