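import Pool.Agent.W_b4801b_t10.Defs

/-! The splitting field of a polynomial. -/

set_option autoImplicit false

noncomputable section

open Polynomial

namespace Pool.Agent.T10

theorem frobField_splitting (P : ℚ[X]) : P.IsSplittingField ℚ (frobField P) :=
  IntermediateField.adjoin_rootSet_isSplittingField (IsAlgClosed.splits _)

theorem frobField_fd (P : ℚ[X]) : FiniteDimensional ℚ (frobField P) :=
  have := frobField_splitting P
  Polynomial.IsSplittingField.finiteDimensional (frobField P) P

theorem frobField_galois (P : ℚ[X]) : IsGalois ℚ (frobField P) := by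
  have := frobField_splitting P
  have : Normal ℚ (frobField P) := Normal.of_isSplittingField P
  exact ⟨⟩

theorem finrank_sf_le {F E : Type} [Field F] [CharZero F] [Field E] [Algebra F E]
    [IsAlgClosed E] (p : F[X]) :
    Module.finrank F p.SplittingField ≤ p.natDegree.factorial := by
  classical
  have hN : Normal F p.SplittingField := Normal.of_isSplittingField p
  have hG : IsGalois F p.SplittingField := ⟨⟩
  have h4 : Nat.card p.Gal = Module.finrank F p.SplittingField :=
    IsGalois.card_aut_eq_finrank F p.SplittingField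
  have : Fact ((p.map (algebraMap F E)).Splits) := ⟨IsAlgClosed.splits _⟩
  have h5 := Polynomial.Gal.galActionHom_injective p E
  have h6 : Nat.card p.Gal ≤ Nat.card (Equiv.Perm (p.rootSet E)) :=
    Nat.card_le_card_of_injective _ h5
  rw [← h4]
  refine h6.trans ?_
  rw [Nat.card_perm]
  refine Nat.factorial_le ?_
  rw [Nat.card_coe_set_eq]
  exact Polynomial.ncard_rootSet_le p E

theorem finrank_split_le {F L E : Type} [Field F] [CharZero F] [Field L] [Algebra F L]
    [Field E] [Algebra F E] [IsAlgClosed E] (p : F[X]) (h : p.IsSplittingField F L) :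
    Module.finrank F L ≤ p.natDegree.factorial := by
  rw [(Polynomial.IsSplittingField.algEquiv L p).toLinearEquiv.finrank_eq]
  exact finrank_sf_le (E := E) p

/-- Proof. The Galois group of a splitting field embeds in the permutations of the roots, or
`Polynomial.IsSplittingField` degree bound by induction. -/
theorem frobField_finrank_le (P : ℚ[X]) : Module.finrank ℚ (frobField P) ≤ P.natDegree.factorial :=
  finrank_split_le (E := ℂ) P (frobField_splitting P)

theorem mul_conj_of_root {z : ℂ} {c : ℝ} (h : ‖z‖ ^ 2 = c) : z * starRingEnd ℂ z = (c : ℂ) := by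
  rw [Complex.mul_conj, Complex.normSq_eq_norm_sq, h]

/-- Proof. Let `σ : K → ℂ`. The set of `z ∈ K = frobField P` such that `z̄ ∈ K` and `σ (z̄) = σ(z)‾` is a
subfield (`K` is normal so `z̄ ∈ K` always), and it contains the roots `α` of `P`: `ᾱ = c / α` and
`σ(ᾱ) = c / σ(α) = σ(α)‾`, because `σ(α)` is also a root, so `|σ(α)|² = c`. -/
theorem frobField_conj (P : ℚ[X]) (hP : P ≠ 0) (c : ℚ) (hc : 0 < c)
    (hpure : ∀ z : ℂ, aeval z P = 0 → ‖z‖ ^ 2 = (c : ℝ)) : ConjCentral (frobField P) := by
  intro σ z z' hz
  have h2 := frobField_galois P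
  set cc : ℂ ≃ₐ[ℚ] ℂ := Complex.conjAe.restrictScalars ℚ with hcc
  set σ' : frobField P →ₐ[ℚ] ℂ := σ.toRatAlgHom with hσ'
  have key : σ'.comp (cc.restrictNormal (frobField P) : frobField P →ₐ[ℚ] frobField P) =
      (cc : ℂ →ₐ[ℚ] ℂ).comp σ' := by
    refine IntermediateField.adjoin_algHom_ext _ ?_
    rintro x hx
    have hx0 : aeval x P = 0 := (Polynomial.mem_rootSet.1 hx).2
    set X : frobField P := ⟨x, IntermediateField.subset_adjoin _ _ hx⟩ with hX
    have hcC : ((c : ℝ) : ℂ) ≠ 0 := by
      norm_cast
      exact ne_of_gt hc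
    have h3 : x * starRingEnd ℂ x = ((c : ℝ) : ℂ) := mul_conj_of_root (hpure x hx0)
    have h4 : aeval (σ' X) P = 0 := by
      rw [Polynomial.aeval_algHom_apply]
      have h5 : aeval X P = 0 := by
        apply Subtype.val_injective
        have := Polynomial.aeval_algHom_apply (frobField P).val X P
        change (frobField P).val (aeval X P) = _
        rw [← this]
        exact hx0
      rw [h5, map_zero]
    have h5 : σ' X * starRingEnd ℂ (σ' X) = ((c : ℝ) : ℂ) := mul_conj_of_root (hpure _ h4)
    have h6 : X * (cc.restrictNormal (frobField P) X) = algebraMap ℚ (frobField P) c := by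
      apply Subtype.val_injective
      have := AlgEquiv.restrictNormal_commutes cc (frobField P) X
      change x * algebraMap (frobField P) ℂ (cc.restrictNormal (frobField P) X) = _
      rw [this]
      exact h3
    have h7 : σ' X * σ' (cc.restrictNormal (frobField P) X) = ((c : ℝ) : ℂ) := by
      rw [← map_mul, h6, AlgHom.commutes]
      simp
    have h8 : σ' X ≠ 0 := by
      intro h0
      rw [h0, zero_mul] at h5
      exact hcC h5.symm
    change σ' (cc.restrictNormal (frobField P) X) = starRingEnd ℂ (σ' X)
    exact mul_left_cancel₀ h8 (h7.trans h5.symm)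
  have h9 := AlgHom.congr_fun key z
  have h10 : cc.restrictNormal (frobField P) z = z' := by
    apply Subtype.val_injective
    have := AlgEquiv.restrictNormal_commutes cc (frobField P) z
    exact this.trans hz.symm
  change σ (cc.restrictNormal (frobField P) z) = starRingEnd ℂ (σ z) at h9
  rw [h10] at h9
  exact h9

/-- Proof. If all roots are real then they are `± √c`; there are at least two different roots, so they are
`√c` and `-√c`, and their squares agree. -/
theorem frobField_nonreal (P : ℚ[X]) (c : ℚ) (hc : 0 < c)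
    (hpure : ∀ z : ℂ, aeval z P = 0 → ‖z‖ ^ 2 = (c : ℝ)) (D : ℕ) (hD : 2 ≤ D) (hP : NeatPoly D P) :
    ¬ frobField P ≤ Rfld := by
  intro hle
  have h1 : 1 < (P.rootSet ℂ).ncard := by
    rw [hP.2.1]
    omega
  obtain ⟨a, b, ha, hb, hab⟩ := (Set.one_lt_ncard_iff (P.rootSet_finite ℂ)).1 h1
  have hsq : ∀ z ∈ P.rootSet ℂ, z ^ 2 = ((c : ℝ) : ℂ) := by
    intro z hz
    have h2 : z ∈ Rfld := hle (IntermediateField.subset_adjoin _ _ hz)
    obtain ⟨r, hr⟩ := h2
    have h3 := mul_conj_of_root (hpure z (Polynomial.mem_rootSet.1 hz).2)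
    have h4 : starRingEnd ℂ z = z := by
      rw [← hr]
      exact Complex.conj_ofReal r
    rw [h4] at h3
    rw [pow_two, h3]
  refine hP.2.2 a b (Polynomial.mem_rootSet.1 ha).2 (Polynomial.mem_rootSet.1 hb).2
    hab 2 (by norm_num) ?_
  rw [hsq a ha, hsq b hb]

end Pool.Agent.T10
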