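import Pool.Agent.W_b4801b_t10.Defs
import Pool.Agent.Chebotarev_h15.Final

/-! Chebotarev over the rational numbers, for sets of prime numbers. -/

set_option autoImplicit false

noncomputable section

open Polynomial NumberField Filter Topology

namespace Pool.Agent.T10

open Pool.Agent.B4801b

theorem LocC_card (P : IsDedekindDomain.HeightOneSpectrum (𝓞 ℚ)) :
    Nat.card (𝓞 ℚ ⧸ P.asIdeal) = Rat.HeightOneSpectrum.natGenerator P := by
  have h1 := Rat.HeightOneSpectrum.span_natGenerator P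
  rw [Nat.card_congr (Ideal.quotientEquiv P.asIdeal _
    (Rat.IsIntegralClosure.intEquiv (𝓞 ℚ)) h1).toEquiv]
  rw [Nat.card_congr (Int.quotientSpanNatEquivZMod _).toEquiv, Nat.card_zmod]

theorem LocC_norm (P : IsDedekindDomain.HeightOneSpectrum (𝓞 ℚ)) :
    Ideal.absNorm P.asIdeal = Rat.HeightOneSpectrum.natGenerator P := by
  rw [Ideal.absNorm_apply, Submodule.cardQuot_apply]
  exact LocC_card P

theorem LocC_inj (P P' : IsDedekindDomain.HeightOneSpectrum (𝓞 ℚ))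
    (h : Ideal.absNorm P.asIdeal = Ideal.absNorm P'.asIdeal) : P = P' := by
  rw [LocC_norm, LocC_norm] at h
  apply (Rat.HeightOneSpectrum.primesEquiv (R := 𝓞 ℚ)).injective
  exact Subtype.ext h

theorem LocC_tsum {α : Type} (N : α → ℕ) (S : Set α) (A : Set ℕ) (h : ∀ P ∈ S, N P ∈ A)
    (hi : Function.Injective N) {s : ℝ} (hs : 1 < s) :
    ∑' P, S.indicator (fun P => (N P : ℝ) ^ (-s)) P ≤ ∑' ℓ : A, ((ℓ : ℕ) : ℝ) ^ (-s) := by
  rw [← tsum_subtype S (fun P => (N P : ℝ) ^ (-s))]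
  have hA : Summable fun ℓ : A => ((ℓ : ℕ) : ℝ) ^ (-s) :=
    (Real.summable_nat_rpow.2 (by linarith)).subtype A
  have hinj : Function.Injective fun P : S => (⟨N P.1, h P.1 P.2⟩ : A) := by
    intro P P' hPP
    exact Subtype.ext (hi (congrArg Subtype.val hPP))
  have hf : Summable fun P : S => (N P.1 : ℝ) ^ (-s) := by
    have h1 := hA.comp_injective hinj
    simpa only [Function.comp_def] using h1
  exact Summable.tsum_le_tsum_of_inj (fun P : S => (⟨N P.1, h P.1 P.2⟩ : A)) hinj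
    (fun c _ => Real.rpow_nonneg (Nat.cast_nonneg _) _) (fun _ => le_rfl) hf hA

theorem LocC_psum (S : Set (IsDedekindDomain.HeightOneSpectrum (𝓞 ℚ))) (A : Set ℕ)
    (h : ∀ P ∈ S, Ideal.absNorm P.asIdeal ∈ A) {s : ℝ} (hs : 1 < s) :
    Pool.Agent.Cheb.psum S s ≤ dsum A s := by
  unfold Pool.Agent.Cheb.psum dsum
  exact LocC_tsum (fun P : IsDedekindDomain.HeightOneSpectrum (𝓞 ℚ) => Ideal.absNorm P.asIdeal)
    S A h (fun P P' hPP => LocC_inj P P' hPP) hs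

/-- Proof. `Pool.Agent.Cheb.lower_set ℚ K C hC` is a statement about the primes of `𝓞 ℚ`, which correspond to the prime
numbers (`Rat.ringOfIntegersEquiv`, `absNorm` = the prime number; every prime `P` of `𝓞 ℚ` has prime norm `ℓ`, and different
primes have different norms), and `psum S s ≤ dsum A s` if `absNorm` maps `S` injectively into `A`. `IsArithFrobAt (𝓞 ℚ) σ Q` means `σ x ≡ x ^ (card (𝓞 ℚ / P))`
modulo `Q`, the cardinality is `ℓ`, and `ℓ ∈ P` maps into `Q`. -/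
theorem LocC_low (K : Type) [Field K] [NumberField K] [IsGalois ℚ K] (C : Set (K ≃ₐ[ℚ] K))
    (hC : ∀ σ ∈ C, ∀ τ, τ * σ * τ⁻¹ ∈ C) :
    LowerDensityGE {ℓ : ℕ | ℓ.Prime ∧ ∃ σ ∈ C, ∃ Q : Ideal (𝓞 K), Q.IsPrime ∧ (ℓ : 𝓞 K) ∈ Q ∧
      ∀ x : 𝓞 K, σ • x - x ^ ℓ ∈ Q} (Nat.card C / Nat.card (K ≃ₐ[ℚ] K)) := by
  intro ε hε
  have h := Pool.Agent.Cheb.lower_set ℚ K C hC ε hε
  filter_upwards [h, self_mem_nhdsWithin] with s hs hs1
  refine hs.trans (LocC_psum _ _ ?_ hs1)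
  rintro P ⟨σ, hσ, Q, hQ, hQP, hF⟩
  have hc : Nat.card (𝓞 ℚ ⧸ Q.under (𝓞 ℚ)) = Ideal.absNorm P.asIdeal := by
    rw [hQP, LocC_card, LocC_norm]
  refine ⟨?_, σ, hσ, Q, hQ, ?_, ?_⟩
  · rw [LocC_norm]
    exact Rat.HeightOneSpectrum.prime_natGenerator P
  · have h1 : ((Ideal.absNorm P.asIdeal : ℕ) : 𝓞 ℚ) ∈ Q.under (𝓞 ℚ) := by
      rw [hQP]
      exact Ideal.absNorm_mem _
    have h2 := Ideal.mem_comap.1 h1
    rwa [map_natCast] at h2
  · intro x
    have h1 := hF x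
    rw [hc] at h1
    exact h1

end Pool.Agent.T10
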