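import Pool.Agent.W_b4801b_t10.MeanB

/-! Averages of signed permutations. -/

set_option autoImplicit false

noncomputable section

open Finset Matrix

namespace Pool.Agent.T10

section

variable {G R : Type*} [Group G] [Finite G] [Finite R] [MulAction G R] [DecidableEq R] {ι : R → R}
  {P : Finset R}

theorem det_one_sub (h : Reps (G := G) ι P) (c : G) (hc : ∀ r : R, c • r = ι r) (g : G) :
    (1 - sm ι P g).det = ∑ s : Finset P, (rw' s (sm ι P (c * g))).det := by
  rw [← det_one_add_expand, h.sm_mul, h.sm_c c hc, neg_one_mul, neg_add_eq_sub]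

theorem sum_det_ge [Fintype G] (h : Reps (G := G) ι P) (c : G) (hc : ∀ r : R, c • r = ι r) :
    (Fintype.card G : ℤ) ≤ ∑ g : G, (1 - sm ι P g).det := by
  have h1 : ∑ g : G, (1 - sm ι P g).det =
      ∑ s : Finset P, ∑ g : G, (rw' s (sm ι P g)).det := by
    rw [Finset.sum_comm]
    rw [← Equiv.sum_comp (Equiv.mulLeft c)
      (fun g => ∑ s : Finset P, (rw' s (sm ι P g)).det)]
    exact Finset.sum_congr rfl fun g _ => det_one_sub h c hc g
  rw [h1]
  have h2 : (Fintype.card G : ℤ) = ∑ g : G, (rw' (∅ : Finset P) (sm ι P g)).det := by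
    have h3 : ∀ g : G, (rw' (∅ : Finset P) (sm ι P g)).det = 1 := by
      intro g
      have h4 : rw' (∅ : Finset P) (sm ι P g) = 1 := by
        ext i j
        simp [rw']
      rw [h4, Matrix.det_one]
    simp only [h3, Finset.sum_const, Finset.card_univ, nsmul_eq_mul, mul_one]
  rw [h2]
  exact Finset.single_le_sum (f := fun s : Finset P => ∑ g : G, (rw' s (sm ι P g)).det)
    (fun s _ => sum_det_rw_nonneg h s) (Finset.mem_univ _)

theorem det_le (h : Reps (G := G) ι P) (c : G) (hc : ∀ r : R, c • r = ι r) (g : G) :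
    (1 - sm ι P g).det ≤ 2 ^ P.card := by
  rw [det_one_sub h c hc g]
  refine (Finset.sum_le_sum fun s _ => abs_det_rw_le h s (c * g)).trans ?_
  simp

theorem det_eq_zero (h : Reps (G := G) ι P) (g : G) (r : R) (hr : ∀ m : ℕ, g ^ m • r ≠ ι r) :
    (1 - sm ι P g).det = 0 := by
  classical
  let f : R → ℤ := fun x => (if ∃ m : ℕ, g ^ m • r = x then 1 else 0) -
    (if ∃ m : ℕ, g ^ m • r = ι x then 1 else 0)
  have hg : ∀ x, (∃ m : ℕ, g ^ m • r = g • x) ↔ ∃ m : ℕ, g ^ m • r = x := by
    intro x
    constructor
    · rintro ⟨m, hm⟩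
      have hn := pow_orderOf_eq_one g
      have hpos := orderOf_pos g
      refine ⟨m + (orderOf g - 1), ?_⟩
      apply MulAction.injective (β := R) g
      change g • g ^ (m + (orderOf g - 1)) • r = g • x
      rw [← mul_smul, ← pow_succ', show m + (orderOf g - 1) + 1 = m + orderOf g by omega, pow_add, hn,
        mul_one, hm]
    · rintro ⟨m, hm⟩
      refine ⟨m + 1, ?_⟩
      rw [pow_succ', mul_smul, hm]
  have hfg : ∀ x, f (g • x) = f x := by
    intro x
    have h1 : (∃ m : ℕ, g ^ m • r = ι (g • x)) ↔ ∃ m : ℕ, g ^ m • r = ι x := by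
      rw [← h.comm]
      exact hg (ι x)
    simp only [f, hg x, h1]
  have hfι : ∀ x, f (ι x) = - f x := by
    intro x
    simp only [f, h.inv]
    ring
  have hfr : f r = 1 := by
    have h1 : ∃ m : ℕ, g ^ m • r = r := ⟨0, by rw [pow_zero, one_smul]⟩
    have h2 : ¬ ∃ m : ℕ, g ^ m • r = ι r := fun ⟨m, hm⟩ => hr m hm
    simp only [f, if_pos h1, if_neg h2, sub_zero]
  have hrι : ι r ≠ r := by
    intro h1
    exact hr 0 (by rw [pow_zero, one_smul, h1])
  rw [← Matrix.exists_mulVec_eq_zero_iff]
  refine ⟨fun p => f p, ?_, ?_⟩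
  · intro h0
    rcases h.cover r hrι with h1 | h1
    · have h2 := congrFun h0 ⟨r, h1⟩
      simp only [Pi.zero_apply] at h2
      rw [hfr] at h2
      exact one_ne_zero h2
    · have h2 := congrFun h0 ⟨ι r, h1⟩
      simp only [Pi.zero_apply] at h2
      rw [hfι, hfr] at h2
      norm_num at h2
  · rw [Matrix.sub_mulVec, Matrix.one_mulVec, sub_eq_zero]
    funext q
    obtain ⟨p, hp, hgp⟩ := h.exists_rep g⁻¹ q q.2
    have hgp' : g • p = (q : R) ∨ g • p = ι q := by
      rcases hgp with h1 | h1
      · left
        rw [← h1, smul_inv_smul]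
      · right
        have h6 : g • ι p = (q : R) := by rw [← h1, smul_inv_smul]
        rw [← h6, h.comm, h.inv]
    rw [Matrix.mulVec, dotProduct]
    rw [Finset.sum_eq_single (⟨p, hp⟩ : P)]
    · rcases hgp' with h1 | h1
      · rw [h.sm_pos g ⟨p, hp⟩ q h1, if_pos rfl, one_mul, ← h1]
        exact hfg p
      · rw [h.sm_neg g ⟨p, hp⟩ q h1, if_pos rfl]
        change f q = -1 * f p
        rw [← hfg p, h1, hfι]
        ring
    · intro b _ hb
      have hz : sm ι P g q b = 0 := by
        by_contra hne
        apply hb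
        apply Subtype.ext
        change (b : R) = p
        rcases sm_ne_zero g q b hne with h1 | h1 <;> rcases hgp' with h2 | h2
        · exact MulAction.injective (β := R) g (h1.trans h2.symm)
        · exfalso
          refine h.ne' b p b.2 hp (MulAction.injective (β := R) g ?_)
          change g • ι (b : R) = g • p
          rw [h.comm, h1, h2]
        · exfalso
          refine h.ne' b p b.2 hp (MulAction.injective (β := R) g ?_)
          change g • ι (b : R) = g • p
          rw [h.comm, h1, h2, h.inv]
        · exact MulAction.injective (β := R) g (h1.trans h2.symm)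
      rw [hz, zero_mul]
    · intro h2
      exact absurd (Finset.mem_univ _) h2

end

/-- Let the finite group `G` act on the finite set `R`, `c ∈ G` acting as the involution `ι`, which commutes
with `G`. The elements `g` all of whose orbits are stable under `ι` form at least `2 ^ (-|R| / 2)` of `G`.

Proof (helper6). The group acts on `V = {f : R → ℚ | f(ι r) = - f(r)}`, `d = dim V ≤ |R| / 2`, `c = -1` on `V`.
`det(1 - g | V)` is `0` if some orbit of `g` is not stable under `ι` and at most `2 ^ d` always; its mean over `G` is the alternating sum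
of the dimensions of the invariants of the exterior powers of `V`, the odd ones vanish because of `c`, and the
`0`-th is `1`. -/
theorem mean_bound {G R : Type*} [Group G] [Finite G] [Finite R] [MulAction G R] (ι : R → R)
    (c : G) (hc : ∀ r : R, c • r = ι r) (hι : ∀ r, ι (ι r) = r)
    (hcomm : ∀ (g : G) (r : R), g • ι r = ι (g • r)) :
    Nat.card G ≤ 2 ^ (Nat.card R / 2) * Nat.card {g : G // ∀ r : R, ∃ m : ℕ, g ^ m • r = ι r} := by
  classical
  have : Fintype G := Fintype.ofFinite G
  have : Fintype R := Fintype.ofFinite R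
  let e : R ≃ Fin (Fintype.card R) := Fintype.equivFin R
  let P : Finset R := Finset.univ.filter fun r => e r < e (ι r)
  have hP : ∀ r, r ∈ P ↔ e r < e (ι r) := fun r => by simp [P]
  have h : Reps (G := G) ι P :=
    { inv := hι
      comm := hcomm
      not_mem := by
        intro r hr hr'
        rw [hP] at hr hr'
        rw [hι] at hr'
        exact lt_asymm hr hr'
      cover := by
        intro r hr
        rw [hP, hP, hι]
        exact lt_or_gt_of_ne (fun h1 => hr (e.injective h1).symm) }
  have hcard : P.card ≤ Nat.card R / 2 := by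
    have h1 : P.card + (P.image ι).card ≤ Fintype.card R := by
      rw [← Finset.card_union_of_disjoint]
      · exact Finset.card_le_univ _
      · rw [Finset.disjoint_left]
        intro r hr hr'
        obtain ⟨p, hp, rfl⟩ := Finset.mem_image.1 hr'
        exact h.not_mem p hp hr
    rw [Finset.card_image_of_injective _ (fun a b hab => by rw [← hι a, hab, hι])] at h1
    rw [Nat.card_eq_fintype_card]
    omega
  let S : Finset G := Finset.univ.filter fun g => ∀ r : R, ∃ m : ℕ, g ^ m • r = ι r
  have hS : Nat.card {g : G // ∀ r : R, ∃ m : ℕ, g ^ m • r = ι r} = S.card := by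
    rw [Nat.card_eq_fintype_card, Fintype.card_subtype]
  have h2 : (Fintype.card G : ℤ) ≤ S.card * 2 ^ P.card := by
    refine (sum_det_ge h c hc).trans ?_
    rw [← Finset.sum_filter_add_sum_filter_not Finset.univ
      (fun g : G => ∀ r : R, ∃ m : ℕ, g ^ m • r = ι r)]
    have h3 : ∑ g ∈ Finset.univ.filter (fun g : G => ¬ ∀ r : R, ∃ m : ℕ, g ^ m • r = ι r),
        (1 - sm ι P g).det = 0 := by
      refine Finset.sum_eq_zero fun g hg => ?_
      rw [Finset.mem_filter] at hg
      obtain ⟨r, hr⟩ := not_forall.1 hg.2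
      exact det_eq_zero h g r (not_exists.1 hr)
    rw [h3, add_zero]
    refine (Finset.sum_le_card_nsmul _ _ (2 ^ P.card) fun g _ => det_le h c hc g).trans ?_
    rw [nsmul_eq_mul]
  rw [hS, Nat.card_eq_fintype_card]
  have h4 : Fintype.card G ≤ S.card * 2 ^ P.card := by exact_mod_cast h2
  calc Fintype.card G ≤ S.card * 2 ^ P.card := h4
    _ ≤ S.card * 2 ^ (Nat.card R / 2) :=
      Nat.mul_le_mul_left _ (Nat.pow_le_pow_right (by norm_num) hcard)
    _ = 2 ^ (Nat.card R / 2) * S.card := mul_comm _ _

end Pool.Agent.T10
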