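import Pool.Agent.W_b4801b_t10.LocB
import Pool.Agent.W_b4801b_t10.LocC
import Pool.Agent.W_b4801b_t10.Mean
import Pool.Agent.W_b4801b_t10.FrobField
import Pool.Agent.W_b4801b_t10.Final

/-! The dual primes have lower density at least `2 ^ (-D / 2)`. -/

set_option autoImplicit false

noncomputable section

open Polynomial NumberField Filter Topology

universe u v

namespace Pool.Agent.T10

open Pool.Agent.B4801b

theorem LocD_mono {A : Set ℕ} {a b : ℝ} (h : LowerDensityGE A a) (hab : b ≤ a) :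
    LowerDensityGE A b := by
  intro ε hε
  filter_upwards [h ε hε, log_tendsto.eventually_ge_atTop 0] with s hs hs0
  exact le_trans (mul_le_mul_of_nonneg_right (by linarith) hs0) hs

theorem LocD_abs (K : Type) [Field K] [NumberField K] [IsGalois ℚ K] (P : ℚ[X]) (hP : P ≠ 0)
    (hs : (P.map (algebraMap ℚ K)).Splits) (c : ℚ) (hc : c ≠ 0) (c₀ : K ≃ₐ[ℚ] K)
    (hc₀ : ∀ a : K, aeval a P = 0 → c₀ a = algebraMap ℚ K c / a) :
    LowerDensityGE (dualPrimes P c) (1 / 2 ^ (Nat.card (P.rootSet K) / 2)) := by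
  classical
  have hcK : algebraMap ℚ K c ≠ 0 := (_root_.map_ne_zero _).2 hc
  have hroot : ∀ (g : K ≃ₐ[ℚ] K) (a : K), aeval a P = 0 → aeval (g a) P = 0 := by
    intro g a ha
    have h1 := Polynomial.aeval_algHom_apply (g : K →ₐ[ℚ] K) a P
    rw [ha, map_zero] at h1
    exact h1
  have hι : ∀ a : K, aeval a P = 0 → aeval (algebraMap ℚ K c / a) P = 0 := by
    intro a ha
    rw [← hc₀ a ha]
    exact hroot c₀ a ha
  set C : Set (K ≃ₐ[ℚ] K) :=
    {g | ∀ a : K, aeval a P = 0 → ∃ m : ℕ, (g ^ m) a = algebraMap ℚ K c / a} with hCdef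
  have hC : ∀ σ ∈ C, ∀ τ, τ * σ * τ⁻¹ ∈ C := by
    intro σ hσ τ a ha
    obtain ⟨m, hm⟩ := hσ (τ⁻¹ a) (hroot τ⁻¹ a ha)
    refine ⟨m, ?_⟩
    rw [conj_pow]
    have h1 : (τ * σ ^ m * τ⁻¹) a = τ ((σ ^ m) (τ⁻¹ a)) := rfl
    have h2 : τ (τ⁻¹ a) = a := by
      have h3 : (τ * τ⁻¹) a = a := by
        rw [mul_inv_cancel]
        rfl
      exact h3
    rw [h1, hm, map_div₀, AlgEquiv.commutes, h2]
  let act : MulAction (K ≃ₐ[ℚ] K) (P.rootSet K) :=
    { smul := fun g r => ⟨g r.1, Polynomial.mem_rootSet.2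
        ⟨hP, hroot g r.1 (Polynomial.mem_rootSet.1 r.2).2⟩⟩
      one_smul := fun r => Subtype.ext rfl
      mul_smul := fun g h r => Subtype.ext rfl }
  let ι : P.rootSet K → P.rootSet K := fun r => ⟨algebraMap ℚ K c / r.1,
    Polynomial.mem_rootSet.2 ⟨hP, hι r.1 (Polynomial.mem_rootSet.1 r.2).2⟩⟩
  have hfinR : Finite (P.rootSet K) := (Polynomial.rootSet_finite P K).to_subtype
  have hb := mean_bound (G := K ≃ₐ[ℚ] K) (R := P.rootSet K) ι c₀
    (fun r => Subtype.ext (hc₀ r.1 (Polynomial.mem_rootSet.1 r.2).2))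
    (fun r => Subtype.ext (div_div_cancel₀ hcK))
    (fun g r => Subtype.ext (by
      change g (algebraMap ℚ K c / r.1) = algebraMap ℚ K c / g r.1
      rw [map_div₀, AlgEquiv.commutes]))
  have hcard : Nat.card {g : K ≃ₐ[ℚ] K // ∀ r : P.rootSet K, ∃ m : ℕ, g ^ m • r = ι r} =
      Nat.card C := by
    refine Nat.card_congr (Equiv.subtypeEquivRight fun g => ?_)
    constructor
    · intro h a ha
      obtain ⟨m, hm⟩ := h ⟨a, Polynomial.mem_rootSet.2 ⟨hP, ha⟩⟩
      exact ⟨m, congrArg Subtype.val hm⟩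
    · intro h r
      obtain ⟨m, hm⟩ := h r.1 (Polynomial.mem_rootSet.1 r.2).2
      exact ⟨m, Subtype.ext hm⟩
  rw [hcard] at hb
  have hG : 0 < Nat.card (K ≃ₐ[ℚ] K) := Nat.card_pos
  obtain ⟨T, hT⟩ := LocB_dual K P hP hs c hc hι
  have hlow := LocC_low K C hC
  refine LocD_mono (hlow.mono T ?_) ?_
  · rintro ℓ ⟨hℓ, σ, hσ, Q, hQ, hℓQ, hfr⟩ hℓT
    have : Fact ℓ.Prime := ⟨hℓ⟩
    exact hT ℓ hℓT σ Q hQ hℓQ hfr hσ
  · rw [div_le_div_iff₀ (by positivity) (by exact_mod_cast hG), one_mul, mul_comm]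
    exact_mod_cast hb

/-- Proof. `K = frobField P`, Galois over `ℚ` (`frobField_galois`), `R` = the roots of `P` in `K` (`P` splits in `K`, so `R` has as many
elements as `P.rootSet ℂ`), `G = Gal(K/ℚ)` acts on `R`, complex conjugation restricts to `c₀ ∈ G` (compare
`EE_subset_dual` in `DualE.lean`) with `c₀ a = c / a` (`|a|² = c` in `ℂ`), `ι a = c / a`. `mean_bound` gives
`|C| / |G| ≥ 2 ^ (-|R| / 2)` for `C = {g | ∀ r ∈ R, ∃ m, g ^ m r = ι r}`, which is stable under conjugation. `LocC_low` and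
`LocB_dual` (finitely many exceptions: `LowerDensityGE.mono`, see `Final.lean`). -/
theorem dual_lowdens (P : ℚ[X]) (hP : P ≠ 0) (c : ℚ) (hc : 0 < c)
    (hpure : ∀ z : ℂ, aeval z P = 0 → ‖z‖ ^ 2 = (c : ℝ)) :
    LowerDensityGE (dualPrimes P c) (1 / 2 ^ ((P.rootSet ℂ).ncard / 2)) := by
  classical
  have : FiniteDimensional ℚ (frobField P) := frobField_fd P
  have : IsGalois ℚ (frobField P) := frobField_galois P
  have : NumberField (frobField P) :=
    { to_charZero := inferInstance, to_finiteDimensional := inferInstance }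
  have : Normal ℚ (frobField P) := IsGalois.to_normal
  have hspl : (P.map (algebraMap ℚ (frobField P))).Splits := (frobField_splitting P).splits'
  let conj : ℂ ≃ₐ[ℚ] ℂ := Complex.conjAe.restrictScalars ℚ
  let c₀ : frobField P ≃ₐ[ℚ] frobField P := conj.restrictNormal (frobField P)
  have hc₀ : ∀ x : frobField P, ((c₀ x : frobField P) : ℂ) = starRingEnd ℂ (x : ℂ) := fun x =>
    AlgEquiv.restrictNormal_commutes conj (frobField P) x
  have hc' : (0 : ℝ) < c := by exact_mod_cast hc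
  have key : ∀ x : frobField P, aeval x P = 0 → c₀ x = algebraMap ℚ (frobField P) c / x := by
    intro x hx
    have hxC : aeval ((x : frobField P) : ℂ) P = 0 := by
      have h5 := congrArg (algebraMap (frobField P) ℂ) hx
      rw [map_zero, ← Polynomial.aeval_algebraMap_apply] at h5
      exact h5
    have hxn := hpure _ hxC
    have hx0 : ((x : frobField P) : ℂ) ≠ 0 := by
      intro h
      rw [h, norm_zero] at hxn
      simp at hxn
      linarith
    have hx0' : x ≠ 0 := by
      rintro rfl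
      exact hx0 rfl
    have hmul : x * c₀ x = algebraMap ℚ (frobField P) c := by
      apply Subtype.ext
      have h6 : ((x : frobField P) : ℂ) * starRingEnd ℂ ((x : frobField P) : ℂ) = (c : ℂ) := by
        rw [Complex.mul_conj, Complex.normSq_eq_norm_sq, hxn]
        simp
      have h7 : ((x * c₀ x : frobField P) : ℂ) =
          ((x : frobField P) : ℂ) * ((c₀ x : frobField P) : ℂ) := rfl
      rw [h7, hc₀, h6]
      simp
    rw [eq_div_iff hx0', mul_comm, hmul]
  have h1 := LocD_abs (frobField P) P hP hspl c hc.ne' c₀ key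
  have h2 : Nat.card (P.rootSet (frobField P)) = (P.rootSet ℂ).ncard := by
    have h3 : ((fun x : frobField P => (x : ℂ)) '' P.rootSet (frobField P)) = P.rootSet ℂ := by
      ext z
      constructor
      · rintro ⟨x, hx, rfl⟩
        have h5 := congrArg (algebraMap (frobField P) ℂ) (Polynomial.mem_rootSet.1 hx).2
        rw [map_zero, ← Polynomial.aeval_algebraMap_apply] at h5
        exact Polynomial.mem_rootSet.2 ⟨hP, h5⟩
      · intro hz
        have h6 : z ∈ frobField P := IntermediateField.subset_adjoin _ _ hz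
        refine ⟨⟨z, h6⟩, Polynomial.mem_rootSet.2 ⟨hP, ?_⟩, rfl⟩
        apply (algebraMap (frobField P) ℂ).injective
        rw [map_zero, ← Polynomial.aeval_algebraMap_apply]
        exact (Polynomial.mem_rootSet.1 hz).2
    rw [← h3, Set.ncard_image_of_injective _ Subtype.val_injective, Nat.card_coe_set_eq]
  rw [h2] at h1
  exact h1

/-- Proof. `dualPrimes` of one neat place, minus `p_x`, is contained in `conjPrimes`. -/
theorem conj_lowdens {k : Type u} [Field k] {w : ℕ} (S : CompSys.{u, v} k w) (D : ℕ)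
    (hx : ∃ x, Neat S D x) : LowerDensityGE (conjPrimes S D) (1 / 2 ^ (D / 2)) := by
  obtain ⟨x, hxn⟩ := hx
  have hq : 0 < x.q := q_pos x
  have h1 := dual_lowdens (S.P x) hxn.2.1 ((x.q : ℚ) ^ w) (pow_pos (Nat.cast_pos.mpr hq) w)
    (fun z hz => by
      rw [S.pure x hxn.1 z hz]
      push_cast
      rfl)
  rw [hxn.2.2.1] at h1
  refine h1.mono {x.p} ?_
  intro ℓ hℓ hℓT
  have hℓx : ℓ ≠ x.p := by simpa using hℓT
  exact ⟨hℓ.choose, x, hxn, fun h => hℓx h.symm, hℓ⟩

end Pool.Agent.T10
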