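import Pool.Agent.W_b4801b_t10.NeatC

/-!
# The number `D` is unique
-/

set_option autoImplicit false

noncomputable section

open Polynomial

universe u v

namespace Pool.Agent.T10

open Pool.Agent.B4801b

variable {k : Type u} [Field k] {w : ℕ}

/-- The Frobenius element of a neat place is a neat element for every prime `ℓ ≠ p_x`. -/
theorem neatAt_of_neat (S : CompSys.{u, v} k w) (D : ℕ) (x : Place k) (hx : Neat S D x) (ℓ : ℕ)
    [Fact ℓ.Prime] (hp : ℓ ≠ x.p) : NeatAt (S.rep ℓ) D x.frob := by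
  have hchar : ((S.rep ℓ).ρ x.frob).charpoly = (S.P x).map (algebraMap ℚ ℚ_[ℓ]) :=
    S.charpoly_frob x hx.1 ℓ hp
  have hspl := frobField_splitting (S.P x)
  let τ : ↥(frobField (S.P x)) →ₐ[ℚ] AlgebraicClosure ℚ_[ℓ] :=
    IsSplittingField.lift (↥(frobField (S.P x))) (S.P x) (IsAlgClosed.splits _)
  refine ⟨?_, fun a b ha hb hab m hm hpow => ?_⟩
  · rw [EigGE, hchar, ncard_rootSet_padic, hx.2.2.1]
  have hroot : ∀ a : AlgebraicClosure ℚ_[ℓ], aeval a ((S.rep ℓ).ρ x.frob).charpoly = 0 →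
      ∃ a' : ↥(frobField (S.P x)), τ a' = a ∧ aeval ((a' : ℂ)) (S.P x) = 0 := by
    intro a ha
    rw [hchar, Polynomial.aeval_map_algebraMap] at ha
    have h1 : a ∈ (S.P x).rootSet (AlgebraicClosure ℚ_[ℓ]) := by
      rw [mem_rootSet]
      exact ⟨hx.2.1, ha⟩
    rw [← (FrobB_splits (S.P x)).image_rootSet τ] at h1
    obtain ⟨a', ha', rfl⟩ := h1
    refine ⟨a', rfl, ?_⟩
    rw [mem_rootSet] at ha'
    have h2 := aeval_algebraMap_apply ℂ a' (S.P x)
    rw [ha'.2, map_zero] at h2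
    exact h2
  obtain ⟨a', ha1, ha2⟩ := hroot a ha
  obtain ⟨b', hb1, hb2⟩ := hroot b hb
  refine hx.2.2.2 a' b' ha2 hb2 ?_ m hm ?_
  · intro h0
    apply hab
    rw [← ha1, ← hb1, Subtype.ext h0]
  · have h3 : a' ^ m = b' ^ m := by
      apply (τ : ↥(frobField (S.P x)) →+* AlgebraicClosure ℚ_[ℓ]).injective
      change τ (a' ^ m) = τ (b' ^ m)
      rw [map_pow, map_pow, ha1, hb1, hpow]
    have h4 := congrArg (fun z : ↥(frobField (S.P x)) => (z : ℂ)) h3
    simpa using h4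

/-- If there is a neat place for `D` and `MaxRoots` holds for `D'` then `D ≤ D'`. -/
theorem le_of_neat (S : CompSys.{u, v} k w) (hd : DenseFrob S) (D D' : ℕ) (x : Place k)
    (hx : Neat S D x) (hm : MaxRoots S D') : D ≤ D' := by
  by_contra hlt
  push Not at hlt
  obtain ⟨U, hU, hmax⟩ := hm
  obtain ⟨ℓ, hℓ, hgt⟩ := Nat.exists_infinite_primes (x.p + 1)
  have hF : Fact ℓ.Prime := ⟨hgt⟩
  have hm' : MaxRoots S D := ⟨U, hU, fun z hz h => (hmax z hz h).trans hlt.le⟩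
  have hnA := neatAt_of_neat S D x hx ℓ (by omega)
  -- the places near a power of the Frobenius element of `x`
  obtain ⟨a, ha, haU⟩ := exists_pow_mem (U ⊓ UT S {ℓ} 2)
    (by rw [Subgroup.coe_inf]; exact hU.inter (isOpen_UT S {ℓ} 2)) x.frob
  obtain ⟨hD, htors⟩ := hnA
  rw [eigGE_iff S ℓ (chartOf S ℓ)] at hD
  rw [(chartOf S ℓ).charpoly_eq] at htors
  obtain ⟨γ, hγ, hγr⟩ := exists_injective_of_le_ncard _ (Polynomial.rootSet_finite _ _) D hD
  have hr : ∀ i, aeval (γ i) ((chartOf S ℓ).M x.frob).charpoly = 0 := fun i =>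
    Polynomial.aeval_eq_zero_of_mem_rootSet (hγr i)
  have hinj : Function.Injective fun i => γ i ^ a := by
    intro i j hij
    by_contra hne
    exact htors _ _ (hr i) (hr j) (fun h => hne (hγ h)) a ha hij
  obtain ⟨X, hX⟩ := (chartOf S ℓ).cong 2 _ (UT_le S {ℓ} 2 ℓ (Finset.mem_singleton_self ℓ) haU.2)
  obtain ⟨N, hN⟩ := exists_near_roots (D := D) (1 + (ℓ : ℤ_[ℓ]) ^ 2 • X) (fun i => γ i ^ a) hinj (by
    intro i
    rw [← hX, map_pow]
    exact aeval_charpoly_pow _ _ (hr i) a)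
  obtain ⟨z, hz, hzT, ⟨h, u, hu, hconj⟩, hP⟩ := exists_frob_near S hd U hU (x.frob ^ a) {ℓ} N
  obtain ⟨Y, hY⟩ := hP ℓ (Finset.mem_singleton_self ℓ) _ hX
  obtain ⟨hP0, β, h1, h2, -⟩ := hN N le_rfl Y (S.P z) hY
  have hge := le_ncard_of_near (S.P z) hP0 β h1 h2
  have hle := hmax z hz ⟨h, by rw [hconj]; exact U.mul_mem haU.1 hu⟩
  omega

/-- The number `D` is unique. -/
theorem D_unique (S : CompSys.{u, v} k w) (hd : DenseFrob S) (D D' : ℕ) (hm : MaxRoots S D)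
    (hx : ∃ x, Neat S D x) (hm' : MaxRoots S D') (hx' : ∃ x, Neat S D' x) : D = D' := by
  obtain ⟨x, hx⟩ := hx
  obtain ⟨x', hx'⟩ := hx'
  exact le_antisymm (le_of_neat S hd D D' x hx hm') (le_of_neat S hd D' D x' hx' hm)

/-- There is exactly one number `D` such that `MaxRoots S D` holds and there is a neat place. -/
theorem existsUnique_D (S : CompSys.{u, v} k w) (hd : DenseFrob S) :
    ∃! D : ℕ, MaxRoots S D ∧ ∃ x, Neat S D x := by
  obtain ⟨D, h1, h2⟩ := exists_maxRoots S hd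
  exact ⟨D, ⟨h1, h2⟩, fun D' h => D_unique S hd D' D h.1 h.2 h1 h2⟩

end Pool.Agent.T10
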