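import Pool.Agent.W_b4801b_t10.NeatDefs

/-! Regular representations, defined by logarithms. -/

set_option autoImplicit false

noncomputable section

open Polynomial Filter Topology

universe u v

namespace Pool.Agent.T10

open Pool.Agent.B4801b

/-- The value of the linear form `f` on `ρ(g) ^ (ℓ ^ t) x`. -/
def powVal {k : Type u} [Field k] {w ℓ : ℕ} [Fact ℓ.Prime] (R : PolRep.{u, v} k w ℓ) (g : Gal k)
    (f : Module.Dual ℚ_[ℓ] R.V) (x : R.V) (t : ℕ) : ℚ_[ℓ] :=
  f (R.ρ (g ^ (ℓ ^ t)) x)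

/-- `(f (ρ(g) ^ (ℓ ^ t) x) - f (x)) / ℓ ^ t`, for a linear form `f` and a vector `x`. -/
def logApp {k : Type u} [Field k] {w ℓ : ℕ} [Fact ℓ.Prime] (R : PolRep.{u, v} k w ℓ) (g : Gal k)
    (f : Module.Dual ℚ_[ℓ] R.V) (x : R.V) (t : ℕ) : ℚ_[ℓ] :=
  (powVal R g f x t - f x) / (ℓ : ℚ_[ℓ]) ^ t

/-- `X` is the logarithm of the operator `ρ(g)`: `X = lim (ρ(g)^(ℓ^t) - 1) / ℓ^t` for `t → ∞`. -/
def HasLog {k : Type u} [Field k] {w ℓ : ℕ} [Fact ℓ.Prime] (R : PolRep.{u, v} k w ℓ) (g : Gal k)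
    (X : Module.End ℚ_[ℓ] R.V) : Prop :=
  ∀ (f : Module.Dual ℚ_[ℓ] R.V) (x : R.V), Tendsto (logApp R g f x) atTop (𝓝 (f (X x)))

/-- The dimension of `V_ℓ`. -/
def dimV {k : Type u} [Field k] {w : ℕ} (S : CompSys.{u, v} k w) (ℓ : ℕ) [Fact ℓ.Prime] : ℕ :=
  Module.finrank ℚ_[ℓ] (S.rep ℓ).V

/-- The degree over `ℚ` of the intersection of the splitting fields of the Frobenius polynomials of the
neat places. -/
def commonDeg {k : Type u} [Field k] {w : ℕ} (S : CompSys.{u, v} k w) (D : ℕ) : ℕ :=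
  Module.finrank ℚ (common S D)

/-- `D` is the maximal number of distinct roots of the Frobenius polynomials after a finite extension
of `k`, and there are neat places. -/
def RootNumber {k : Type u} [Field k] {w : ℕ} (S : CompSys.{u, v} k w) (D : ℕ) : Prop :=
  MaxRoots S D ∧ ∃ x, Neat S D x

/-- Some linear combination over `ℚ_ℓ` of logarithms of operators `ρ(g)` has distinct eigenvalues. -/
def Regular {k : Type u} [Field k] {w ℓ : ℕ} [Fact ℓ.Prime] (R : PolRep.{u, v} k w ℓ) : Prop :=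
  ∃ (r : ℕ) (g : Fin r → Gal k) (X : Fin r → Module.End ℚ_[ℓ] R.V) (c : Fin r → ℚ_[ℓ]),
    (∀ i, HasLog R (g i) (X i)) ∧ (LinearMap.charpoly (∑ i, c i • X i)).Separable

theorem regularLog_of_regular {k : Type u} [Field k] {w ℓ : ℕ} [Fact ℓ.Prime]
    (R : PolRep.{u, v} k w ℓ) (h : Regular R) : RegularLog R := by
  obtain ⟨r, g, X, c, h1, h2⟩ := h
  refine ⟨ℚ_[ℓ], inferInstance, inferInstance, r, g, X, c, ?_, ?_⟩
  · intro i f x
    refine (h1 i f x).congr fun t => ?_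
    rw [logApp, powVal, map_smul, map_sub, smul_eq_mul, div_eq_inv_mul]
  · have h3 : (∑ i, c i • LinearMap.baseChange ℚ_[ℓ] (X i)) =
        LinearMap.baseChange ℚ_[ℓ] (∑ i, c i • X i) := by
      rw [← LinearMap.baseChangeHom_apply, map_sum]
      refine Finset.sum_congr rfl fun i _ => ?_
      rw [map_smul, LinearMap.baseChangeHom_apply]
    rw [h3, LinearMap.charpoly_baseChange]
    exact h2.map

end Pool.Agent.T10
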