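import Pool.Agent.W_b4801b_t10.Small
import Pool.Agent.W_b4801b_h57.ZDefs

/-! Semisimplicity for all primes in dimension at most five, with short definitions. -/

set_option autoImplicit false

noncomputable section

universe u v

namespace Pool.Agent.T10

open Pool.Agent.B4801b

variable {k : Type u} [Field k] {w ℓ : ℕ} [Fact ℓ.Prime]

/-- For some `N > 0` the characters `det(W) ^ 2 ⊗ χ_ℓ ^ (w dim W)`, `W` a Galois-stable subspace of `V_ℓ`,
are killed by `N`. -/
def BalDet (R : PolRep.{u, v} k w ℓ) : Prop := ∃ N : ℕ, 0 < N ∧ B4801bZ.PolBal R N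

theorem balanced_of_balDet (R : PolRep.{u, v} k w ℓ) (h : BalDet R) : Balanced R := by
  obtain ⟨N, hN, h⟩ := h
  refine ⟨N, hN, fun W hW _ σ => ?_⟩
  have h1 := h W hW σ
  have h2 : LinearMap.det ((R.ρ σ).restrict (hW σ)) ^ (2 * N) *
      (cyc k ℓ σ ^ w) ^ (N * Module.finrank ℚ_[ℓ] W) = 1 := h1
  rw [mul_pow, ← pow_mul, ← pow_mul, ← h2, ← pow_mul]
  congr 2
  ring

end Pool.Agent.T10
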