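import Mathlib

/-!
# Elements close to one have no torsion
-/

set_option autoImplicit false

namespace Pool.Agent.T10

theorem ApxA_norm_eq {F : Type*} [NormedField F] [IsUltrametricDist F] (r : ℝ) (hr : r < 1)
    (w : F) (hw : ‖w - 1‖ ≤ r) : ‖w‖ = 1 := by
  have h1 : ‖w - 1‖ ≠ ‖(1 : F)‖ := by
    rw [norm_one]
    exact (lt_of_le_of_lt hw hr).ne
  have h2 := IsUltrametricDist.norm_add_eq_max_of_norm_ne_norm h1
  rw [sub_add_cancel, norm_one, max_eq_right (hw.trans hr.le)] at h2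
  exact h2

theorem ApxA_pow {F : Type*} [NormedField F] [IsUltrametricDist F] (r : ℝ) (hr : r < 1)
    (w : F) (hw : ‖w - 1‖ ≤ r) (k : ℕ) : ‖w ^ k - 1‖ ≤ r := by
  have hr0 : 0 ≤ r := (norm_nonneg _).trans hw
  induction k with
  | zero => simpa using hr0
  | succ k ih =>
    have h1 : w ^ (k + 1) - 1 = w ^ k * (w - 1) + (w ^ k - 1) := by ring
    rw [h1]
    refine (IsUltrametricDist.norm_add_le_max _ _).trans (max_le ?_ ih)
    rw [norm_mul, norm_pow, ApxA_norm_eq r hr w hw, one_pow, one_mul]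
    exact hw

theorem ApxA_prime {F : Type*} [NormedField F] [IsUltrametricDist F] (r : ℝ) (hr : r < 1)
    (hq : ∀ q : ℕ, q.Prime → r < ‖(q : F)‖) (q : ℕ) (hp : q.Prime)
    (a : F) (ha : ‖a - 1‖ ≤ r) (h : a ^ q = 1) : a = 1 := by
  have hr0 : 0 ≤ r := (norm_nonneg _).trans ha
  by_contra hne
  have h1 := geom_sum_mul a q
  rw [h, sub_self] at h1
  have h2 : ∑ i ∈ Finset.range q, a ^ i = 0 := by
    rcases mul_eq_zero.1 h1 with h3 | h3
    · exact h3
    · exact absurd (sub_eq_zero.1 h3) hne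
  have h3 : (q : F) = -∑ i ∈ Finset.range q, (a ^ i - 1) := by
    rw [Finset.sum_sub_distrib, h2]
    simp
  have h4 : ‖(q : F)‖ ≤ r := by
    rw [h3, norm_neg]
    exact IsUltrametricDist.norm_sum_le_of_forall_le_of_nonneg hr0 fun i _ => ApxA_pow r hr a ha i
  exact absurd h4 (not_le.2 (hq q hp))

theorem ApxA_one {F : Type*} [NormedField F] [IsUltrametricDist F] (r : ℝ) (hr : r < 1)
    (hq : ∀ q : ℕ, q.Prime → r < ‖(q : F)‖) (m : ℕ) :
    m ≠ 0 → ∀ w : F, ‖w - 1‖ ≤ r → w ^ m = 1 → w = 1 := by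
  induction m using induction_on_primes with
  | zero => intro h; exact absurd rfl h
  | one => intro _ w _ h; simpa using h
  | prime_mul p a hp ih =>
    intro h0 w hw h
    have ha : a ≠ 0 := by
      rintro rfl
      simp at h0
    refine ih ha w hw (ApxA_prime r hr hq p hp (w ^ a) (ApxA_pow r hr w hw a) ?_)
    rw [← pow_mul, mul_comm]
    exact h

/-- Elements close to `1` in an ultrametric field have no torsion.

Proof. `‖v‖ = 1`; let `w = u / v`, so `‖w - 1‖ ≤ r` and `w ^ m = 1`.  Claim: `w = 1`, by strong induction on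
`m`.  `m = 1` is clear.  Let `q` be the smallest prime factor of `m`, `a = w ^ (m / q)`, so `‖a - 1‖ ≤ r`
(ultrametric, `‖w‖ = 1`: `geom_sum_mul`) and `a ^ q = 1`.  If `a ≠ 1` then `∑ i ∈ range q, a ^ i = 0`
(`geom_sum_mul`), but `‖∑ a ^ i - q‖ ≤ r` (each `‖a ^ i - 1‖ ≤ r`), so `‖(q : F)‖ ≤ r`, a contradiction.  So
`w ^ (m / q) = 1`, and `w = 1` by induction. -/
theorem pow_inj_of_norm {F : Type*} [NormedField F] [IsUltrametricDist F] (r : ℝ) (hr : r < 1)
    (hq : ∀ q : ℕ, q.Prime → r < ‖(q : F)‖) (u v : F) (hu : ‖u - 1‖ ≤ r) (hv : ‖v - 1‖ ≤ r)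
    (m : ℕ) (hm : 0 < m) (h : u ^ m = v ^ m) : u = v := by
  have hv1 : ‖v‖ = 1 := ApxA_norm_eq r hr v hv
  have hv0 : v ≠ 0 := by
    rintro rfl
    simp at hv1
  have hw : ‖u / v - 1‖ ≤ r := by
    have h1 : u / v - 1 = ((u - 1) + (1 - v)) / v := by
      field_simp
      ring
    rw [h1, norm_div, hv1, div_one]
    refine (IsUltrametricDist.norm_add_le_max _ _).trans (max_le hu ?_)
    rw [norm_sub_rev]
    exact hv
  have h2 : (u / v) ^ m = 1 := by
    rw [div_pow, h, div_self (pow_ne_zero m hv0)]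
  have h3 := ApxA_one r hr hq m hm.ne' (u / v) hw h2
  exact (div_eq_one_iff_eq hv0).1 h3

/-- `‖q‖` is `1` or `1 / ℓ` (`PadicAlgCl.norm_extends`, `Padic.norm_p`, `padicNormE.norm_nat...`). -/
theorem lt_norm_prime (ℓ : ℕ) [Fact ℓ.Prime] (q : ℕ) (hq : q.Prime) :
    ((ℓ : ℝ) ^ 2)⁻¹ < ‖(q : PadicAlgCl ℓ)‖ := by
  have hl : 1 < (ℓ : ℝ) := by
    exact_mod_cast (Fact.out : ℓ.Prime).one_lt
  have h1 : ‖(q : PadicAlgCl ℓ)‖ = ‖(q : ℚ_[ℓ])‖ := by
    rw [← PadicAlgCl.norm_extends ℓ (q : ℚ_[ℓ]), map_natCast]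
  rw [h1]
  by_cases h : q = ℓ
  · rw [h, Padic.norm_p]
    apply inv_strictAnti₀ (by linarith)
    nlinarith
  · have h2 : ‖(q : ℚ_[ℓ])‖ = 1 := by
      rw [Padic.norm_natCast_eq_one_iff]
      exact (Nat.coprime_primes (Fact.out : ℓ.Prime) hq).2 (Ne.symm h)
    rw [h2]
    apply inv_lt_one_of_one_lt₀
    nlinarith

end Pool.Agent.T10
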