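import Mathlib

/-!
# Roots of polynomials near a given polynomial
-/

set_option autoImplicit false

open Polynomial

namespace Pool.Agent.T10

variable {ℓ : ℕ} [Fact ℓ.Prime]

/-- A root of a monic polynomial over `ℤ_ℓ` has norm at most one.

Proof. Otherwise the leading term is larger than all other terms.  (Or integrality.) -/
theorem norm_root_le_one (P : ℤ_[ℓ][X]) (hP : P.Monic) (z : PadicAlgCl ℓ)
    (hz : aeval z (P.map (algebraMap ℤ_[ℓ] ℚ_[ℓ])) = 0) : ‖z‖ ≤ 1 := by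
  have h := norm_root_le_spectralValue (K := ℚ_[ℓ]) (L := PadicAlgCl ℓ)
    (f := spectralAlgNorm ℚ_[ℓ] (PadicAlgCl ℓ)) spectralAlgNorm_isPowMul
    isNonarchimedean_spectralNorm (hP.map _) hz
  refine le_trans h ?_
  rw [spectralValue_le_one_iff (hP.map _)]
  intro n
  rw [coeff_map]
  exact PadicInt.norm_le_one _

/-- Let `γ_1, ..., γ_D` be distinct roots of the monic polynomial `Q` over `ℤ_ℓ` (in an algebraic closure,
perhaps with multiplicities, perhaps not all roots).  A monic polynomial `P` of the same degree which is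
close to `Q` has distinct roots `β_1, ..., β_D`, `β_i` near `γ_i`.

Proof. Let `δ > 0` be the minimum of `1` and of all `‖γ_i - γ_j‖`, `i ≠ j`, and choose `N` with
`(ℓ : ℝ) ^ (-N) < δ ^ n` (`n ≥ 1` if `D ≥ 1`; for `D = 0` nothing is to be shown).  Let `P ≡ Q` modulo `ℓ ^ N`.
Then `‖P(γ_i)‖ = ‖P(γ_i) - Q(γ_i)‖ ≤ ℓ ^ (-N) < δ ^ n`, because `‖γ_i‖ ≤ 1` (`norm_root_le_one`).  `P` is the
product of `n` factors `X - β` over the algebraically closed field, so `∏ ‖γ_i - β‖ < δ ^ n` and some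
root `β_i` has `‖γ_i - β_i‖ < δ`.  For `j ≠ i` we get `‖β_j - γ_i‖ = ‖γ_j - γ_i‖ ≥ δ > ‖β_i - γ_i‖`; in
particular `β_j ≠ β_i`. -/
theorem roots_of_close {n D : ℕ} (γ : Fin D → PadicAlgCl ℓ) (hγ : Function.Injective γ)
    (Q : ℤ_[ℓ][X]) (hQ : Q.Monic) (hn : Q.natDegree = n)
    (hr : ∀ i, aeval (γ i) (Q.map (algebraMap ℤ_[ℓ] ℚ_[ℓ])) = 0) :
    ∃ N : ℕ, ∀ P : ℤ_[ℓ][X], P.Monic → P.natDegree = n →
      (∀ i, (ℓ : ℤ_[ℓ]) ^ N ∣ P.coeff i - Q.coeff i) →
      ∃ β : Fin D → PadicAlgCl ℓ, Function.Injective β ∧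
        (∀ i, aeval (β i) (P.map (algebraMap ℤ_[ℓ] ℚ_[ℓ])) = 0) ∧
        ∀ i j, i ≠ j → ‖β i - γ i‖ < ‖β j - γ i‖ := by
  classical
  obtain ⟨δ, hδ, hδ0⟩ : ∃ δ : ℝ, (∀ p : Fin D × Fin D, p.1 ≠ p.2 → δ ≤ ‖γ p.1 - γ p.2‖) ∧ 0 < δ := by
    have h1 : ∀ᶠ δ in nhdsWithin (0 : ℝ) (Set.Ioi 0),
        ∀ p : Fin D × Fin D, p.1 ≠ p.2 → δ ≤ ‖γ p.1 - γ p.2‖ := by
      rw [Filter.eventually_all]
      intro p
      by_cases hp : p.1 = p.2
      · exact Filter.Eventually.of_forall fun δ h => absurd hp h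
      · have hpos : 0 < ‖γ p.1 - γ p.2‖ := norm_pos_iff.2 (sub_ne_zero.2 fun h => hp (hγ h))
        refine Filter.Eventually.filter_mono nhdsWithin_le_nhds ?_
        filter_upwards [Iio_mem_nhds hpos] with δ hδ _
        exact le_of_lt hδ
    have h2 : ∀ᶠ δ in nhdsWithin (0 : ℝ) (Set.Ioi 0), (0 : ℝ) < δ := self_mem_nhdsWithin
    exact (h1.and h2).exists
  have hℓ : ((ℓ : ℝ)⁻¹) < 1 := by
    have : (1 : ℝ) < ℓ := by exact_mod_cast (Fact.out : ℓ.Prime).one_lt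
    exact inv_lt_one_of_one_lt₀ this
  obtain ⟨N, hN⟩ := exists_pow_lt_of_lt_one (pow_pos hδ0 n) hℓ
  refine ⟨N, fun P hP hPn hPQ => ?_⟩
  set Pb : (PadicAlgCl ℓ)[X] := (P.map (algebraMap ℤ_[ℓ] ℚ_[ℓ])).map
    (algebraMap ℚ_[ℓ] (PadicAlgCl ℓ)) with hPb
  have hPbm : Pb.Monic := (hP.map _).map _
  have hPbn : Pb.natDegree = n := by
    rw [hPb, (hP.map _).natDegree_map, hP.natDegree_map, hPn]
  have haev : ∀ z : PadicAlgCl ℓ, aeval z (P.map (algebraMap ℤ_[ℓ] ℚ_[ℓ])) = Pb.eval z := by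
    intro z
    rw [hPb, eval_map, aeval_def]
  have hsp : Pb.Splits := IsAlgClosed.splits _
  have hcard : Pb.roots.card = n := by
    rw [← hPbn]; exact hsp.natDegree_eq_card_roots.symm
  have key : ∀ i, ∃ β ∈ Pb.roots, ‖β - γ i‖ < δ := by
    intro i
    by_contra hcon
    push Not at hcon
    have hγ1 : ‖γ i‖ ≤ 1 := norm_root_le_one Q hQ (γ i) (hr i)
    have e1 : Pb.eval (γ i) = ∑ k ∈ Finset.range (n + 1),
        (algebraMap ℚ_[ℓ] (PadicAlgCl ℓ)) (((P.coeff k - Q.coeff k : ℤ_[ℓ])) : ℚ_[ℓ]) * γ i ^ k := by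
      have h1 : aeval (γ i) (P.map (algebraMap ℤ_[ℓ] ℚ_[ℓ])) =
          ∑ k ∈ Finset.range (n + 1),
            (algebraMap ℚ_[ℓ] (PadicAlgCl ℓ)) ((P.coeff k : ℤ_[ℓ]) : ℚ_[ℓ]) * γ i ^ k := by
        rw [aeval_eq_sum_range, hP.natDegree_map, hPn]
        refine Finset.sum_congr rfl fun k _ => ?_
        rw [coeff_map, Algebra.smul_def]
        rfl
      have h2 : aeval (γ i) (Q.map (algebraMap ℤ_[ℓ] ℚ_[ℓ])) =
          ∑ k ∈ Finset.range (n + 1),
            (algebraMap ℚ_[ℓ] (PadicAlgCl ℓ)) ((Q.coeff k : ℤ_[ℓ]) : ℚ_[ℓ]) * γ i ^ k := by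
        rw [aeval_eq_sum_range, hQ.natDegree_map, hn]
        refine Finset.sum_congr rfl fun k _ => ?_
        rw [coeff_map, Algebra.smul_def]
        rfl
      rw [← haev, ← sub_zero (aeval (γ i) (P.map (algebraMap ℤ_[ℓ] ℚ_[ℓ]))), ← hr i, h1, h2,
        ← Finset.sum_sub_distrib]
      refine Finset.sum_congr rfl fun k _ => ?_
      rw [PadicInt.coe_sub, map_sub, sub_mul]
    have e2 : ‖Pb.eval (γ i)‖ ≤ ((ℓ : ℝ)⁻¹) ^ N := by
      rw [e1]
      refine IsUltrametricDist.norm_sum_le_of_forall_le_of_nonneg (by positivity) fun k _ => ?_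
      rw [norm_mul, norm_pow]
      obtain ⟨c, hc⟩ := hPQ k
      have h3 : ‖(algebraMap ℚ_[ℓ] (PadicAlgCl ℓ)) (((P.coeff k - Q.coeff k : ℤ_[ℓ])) : ℚ_[ℓ])‖ ≤
          ((ℓ : ℝ)⁻¹) ^ N := by
        have h4 := PadicAlgCl.norm_extends ℓ (((P.coeff k - Q.coeff k : ℤ_[ℓ])) : ℚ_[ℓ])
        rw [h4, hc]
        have h5 : ‖((((ℓ : ℤ_[ℓ]) ^ N * c : ℤ_[ℓ])) : ℚ_[ℓ])‖ = ‖(ℓ : ℤ_[ℓ]) ^ N * c‖ := rfl
        rw [h5, norm_mul, norm_pow, PadicInt.norm_p]
        have h6 := PadicInt.norm_le_one c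
        have h7 : 0 ≤ ((ℓ : ℝ)⁻¹) ^ N := by positivity
        nlinarith [norm_nonneg c]
      have h8 : ‖γ i‖ ^ k ≤ 1 := pow_le_one₀ (norm_nonneg _) hγ1
      have h9 : 0 ≤ ‖γ i‖ ^ k := by positivity
      have h7 : 0 ≤ ((ℓ : ℝ)⁻¹) ^ N := by positivity
      calc _ ≤ ((ℓ : ℝ)⁻¹) ^ N * 1 := by gcongr
        _ = _ := mul_one _
    have e3 : Pb.eval (γ i) = (Pb.roots.map fun a => γ i - a).prod :=
      hsp.eval_eq_prod_roots_of_monic hPbm _
    have e4 : ∀ s : Multiset (PadicAlgCl ℓ), (∀ a ∈ s, δ ≤ ‖a - γ i‖) →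
        δ ^ s.card ≤ ‖(s.map fun a => γ i - a).prod‖ := by
      intro s
      induction s using Multiset.induction with
      | empty => intro _; simp
      | cons a s ih =>
        intro h
        rw [Multiset.map_cons, Multiset.prod_cons, norm_mul, Multiset.card_cons, pow_succ, mul_comm]
        have ha : δ ≤ ‖γ i - a‖ := by
          rw [norm_sub_rev]; exact h a (Multiset.mem_cons_self a s)
        have hs := ih fun b hb => h b (Multiset.mem_cons_of_mem hb)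
        exact mul_le_mul ha hs (by positivity) (norm_nonneg _)
    have e5 := e4 Pb.roots hcon
    rw [← e3, hcard] at e5
    linarith
  choose β hβ1 hβ2 using key
  refine ⟨β, ?_, ?_, ?_⟩
  · intro i j hij
    by_contra hne
    have h1 := hδ (i, j) hne
    have h2 : ‖γ i - γ j‖ ≤ max ‖γ i - β i‖ ‖β j - γ j‖ := by
      have : γ i - γ j = (γ i - β i) + (β j - γ j) := by rw [hij]; ring
      rw [this]
      exact PadicAlgCl.isNonarchimedean ℓ _ _
    have h3 : ‖γ i - β i‖ < δ := by rw [norm_sub_rev]; exact hβ2 i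
    have h4 := max_lt h3 (hβ2 j)
    simp only at h1
    linarith
  · intro i
    rw [haev]
    exact (mem_roots'.1 (hβ1 i)).2
  · intro i j hij
    refine lt_of_lt_of_le (hβ2 i) ?_
    by_contra hlt
    rw [not_le] at hlt
    have h1 := hδ (i, j) hij
    have h2 : ‖γ i - γ j‖ ≤ max ‖γ i - β j‖ ‖β j - γ j‖ := by
      have : γ i - γ j = (γ i - β j) + (β j - γ j) := by ring
      rw [this]
      exact PadicAlgCl.isNonarchimedean ℓ _ _
    have h3 : ‖γ i - β j‖ < δ := by rw [norm_sub_rev]; exact hlt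
    have h4 := max_lt h3 (hβ2 j)
    simp only at h1
    linarith

/-- If moreover the `γ_i` lie in `ℚ_ℓ` and the `β_i` are all the roots of `P`, then `P` splits over `ℚ_ℓ`.

Proof. The `β_i` are all the roots of `P`, because there are at most `D` of them
(`Set.eq_of_subset_of_ncard_le`).  Let `σ` be an automorphism of the algebraic closure over `ℚ_ℓ`.
`σ β_i` is a root, so `σ β_i = β_j` for some `j`, and `‖β_j - γ_i‖ = ‖σ (β_i - γ_i)‖ = ‖β_i - γ_i‖`
(`spectralNorm_eq_of_equiv`), so `j = i`.  So `β_i` is fixed by all `σ`, so it lies in `ℚ_ℓ`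
(`IsGalois.mem_bot_iff_fixed` or `InfiniteGalois`; characteristic zero).  `P` splits over the algebraic
closure and all its roots are in the range of `algebraMap`, so `P` splits over `ℚ_ℓ`
(`Polynomial.Splits.of_splits_map_of_injective` or similar). -/
theorem splits_of_close {D : ℕ} (γ : Fin D → ℚ_[ℓ]) (β : Fin D → PadicAlgCl ℓ)
    (hβ : Function.Injective β) (P : ℚ_[ℓ][X]) (hP : P ≠ 0)
    (hroot : ∀ i, aeval (β i) P = 0) (hcard : (P.rootSet (PadicAlgCl ℓ)).ncard ≤ D)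
    (hlt : ∀ i j, i ≠ j → ‖β i - algebraMap ℚ_[ℓ] (PadicAlgCl ℓ) (γ i)‖ <
      ‖β j - algebraMap ℚ_[ℓ] (PadicAlgCl ℓ) (γ i)‖) :
    P.Splits ∧ (P.rootSet ℚ_[ℓ]).ncard = D := by
  classical
  have hsub : Set.range β ⊆ P.rootSet (PadicAlgCl ℓ) := by
    rintro _ ⟨i, rfl⟩
    rw [mem_rootSet]
    exact ⟨hP, hroot i⟩
  have hfin : (P.rootSet (PadicAlgCl ℓ)).Finite := rootSet_finite P _
  have hcr : (Set.range β).ncard = D := by
    rw [← Set.image_univ, Set.ncard_image_of_injective _ hβ, Set.ncard_univ, Nat.card_eq_fintype_card,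
      Fintype.card_fin]
  have hrange : Set.range β = P.rootSet (PadicAlgCl ℓ) :=
    Set.eq_of_subset_of_ncard_le hsub (by rw [hcr]; exact hcard) hfin
  have hbot : ∀ i, ∃ b : ℚ_[ℓ], algebraMap ℚ_[ℓ] (PadicAlgCl ℓ) b = β i := by
    intro i
    have h1 : β i ∈ (⊥ : IntermediateField ℚ_[ℓ] (PadicAlgCl ℓ)) := by
      rw [InfiniteGalois.mem_bot_iff_fixed]
      intro σ
      have h2 : σ (β i) ∈ Set.range β := by
        rw [hrange, mem_rootSet]
        refine ⟨hP, ?_⟩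
        have h3 : aeval (σ (β i)) P = σ (aeval (β i) P) :=
          aeval_algHom_apply σ.toAlgHom (β i) P
        rw [h3, hroot i, map_zero]
      obtain ⟨j, hj⟩ := h2
      by_cases hij : i = j
      · rw [← hj, hij]
      · exfalso
        have h3 := hlt i j hij
        have h4 : β j - algebraMap ℚ_[ℓ] (PadicAlgCl ℓ) (γ i) =
            σ (β i - algebraMap ℚ_[ℓ] (PadicAlgCl ℓ) (γ i)) := by
          rw [map_sub, hj, AlgEquiv.commutes]
        have h5 : ‖σ (β i - algebraMap ℚ_[ℓ] (PadicAlgCl ℓ) (γ i))‖ =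
            ‖β i - algebraMap ℚ_[ℓ] (PadicAlgCl ℓ) (γ i)‖ :=
          (spectralNorm_eq_of_equiv σ _).symm
        rw [h4, h5] at h3
        exact lt_irrefl _ h3
    rw [IntermediateField.mem_bot] at h1
    exact h1
  have hroots : ∀ z ∈ P.rootSet (PadicAlgCl ℓ), ∃ b : ℚ_[ℓ],
      algebraMap ℚ_[ℓ] (PadicAlgCl ℓ) b = z := by
    intro z hz
    rw [← hrange] at hz
    obtain ⟨i, rfl⟩ := hz
    exact hbot i
  constructor
  · refine Splits.of_splits_map (algebraMap ℚ_[ℓ] (PadicAlgCl ℓ)) (IsAlgClosed.splits _) ?_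
    intro a ha
    have h1 : a ∈ P.rootSet (PadicAlgCl ℓ) := by
      rw [rootSet_def]
      simpa [aroots] using ha
    exact hroots a h1
  · rw [← hcr, hrange]
    have h1 : P.rootSet (PadicAlgCl ℓ) =
        algebraMap ℚ_[ℓ] (PadicAlgCl ℓ) '' P.rootSet ℚ_[ℓ] := by
      ext z
      constructor
      · intro hz
        obtain ⟨b, rfl⟩ := hroots z hz
        refine ⟨b, ?_, rfl⟩
        rw [mem_rootSet] at hz ⊢
        refine ⟨hP, ?_⟩
        have h2 := hz.2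
        rw [aeval_algebraMap_apply] at h2
        exact (map_eq_zero_iff _ (algebraMap ℚ_[ℓ] (PadicAlgCl ℓ)).injective).1 h2
      · rintro ⟨b, hb, rfl⟩
        rw [mem_rootSet] at hb ⊢
        refine ⟨hP, ?_⟩
        rw [aeval_algebraMap_apply, hb.2, map_zero]
    rw [h1, Set.ncard_image_of_injective _ (algebraMap ℚ_[ℓ] (PadicAlgCl ℓ)).injective]

end Pool.Agent.T10
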