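import Pool.Agent.W_b4801b_t10.ApxDefs

/-!
# Congruence of matrices
-/

set_option autoImplicit false

noncomputable section

open Polynomial

namespace Pool.Agent.T10

variable {ℓ : ℕ} [Fact ℓ.Prime] {n : ℕ}

theorem ApxC_toQ_eq (X : Matrix (Fin n) (Fin n) ℤ_[ℓ]) :
    toQ X = (algebraMap ℤ_[ℓ] ℚ_[ℓ]).mapMatrix X := rfl

theorem toQ_mul (X Y : Matrix (Fin n) (Fin n) ℤ_[ℓ]) : toQ (X * Y) = toQ X * toQ Y := by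
  rw [ApxC_toQ_eq, ApxC_toQ_eq, ApxC_toQ_eq, map_mul]

theorem toQ_one : toQ (1 : Matrix (Fin n) (Fin n) ℤ_[ℓ]) = 1 := by
  rw [ApxC_toQ_eq, map_one]

theorem toQ_pow (X : Matrix (Fin n) (Fin n) ℤ_[ℓ]) (m : ℕ) : toQ (X ^ m) = toQ X ^ m := by
  rw [ApxC_toQ_eq, ApxC_toQ_eq, map_pow]

theorem toQ_injective : Function.Injective (toQ (ℓ := ℓ) (n := n)) := by
  intro X Y h
  ext i j
  have h1 := congrFun (congrFun h i) j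
  unfold toQ at h1
  rw [Matrix.map_apply, Matrix.map_apply] at h1
  have h2 := IsFractionRing.injective ℤ_[ℓ] ℚ_[ℓ] h1
  rw [h2]

/-- `Matrix.charpoly_map`. -/
theorem charpoly_toQ (X : Matrix (Fin n) (Fin n) ℤ_[ℓ]) :
    (toQ X).charpoly = X.charpoly.map (algebraMap ℤ_[ℓ] ℚ_[ℓ]) := by
  unfold toQ
  exact Matrix.charpoly_map X _

theorem Cg.mono {N N' : ℕ} (h : N' ≤ N) {M : Matrix (Fin n) (Fin n) ℚ_[ℓ]} (hM : Cg ℓ N M) :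
    Cg ℓ N' M := by
  obtain ⟨X, rfl⟩ := hM
  refine ⟨(ℓ : ℤ_[ℓ]) ^ (N - N') • X, ?_⟩
  rw [smul_smul, ← pow_add, Nat.add_sub_cancel' h]

/-- If `X` is congruent to `1` modulo `ℓ ^ N`, `N ≥ 1`, then `X ^ ℓ` is congruent to `1` modulo
`ℓ ^ (N + 1)`: `(1 + ℓ^N Y)^ℓ = ∑ C(ℓ,j) ℓ^(N j) Y^j` (`Commute.add_pow`); for `1 ≤ j < ℓ` the
coefficient is divisible by `ℓ · ℓ^(N j)` (`Nat.Prime.dvd_choose_self`) and for `j = ℓ` we have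
`N ℓ ≥ N + 1`. -/
theorem one_add_pow_prime (N : ℕ) (hN : 1 ≤ N) (Y : Matrix (Fin n) (Fin n) ℤ_[ℓ]) :
    ∃ Z : Matrix (Fin n) (Fin n) ℤ_[ℓ],
      (1 + (ℓ : ℤ_[ℓ]) ^ N • Y) ^ ℓ = 1 + (ℓ : ℤ_[ℓ]) ^ (N + 1) • Z := by
  have hp : ℓ.Prime := Fact.out
  have h2 : 2 ≤ ℓ := hp.two_le
  refine ⟨(ℓ : ℤ_[ℓ]) ^ (N * ℓ - (N + 1)) • Y ^ ℓ +
    ∑ k ∈ Finset.Ioo 0 ℓ, ((ℓ.choose k / ℓ : ℕ) : ℤ_[ℓ]) •
      ((ℓ : ℤ_[ℓ]) ^ (N * (ℓ - k - 1)) • Y ^ (ℓ - k)), ?_⟩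
  rw [Commute.add_pow_prime_eq hp (Commute.one_left _), one_pow, _root_.smul_pow, ← pow_mul,
    smul_add, smul_smul, ← pow_add]
  have h3 : N + 1 + (N * ℓ - (N + 1)) = N * ℓ := by
    have : N + 1 ≤ N * ℓ := by nlinarith
    omega
  rw [h3, ← add_assoc]
  congr 1
  rw [Finset.smul_sum, Finset.mul_sum]
  refine Finset.sum_congr rfl fun k hk => ?_
  rw [Finset.mem_Ioo] at hk
  rw [one_pow, one_mul, _root_.smul_pow, ← pow_mul, mul_one]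
  have h4 : ((ℓ.choose k / ℓ : ℕ) : Matrix (Fin n) (Fin n) ℤ_[ℓ]) =
      ((ℓ.choose k / ℓ : ℕ) : ℤ_[ℓ]) • (1 : Matrix (Fin n) (Fin n) ℤ_[ℓ]) := by
    rw [Nat.cast_smul_eq_nsmul, nsmul_eq_mul, mul_one]
  have h5 : (ℓ : Matrix (Fin n) (Fin n) ℤ_[ℓ]) =
      (ℓ : ℤ_[ℓ]) • (1 : Matrix (Fin n) (Fin n) ℤ_[ℓ]) := by
    rw [Nat.cast_smul_eq_nsmul, nsmul_eq_mul, mul_one]
  rw [h4, h5]
  rw [smul_mul_smul_comm, smul_mul_smul_comm, smul_mul_smul_comm, mul_one, one_mul, smul_smul,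
    smul_smul]
  have h7 : Y * Y ^ (ℓ - k - 1) = Y ^ (ℓ - k) := by
    rw [← pow_succ']
    congr 1
    omega
  rw [h7]
  congr 1
  rw [pow_succ]
  ring

/-- Iteration of `one_add_pow_prime`. -/
theorem one_add_pow_prime_pow (N : ℕ) (hN : 1 ≤ N) (t : ℕ) (Y : Matrix (Fin n) (Fin n) ℤ_[ℓ]) :
    ∃ Z : Matrix (Fin n) (Fin n) ℤ_[ℓ],
      (1 + (ℓ : ℤ_[ℓ]) ^ N • Y) ^ (ℓ ^ t) = 1 + (ℓ : ℤ_[ℓ]) ^ (N + t) • Z := by
  induction t with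
  | zero => exact ⟨Y, by rw [pow_zero, pow_one, Nat.add_zero]⟩
  | succ t ih =>
    obtain ⟨Z, hZ⟩ := ih
    obtain ⟨W, hW⟩ := one_add_pow_prime (N + t) (by omega) Z
    refine ⟨W, ?_⟩
    rw [pow_succ, pow_mul, hZ, hW]
    rfl

/-- Congruent matrices have congruent characteristic polynomials: map to
`ℤ_ℓ ⧸ span {ℓ ^ N}` and use `Matrix.charpoly_map`. -/
theorem charpoly_congr (N : ℕ) (X Y : Matrix (Fin n) (Fin n) ℤ_[ℓ]) (i : ℕ) :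
    (ℓ : ℤ_[ℓ]) ^ N ∣ (X + (ℓ : ℤ_[ℓ]) ^ N • Y).charpoly.coeff i - X.charpoly.coeff i := by
  rw [← Ideal.mem_span_singleton, ← Ideal.Quotient.eq]
  set π := Ideal.Quotient.mk (Ideal.span {(ℓ : ℤ_[ℓ]) ^ N}) with hπ
  rw [← Polynomial.coeff_map, ← Polynomial.coeff_map, ← Matrix.charpoly_map,
    ← Matrix.charpoly_map]
  have h1 : (X + (ℓ : ℤ_[ℓ]) ^ N • Y).map π = X.map π := by
    ext a b
    rw [Matrix.map_apply, Matrix.map_apply, hπ, Ideal.Quotient.eq, Ideal.mem_span_singleton,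
      Matrix.add_apply, Matrix.smul_apply, smul_eq_mul, add_sub_cancel_left]
    exact dvd_mul_right _ _
  rw [h1]

end Pool.Agent.T10
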