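import Pool.Agent.W_b4801b_t10.ApxDefs

/-!
# Charts
-/

set_option autoImplicit false

noncomputable section

open Polynomial

universe u v

namespace Pool.Agent.T10

open Pool.Agent.B4801b

theorem ApxD_add {ℓ : ℕ} [Fact ℓ.Prime] {r : ℝ} {x y : ℚ_[ℓ]} (hx : ‖x‖ ≤ r) (hy : ‖y‖ ≤ r) :
    ‖x + y‖ ≤ r :=
  (Padic.nonarchimedean x y).trans (max_le hx hy)

theorem ApxD_sum {ℓ : ℕ} [Fact ℓ.Prime] {r : ℝ} (hr : 0 ≤ r) {ι : Type} (s : Finset ι)
    (f : ι → ℚ_[ℓ]) (hf : ∀ i ∈ s, ‖f i‖ ≤ r) : ‖∑ i ∈ s, f i‖ ≤ r := by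
  refine Finset.sum_induction f (fun x => ‖x‖ ≤ r) (fun _ _ => ApxD_add) ?_ hf
  rw [norm_zero]
  exact hr

/-- The matrices which are close to `1`. -/
def ApxDClose {ℓ : ℕ} [Fact ℓ.Prime] (r : ℝ) {n : ℕ} (M : Matrix (Fin n) (Fin n) ℚ_[ℓ]) : Prop :=
  ∀ i j, ‖(M - 1) i j‖ ≤ r

theorem ApxD_close_mul {ℓ : ℕ} [Fact ℓ.Prime] {r : ℝ} (hr : 0 ≤ r) (hr1 : r ≤ 1) {n : ℕ}
    {M M' : Matrix (Fin n) (Fin n) ℚ_[ℓ]} (hM : ApxDClose r M) (hM' : ApxDClose r M') :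
    ApxDClose r (M * M') := by
  intro i j
  have h1 : M * M' - 1 = (M - 1) * (M' - 1) + ((M - 1) + (M' - 1)) := by noncomm_ring
  rw [h1, Matrix.add_apply, Matrix.add_apply, Matrix.mul_apply]
  refine ApxD_add (ApxD_sum hr _ _ fun l _ => ?_) (ApxD_add (hM i j) (hM' i j))
  rw [norm_mul]
  calc ‖(M - 1) i l‖ * ‖(M' - 1) l j‖ ≤ r * 1 :=
        mul_le_mul (hM i l) ((hM' l j).trans hr1) (norm_nonneg _) hr
    _ = r := mul_one r

theorem ApxD_cong {ℓ : ℕ} [Fact ℓ.Prime] (N : ℕ) {n : ℕ} {M : Matrix (Fin n) (Fin n) ℚ_[ℓ]}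
    (hM : ApxDClose (((ℓ : ℝ) ^ N)⁻¹) M) : Cg ℓ N M := by
  have hl : (0 : ℝ) < (ℓ : ℝ) ^ N := by
    have : (0 : ℝ) < ℓ := by exact_mod_cast (Fact.out : ℓ.Prime).pos
    positivity
  have hl0 : ((ℓ : ℚ_[ℓ]) ^ N) ≠ 0 := by
    apply pow_ne_zero
    exact_mod_cast (Fact.out : ℓ.Prime).ne_zero
  have hnorm : ‖((ℓ : ℚ_[ℓ]) ^ N)⁻¹‖ = (ℓ : ℝ) ^ N := by
    rw [norm_inv, norm_pow, Padic.norm_p, inv_pow, inv_inv]
  have hle : ∀ i j, ‖((ℓ : ℚ_[ℓ]) ^ N)⁻¹ * (M - 1) i j‖ ≤ 1 := by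
    intro i j
    rw [norm_mul, hnorm]
    calc (ℓ : ℝ) ^ N * ‖(M - 1) i j‖ ≤ (ℓ : ℝ) ^ N * ((ℓ : ℝ) ^ N)⁻¹ :=
          mul_le_mul_of_nonneg_left (hM i j) hl.le
      _ = 1 := mul_inv_cancel₀ hl.ne'
  refine ⟨Matrix.of fun i j => ⟨((ℓ : ℚ_[ℓ]) ^ N)⁻¹ * (M - 1) i j, hle i j⟩, ?_⟩
  ext i j
  rw [toQ, Matrix.map_apply, PadicInt.algebraMap_apply, Matrix.add_apply, Matrix.smul_apply,
    Matrix.of_apply, smul_eq_mul]
  push_cast
  rw [← mul_assoc, mul_inv_cancel₀ hl0, one_mul, Matrix.sub_apply]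
  by_cases hij : i = j
  · subst hij
    simp
  · simp [Matrix.one_apply_ne hij]

/-- Every polarized representation has a chart.

Proof. Choose a basis `b` of `V` (`Module.finBasis ℚ_[ℓ] R.V`) and let `M g` be the matrix of `R.ρ g`
(`LinearMap.toMatrix b b`; multiplicative by `LinearMap.toMatrix_mul`, the characteristic polynomial is
`LinearMap.charpoly_toMatrix`).  The entries `M g i j = b.coord i (R.ρ g (b j))` are continuous in `g`
(`R.continuous`).  Let `U N = {g | ∀ i j, ‖(M g - 1) i j‖ ≤ ℓ ^ (-N) ∧ ‖(M g⁻¹ - 1) i j‖ ≤ ℓ ^ (-N)}`: a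
subgroup, because `M (g h) - 1 = (M g - 1) (M h - 1) + (M g - 1) + (M h - 1)` and the norm is
ultrametric; open, because `g ↦ M g i j` and `g ↦ M g⁻¹ i j` are continuous and closed balls of radius
`ℓ ^ (-N) > 0` are open (`IsUltrametricDist.isOpen_closedBall`).  For `g ∈ U N` the matrix
`ℓ ^ (-N) (M g - 1)` has entries of norm at most one, that is entries in `ℤ_[ℓ]`. -/
theorem exists_chart {k : Type u} [Field k] {w ℓ : ℕ} [Fact ℓ.Prime] (R : PolRep.{u, v} k w ℓ) :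
    Nonempty (Chart R) := by
  classical
  let b := Module.finBasis ℚ_[ℓ] R.V
  let M : Gal k →* Matrix (Fin (Module.finrank ℚ_[ℓ] R.V)) (Fin (Module.finrank ℚ_[ℓ] R.V))
      ℚ_[ℓ] :=
    { toFun := fun g => LinearMap.toMatrix b b (R.ρ g)
      map_one' := by
        rw [map_one]
        exact LinearMap.toMatrix_one b
      map_mul' := fun g h => by
        rw [map_mul]
        exact LinearMap.toMatrix_mul b _ _ }
  have hM : ∀ g, M g = LinearMap.toMatrix b b (R.ρ g) := fun _ => rfl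
  have hcont : ∀ i j, Continuous fun g : Gal k => (M g - 1) i j := by
    intro i j
    have h1 : (fun g : Gal k => (M g - 1) i j) =
        fun g => b.coord i (R.ρ g (b j)) - (1 : Matrix _ _ ℚ_[ℓ]) i j := by
      funext g
      rw [Matrix.sub_apply, hM, LinearMap.toMatrix_apply]
      rfl
    rw [h1]
    exact (R.continuous (b.coord i) (b j)).sub continuous_const
  have hl1 : (1 : ℝ) ≤ ℓ := by exact_mod_cast (Fact.out : ℓ.Prime).one_le
  have hr : ∀ N : ℕ, 0 < ((ℓ : ℝ) ^ N)⁻¹ ∧ ((ℓ : ℝ) ^ N)⁻¹ ≤ 1 := by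
    intro N
    refine ⟨by positivity, inv_le_one_of_one_le₀ (one_le_pow₀ hl1)⟩
  let U : ℕ → Subgroup (Gal k) := fun N =>
    { carrier := {g | ApxDClose (((ℓ : ℝ) ^ N)⁻¹) (M g) ∧ ApxDClose (((ℓ : ℝ) ^ N)⁻¹) (M g⁻¹)}
      one_mem' := by
        have h1 : ApxDClose (((ℓ : ℝ) ^ N)⁻¹) (M 1) := by
          intro i j
          rw [map_one, sub_self, Matrix.zero_apply, norm_zero]
          exact (hr N).1.le
        refine ⟨h1, ?_⟩
        rw [inv_one]
        exact h1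
      mul_mem' := fun {g h} hg hh => by
        refine ⟨?_, ?_⟩
        · rw [map_mul]
          exact ApxD_close_mul (hr N).1.le (hr N).2 hg.1 hh.1
        · rw [mul_inv_rev, map_mul]
          exact ApxD_close_mul (hr N).1.le (hr N).2 hh.2 hg.2
      inv_mem' := fun {g} hg => by
        refine ⟨hg.2, ?_⟩
        rw [inv_inv]
        exact hg.1 }
  refine ⟨⟨_, b, M, hM, U, fun N => ?_, fun N g hg => ApxD_cong N hg.1⟩⟩
  have hset : ((U N : Subgroup (Gal k)) : Set (Gal k)) =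
      (⋂ i, ⋂ j, {g : Gal k | ‖(M g - 1) i j‖ ≤ ((ℓ : ℝ) ^ N)⁻¹}) ∩
        ⋂ i, ⋂ j, {g : Gal k | ‖(M g⁻¹ - 1) i j‖ ≤ ((ℓ : ℝ) ^ N)⁻¹} := by
    ext g
    simp only [Set.mem_inter_iff, Set.mem_iInter, Set.mem_ofPred_eq]
    exact Iff.rfl
  have hball : ∀ i j, IsOpen {g : Gal k | ‖(M g - 1) i j‖ ≤ ((ℓ : ℝ) ^ N)⁻¹} := by
    intro i j
    have h1 : IsOpen (Metric.closedBall (0 : ℚ_[ℓ]) (((ℓ : ℝ) ^ N)⁻¹)) :=
      IsUltrametricDist.isOpen_closedBall _ (hr N).1.ne'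
    have h2 := h1.preimage (hcont i j)
    convert h2 using 1
    ext g
    simp only [Set.mem_ofPred_eq, Set.mem_preimage, mem_closedBall_zero_iff]
  rw [hset]
  refine (isOpen_iInter_of_finite fun i => isOpen_iInter_of_finite fun j => hball i j).inter
    (isOpen_iInter_of_finite fun i => isOpen_iInter_of_finite fun j => ?_)
  exact (hball i j).preimage continuous_inv

theorem Chart.charpoly_eq {k : Type u} [Field k] {w ℓ : ℕ} [Fact ℓ.Prime] {R : PolRep.{u, v} k w ℓ}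
    (c : Chart R) (g : Gal k) : (R.ρ g).charpoly = (c.M g).charpoly := by
  rw [c.M_eq, LinearMap.charpoly_toMatrix]

/-- Some power of `g` lies in the open subgroup `U`.

Proof. `U` contains the fixing subgroup of a finite extension `E` of `k`
(`krullTopology_mem_nhds_one_iff`); `E` is generated by finitely many elements `a_1, ..., a_r`.  The
finite set of all roots in the algebraic closure of the minimal polynomials of the `a_i` is permuted by
`g`; a power of this permutation is the identity (`pow_card_eq_one`, `isOfFinOrder_of_finite`), so that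
power of `g` fixes all `a_i`, hence `E`. -/
theorem exists_pow_mem {k : Type u} [Field k] (U : Subgroup (Gal k))
    (hU : IsOpen (U : Set (Gal k))) (g : Gal k) : ∃ a : ℕ, 0 < a ∧ g ^ a ∈ U := by
  have h1 : (U : Set (Gal k)) ∈ nhds (1 : Gal k) := hU.mem_nhds U.one_mem
  rw [krullTopology_mem_nhds_one_iff_of_normal] at h1
  obtain ⟨E, hfd, hn, hE⟩ := h1
  have hfin : Finite (↥E ≃ₐ[k] ↥E) := inferInstance
  refine ⟨Nat.card (↥E ≃ₐ[k] ↥E), Nat.card_pos, hE ?_⟩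
  rw [← IntermediateField.restrictNormalHom_ker E]
  change AlgEquiv.restrictNormalHom (↥E) (g ^ Nat.card (↥E ≃ₐ[k] ↥E)) = 1
  rw [map_pow]
  exact pow_card_eq_one'

end Pool.Agent.T10
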