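import Pool.Agent.W_b4801b_t10.Defs

/-!
# Congruences of matrices over `ℤ_ℓ` (definitions for the approximation step)

`toQ X` is the matrix `X` over `ℤ_ℓ`, seen over `ℚ_ℓ`.  `Cg ℓ N M` : the matrix `M` over `ℚ_ℓ` is
`1 + ℓ^N X` with `X` over `ℤ_ℓ`.
-/

set_option autoImplicit false

noncomputable section

open Polynomial Filter Topology

universe u v

namespace Pool.Agent.T10

open Pool.Agent.B4801b

/-- A matrix over `ℤ_ℓ`, seen as a matrix over `ℚ_ℓ`. -/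
def toQ {ℓ : ℕ} [Fact ℓ.Prime] {n : ℕ} (X : Matrix (Fin n) (Fin n) ℤ_[ℓ]) :
    Matrix (Fin n) (Fin n) ℚ_[ℓ] :=
  X.map (algebraMap ℤ_[ℓ] ℚ_[ℓ])

/-- The matrix `M` over `ℚ_ℓ` is congruent to `1` modulo `ℓ ^ N`. -/
def Cg (ℓ : ℕ) [Fact ℓ.Prime] (N : ℕ) {n : ℕ} (M : Matrix (Fin n) (Fin n) ℚ_[ℓ]) : Prop :=
  ∃ X : Matrix (Fin n) (Fin n) ℤ_[ℓ], M = toQ (1 + (ℓ : ℤ_[ℓ]) ^ N • X)

/-- A matrix form `M` of the representation of `Gal k` on `V`, with the open subgroups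
`{g | M g ≡ 1 mod ℓ ^ N}`. -/
structure Chart {k : Type u} [Field k] {w ℓ : ℕ} [Fact ℓ.Prime] (R : PolRep.{u, v} k w ℓ) where
  /-- the dimension -/
  n : ℕ
  /-- the basis -/
  b : Module.Basis (Fin n) ℚ_[ℓ] R.V
  /-- the matrices of the operators -/
  M : Gal k →* Matrix (Fin n) (Fin n) ℚ_[ℓ]
  M_eq : ∀ g, M g = LinearMap.toMatrix b b (R.ρ g)
  /-- the congruence subgroups -/
  U : ℕ → Subgroup (Gal k)
  isOpen : ∀ N, IsOpen ((U N : Subgroup (Gal k)) : Set (Gal k))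
  cong : ∀ N, ∀ g ∈ U N, Cg ℓ N (M g)

end Pool.Agent.T10
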