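import Mathlib

/-!
# Exponents and products in monoids
-/

set_option autoImplicit false

namespace Pool.Agent.T10

/-- Chinese remainder theorem: `n = (∏_{ℓ' ∈ T, ℓ' ≠ ℓ} ℓ' ^ t) ^ φ(ℓ ^ t)` (for `t = 0` take
`n = 1 + ...`; or use `Nat.chineseRemainder`). -/
theorem exists_exponent (T : Finset ℕ) (hT : ∀ ℓ ∈ T, ℓ.Prime) (t ℓ : ℕ) (hℓ : ℓ ∈ T) :
    ∃ n m : ℕ, n = 1 + ℓ ^ t * m ∧ ∀ ℓ' ∈ T, ℓ' ≠ ℓ → ℓ' ^ t ∣ n := by
  set P : ℕ := ∏ q ∈ T.erase ℓ, q ^ t with hP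
  have hℓp : ℓ.Prime := hT ℓ hℓ
  have hcop : Nat.Coprime P (ℓ ^ t) := by
    rw [hP]
    refine Nat.Coprime.prod_left fun q hq => ?_
    have hq' := Finset.mem_erase.mp hq
    exact Nat.Coprime.pow t t ((Nat.coprime_primes (hT q hq'.2) hℓp).mpr hq'.1)
  have hmod : P ^ Nat.totient (ℓ ^ t) ≡ 1 [MOD ℓ ^ t] := Nat.ModEq.pow_totient hcop
  have hPpos : 0 < P := by
    rw [hP]
    exact Finset.prod_pos fun q hq => pow_pos (hT q (Finset.mem_erase.mp hq).2).pos t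
  have h1 : 1 ≤ P ^ Nat.totient (ℓ ^ t) := Nat.one_le_pow _ _ hPpos
  have hdvd : ℓ ^ t ∣ P ^ Nat.totient (ℓ ^ t) - 1 := (Nat.modEq_iff_dvd' h1).mp hmod.symm
  obtain ⟨m, hm⟩ := hdvd
  refine ⟨P ^ Nat.totient (ℓ ^ t), m, ?_, ?_⟩
  · omega
  · intro q hq hqℓ
    have h2 : q ^ t ∣ P := Finset.dvd_prod_of_mem (fun q => q ^ t) (Finset.mem_erase.mpr ⟨hqℓ, hq⟩)
    have h3 : Nat.totient (ℓ ^ t) ≠ 0 := by
      have : 0 < Nat.totient (ℓ ^ t) := Nat.totient_pos.mpr (pow_pos hℓp.pos t)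
      omega
    exact dvd_pow h2 h3

/-- A product over a list without repetitions in which only the factor of `a` is not `1`. -/
theorem prod_map_eq_single {ι M : Type*} [Monoid M] (L : List ι) (hL : L.Nodup) (f : ι → M) (a : ι)
    (ha : a ∈ L) (h : ∀ b ∈ L, b ≠ a → f b = 1) : (L.map f).prod = f a := by
  induction L with
  | nil => simp at ha
  | cons b L ih =>
    rw [List.map_cons, List.prod_cons]
    rw [List.nodup_cons] at hL
    rcases List.mem_cons.mp ha with rfl | ha'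
    · have h1 : (L.map f).prod = 1 := by
        apply List.prod_eq_one
        intro x hx
        obtain ⟨c, hc, rfl⟩ := List.mem_map.mp hx
        refine h c (List.mem_cons_of_mem _ hc) ?_
        rintro rfl
        exact hL.1 hc
      rw [h1, mul_one]
    · have hb : b ≠ a := by
        rintro rfl
        exact hL.1 ha'
      rw [h b List.mem_cons_self hb, one_mul]
      exact ih hL.2 ha' fun c hc hca => h c (List.mem_cons_of_mem _ hc) hca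

/-- Let `K` be a group, `e : T → K`, and `φ : K →* M` with `φ g ^ (ℓ ^ t) = 1` for all `g`.  With the
exponents of `exists_exponent`, `φ (∏ e(ℓ')^(n ℓ')) = φ (e ℓ)`. -/
theorem map_prod_pow {K M : Type*} [Group K] [Monoid M] (T : Finset ℕ) (t ℓ : ℕ) (hℓ : ℓ ∈ T)
    (n m : ℕ → ℕ) (hn : n ℓ = 1 + ℓ ^ t * m ℓ) (hn' : ∀ ℓ' ∈ T, ℓ' ≠ ℓ → ℓ ^ t ∣ n ℓ')
    (e : ℕ → K) (φ : K →* M) (hφ : ∀ g, φ g ^ (ℓ ^ t) = 1) :
    φ ((T.toList.map fun ℓ' => e ℓ' ^ n ℓ').prod) = φ (e ℓ) := by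
  rw [map_list_prod, List.map_map]
  rw [prod_map_eq_single T.toList T.nodup_toList (φ ∘ fun ℓ' => e ℓ' ^ n ℓ') ℓ
    (Finset.mem_toList.mpr hℓ)]
  · change φ (e ℓ ^ n ℓ) = φ (e ℓ)
    rw [hn, pow_add, pow_one, pow_mul, map_mul, map_pow, map_pow, hφ, one_pow, mul_one]
  · intro q hq hqℓ
    change φ (e q ^ n q) = 1
    obtain ⟨c, hc⟩ := hn' q (Finset.mem_toList.mp hq) hqℓ
    rw [hc, pow_mul, map_pow, map_pow, hφ, one_pow]

end Pool.Agent.T10
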