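import Pool.Agent.W_b4801b_t10.ApxC
import Pool.Agent.W_b4801b_t10.ApxD
import Pool.Agent.W_b4801b_t10.ApxE

/-!
# Approximation of group elements by Frobenius elements
-/

set_option autoImplicit false

noncomputable section

open Polynomial

universe u v

namespace Pool.Agent.T10

open Pool.Agent.B4801b

variable {k : Type u} [Field k] {w : ℕ}

/-- A chart of `S.rep ℓ`. -/
def chartOf (S : CompSys.{u, v} k w) (ℓ : ℕ) [Fact ℓ.Prime] : Chart (S.rep ℓ) :=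
  (exists_chart (S.rep ℓ)).some

/-- The elements congruent to one modulo `ℓ ^ N` for all primes `ℓ` of `T`. -/
def UT (S : CompSys.{u, v} k w) (T : Finset ℕ) (N : ℕ) : Subgroup (Gal k) :=
  ⨅ ℓ ∈ T, ⨅ h : ℓ.Prime, haveI : Fact ℓ.Prime := ⟨h⟩; (chartOf S ℓ).U N

theorem UT_le (S : CompSys.{u, v} k w) (T : Finset ℕ) (N ℓ : ℕ) (hℓ : ℓ ∈ T) [h : Fact ℓ.Prime] :
    UT S T N ≤ (chartOf S ℓ).U N :=
  (iInf₂_le ℓ hℓ).trans (iInf_le _ h.out)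

theorem isOpen_UT (S : CompSys.{u, v} k w) (T : Finset ℕ) (N : ℕ) :
    IsOpen (UT S T N : Set (Gal k)) := by
  have h : (UT S T N : Set (Gal k)) =
      ⋂ ℓ ∈ T, ⋂ h : ℓ.Prime, haveI : Fact ℓ.Prime := ⟨h⟩;
        ((chartOf S ℓ).U N : Set (Gal k)) := by
    simp [UT, Subgroup.coe_iInf]
  rw [h]
  refine isOpen_biInter_finset fun ℓ _ => ?_
  by_cases hp : ℓ.Prime
  · have : Fact ℓ.Prime := ⟨hp⟩
    have h2 : (⋂ h : ℓ.Prime, haveI : Fact ℓ.Prime := ⟨h⟩; ((chartOf S ℓ).U N : Set (Gal k))) =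
        ((chartOf S ℓ).U N : Set (Gal k)) := by
      ext z; simp [hp]
    rw [h2]
    exact (chartOf S ℓ).isOpen N
  · simp [hp]

theorem charpoly_conj (S : CompSys.{u, v} k w) (ℓ : ℕ) [Fact ℓ.Prime] (c : Chart (S.rep ℓ))
    (h g : Gal k) : (c.M (h * g * h⁻¹)).charpoly = (c.M g).charpoly := by
  rw [map_mul, Matrix.charpoly_mul_comm, map_mul, ← mul_assoc, ← map_mul, inv_mul_cancel, map_one,
    one_mul]

theorem charpoly_frob_eq (S : CompSys.{u, v} k w) (ℓ : ℕ) [Fact ℓ.Prime] (c : Chart (S.rep ℓ))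
    (x : Place k) (hx : x ∈ S.Pl) (hp : ℓ ≠ x.p) :
    (c.M x.frob).charpoly = (S.P x).map (algebraMap ℚ ℚ_[ℓ]) := by
  rw [← c.charpoly_eq]
  exact S.charpoly_frob x hx ℓ hp

/-- Frobenius elements near a given element `g`. -/
theorem exists_frob_near (S : CompSys.{u, v} k w) (hd : DenseFrob S) (U : Subgroup (Gal k))
    (hU : IsOpen (U : Set (Gal k))) (g : Gal k) (T : Finset ℕ) (N : ℕ) :
    ∃ x ∈ S.Pl, x.p ∉ T ∧ (∃ h u : Gal k, u ∈ U ∧ h * x.frob * h⁻¹ = g * u) ∧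
      ∀ ℓ ∈ T, ∀ [Fact ℓ.Prime],
        ∀ Z : Matrix (Fin (chartOf S ℓ).n) (Fin (chartOf S ℓ).n) ℤ_[ℓ],
          (chartOf S ℓ).M g = toQ Z →
            ∃ Y : Matrix (Fin (chartOf S ℓ).n) (Fin (chartOf S ℓ).n) ℤ_[ℓ],
              (S.P x).map (algebraMap ℚ ℚ_[ℓ]) = (toQ (Z + (ℓ : ℤ_[ℓ]) ^ N • Y)).charpoly := by
  obtain ⟨x, hx, hxT, h, hu⟩ := hd (U ⊓ UT S T N)
    (by rw [Subgroup.coe_inf]; exact hU.inter (isOpen_UT S T N)) g T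
  have hconj : h * x.frob * h⁻¹ = g * (g⁻¹ * (h * x.frob * h⁻¹)) := by group
  refine ⟨x, hx, hxT, ⟨h, _, hu.1, hconj⟩, ?_⟩
  intro ℓ hℓ _ Z hZ
  have hp : ℓ ≠ x.p := fun h => hxT (h ▸ hℓ)
  obtain ⟨X, hX⟩ := (chartOf S ℓ).cong N _ (UT_le S T N ℓ hℓ hu.2)
  refine ⟨Z * X, ?_⟩
  rw [← charpoly_frob_eq S ℓ (chartOf S ℓ) x hx hp, ← charpoly_conj S ℓ _ h, hconj, map_mul, hZ, hX,
    ← toQ_mul]
  congr 2
  rw [mul_add, mul_one, Matrix.mul_smul]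

section Lift

variable {ℓ : ℕ} [Fact ℓ.Prime] {R : PolRep.{u, v} k w ℓ}

theorem Chart.lift_aux (c : Chart R) (v : c.U 2) :
    ∃ Z : Matrix (Fin c.n) (Fin c.n) ℤ_[ℓ], c.M v = toQ Z ∧
      ∃ X, Z = 1 + (ℓ : ℤ_[ℓ]) ^ 2 • X := by
  obtain ⟨X, hX⟩ := c.cong 2 v.1 v.2
  exact ⟨_, hX, X, rfl⟩

/-- The integral matrices of the elements congruent to one. -/
def Chart.lift (c : Chart R) : c.U 2 →* Matrix (Fin c.n) (Fin c.n) ℤ_[ℓ] where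
  toFun v := (c.lift_aux v).choose
  map_one' := toQ_injective (by
    rw [← (c.lift_aux 1).choose_spec.1, toQ_one]; simp)
  map_mul' v v' := toQ_injective (by
    rw [← (c.lift_aux (v * v')).choose_spec.1, toQ_mul, ← (c.lift_aux v).choose_spec.1,
      ← (c.lift_aux v').choose_spec.1]
    simp)

theorem Chart.lift_spec (c : Chart R) (v : c.U 2) : c.M v = toQ (c.lift v) :=
  (c.lift_aux v).choose_spec.1

theorem Chart.lift_spec' (c : Chart R) (v : c.U 2) : ∃ X, c.lift v = 1 + (ℓ : ℤ_[ℓ]) ^ 2 • X :=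
  (c.lift_aux v).choose_spec.2

/-- The integral matrices modulo `ℓ ^ t`. -/
def Chart.red (c : Chart R) (t : ℕ) :
    c.U 2 →* Matrix (Fin c.n) (Fin c.n) (ℤ_[ℓ] ⧸ Ideal.span {(ℓ : ℤ_[ℓ]) ^ t}) :=
  ((Ideal.Quotient.mk (Ideal.span {(ℓ : ℤ_[ℓ]) ^ t})).mapMatrix :
    Matrix (Fin c.n) (Fin c.n) ℤ_[ℓ] →+* _).toMonoidHom.comp c.lift

theorem Chart.red_pow (c : Chart R) (t : ℕ) (v : c.U 2) : c.red t v ^ (ℓ ^ t) = 1 := by
  obtain ⟨X, hX⟩ := c.lift_spec' v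
  obtain ⟨Z, hZ⟩ := one_add_pow_prime_pow 2 (by norm_num) t X
  have h1 : c.red t v ^ (ℓ ^ t) = (Ideal.Quotient.mk (Ideal.span {(ℓ : ℤ_[ℓ]) ^ t})).mapMatrix
      (c.lift v ^ (ℓ ^ t)) := by
    rw [map_pow]; rfl
  have h2 : Ideal.Quotient.mk (Ideal.span {(ℓ : ℤ_[ℓ]) ^ t}) ((ℓ : ℤ_[ℓ]) ^ (2 + t)) = 0 := by
    rw [Ideal.Quotient.eq_zero_iff_mem, Ideal.mem_span_singleton]
    exact pow_dvd_pow _ (by omega)
  rw [h1, hX, hZ, map_add, map_one]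
  ext i j
  simp [Matrix.add_apply, Matrix.smul_apply, h2]

theorem Chart.red_eq (c : Chart R) (t : ℕ) (v v' : c.U 2) (h : c.red t v = c.red t v') :
    ∃ X : Matrix (Fin c.n) (Fin c.n) ℤ_[ℓ], c.lift v = c.lift v' + (ℓ : ℤ_[ℓ]) ^ t • X := by
  have h1 : ∀ i j, (ℓ : ℤ_[ℓ]) ^ t ∣ c.lift v i j - c.lift v' i j := by
    intro i j
    rw [← Ideal.mem_span_singleton, ← Ideal.Quotient.eq]
    exact congrFun (congrFun h i) j
  choose X hX using h1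
  refine ⟨Matrix.of X, ?_⟩
  ext i j
  rw [Matrix.add_apply, Matrix.smul_apply, smul_eq_mul, Matrix.of_apply, ← hX]
  ring

end Lift

/-- Simultaneous approximation of elements at several primes. -/
theorem exists_product (S : CompSys.{u, v} k w) (T : Finset ℕ) (hT : ∀ ℓ ∈ T, ℓ.Prime)
    (U : Subgroup (Gal k)) (hU : IsOpen (U : Set (Gal k))) (e : ℕ → Gal k) :
    ∃ A : ℕ, 0 < A ∧ (∀ ℓ ∈ T, e ℓ ^ A ∈ U ⊓ UT S T 2) ∧ ∀ t : ℕ, ∃ g ∈ U ⊓ UT S T 2,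
      ∀ ℓ ∈ T, ∀ [Fact ℓ.Prime],
        ∀ Z : Matrix (Fin (chartOf S ℓ).n) (Fin (chartOf S ℓ).n) ℤ_[ℓ],
          (chartOf S ℓ).M (e ℓ ^ A) = toQ Z →
            ∃ X : Matrix (Fin (chartOf S ℓ).n) (Fin (chartOf S ℓ).n) ℤ_[ℓ],
              (chartOf S ℓ).M g = toQ (Z + (ℓ : ℤ_[ℓ]) ^ t • X) := by
  classical
  set V := U ⊓ UT S T 2 with hV
  have hVo : IsOpen (V : Set (Gal k)) := by
    rw [hV, Subgroup.coe_inf]; exact hU.inter (isOpen_UT S T 2)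
  have ha : ∀ ℓ : ℕ, ∃ a : ℕ, 0 < a ∧ e ℓ ^ a ∈ V := fun ℓ => exists_pow_mem V hVo (e ℓ)
  choose a ha0 haV using ha
  refine ⟨∏ ℓ ∈ T, a ℓ, Finset.prod_pos fun ℓ _ => ha0 ℓ, ?_, ?_⟩
  · intro ℓ hℓ
    rw [← Finset.mul_prod_erase T a hℓ, pow_mul]
    exact V.pow_mem (haV ℓ) _
  · intro t
    set A := ∏ ℓ ∈ T, a ℓ with hA
    have heV : ∀ ℓ ∈ T, e ℓ ^ A ∈ V := by
      intro ℓ hℓ
      rw [hA, ← Finset.mul_prod_erase T a hℓ, pow_mul]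
      exact V.pow_mem (haV ℓ) _
    let e' : ℕ → V := fun ℓ => if h : ℓ ∈ T then ⟨e ℓ ^ A, heV ℓ h⟩ else 1
    have hex : ∀ ℓ : ℕ, ∃ n m : ℕ, ℓ ∈ T → n = 1 + ℓ ^ t * m ∧ ∀ ℓ' ∈ T, ℓ' ≠ ℓ → ℓ' ^ t ∣ n := by
      intro ℓ
      by_cases hℓ : ℓ ∈ T
      · obtain ⟨n, m, h1, h2⟩ := exists_exponent T hT t ℓ hℓ
        exact ⟨n, m, fun _ => ⟨h1, h2⟩⟩
      · exact ⟨0, 0, fun h => absurd h hℓ⟩
    choose n m hnm using hex
    set g : V := (T.toList.map fun ℓ' => e' ℓ' ^ n ℓ').prod with hg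
    refine ⟨g.1, g.2, ?_⟩
    intro ℓ hℓ _ Z hZ
    have hle : V ≤ (chartOf S ℓ).U 2 := inf_le_right.trans (UT_le S T 2 ℓ hℓ)
    let φ : V →* Matrix (Fin (chartOf S ℓ).n) (Fin (chartOf S ℓ).n)
        (ℤ_[ℓ] ⧸ Ideal.span {(ℓ : ℤ_[ℓ]) ^ t}) :=
      ((chartOf S ℓ).red t).comp (Subgroup.inclusion hle)
    have h1 : φ g = φ (e' ℓ) := by
      refine map_prod_pow T t ℓ hℓ n m (hnm ℓ hℓ).1 ?_ e' φ fun v => (chartOf S ℓ).red_pow t _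
      intro ℓ' hℓ' hne
      exact (hnm ℓ' hℓ').2 ℓ hℓ (Ne.symm hne)
    obtain ⟨X, hX⟩ := (chartOf S ℓ).red_eq t _ _ h1
    refine ⟨X, ?_⟩
    have h2 := (chartOf S ℓ).lift_spec (Subgroup.inclusion hle g)
    have h3 := (chartOf S ℓ).lift_spec (Subgroup.inclusion hle (e' ℓ))
    have h4 : ((Subgroup.inclusion hle (e' ℓ)) : Gal k) = e ℓ ^ A := by
      simp [e', hℓ]
    have h5 : (chartOf S ℓ).lift (Subgroup.inclusion hle (e' ℓ)) = Z := by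
      apply toQ_injective
      rw [← h3, h4, hZ]
    rw [hX, h5] at h2
    exact h2

end Pool.Agent.T10
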