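import Pool.Agent.W_b4801b_t10.FrobField

/-! Splitting over `ℚ_ℓ` and neatness. -/

set_option autoImplicit false

noncomputable section

open Polynomial

namespace Pool.Agent.T10

theorem FrobB_lift (P : ℚ[X]) (ℓ : ℕ) [Fact ℓ.Prime]
    (h : (P.map (algebraMap ℚ ℚ_[ℓ])).Splits) : Nonempty (↥(frobField P) →ₐ[ℚ] ℚ_[ℓ]) := by
  have := frobField_splitting P
  exact ⟨IsSplittingField.lift (↥(frobField P)) P h⟩

theorem FrobB_mem (P : ℚ[X]) (hP : P ≠ 0) (a : ℂ) (ha : aeval a P = 0) :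
    ∃ a' : ↥(frobField P), (a' : ℂ) = a ∧ aeval a' P = 0 := by
  have h1 : a ∈ P.rootSet ℂ := by
    rw [mem_rootSet]
    exact ⟨hP, ha⟩
  refine ⟨⟨a, IntermediateField.subset_adjoin ℚ _ h1⟩, rfl, ?_⟩
  apply (algebraMap ↥(frobField P) ℂ).injective
  rw [map_zero, ← aeval_algebraMap_apply]
  exact ha

/-- Proof. `IsSplittingField.lift`. -/
theorem spl_of_splits (P : ℚ[X]) (ℓ : ℕ) [Fact ℓ.Prime]
    (h : (P.map (algebraMap ℚ ℚ_[ℓ])).Splits) : ℓ ∈ Spl ↥(frobField P) := by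
  obtain ⟨τ⟩ := FrobB_lift P ℓ h
  exact ⟨Fact.out, ⟨(τ : ↥(frobField P) →+* ℚ_[ℓ])⟩⟩

theorem FrobB_ncard (P : ℚ[X]) {K L : Type*} [Field K] [Field L] [Algebra ℚ K] [Algebra ℚ L]
    (τ : K →ₐ[ℚ] L) (hsp : (P.map (algebraMap ℚ K)).Splits) :
    (P.rootSet L).ncard = (P.rootSet K).ncard := by
  rw [← hsp.image_rootSet τ]
  exact Set.ncard_image_of_injective _ (τ : K →+* L).injective

theorem FrobB_splits (P : ℚ[X]) : (P.map (algebraMap ℚ ↥(frobField P))).Splits := by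
  have := frobField_splitting P
  exact IsSplittingField.splits (↥(frobField P)) P

theorem FrobB_ncard_field (P : ℚ[X]) : (P.rootSet ℂ).ncard = (P.rootSet ↥(frobField P)).ncard :=
  FrobB_ncard P (frobField P).val (FrobB_splits P)

/-- Proof. Let `τ : frobField P → ℚ_ℓ` (`spl_of_splits`). It induces a bijection from the complex roots
of `P` (they lie in `frobField P`) onto the roots in `ℚ_ℓ` (`P` splits in `frobField P`). If `a ≠ b` are
complex roots of `P` with `a ^ m = b ^ m`, `m > 0`, then `τ a ≠ τ b` are roots in `ℚ_ℓ` with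
`(τ a) ^ m = (τ b) ^ m`. -/
theorem neat_of_padic (D : ℕ) (P : ℚ[X]) (hP : P ≠ 0) (ℓ : ℕ) [Fact ℓ.Prime]
    (h : (P.map (algebraMap ℚ ℚ_[ℓ])).Splits) (hD : (P.rootSet ℚ_[ℓ]).ncard = D)
    (hr : ∀ a b : ℚ_[ℓ], aeval a P = 0 → aeval b P = 0 → a ≠ b → ∀ m : ℕ, 0 < m → a ^ m ≠ b ^ m) :
    NeatPoly D P := by
  obtain ⟨τ⟩ := FrobB_lift P ℓ h
  refine ⟨hP, ?_, fun a b ha hb hab m hm hpow => ?_⟩
  · rw [FrobB_ncard_field, ← hD, FrobB_ncard P τ (FrobB_splits P)]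
  obtain ⟨a', ha1, ha2⟩ := FrobB_mem P hP a ha
  obtain ⟨b', hb1, hb2⟩ := FrobB_mem P hP b hb
  have hne : τ a' ≠ τ b' := by
    intro h0
    have h1 := τ.toRingHom.injective h0
    apply hab
    rw [← ha1, ← hb1, h1]
  refine hr (τ a') (τ b') ?_ ?_ hne m hm ?_
  · rw [aeval_algHom_apply, ha2, map_zero]
  · rw [aeval_algHom_apply, hb2, map_zero]
  · rw [← map_pow, ← map_pow]
    congr 1
    apply Subtype.ext
    push_cast
    rw [ha1, hb1]
    exact hpow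

/-- Proof. `P` splits in `frobField P` and `τ : frobField P → ℚ_ℓ` transports this. All roots in `ℚ_ℓ`
are `τ a` with `a` a root in `frobField P ⊆ ℂ`. -/
theorem padic_of_neat (D : ℕ) (P : ℚ[X]) (hP : NeatPoly D P) (ℓ : ℕ) [Fact ℓ.Prime]
    (h : ℓ ∈ Spl ↥(frobField P)) :
    (P.map (algebraMap ℚ ℚ_[ℓ])).Splits ∧ (P.rootSet ℚ_[ℓ]).ncard = D ∧
      ∀ a b : ℚ_[ℓ], aeval a P = 0 → aeval b P = 0 → a ≠ b → ∀ m : ℕ, 0 < m → a ^ m ≠ b ^ m := by
  obtain ⟨hl, ⟨τ⟩⟩ := h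
  have hsp := FrobB_splits P
  let τ' : ↥(frobField P) →ₐ[ℚ] ℚ_[ℓ] := RingHom.toRatAlgHom τ
  have hroot : ∀ a : ℚ_[ℓ], aeval a P = 0 → ∃ a' : ↥(frobField P), τ' a' = a ∧
      aeval ((a' : ℂ)) P = 0 := by
    intro a ha
    have h1 : a ∈ P.rootSet ℚ_[ℓ] := by
      rw [mem_rootSet]
      exact ⟨hP.1, ha⟩
    rw [← hsp.image_rootSet τ'] at h1
    obtain ⟨a', ha', rfl⟩ := h1
    refine ⟨a', rfl, ?_⟩
    rw [mem_rootSet] at ha'
    have h2 := aeval_algebraMap_apply ℂ a' P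
    rw [ha'.2, map_zero] at h2
    exact h2
  refine ⟨?_, ?_, fun a b ha hb hab m hm hpow => ?_⟩
  · have h1 := hsp.map (τ' : ↥(frobField P) →+* ℚ_[ℓ])
    rw [Polynomial.map_map, τ'.comp_algebraMap] at h1
    exact h1
  · rw [FrobB_ncard P τ' hsp, ← FrobB_ncard_field, hP.2.1]
  · obtain ⟨a', ha1, ha2⟩ := hroot a ha
    obtain ⟨b', hb1, hb2⟩ := hroot b hb
    refine hP.2.2 a' b' ha2 hb2 ?_ m hm ?_
    · intro h0
      apply hab
      rw [← ha1, ← hb1, Subtype.ext h0]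
    · have h3 : a' ^ m = b' ^ m := by
        apply τ'.toRingHom.injective
        change τ' (a' ^ m) = τ' (b' ^ m)
        rw [map_pow, map_pow, ha1, hb1, hpow]
      have h4 := congrArg (fun z : ↥(frobField P) => (z : ℂ)) h3
      simpa using h4

/-- The number of distinct roots does not depend on the algebraically closed field. -/
theorem ncard_rootSet_eq (P : ℚ[X]) (Ω : Type) [Field Ω] [Algebra ℚ Ω] [IsAlgClosed Ω] :
    (P.rootSet Ω).ncard = (P.rootSet ℂ).ncard := by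
  have := frobField_splitting P
  let τ : ↥(frobField P) →ₐ[ℚ] Ω :=
    IsSplittingField.lift (↥(frobField P)) P (IsAlgClosed.splits _)
  rw [FrobB_ncard_field, FrobB_ncard P τ (FrobB_splits P)]

end Pool.Agent.T10
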