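import Pool.Agent.W_b4801b_t10.ApxDefs
import Pool.Agent.W_b4801b_t10.ApxA
import Pool.Agent.W_b4801b_t10.FrobB

/-!
# Eigenvalues of matrices congruent to one, and of powers
-/

set_option autoImplicit false

noncomputable section

open Polynomial

namespace Pool.Agent.T10

theorem ApxG_eig {K L : Type*} [Field K] [Field L] [Algebra K L] {n : ℕ}
    (M : Matrix (Fin n) (Fin n) K) (a : L) :
    aeval a M.charpoly = 0 ↔
      ∃ v : Fin n → L, v ≠ 0 ∧ Matrix.mulVec (M.map (algebraMap K L)) v = a • v := by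
  have h1 : aeval a M.charpoly = (M.map (algebraMap K L)).charpoly.eval a := by
    have h2 : (M.map (algebraMap K L)).charpoly = M.charpoly.map (algebraMap K L) :=
      Matrix.charpoly_map M (algebraMap K L)
    rw [h2, eval_map_algebraMap]
  rw [h1, Matrix.eval_charpoly, ← Matrix.exists_mulVec_eq_zero_iff]
  refine exists_congr fun v => and_congr_right fun _ => ?_
  rw [Matrix.sub_mulVec, sub_eq_zero, eq_comm]
  have h3 : Matrix.mulVec (Matrix.scalar (Fin n) a) v = a • v := by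
    rw [Matrix.scalar_apply, ← Matrix.smul_one_eq_diagonal, Matrix.smul_mulVec, Matrix.one_mulVec]
  rw [h3]

theorem ApxG_pow {L : Type*} [Field L] {n : ℕ} (M : Matrix (Fin n) (Fin n) L) (a : L)
    (v : Fin n → L) (h : Matrix.mulVec M v = a • v) (A : ℕ) :
    Matrix.mulVec (M ^ A) v = a ^ A • v := by
  induction A with
  | zero => simp
  | succ A ih =>
    rw [pow_succ, ← Matrix.mulVec_mulVec, h, Matrix.mulVec_smul, ih, smul_smul, pow_succ']

variable {ℓ : ℕ} [Fact ℓ.Prime]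

/-- The eigenvalues of a matrix congruent to `1` modulo `ℓ ^ N` are close to `1`.

Proof. Let `v ≠ 0` be an eigenvector (over the algebraic closure) for the eigenvalue `z`:
`M v = z v` (`Matrix.exists_mulVec_eq_zero_iff` for `det (z - M) = 0`), `M = 1 + ℓ ^ N X`.  Let `‖v i‖` be
maximal among the coordinates (so `> 0`).  `(z - 1) v i = ℓ ^ N ∑ j, X i j v j`, the norm of the right hand
side is at most `ℓ ^ (-N) ‖v i‖` (ultrametric, `‖X i j‖ ≤ 1`). -/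
theorem norm_root_sub_one_le (N : ℕ) {n : ℕ} (M : Matrix (Fin n) (Fin n) ℚ_[ℓ]) (hM : Cg ℓ N M)
    (z : PadicAlgCl ℓ) (hz : aeval z M.charpoly = 0) : ‖z - 1‖ ≤ ((ℓ : ℝ) ^ N)⁻¹ := by
  obtain ⟨v, hv, hvM⟩ := (ApxG_eig M z).1 hz
  obtain ⟨X, hX⟩ := hM
  have hn : Nonempty (Fin n) := by
    by_contra hcon
    rw [not_nonempty_iff] at hcon
    exact hv (Subsingleton.elim _ _)
  obtain ⟨i, hi⟩ := Finite.exists_max (fun i => ‖v i‖)
  have hpos : 0 < ‖v i‖ := by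
    rw [norm_pos_iff]
    intro h0
    apply hv
    funext j
    have h1 := hi j
    rw [h0, norm_zero] at h1
    exact norm_le_zero_iff.1 h1
  have hentry : ∀ j, algebraMap ℚ_[ℓ] (PadicAlgCl ℓ) (M i j) =
      (if i = j then 1 else 0) +
        algebraMap ℚ_[ℓ] (PadicAlgCl ℓ) ((ℓ : ℚ_[ℓ]) ^ N * ((X i j : ℤ_[ℓ]) : ℚ_[ℓ])) := by
    intro j
    rw [hX]
    show algebraMap ℚ_[ℓ] (PadicAlgCl ℓ) (algebraMap ℤ_[ℓ] ℚ_[ℓ]
      ((1 + (ℓ : ℤ_[ℓ]) ^ N • X) i j)) = _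
    rw [Matrix.add_apply, Matrix.smul_apply, Matrix.one_apply, map_add, map_add, smul_eq_mul,
      map_mul, map_pow, map_natCast]
    congr 1
    split_ifs <;> simp
  have heq : (z - 1) * v i =
      ∑ j, algebraMap ℚ_[ℓ] (PadicAlgCl ℓ) ((ℓ : ℚ_[ℓ]) ^ N * ((X i j : ℤ_[ℓ]) : ℚ_[ℓ])) * v j := by
    have h1 := congrFun hvM i
    rw [Pi.smul_apply, smul_eq_mul, Matrix.mulVec, dotProduct] at h1
    have h2 : ∀ j, (M.map (algebraMap ℚ_[ℓ] (PadicAlgCl ℓ))) i j * v j =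
        (if i = j then v j else 0) +
        algebraMap ℚ_[ℓ] (PadicAlgCl ℓ) ((ℓ : ℚ_[ℓ]) ^ N * ((X i j : ℤ_[ℓ]) : ℚ_[ℓ])) * v j := by
      intro j
      rw [Matrix.map_apply, hentry, add_mul]
      congr 1
      split_ifs <;> simp
    rw [Finset.sum_congr rfl fun j _ => h2 j, Finset.sum_add_distrib, Finset.sum_ite_eq,
      if_pos (Finset.mem_univ i)] at h1
    rw [sub_mul, one_mul, ← h1]
    ring
  have hlpos : (0 : ℝ) < (ℓ : ℝ) ^ N := by
    have : 0 < (ℓ : ℝ) := by exact_mod_cast (Fact.out : ℓ.Prime).pos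
    positivity
  have hbound : ‖(z - 1) * v i‖ ≤ ((ℓ : ℝ) ^ N)⁻¹ * ‖v i‖ := by
    rw [heq]
    refine IsUltrametricDist.norm_sum_le_of_forall_le_of_nonneg
      (mul_nonneg (inv_nonneg.2 hlpos.le) (norm_nonneg _)) fun j _ => ?_
    rw [norm_mul, PadicAlgCl.norm_extends, norm_mul, norm_pow, Padic.norm_p, inv_pow]
    refine mul_le_mul ?_ (hi j) (norm_nonneg _) (inv_nonneg.2 hlpos.le)
    have h3 : ‖((X i j : ℤ_[ℓ]) : ℚ_[ℓ])‖ ≤ 1 := (X i j).2
    calc ((ℓ : ℝ) ^ N)⁻¹ * ‖((X i j : ℤ_[ℓ]) : ℚ_[ℓ])‖ ≤ ((ℓ : ℝ) ^ N)⁻¹ * 1 :=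
          mul_le_mul_of_nonneg_left h3 (inv_nonneg.2 hlpos.le)
      _ = ((ℓ : ℝ) ^ N)⁻¹ := mul_one _
  rw [norm_mul] at hbound
  exact le_of_mul_le_mul_right hbound hpos

/-- The powers of eigenvalues are eigenvalues of the powers.

Proof. Map `M` to `L` (`Matrix.charpoly_map`); eigenvector `v`, `M v = a v`, so `M ^ A v = a ^ A v`. -/
theorem aeval_charpoly_pow {K L : Type*} [Field K] [Field L] [Algebra K L] {n : ℕ}
    (M : Matrix (Fin n) (Fin n) K) (a : L) (h : aeval a M.charpoly = 0) (A : ℕ) :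
    aeval (a ^ A) (M ^ A).charpoly = 0 := by
  obtain ⟨v, hv, hvM⟩ := (ApxG_eig M a).1 h
  refine (ApxG_eig (M ^ A) (a ^ A)).2 ⟨v, hv, ?_⟩
  have h1 : (M ^ A).map (algebraMap K L) = (M.map (algebraMap K L)) ^ A :=
    map_pow (algebraMap K L).mapMatrix M A
  rw [h1]
  exact ApxG_pow _ a v hvM A

theorem ApxG_mem (P : ℚ[X]) (hP : P ≠ 0) (a : ℂ) (ha : aeval a P = 0) :
    ∃ a' : ↥(frobField P), (a' : ℂ) = a ∧ aeval a' P = 0 := by
  have h1 : a ∈ P.rootSet ℂ := by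
    rw [mem_rootSet]
    exact ⟨hP, ha⟩
  refine ⟨⟨a, IntermediateField.subset_adjoin ℚ _ h1⟩, rfl, ?_⟩
  apply (algebraMap ↥(frobField P) ℂ).injective
  rw [map_zero, ← aeval_algebraMap_apply]
  exact ha

/-- If `P` is, over `ℚ_ℓ`, the characteristic polynomial of a matrix congruent to `1` modulo `ℓ ^ 2`, then
no quotient of two different roots of `P` is a root of unity.

Proof. `P ≠ 0` (its image is monic).  Let `a ≠ b` be complex roots of `P` with `a ^ m = b ^ m`, `m > 0`.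
`K = frobField P` is algebraic over `ℚ`, so there is a `ℚ`-embedding `σ : K → AlgebraicClosure ℚ_[ℓ]`
(`IsAlgClosed.lift`).  `σ a`, `σ b` are different roots of `P` with `(σ a) ^ m = (σ b) ^ m`;
`norm_root_sub_one_le` (with `N = 2`), `lt_norm_prime` and `pow_inj_of_norm` give `σ a = σ b`, a
contradiction. -/
theorem neatPoly_of_charpoly (P : ℚ[X]) {n : ℕ} (M : Matrix (Fin n) (Fin n) ℚ_[ℓ]) (hM : Cg ℓ 2 M)
    (hP : M.charpoly = P.map (algebraMap ℚ ℚ_[ℓ])) : NeatPoly (P.rootSet ℂ).ncard P := by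
  have hP0 : P ≠ 0 := by
    rintro rfl
    rw [Polynomial.map_zero] at hP
    exact (Matrix.charpoly_monic M).ne_zero hP
  refine ⟨hP0, rfl, fun a b ha hb hab m hm hpow => hab ?_⟩
  obtain ⟨a', ha1, ha2⟩ := ApxG_mem P hP0 a ha
  obtain ⟨b', hb1, hb2⟩ := ApxG_mem P hP0 b hb
  have hfd : FiniteDimensional ℚ ↥(frobField P) := frobField_fd P
  have hroot : ∀ σ : ↥(frobField P) →ₐ[ℚ] PadicAlgCl ℓ, ∀ c : ↥(frobField P), aeval c P = 0 →
      ‖σ c - 1‖ ≤ ((ℓ : ℝ) ^ 2)⁻¹ := by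
    intro σ c hc
    refine norm_root_sub_one_le 2 M hM (σ c) ?_
    rw [hP, aeval_map_algebraMap, aeval_algHom_apply, hc, map_zero]
  let σ : ↥(frobField P) →ₐ[ℚ] PadicAlgCl ℓ := IsAlgClosed.lift
  have hl : (1 : ℝ) < (ℓ : ℝ) ^ 2 := by
    have h1 : (1 : ℝ) < (ℓ : ℝ) := by exact_mod_cast (Fact.out : ℓ.Prime).one_lt
    nlinarith
  have hpow' : a' ^ m = b' ^ m := by
    apply Subtype.ext
    push_cast
    rw [ha1, hb1]
    exact hpow
  have h1 : σ a' = σ b' := by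
    refine pow_inj_of_norm ((ℓ : ℝ) ^ 2)⁻¹ (inv_lt_one_of_one_lt₀ hl)
      (fun q hq => lt_norm_prime ℓ q hq) (σ a') (σ b') (hroot σ a' ha2) (hroot σ b' hb2) m hm ?_
    rw [← map_pow, ← map_pow, hpow']
  have h2 : a' = b' := σ.toRingHom.injective h1
  rw [← ha1, ← hb1, h2]

end Pool.Agent.T10
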