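import Pool.Agent.W_b4801b_t10.ApxP

/-! Approximation of Frobenius elements at several primes. -/

set_option autoImplicit false

noncomputable section

open Polynomial

universe u v

namespace Pool.Agent.T10

open Pool.Agent.B4801b

/-- The approximation theorem. -/
theorem approx_aux {k : Type u} [Field k] {w : ℕ} (S : CompSys.{u, v} k w) (hd : DenseFrob S) (D : ℕ)
    (U : Subgroup (Gal k)) (hU : IsOpen (U : Set (Gal k)))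
    (hmax : ∀ x ∈ S.Pl, (∃ h : Gal k, h * x.frob * h⁻¹ ∈ U) → ((S.P x).rootSet ℂ).ncard ≤ D)
    (T : Finset ℕ) (hT : T.Nonempty) (y : ℕ → Place k)
    (hy : ∀ ℓ ∈ T, ℓ.Prime ∧ Neat S D (y ℓ) ∧ (y ℓ).p ≠ ℓ ∧ ℓ ∈ Spl ↥(frobField (S.P (y ℓ)))) :
    ∃ x, Neat S D x ∧ ∀ ℓ ∈ T, ℓ ∈ Spl ↥(frobField (S.P x)) := by
  classical
  obtain ⟨A, hA, heA, hprod⟩ := exists_product S T (fun ℓ hℓ => (hy ℓ hℓ).1) U hU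
    fun ℓ => (y ℓ).frob
  -- the integral matrices
  have key : ∀ ℓ : ℕ, ∃ N : ℕ, ∀ (_ : ℓ ∈ T) (_ : Fact ℓ.Prime),
      ∃ Z : Matrix (Fin (chartOf S ℓ).n) (Fin (chartOf S ℓ).n) ℤ_[ℓ],
        (chartOf S ℓ).M ((y ℓ).frob ^ A) = toQ Z ∧
        ∀ t, N ≤ t → ∀ Y : Matrix (Fin (chartOf S ℓ).n) (Fin (chartOf S ℓ).n) ℤ_[ℓ], ∀ P : ℚ[X],
          P.map (algebraMap ℚ ℚ_[ℓ]) = (toQ (Z + (ℓ : ℤ_[ℓ]) ^ t • Y)).charpoly →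
          (P.rootSet ℂ).ncard ≤ D → (P.rootSet ℂ).ncard = D ∧ ℓ ∈ Spl ↥(frobField P) := by
    intro ℓ
    by_cases hℓ : ℓ ∈ T
    · have hF : Fact ℓ.Prime := ⟨(hy ℓ hℓ).1⟩
      obtain ⟨X, hX⟩ := (chartOf S ℓ).cong 2 _ (UT_le S T 2 ℓ hℓ (heA ℓ hℓ).2)
      obtain ⟨-, h1, h2, h3⟩ := hy ℓ hℓ
      obtain ⟨N, hN⟩ := one_prime S ℓ D (y ℓ) h1 h2 h3 (chartOf S ℓ) A hA _ hX
      exact ⟨N, fun _ _ => ⟨_, hX, hN⟩⟩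
    · exact ⟨0, fun h => absurd h hℓ⟩
  choose N hN using key
  set t := T.sup N with ht
  obtain ⟨g, hgV, hg⟩ := hprod t
  obtain ⟨x, hx, hxT, ⟨h, u, hu, hconj⟩, hP⟩ := exists_frob_near S hd (U ⊓ UT S T 2)
    (by rw [Subgroup.coe_inf]; exact hU.inter (isOpen_UT S T 2)) g T t
  have hxU : h * x.frob * h⁻¹ ∈ U := by
    rw [hconj]
    exact U.mul_mem hgV.1 hu.1
  have hle := hmax x hx ⟨h, hxU⟩
  have hall : ∀ ℓ ∈ T, ((S.P x).rootSet ℂ).ncard = D ∧ ℓ ∈ Spl ↥(frobField (S.P x)) := by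
    intro ℓ hℓ
    have hF : Fact ℓ.Prime := ⟨(hy ℓ hℓ).1⟩
    obtain ⟨Z, hZ, hZ2⟩ := hN ℓ hℓ hF
    obtain ⟨X, hX⟩ := hg ℓ hℓ Z hZ
    obtain ⟨Y, hY⟩ := hP ℓ hℓ _ hX
    refine hZ2 t (Finset.le_sup hℓ) (X + Y) (S.P x) ?_ hle
    rw [hY, smul_add, add_assoc]
  refine ⟨x, ⟨hx, ?_⟩, fun ℓ hℓ => (hall ℓ hℓ).2⟩
  obtain ⟨ℓ, hℓ⟩ := hT
  have hF : Fact ℓ.Prime := ⟨(hy ℓ hℓ).1⟩
  have hp : ℓ ≠ x.p := fun h => hxT (h ▸ hℓ)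
  have hC : Cg ℓ 2 ((chartOf S ℓ).M (h * x.frob * h⁻¹)) := by
    rw [hconj]
    exact (chartOf S ℓ).cong 2 _ (((chartOf S ℓ).U 2).mul_mem (UT_le S T 2 ℓ hℓ hgV.2)
      (UT_le S T 2 ℓ hℓ hu.2))
  have h1 := neatPoly_of_charpoly (S.P x) _ hC (by
    rw [charpoly_conj, charpoly_frob_eq S ℓ _ x hx hp])
  rwa [(hall ℓ hℓ).1] at h1

/-- Approximation of Frobenius elements at the primes of `T`. -/
theorem approx {k : Type u} [Field k] {w : ℕ} (S : CompSys.{u, v} k w) (hd : DenseFrob S) (D : ℕ)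
    (hm : MaxRoots S D) (T : Finset ℕ) (hT : T.Nonempty) (y : ℕ → Place k)
    (hy : ∀ ℓ ∈ T, ℓ.Prime ∧ Neat S D (y ℓ) ∧ (y ℓ).p ≠ ℓ ∧ ℓ ∈ Spl ↥(frobField (S.P (y ℓ)))) :
    ∃ x, Neat S D x ∧ ∀ ℓ ∈ T, ℓ ∈ Spl ↥(frobField (S.P x)) := by
  obtain ⟨U, hU, hmax⟩ := hm
  exact approx_aux S hd D U hU hmax T hT y hy

end Pool.Agent.T10
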