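import Pool.Agent.W_b4801b_t10.ApxB
import Pool.Agent.W_b4801b_t10.ApxF
import Pool.Agent.W_b4801b_t10.ApxG

/-!
# Approximation at one prime
-/

set_option autoImplicit false

noncomputable section

open Polynomial

universe u v

namespace Pool.Agent.T10

open Pool.Agent.B4801b

theorem exists_enum {α : Type*} (s : Set α) (hs : s.Finite) (D : ℕ) (h : s.ncard = D) :
    ∃ f : Fin D → α, Function.Injective f ∧ Set.range f = s := by
  classical
  subst h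
  have : Fintype s := hs.fintype
  have hc : Fintype.card s = s.ncard := by
    rw [Set.ncard_eq_toFinset_card', Set.toFinset_card]
  let e : Fin s.ncard ≃ s := (Fintype.equivFinOfCardEq hc).symm
  refine ⟨fun i => (e i : α), fun i j hij => e.injective (Subtype.ext hij), ?_⟩
  ext z
  constructor
  · rintro ⟨i, rfl⟩
    exact (e i).2
  · intro hz
    exact ⟨e.symm ⟨z, hz⟩, by simp⟩

theorem le_ncard_of_injective {α : Type*} (s : Set α) (hs : s.Finite) (D : ℕ) (f : Fin D → α)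
    (hf : Function.Injective f) (h : ∀ i, f i ∈ s) : D ≤ s.ncard := by
  have h1 : Set.range f ⊆ s := by
    rintro _ ⟨i, rfl⟩
    exact h i
  have h2 : (Set.range f).ncard = D := by
    rw [← Set.image_univ, Set.ncard_image_of_injective _ hf, Set.ncard_univ, Nat.card_eq_fintype_card,
      Fintype.card_fin]
  rw [← h2]
  exact Set.ncard_le_ncard h1 hs

theorem aeval_toQ_charpoly {ℓ : ℕ} [Fact ℓ.Prime] {n : ℕ} (Z : Matrix (Fin n) (Fin n) ℤ_[ℓ]) :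
    (Z.charpoly).map (algebraMap ℤ_[ℓ] ℚ_[ℓ]) = (toQ Z).charpoly :=
  (charpoly_toQ Z).symm

/-- Distinct eigenvalues of the integral matrix `Z` give distinct roots of a polynomial close to its
characteristic polynomial. -/
theorem exists_near_roots {ℓ : ℕ} [Fact ℓ.Prime] {n D : ℕ} (Z : Matrix (Fin n) (Fin n) ℤ_[ℓ])
    (γ : Fin D → PadicAlgCl ℓ) (hγ : Function.Injective γ)
    (hr : ∀ i, aeval (γ i) (toQ Z).charpoly = 0) :
    ∃ N : ℕ, ∀ t, N ≤ t → ∀ Y : Matrix (Fin n) (Fin n) ℤ_[ℓ], ∀ P : ℚ[X],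
      P.map (algebraMap ℚ ℚ_[ℓ]) = (toQ (Z + (ℓ : ℤ_[ℓ]) ^ t • Y)).charpoly →
      P ≠ 0 ∧ ∃ β : Fin D → PadicAlgCl ℓ, Function.Injective β ∧
        (∀ i, aeval (β i) (P.map (algebraMap ℚ ℚ_[ℓ])) = 0) ∧
        ∀ i j, i ≠ j → ‖β i - γ i‖ < ‖β j - γ i‖ := by
  obtain ⟨N, hN⟩ := roots_of_close (n := n) γ hγ Z.charpoly Z.charpoly_monic
    (by rw [Matrix.charpoly_natDegree_eq_dim, Fintype.card_fin])
    (by intro i; rw [aeval_toQ_charpoly]; exact hr i)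
  refine ⟨N, fun t ht Y P hP => ?_⟩
  have hP0 : P ≠ 0 := by
    rintro rfl
    rw [Polynomial.map_zero] at hP
    exact (toQ (Z + (ℓ : ℤ_[ℓ]) ^ t • Y)).charpoly_monic.ne_zero hP.symm
  refine ⟨hP0, ?_⟩
  obtain ⟨β, h1, h2, h3⟩ := hN (Z + (ℓ : ℤ_[ℓ]) ^ t • Y).charpoly (Matrix.charpoly_monic _)
    (by rw [Matrix.charpoly_natDegree_eq_dim, Fintype.card_fin])
    (by
      intro i
      exact (pow_dvd_pow _ ht).trans (charpoly_congr t Z Y i))
  refine ⟨β, h1, ?_, h3⟩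
  intro i
  rw [hP, ← aeval_toQ_charpoly]
  exact h2 i

theorem rootSet_map_eq {ℓ : ℕ} [Fact ℓ.Prime] (P : ℚ[X]) (Ω : Type) [Field Ω] [Algebra ℚ_[ℓ] Ω]
    [Algebra ℚ Ω] : (P.map (algebraMap ℚ ℚ_[ℓ])).rootSet Ω = P.rootSet Ω := by
  have h : (algebraMap ℚ_[ℓ] Ω).comp (algebraMap ℚ ℚ_[ℓ]) = algebraMap ℚ Ω :=
    Subsingleton.elim _ _
  simp only [Polynomial.rootSet, Polynomial.aroots, Polynomial.map_map, h]

theorem ncard_rootSet_padic {ℓ : ℕ} [Fact ℓ.Prime] (P : ℚ[X]) :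
    ((P.map (algebraMap ℚ ℚ_[ℓ])).rootSet (PadicAlgCl ℓ)).ncard = (P.rootSet ℂ).ncard := by
  rw [rootSet_map_eq]
  exact ncard_rootSet_eq P (PadicAlgCl ℓ)

/-- A polynomial near the characteristic polynomial of `Z` has at least `D` distinct roots. -/
theorem le_ncard_of_near {ℓ : ℕ} [Fact ℓ.Prime] {D : ℕ} (P : ℚ[X]) (hP : P ≠ 0)
    (β : Fin D → PadicAlgCl ℓ) (hβ : Function.Injective β)
    (hr : ∀ i, aeval (β i) (P.map (algebraMap ℚ ℚ_[ℓ])) = 0) : D ≤ (P.rootSet ℂ).ncard := by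
  rw [← ncard_rootSet_padic (ℓ := ℓ) P]
  have h0 : P.map (algebraMap ℚ ℚ_[ℓ]) ≠ 0 := by
    rwa [Ne, Polynomial.map_eq_zero]
  refine le_ncard_of_injective _ (Polynomial.rootSet_finite _ _) D β hβ fun i => ?_
  rw [Polynomial.mem_rootSet]
  exact ⟨h0, hr i⟩

/-- The step of the approximation at one prime `ℓ`. -/
theorem one_prime {k : Type u} [Field k] {w : ℕ} (S : CompSys.{u, v} k w) (ℓ : ℕ) [Fact ℓ.Prime]
    (D : ℕ) (y : Place k) (hy : Neat S D y) (hp : y.p ≠ ℓ) (hs : ℓ ∈ Spl ↥(frobField (S.P y)))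
    (c : Chart (S.rep ℓ)) (A : ℕ) (hA : 0 < A) (Z : Matrix (Fin c.n) (Fin c.n) ℤ_[ℓ])
    (hZ : c.M (y.frob ^ A) = toQ Z) :
    ∃ N : ℕ, ∀ t, N ≤ t → ∀ Y : Matrix (Fin c.n) (Fin c.n) ℤ_[ℓ], ∀ P : ℚ[X],
      P.map (algebraMap ℚ ℚ_[ℓ]) = (toQ (Z + (ℓ : ℤ_[ℓ]) ^ t • Y)).charpoly →
      (P.rootSet ℂ).ncard ≤ D → (P.rootSet ℂ).ncard = D ∧ ℓ ∈ Spl ↥(frobField P) := by
  obtain ⟨-, hcard, htors⟩ := padic_of_neat D (S.P y) hy.2 ℓ hs
  obtain ⟨α, hα, hrange⟩ := exists_enum _ (Polynomial.rootSet_finite (S.P y) ℚ_[ℓ]) D hcard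
  have hαr : ∀ i, aeval (α i) (S.P y) = 0 := by
    intro i
    have : α i ∈ (S.P y).rootSet ℚ_[ℓ] := hrange ▸ Set.mem_range_self i
    exact Polynomial.aeval_eq_zero_of_mem_rootSet this
  have hinj : Function.Injective fun i => α i ^ A := by
    intro i j hij
    by_contra hne
    exact htors _ _ (hαr i) (hαr j) (fun h => hne (hα h)) A hA hij
  have hchar : (c.M y.frob).charpoly = (S.P y).map (algebraMap ℚ ℚ_[ℓ]) :=
    charpoly_frob_eq S ℓ c y hy.1 (Ne.symm hp)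
  have hroot : ∀ i, aeval (algebraMap ℚ_[ℓ] (PadicAlgCl ℓ) (α i ^ A)) (toQ Z).charpoly = 0 := by
    intro i
    rw [← hZ, map_pow, map_pow]
    refine aeval_charpoly_pow (c.M y.frob) _ ?_ A
    rw [hchar, Polynomial.aeval_algebraMap_apply, Polynomial.aeval_map_algebraMap, hαr, map_zero]
  obtain ⟨N, hN⟩ := exists_near_roots (D := D) Z
    (fun i => algebraMap ℚ_[ℓ] (PadicAlgCl ℓ) (α i ^ A))
    (fun i j hij => hinj ((algebraMap ℚ_[ℓ] (PadicAlgCl ℓ)).injective hij)) hroot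
  refine ⟨N, fun t ht Y P hP hle => ?_⟩
  obtain ⟨hP0, β, h1, h2, h3⟩ := hN t ht Y P hP
  have hge := le_ncard_of_near P hP0 β h1 h2
  refine ⟨le_antisymm hle hge, ?_⟩
  obtain ⟨h4, -⟩ := splits_of_close (fun i => α i ^ A) β h1 (P.map (algebraMap ℚ ℚ_[ℓ]))
    (by rwa [Ne, Polynomial.map_eq_zero]) h2 (by rw [ncard_rootSet_padic]; exact hle) h3
  exact spl_of_splits P ℓ h4

end Pool.Agent.T10
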