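import Pool.Agent.W_b4801b_t10.FrobField

/-! The degree of the common subfield is at most `D!`. -/

set_option autoImplicit false

noncomputable section

open Polynomial

universe u v

namespace Pool.Agent.T10

open Pool.Agent.B4801b

theorem bound_sf {F E : Type} [Field F] [CharZero F] [Field E] [Algebra F E]
    [IsAlgClosed E] (p : F[X]) :
    Module.finrank F p.SplittingField ≤ ((p.rootSet E).ncard).factorial := by
  classical
  have hN : Normal F p.SplittingField := Normal.of_isSplittingField p
  have hG : IsGalois F p.SplittingField := ⟨⟩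
  have h4 : Nat.card p.Gal = Module.finrank F p.SplittingField :=
    IsGalois.card_aut_eq_finrank F p.SplittingField
  have : Fact ((p.map (algebraMap F E)).Splits) := ⟨IsAlgClosed.splits _⟩
  have h5 := Polynomial.Gal.galActionHom_injective p E
  have h6 : Nat.card p.Gal ≤ Nat.card (Equiv.Perm (p.rootSet E)) :=
    Nat.card_le_card_of_injective _ h5
  rw [← h4]
  refine h6.trans ?_
  rw [Nat.card_perm, Nat.card_coe_set_eq]

theorem bound_split {F L E : Type} [Field F] [CharZero F] [Field L] [Algebra F L]
    [Field E] [Algebra F E] [IsAlgClosed E] (p : F[X]) (h : p.IsSplittingField F L) :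
    Module.finrank F L ≤ ((p.rootSet E).ncard).factorial := by
  rw [(Polynomial.IsSplittingField.algEquiv L p).toLinearEquiv.finrank_eq]
  exact bound_sf (E := E) p

theorem bound_common {k : Type u} [Field k] {w : ℕ} (S : CompSys.{u, v} k w) (D : ℕ)
    (hx : ∃ x, Neat S D x) : Module.finrank ℚ (common S D) ≤ D.factorial := by
  obtain ⟨x, hx⟩ := hx
  have h : Module.finrank ℚ (frobField (S.P x)) ≤ (((S.P x).rootSet ℂ).ncard).factorial :=
    bound_split (E := ℂ) (S.P x) (frobField_splitting (S.P x))
  have hle : common S D ≤ frobField (S.P x) := iInf_le (fun x : {x : Place k // Neat S D x} =>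
    frobField (S.P x.1)) ⟨x, hx⟩
  rw [hx.2.2.1] at h
  have := frobField_fd (S.P x)
  exact (IntermediateField.finrank_le_of_le_right hle).trans h

end Pool.Agent.T10
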