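import Pool.Agent.W_b4801b_t10.HDens

/-! The second moment method for densities. -/

set_option autoImplicit false

noncomputable section

open Filter Topology

namespace Pool.Agent.T10

theorem CS_summable (s : ℝ) (hs : 1 < s) : Summable (fun n : ℕ => (n : ℝ) ^ (-s)) :=
  Real.summable_nat_rpow.2 (by linarith)

theorem CS_dsum_eq (A : Set ℕ) (s : ℝ) :
    dsum A s = ∑' n : ℕ, A.indicator (fun n : ℕ => (n : ℝ) ^ (-s)) n := by
  unfold dsum
  exact tsum_subtype A (fun n : ℕ => (n : ℝ) ^ (-s))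

theorem CS_ind_mul (A : Set ℕ) (w : ℕ → ℝ) (n : ℕ) :
    A.indicator w n = A.indicator (fun _ => (1 : ℝ)) n * w n := by
  by_cases h : n ∈ A
  · simp [h]
  · simp [h]

/-- Proof. Let `S(ℓ)` be the number of `i` with `ℓ ∈ A i` and `w(ℓ) = ℓ ^ (-s)`. Then
`∑ dsum (A i) = ∑ S w`, `∑_{i,j} dsum (A i ∩ A j) = ∑ S² w`, and by Cauchy-Schwarz
`(∑ S w)² ≤ (∑_{S ≠ 0} w) (∑ S² w)`. (Cauchy-Schwarz for series: `inner_mul_le_norm_mul_norm`,
`Real.inner_le_Lp_mul_Lq_tsum...`, or for every real `t`: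
`0 ≤ ∑_{ℓ ∈ ⋃ A i} (S - t)² w = ∑ S² w - 2 t ∑ S w + t² ∑_⋃ w` and the discriminant,
`discrim_le_zero`.) All series converge (`summable_dsum`). -/
theorem cs_union (m : ℕ) (A : Fin m → Set ℕ) (s : ℝ) (hs : 1 < s) :
    (∑ i, dsum (A i) s) ^ 2 ≤ dsum (⋃ i, A i) s * ∑ i, ∑ j, dsum (A i ∩ A j) s := by
  classical
  set w : ℕ → ℝ := fun n : ℕ => (n : ℝ) ^ (-s) with hw
  have hw0 : ∀ n, 0 ≤ w n := fun n => Real.rpow_nonneg (Nat.cast_nonneg n) _
  have hsum : Summable w := CS_summable s hs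
  have hind : ∀ B : Set ℕ, Summable (fun n => B.indicator w n) := fun B => hsum.indicator B
  let e : Fin m → ℕ → ℝ := fun i n => (A i).indicator (fun _ => (1 : ℝ)) n
  let S : ℕ → ℝ := fun n => ∑ i, e i n
  let u : ℕ → ℝ := fun n => (⋃ i, A i).indicator (fun _ => (1 : ℝ)) n
  have h1 : ∑ i, dsum (A i) s = ∑' n, S n * w n := by
    have hh : ∀ n, S n * w n = ∑ i, (A i).indicator w n := by
      intro n
      show (∑ i, e i n) * w n = _
      rw [Finset.sum_mul]
      exact Finset.sum_congr rfl (fun i _ => (CS_ind_mul (A i) w n).symm)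
    rw [tsum_congr hh, Summable.tsum_finsetSum (fun i _ => hind (A i))]
    exact Finset.sum_congr rfl (fun i _ => CS_dsum_eq (A i) s)
  have hS1 : Summable (fun n => S n * w n) := by
    have hh : (fun n => S n * w n) = fun n => ∑ i, (A i).indicator w n := by
      funext n
      show (∑ i, e i n) * w n = _
      rw [Finset.sum_mul]
      exact Finset.sum_congr rfl (fun i _ => (CS_ind_mul (A i) w n).symm)
    rw [hh]
    exact summable_sum (fun i _ => hind (A i))
  have hh2 : ∀ n, S n ^ 2 * w n = ∑ i, ∑ j, (A i ∩ A j).indicator w n := by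
    intro n
    show (∑ i, e i n) ^ 2 * w n = _
    rw [pow_two, Finset.sum_mul_sum, Finset.sum_mul]
    refine Finset.sum_congr rfl (fun i _ => ?_)
    rw [Finset.sum_mul]
    refine Finset.sum_congr rfl (fun j _ => ?_)
    show (A i).indicator (fun _ => (1 : ℝ)) n * (A j).indicator (fun _ => (1 : ℝ)) n * w n = _
    by_cases hi : n ∈ A i
    · by_cases hj : n ∈ A j
      · simp [hi, hj]
      · simp [hj]
    · simp [hi]
  have hS2 : Summable (fun n => S n ^ 2 * w n) := by
    rw [funext hh2]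
    exact summable_sum (fun i _ => summable_sum (fun j _ => hind (A i ∩ A j)))
  have h2 : ∑ i, ∑ j, dsum (A i ∩ A j) s = ∑' n, S n ^ 2 * w n := by
    rw [tsum_congr hh2,
      Summable.tsum_finsetSum (fun i _ => summable_sum (fun j _ => hind (A i ∩ A j)))]
    refine Finset.sum_congr rfl (fun i _ => ?_)
    rw [Summable.tsum_finsetSum (fun j _ => hind (A i ∩ A j))]
    exact Finset.sum_congr rfl (fun j _ => CS_dsum_eq (A i ∩ A j) s)
  have hU : Summable (fun n => u n * w n) := by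
    have hh : (fun n => u n * w n) = fun n => (⋃ i, A i).indicator w n := by
      funext n
      exact (CS_ind_mul (⋃ i, A i) w n).symm
    rw [hh]
    exact hind _
  have h3 : dsum (⋃ i, A i) s = ∑' n, u n * w n := by
    rw [CS_dsum_eq]
    exact tsum_congr (fun n => CS_ind_mul (⋃ i, A i) w n)
  have huS : ∀ n, u n * S n = S n := by
    intro n
    by_cases hn : n ∈ ⋃ i, A i
    · have : u n = 1 := Set.indicator_of_mem hn _
      rw [this, one_mul]
    · have hS : S n = 0 := by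
        refine Finset.sum_eq_zero (fun i _ => ?_)
        have hni : n ∉ A i := fun h => hn (Set.mem_iUnion.2 ⟨i, h⟩)
        exact Set.indicator_of_notMem hni _
      rw [hS, mul_zero]
  have hu0 : ∀ n, 0 ≤ u n := fun n => Set.indicator_nonneg (fun _ _ => zero_le_one) n
  have key : ∀ t : ℝ, 0 ≤ (∑' n, u n * w n) * (t * t) + (-2 * ∑' n, S n * w n) * t +
      ∑' n, S n ^ 2 * w n := by
    intro t
    have e1 : ∑' n, u n * (S n - t) ^ 2 * w n = (∑' n, u n * w n) * (t * t) +
        (-2 * ∑' n, S n * w n) * t + ∑' n, S n ^ 2 * w n := by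
      have e2 : ∀ n, u n * (S n - t) ^ 2 * w n =
          (t * t) * (u n * w n) + (-2 * t) * (S n * w n) + S n ^ 2 * w n := by
        intro n
        have := huS n
        calc u n * (S n - t) ^ 2 * w n
            = (u n * S n) * S n * w n - 2 * t * (u n * S n) * w n + t * t * (u n * w n) := by ring
          _ = _ := by rw [this]; ring
      rw [tsum_congr e2, Summable.tsum_add ((hU.mul_left _).add (hS1.mul_left _)) hS2,
        Summable.tsum_add (hU.mul_left _) (hS1.mul_left _), tsum_mul_left, tsum_mul_left]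
      ring
    rw [← e1]
    exact tsum_nonneg (fun n => mul_nonneg (mul_nonneg (hu0 n) (sq_nonneg _)) (hw0 n))
  have hd := discrim_le_zero key
  unfold discrim at hd
  rw [h1, h2, h3]
  nlinarith [hd]

/-- Proof. `P = ∑ a i`, `Λ = log (1 / (s - 1)) → ∞`. `∑ dsum (A i) s = P Λ + O(1)` and
`∑_{i,j} dsum (A i ∩ A j) s ≤ (P + l P²) Λ + O(1)` (diagonal terms `A i ∩ A i = A i`; off-diagonal
`∑_{i≠j} l a_i a_j ≤ l P²`). With `cs_union`, `dsum (⋃ A i) s ≥ (P Λ - C)² / ((P + l P²) Λ + C)`, which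
is at least `(P / (1 + l P) - ε) Λ` for `s` close to `1`. (For `m = 0` everything is `0`.) -/
theorem second_moment (m : ℕ) (A : Fin m → Set ℕ) (a : Fin m → ℝ) (l : ℝ) (hl : 0 < l)
    (ha : ∀ i, 0 < a i) (h1 : ∀ i, HasDens (A i) (a i))
    (h2 : ∀ i j, i ≠ j → HasDens (A i ∩ A j) (l * a i * a j)) :
    LowerDensityGE (⋃ i, A i) ((∑ i, a i) / (1 + l * ∑ i, a i)) := by
  classical
  intro ε hε
  have hL : Tendsto (fun s : ℝ => Real.log (1 / (s - 1))) (𝓝[>] 1) atTop := log_tendsto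
  have hP0 : 0 ≤ ∑ i, a i := Finset.sum_nonneg (fun i _ => (ha i).le)
  rcases hP0.eq_or_lt with hP | hP
  · rw [← hP]
    filter_upwards [hL.eventually_ge_atTop 0] with s hs
    have h0 := dsum_nonneg (⋃ i, A i) s
    have : (0 / (1 + l * 0) - ε) * Real.log (1 / (s - 1)) ≤ 0 := by
      have h00 : (0 / (1 + l * 0) - ε) = -ε := by simp
      rw [h00]
      nlinarith
    linarith
  choose hp1 C hC using h1
  have hd2 : ∀ i j, ∃ C' : ℝ, 0 ≤ C' ∧ ∀ᶠ s : ℝ in 𝓝[>] 1,
      dsum (A i ∩ A j) s ≤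
        ((if i = j then a i else 0) + l * a i * a j) * Real.log (1 / (s - 1)) + C' := by
    intro i j
    by_cases hij : i = j
    · subst hij
      refine ⟨|C i|, abs_nonneg _, ?_⟩
      filter_upwards [hC i, hL.eventually_ge_atTop 0] with s hs hs0
      rw [Set.inter_self, if_pos rfl]
      have h1' := (abs_le.1 hs).2
      have h2' := le_abs_self (C i)
      have h3' : 0 ≤ l * a i * a i * Real.log (1 / (s - 1)) :=
        mul_nonneg (mul_nonneg (mul_nonneg hl.le (ha i).le) (ha i).le) hs0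
      linarith
    · obtain ⟨_, C', hC'⟩ := h2 i j hij
      refine ⟨|C'|, abs_nonneg _, ?_⟩
      filter_upwards [hC'] with s hs
      rw [if_neg hij]
      have h1' := (abs_le.1 hs).2
      have h2' := le_abs_self C'
      linarith
  choose C' hC'0 hC' using hd2
  set P : ℝ := ∑ i, a i with hPdef
  set C1 : ℝ := ∑ i, |C i| with hC1
  set C2 : ℝ := ∑ i, ∑ j, C' i j with hC2
  have hC10 : 0 ≤ C1 := Finset.sum_nonneg (fun i _ => abs_nonneg _)
  have hC20 : 0 ≤ C2 := Finset.sum_nonneg (fun i _ => Finset.sum_nonneg (fun j _ => hC'0 i j))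
  have hlP : 0 < 1 + l * P := by positivity
  have hQ : 0 < P + l * P ^ 2 := by positivity
  set d : ℝ := P / (1 + l * P) with hd
  have hd0 : 0 < d := div_pos hP hlP
  have hdQ : d * (P + l * P ^ 2) = P ^ 2 := by
    rw [hd]
    field_simp
  have ev1 : ∀ᶠ s : ℝ in 𝓝[>] 1, P * Real.log (1 / (s - 1)) - C1 ≤ ∑ i, dsum (A i) s := by
    have : ∀ᶠ s : ℝ in 𝓝[>] 1, ∀ i, |dsum (A i) s - a i * Real.log (1 / (s - 1))| ≤ C i :=
      Filter.eventually_all.2 hC
    filter_upwards [this] with s hs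
    have hi : ∀ i ∈ Finset.univ, a i * Real.log (1 / (s - 1)) - |C i| ≤ dsum (A i) s := by
      intro i _
      have h1' := (abs_le.1 (hs i)).1
      have h2' := le_abs_self (C i)
      linarith
    have := Finset.sum_le_sum hi
    rw [Finset.sum_sub_distrib, ← Finset.sum_mul] at this
    exact this
  have ev2 : ∀ᶠ s : ℝ in 𝓝[>] 1, ∑ i, ∑ j, dsum (A i ∩ A j) s ≤
      (P + l * P ^ 2) * Real.log (1 / (s - 1)) + C2 := by
    have : ∀ᶠ s : ℝ in 𝓝[>] 1, ∀ i j, dsum (A i ∩ A j) s ≤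
        ((if i = j then a i else 0) + l * a i * a j) * Real.log (1 / (s - 1)) + C' i j :=
      Filter.eventually_all.2 (fun i => Filter.eventually_all.2 (fun j => hC' i j))
    filter_upwards [this] with s hs
    have h3 : ∑ i, ∑ j, dsum (A i ∩ A j) s ≤
        ∑ i, ∑ j, (((if i = j then a i else 0) + l * a i * a j) * Real.log (1 / (s - 1)) +
          C' i j) :=
      Finset.sum_le_sum (fun i _ => Finset.sum_le_sum (fun j _ => hs i j))
    refine h3.trans (le_of_eq ?_)
    have h4 : ∀ i, ∑ j, (((if i = j then a i else 0) + l * a i * a j) *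
        Real.log (1 / (s - 1)) + C' i j) =
        (a i + l * a i * P) * Real.log (1 / (s - 1)) + ∑ j, C' i j := by
      intro i
      rw [Finset.sum_add_distrib, ← Finset.sum_mul, Finset.sum_add_distrib,
        Finset.sum_ite_eq Finset.univ i (fun _ => a i), if_pos (Finset.mem_univ i),
        ← Finset.mul_sum]
    rw [Finset.sum_congr rfl (fun i _ => h4 i), Finset.sum_add_distrib, ← Finset.sum_mul,
      Finset.sum_add_distrib]
    have h5 : ∑ i, l * a i * P = l * P ^ 2 := by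
      rw [← Finset.sum_mul, ← Finset.mul_sum]
      ring
    rw [h5]
  have hgt1 : ∀ᶠ s : ℝ in 𝓝[>] 1, 1 < s := eventually_mem_nhdsWithin
  filter_upwards [ev1, ev2, hgt1, hL.eventually_gt_atTop (C1 / P),
    hL.eventually_gt_atTop ((2 * P * C1 + d * C2) / (ε * (P + l * P ^ 2)))]
    with s h1 h2 h3 h4 h5
  set L : ℝ := Real.log (1 / (s - 1)) with hLdef
  have hL0 : 0 < L := lt_of_le_of_lt (div_nonneg hC10 hP.le) h4
  have hX : 0 < P * L - C1 := by
    have := (div_lt_iff₀ hP).1 h4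
    linarith
  have hcs := cs_union m A s h3
  by_contra hcon
  push Not at hcon
  have hD0 := dsum_nonneg (⋃ i, A i) s
  set D : ℝ := dsum (⋃ i, A i) s with hDdef
  have hdε : 0 < d - ε := by
    by_contra hneg
    push Not at hneg
    have : (d - ε) * L ≤ 0 := mul_nonpos_of_nonpos_of_nonneg hneg hL0.le
    linarith
  have i1 : (P * L - C1) ^ 2 ≤ (∑ i, dsum (A i) s) ^ 2 := by
    apply pow_le_pow_left₀ hX.le h1
  have i2 : (P * L - C1) ^ 2 ≤ D * ((P + l * P ^ 2) * L + C2) :=
    i1.trans (hcs.trans (mul_le_mul_of_nonneg_left h2 hD0))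
  have hY : 0 < (P + l * P ^ 2) * L + C2 := by
    have := mul_pos hQ hL0
    linarith
  have i3 : D * ((P + l * P ^ 2) * L + C2) ≤ (d - ε) * L * ((P + l * P ^ 2) * L + C2) :=
    mul_le_mul_of_nonneg_right hcon.le hY.le
  have h6 : 2 * P * C1 + d * C2 < L * (ε * (P + l * P ^ 2)) := (div_lt_iff₀ (by positivity)).1 h5
  have i4 : (d - ε) * L * ((P + l * P ^ 2) * L + C2) =
      P ^ 2 * L ^ 2 - ε * (P + l * P ^ 2) * L ^ 2 + (d - ε) * C2 * L := by
    have : (d - ε) * L * ((P + l * P ^ 2) * L + C2) =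
      (d * (P + l * P ^ 2)) * L ^ 2 - ε * (P + l * P ^ 2) * L ^ 2 + (d - ε) * C2 * L := by ring
    rw [this, hdQ]
  have i5 : P ^ 2 * L ^ 2 - 2 * P * C1 * L + C1 ^ 2 ≤
      P ^ 2 * L ^ 2 - ε * (P + l * P ^ 2) * L ^ 2 + (d - ε) * C2 * L := by
    have : (P * L - C1) ^ 2 = P ^ 2 * L ^ 2 - 2 * P * C1 * L + C1 ^ 2 := by ring
    rw [← this, ← i4]
    exact i2.trans i3
  have i6 : (2 * P * C1 + d * C2) * L < L * (ε * (P + l * P ^ 2)) * L :=
    mul_lt_mul_of_pos_right h6 hL0
  have i7 : 0 ≤ ε * C2 * L := by positivity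
  nlinarith [i5, i6, i7, sq_nonneg C1]

end Pool.Agent.T10
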