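import Pool.Agent.W_b4801b_t10.SplDens
import Pool.Agent.W_b4801b_t10.Deg

/-! Totally split primes of intersections and composites. -/

set_option autoImplicit false

noncomputable section

open Filter Topology

namespace Pool.Agent.T10

theorem Spl_anti {K L : IntermediateField ℚ ℂ} (h : K ≤ L) : Spl ↥L ⊆ Spl ↥K := by
  rintro ℓ ⟨hℓ, f⟩
  exact ⟨hℓ, f.map fun f => f.comp (IntermediateField.inclusion h).toRingHom⟩

theorem SplInt_aux0 {F K N Ω : Type*} [Field F] [Field K] [Algebra F K] [Field N] [Algebra F N]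
    [Field Ω] [Algebra F Ω] [Algebra N Ω] [IsScalarTower F N Ω] [Normal F K]
    (f : K →ₐ[F] N) (τ : K →ₐ[F] Ω) (z : K) : τ z ∈ (algebraMap N Ω).range := by
  have h1 : ((minpoly F z).map (algebraMap F N)).Splits := by
    have h2 := (Normal.splits (inferInstance : Normal F K) z).map (f : K →+* N)
    rwa [Polynomial.map_map, AlgHom.comp_algebraMap] at h2
  have hz : IsIntegral F z := Normal.isIntegral (inferInstance : Normal F K) z
  have h0 : (minpoly F z).map (algebraMap F N) ≠ 0 :=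
    Polynomial.map_ne_zero (minpoly.ne_zero hz)
  refine h1.mem_range_of_isRoot h0 ?_
  rw [Polynomial.IsRoot, Polynomial.map_map, ← IsScalarTower.algebraMap_eq,
    Polynomial.eval_map_algebraMap, Polynomial.aeval_algHom_apply, minpoly.aeval, map_zero]

theorem SplInt_aux {F E N Ω : Type*} [Field F] [Field E] [Algebra F E] [Field N] [Algebra F N]
    [Field Ω] [Algebra F Ω] [Algebra N Ω] [IsScalarTower F N Ω] [IsAlgClosed Ω]
    (K L : IntermediateField F E) [Normal F K] [Normal F L] (f : K →ₐ[F] N) (g : L →ₐ[F] N) :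
    Nonempty (↥(K ⊔ L) →ₐ[F] N) := by
  have : Algebra.IsAlgebraic F ↥(K ⊔ L) := inferInstance
  let τ : ↥(K ⊔ L) →ₐ[F] Ω := IsAlgClosed.lift
  let R : IntermediateField F Ω := (IsScalarTower.toAlgHom F N Ω).fieldRange
  let A := IntermediateField.restrict (le_sup_left : K ≤ K ⊔ L)
  let B := IntermediateField.restrict (le_sup_right : L ≤ K ⊔ L)
  have hsup : A ⊔ B = ⊤ := by
    rw [← IntermediateField.lift_inj, IntermediateField.lift_top, IntermediateField.lift_sup,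
      IntermediateField.lift_restrict, IntermediateField.lift_restrict]
  have hA : A ≤ R.comap τ := by
    intro z hz
    have hz' : (z : E) ∈ K := (IntermediateField.mem_restrict _ z).mp hz
    have h1 := SplInt_aux0 f (τ.comp (IntermediateField.inclusion (le_sup_left : K ≤ K ⊔ L)))
      ⟨z, hz'⟩
    exact h1
  have hB : B ≤ R.comap τ := by
    intro z hz
    have hz' : (z : E) ∈ L := (IntermediateField.mem_restrict _ z).mp hz
    have h1 := SplInt_aux0 g (τ.comp (IntermediateField.inclusion (le_sup_right : L ≤ K ⊔ L)))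
      ⟨z, hz'⟩
    exact h1
  have htop : ∀ z, τ z ∈ R := by
    intro z
    have : z ∈ R.comap τ := by
      have h1 : (⊤ : IntermediateField F ↥(K ⊔ L)) ≤ R.comap τ := hsup ▸ sup_le hA hB
      exact h1 trivial
    exact this
  let τ' : ↥(K ⊔ L) →ₐ[F] R := τ.codRestrict R.toSubalgebra htop
  exact ⟨((AlgHom.equivFieldRange (IsScalarTower.toAlgHom F N Ω)).symm : R →ₐ[F] N).comp τ'⟩

theorem Spl_sup (K L : IntermediateField ℚ ℂ) (hKf : FiniteDimensional ℚ K)
    (hLf : FiniteDimensional ℚ L) (hK : IsGalois ℚ K) (hL : IsGalois ℚ L) :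
    Spl ↥(K ⊔ L) = Spl ↥K ∩ Spl ↥L := by
  apply Set.Subset.antisymm
  · exact fun ℓ h => ⟨Spl_anti le_sup_left h, Spl_anti le_sup_right h⟩
  · rintro ℓ ⟨⟨hℓ, ⟨f⟩⟩, ⟨_, ⟨g⟩⟩⟩
    refine ⟨hℓ, ?_⟩
    have : Fact ℓ.Prime := ⟨hℓ⟩
    rw [Deg_galIff] at hK hL
    obtain ⟨h⟩ := SplInt_aux (Ω := AlgebraicClosure ℚ_[ℓ]) K L f.toRatAlgHom g.toRatAlgHom
    exact ⟨h.toRingHom⟩

theorem exists_split_prime (K L : IntermediateField ℚ ℂ) (hKf : FiniteDimensional ℚ K)
    (hLf : FiniteDimensional ℚ L) (hK : IsGalois ℚ K) (hL : IsGalois ℚ L) (h : ¬ L ≤ K)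
    (T : Finset ℕ) : ∃ ℓ : ℕ, ℓ.Prime ∧ ℓ ∉ T ∧ ℓ ∈ Spl ↥K ∧ ℓ ∉ Spl ↥L := by
  have hfd := sup_fd K L hKf hLf
  have hgal := sup_galois K L hK hL
  have h1 := (spl_dens K hKf hK).diff (spl_dens (K ⊔ L) hfd hgal) (Spl_anti le_sup_left)
  have hlt : Module.finrank ℚ K < Module.finrank ℚ ↥(K ⊔ L) := by
    refine lt_of_le_of_ne (IntermediateField.finrank_le_of_le_right le_sup_left) ?_
    intro heq
    apply h
    have := IntermediateField.eq_of_le_of_finrank_eq (le_sup_left : K ≤ K ⊔ L) heq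
    rw [this]
    exact le_sup_right
  have hpos : (0 : ℝ) < 1 / Module.finrank ℚ K - 1 / Module.finrank ℚ ↥(K ⊔ L) := by
    have h2 : (0 : ℝ) < Module.finrank ℚ K := by
      exact_mod_cast Module.finrank_pos
    have h3 : ((Module.finrank ℚ K : ℕ) : ℝ) < Module.finrank ℚ ↥(K ⊔ L) := by exact_mod_cast hlt
    rw [sub_pos]
    exact one_div_lt_one_div_of_lt h2 h3
  obtain ⟨ℓ, hℓ, hT⟩ := (h1.infinite hpos).exists_notMem_finset T
  refine ⟨ℓ, h1.1 ℓ hℓ, hT, hℓ.1, ?_⟩
  intro hL'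
  apply hℓ.2
  rw [Spl_sup K L hKf hLf hK hL]
  exact ⟨hℓ.1, hL'⟩

end Pool.Agent.T10
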