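import Pool.Agent.W_b4801b_t10.ApxMain
import Pool.Agent.W_b4801b_t10.SplInt
import Pool.Agent.W_b4801b_t10.Deg

/-! Neat places whose splitting field has small intersection with a given field. -/

set_option autoImplicit false

noncomputable section

open Polynomial

universe u v

namespace Pool.Agent.T10

open Pool.Agent.B4801b

variable {k : Type u} [Field k] {w : ℕ}

theorem finite_below (M : IntermediateField ℚ ℂ) (hMf : FiniteDimensional ℚ M) :
    {L : IntermediateField ℚ ℂ | L ≤ M}.Finite := by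
  have hfin : Finite (IntermediateField ℚ M) :=
    Field.finite_intermediateField_of_exists_primitive_element ℚ M
      (Field.exists_primitive_element ℚ M)
  have hsub : {L : IntermediateField ℚ ℂ | L ≤ M} ⊆
      Set.range (fun L' : IntermediateField ℚ M => IntermediateField.lift L') := by
    intro L hL
    exact ⟨IntermediateField.restrict hL, IntermediateField.lift_restrict hL⟩
  exact (Set.finite_range _).subset hsub

theorem exists_primes (S : CompSys.{u, v} k w) (D : ℕ) (s : Finset (IntermediateField ℚ ℂ))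
    (hs : ∀ L ∈ s, FiniteDimensional ℚ L ∧ IsGalois ℚ L ∧
      ∃ z, Neat S D z ∧ ¬ L ≤ frobField (S.P z)) (y₀ : Place k) :
    ∃ (T : Finset ℕ) (y : ℕ → Place k),
      (∀ ℓ ∈ T, ℓ.Prime ∧ Neat S D (y ℓ) ∧ (y ℓ).p ≠ ℓ ∧ ℓ ∈ Spl ↥(frobField (S.P (y ℓ)))) ∧
      ∀ L ∈ s, ∃ ℓ ∈ T, ℓ ∉ Spl ↥L := by
  classical
  induction s using Finset.induction_on with
  | empty => exact ⟨∅, fun _ => y₀, by simp, by simp⟩
  | insert L s hL ih =>
    obtain ⟨T, y, hT, hs'⟩ := ih (fun L' hL' => hs L' (Finset.mem_insert_of_mem hL'))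
    obtain ⟨hfd, hgal, z, hz, hLz⟩ := hs L (Finset.mem_insert_self _ _)
    obtain ⟨ℓ, hp, hnT, hℓ, hℓ'⟩ := exists_split_prime (frobField (S.P z)) L
      (frobField_fd _) hfd (frobField_galois _) hgal hLz (insert z.p T)
    rw [Finset.mem_insert, not_or] at hnT
    refine ⟨insert ℓ T, Function.update y ℓ z, ?_, ?_⟩
    · intro q hq
      by_cases hqe : q = ℓ
      · subst hqe
        rw [Function.update_self]
        exact ⟨hp, hz, fun h => hnT.1 h.symm, hℓ⟩
      · rw [Function.update_of_ne hqe]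
        rcases Finset.mem_insert.1 hq with h | h
        · exact absurd h hqe
        · exact hT q h
    · intro L' hL'
      rcases Finset.mem_insert.1 hL' with h | h
      · subst h
        exact ⟨ℓ, Finset.mem_insert_self _ _, hℓ'⟩
      · obtain ⟨q, hq, hq'⟩ := hs' L' h
        exact ⟨q, Finset.mem_insert_of_mem hq, hq'⟩

/-- Proof. Let `𝓛` be the finite set of the intermediate fields `L ≤ M`, `L / ℚ` Galois, with
`¬ L ≤ common S D` (finite: subfields of `M` correspond to `IntermediateField ℚ ↥M`, which is finite, e.g.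
`IntermediateField.finite_of_...`/`Field.finite_intermediateField_of_exists_primitive_element`). For
`L ∈ 𝓛` there is a neat `z` with `¬ L ≤ frobField (S.P z)` (otherwise `L ≤ common S = ⨅`, `le_iInf`), and by
`exists_split_prime (frobField (S.P z)) L` there are infinitely many primes `ℓ` in
`Spl (frobField P_z)` and not in `Spl L`. Choose such `ℓ(L)` for the members of `𝓛` one after the other,
different from each other and from `p_z` (put them in the finite set `T` of `exists_split_prime`).
If `𝓛` is empty any neat `x` works. Otherwise let `T = {ℓ(L)}`, `y ℓ(L) = z`, and let `x` be the neat place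
of `approx`. `F = frobField (S.P x) ⊓ M` is Galois over `ℚ` (`inf_galois`), `F ≤ M`; if `F` was not
`≤ common S D` then `F ∈ 𝓛` and `ℓ(F) ∈ Spl (frobField P_x) ⊆ Spl F` (`Spl_anti`), contradiction. -/
theorem exists_neat_inf_le (S : CompSys.{u, v} k w) (hd : DenseFrob S) (D : ℕ) (hm : MaxRoots S D)
    (hx : ∃ x, Neat S D x) (M : IntermediateField ℚ ℂ) (hMf : FiniteDimensional ℚ M)
    (hM : IsGalois ℚ M) : ∃ x, Neat S D x ∧ frobField (S.P x) ⊓ M ≤ common S D := by
  classical
  obtain ⟨x₀, hx₀⟩ := hx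
  have hfin : {L : IntermediateField ℚ ℂ | L ≤ M ∧ IsGalois ℚ L ∧ ¬ L ≤ common S D}.Finite :=
    (finite_below M hMf).subset (fun L hL => hL.1)
  have hmem : ∀ L, L ∈ hfin.toFinset ↔ L ≤ M ∧ IsGalois ℚ L ∧ ¬ L ≤ common S D := by
    intro L
    rw [Set.Finite.mem_toFinset]
    rfl
  have hs : ∀ L ∈ hfin.toFinset, FiniteDimensional ℚ L ∧ IsGalois ℚ L ∧
      ∃ z, Neat S D z ∧ ¬ L ≤ frobField (S.P z) := by
    intro L hL
    obtain ⟨hLM, hgal, hnc⟩ := (hmem L).1 hL
    refine ⟨?_, hgal, ?_⟩
    · exact FiniteDimensional.of_injective (IntermediateField.inclusion hLM).toLinearMap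
        (IntermediateField.inclusion hLM).injective
    · by_contra hcon
      push Not at hcon
      apply hnc
      exact le_iInf (fun z => hcon z.1 z.2)
  obtain ⟨T, y, hT, hsT⟩ := exists_primes S D hfin.toFinset hs x₀
  have key : ∀ x, Neat S D x → (∀ ℓ ∈ T, ℓ ∈ Spl ↥(frobField (S.P x))) →
      frobField (S.P x) ⊓ M ≤ common S D := by
    intro x hx hxT
    by_contra hcon
    obtain ⟨ℓ, hℓ, hℓ'⟩ := hsT (frobField (S.P x) ⊓ M)
      ((hmem _).2 ⟨inf_le_right, inf_galois _ _ (frobField_galois _) hM, hcon⟩)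
    exact hℓ' (Spl_anti inf_le_left (hxT ℓ hℓ))
  by_cases hTn : T.Nonempty
  · obtain ⟨x, hx, hxT⟩ := approx S hd D hm T hTn y hT
    exact ⟨x, hx, key x hx hxT⟩
  · refine ⟨x₀, hx₀, key x₀ hx₀ ?_⟩
    intro ℓ hℓ
    exact absurd ⟨ℓ, hℓ⟩ hTn

end Pool.Agent.T10
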