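import Pool.Agent.W_b4801b_h32.ParFinal

set_option autoImplicit false

/-!
# Balanced subspaces at the dual primes

Let `x` be a place and `ℓ` a prime such that `α ↦ q_x ^ w / α` permutes the roots of every irreducible factor of
`P_x` over `ℚ_ℓ`.  Then `det (F_x | W) ^ 2 = (q_x ^ w) ^ dim W` for every Galois-stable subspace `W` of `V_ℓ`
(`det_sq`), so `W` is balanced, and the parabolic test or the maximality of the Frobenius torus at `x` imply that
`V_ℓ` is semisimple, without any condition on the determinants and the field `k`.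
-/

noncomputable section

open Polynomial Pool.Agent.B4801b Pool.Agent.B4801bT

universe u v

namespace Pool.Agent.T10

section Poly

variable {F : Type*} [Field F] [CharZero F]

theorem prod_sq_irreducible (c : F) (hc : c ≠ 0) (g : F[X]) (hg : Irreducible g)
    (h0 : g.eval 0 ≠ 0) (hs : SelfDualPoly c g) :
    (g.aroots (AlgebraicClosure F)).prod ^ 2 =
      algebraMap F (AlgebraicClosure F) c ^ g.natDegree := by
  classical
  let K := AlgebraicClosure F
  let c' : K := algebraMap F K c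
  have hc' : c' ≠ 0 := (map_ne_zero_iff _ (algebraMap F K).injective).2 hc
  have hmem : ∀ α : K, α ∈ g.aroots K ↔ aeval α g = 0 := by
    intro α
    rw [mem_aroots]
    exact ⟨fun h => h.2, fun h => ⟨hg.ne_zero, h⟩⟩
  have hα0 : ∀ α : K, aeval α g = 0 → α ≠ 0 := by
    rintro α hα rfl
    rw [aeval_def, eval₂_at_zero] at hα
    apply h0
    rw [← coeff_zero_eq_eval_zero]
    exact (map_eq_zero_iff _ (algebraMap F K).injective).1 hα
  have hnd : (g.aroots K).Nodup := nodup_roots (hg.separable.map)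
  have hcard : Multiset.card (g.aroots K) = g.natDegree := by
    have h := (IsAlgClosed.splits (g.map (algebraMap F K))).natDegree_eq_card_roots
    rw [Polynomial.natDegree_map] at h
    exact h.symm
  let s : Finset K := ⟨g.aroots K, hnd⟩
  have hs1 : (g.aroots K).prod = ∏ α ∈ s, α := by
    show (g.aroots K).prod = ((g.aroots K).map fun α => α).prod
    rw [Multiset.map_id']
  have hs2 : s.card = g.natDegree := hcard
  have hsm : ∀ α, α ∈ s ↔ aeval α g = 0 := hmem
  have hinv : ∏ α ∈ s, α = ∏ α ∈ s, c' / α := by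
    symm
    refine Finset.prod_nbij' (fun α => c' / α) (fun α => c' / α) ?_ ?_ ?_ ?_ ?_
    · intro α hα
      exact (hsm _).2 (hs α ((hsm _).1 hα))
    · intro α hα
      exact (hsm _).2 (hs α ((hsm _).1 hα))
    · intro α _
      exact div_div_cancel₀ hc'
    · intro α _
      exact div_div_cancel₀ hc'
    · intro α _
      rfl
  have hprod : (∏ α ∈ s, c' / α) = c' ^ s.card / ∏ α ∈ s, α := by
    rw [Finset.prod_div_distrib, Finset.prod_const]
  have hne : ∏ α ∈ s, α ≠ 0 := Finset.prod_ne_zero_iff.2 fun α hα => hα0 α ((hsm _).1 hα)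
  rw [hs1, pow_two]
  nth_rewrite 1 [hinv]
  rw [hprod, hs2, div_mul_cancel₀ _ hne]

theorem prod_sq (c : F) (hc : c ≠ 0) (P : F[X]) (h0 : P.eval 0 ≠ 0)
    (hd : ∀ g : F[X], Irreducible g → g ∣ P → SelfDualPoly c g) (f : F[X]) (hf : f ∣ P) :
    (f.aroots (AlgebraicClosure F)).prod ^ 2 =
      algebraMap F (AlgebraicClosure F) c ^ f.natDegree := by
  have hP : P ≠ 0 := by
    rintro rfl
    exact h0 eval_zero
  induction f using WfDvdMonoid.induction_on_irreducible with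
  | zero => exact absurd (zero_dvd_iff.1 hf) hP
  | unit u hu =>
    obtain ⟨a, ha, rfl⟩ := Polynomial.isUnit_iff.1 hu
    rw [aroots_C, natDegree_C, Multiset.prod_zero, one_pow, pow_zero]
  | mul a i ha hi ih =>
    have hia : i * a ≠ 0 := mul_ne_zero hi.ne_zero ha
    have h1 : i ∣ P := (dvd_mul_right i a).trans hf
    have h2 : a ∣ P := (dvd_mul_left a i).trans hf
    have hi0 : i.eval 0 ≠ 0 := by
      intro h
      obtain ⟨r, rfl⟩ := h1
      exact h0 (by rw [eval_mul, h, zero_mul])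
    rw [aroots_mul hia, Multiset.prod_add, mul_pow, natDegree_mul hi.ne_zero ha, pow_add,
      prod_sq_irreducible c hc i hi hi0 (hd i hi h1), ih h2]

/-- The determinant on stable subspaces. -/
theorem det_sq {V : Type*} [AddCommGroup V] [Module F V] [FiniteDimensional F V]
    (A : Module.End F V) (hA : LinearMap.det A ≠ 0) (c : F) (hc : c ≠ 0)
    (hd : ∀ g : F[X], Irreducible g → g ∣ A.charpoly → SelfDualPoly c g)
    (W : Submodule F V) (hW : ∀ v ∈ W, A v ∈ W) :
    LinearMap.det (A.restrict hW) ^ 2 = c ^ Module.finrank F W := by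
  have h0 : A.charpoly.eval 0 ≠ 0 := by
    intro h
    apply hA
    rw [LinearMap.det_eq_sign_charpoly_coeff, coeff_zero_eq_eval_zero, h, mul_zero]
  have hdvd : (A.restrict hW).charpoly ∣ A.charpoly := by
    rw [charpoly_mul W A hW]
    exact dvd_mul_right _ _
  have h1 := prod_sq c hc A.charpoly h0 hd _ hdvd
  rw [prod_aroots (AlgebraicClosure F) (A.restrict hW), LinearMap.charpoly_natDegree] at h1
  apply (algebraMap F (AlgebraicClosure F)).injective
  rw [map_pow, map_pow]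
  exact h1

theorem det_sq_top {V : Type*} [AddCommGroup V] [Module F V] [FiniteDimensional F V]
    (A : Module.End F V) (hA : LinearMap.det A ≠ 0) (c : F) (hc : c ≠ 0)
    (hd : ∀ g : F[X], Irreducible g → g ∣ A.charpoly → SelfDualPoly c g) :
    LinearMap.det A ^ 2 = c ^ Module.finrank F V := by
  have h0 : A.charpoly.eval 0 ≠ 0 := by
    intro h
    apply hA
    rw [LinearMap.det_eq_sign_charpoly_coeff, coeff_zero_eq_eval_zero, h, mul_zero]
  have h1 := prod_sq c hc A.charpoly h0 hd _ dvd_rfl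
  rw [prod_aroots (AlgebraicClosure F) A, LinearMap.charpoly_natDegree] at h1
  apply (algebraMap F (AlgebraicClosure F)).injective
  rw [map_pow, map_pow]
  exact h1

end Poly

section System

variable {k : Type u} [Field k] {w : ℕ} {S : CompSys.{u, v} k w}

theorem mat_charpoly (D : TensorData S) (x : Place k) (hx : x ∈ S.Pl) (ℓ : ℕ) [Fact ℓ.Prime]
    (hℓ : ℓ ≠ x.p) : (D.mat ℓ x.frob).charpoly = (S.P x).map (algebraMap ℚ ℚ_[ℓ]) := by
  rw [← S.charpoly_frob x hx ℓ hℓ, TensorData.mat, LinearMap.charpoly_toMatrix]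

theorem mat_isUnit (D : TensorData S) (ℓ : ℕ) [Fact ℓ.Prime] (σ : Gal k) :
    IsUnit (D.mat ℓ σ) := by
  refine ⟨⟨ParFinal_R D ℓ σ, ParFinal_R D ℓ σ⁻¹, ?_, ?_⟩, rfl⟩
  · rw [← map_mul, mul_inv_cancel, map_one]
  · rw [← map_mul, inv_mul_cancel, map_one]

/-- At a dual prime the determinants of Frobenius on the stable subspaces have the expected slope. -/
theorem det_of_dual (D : TensorData S) (x : Place k) (hx : x ∈ S.Pl) (ℓ : ℕ) [Fact ℓ.Prime]
    (hℓ : ℓ ≠ x.p) (hd : ℓ ∈ S.dualPrimes x) (W : Submodule ℚ_[ℓ] (Fin D.n → ℚ_[ℓ]))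
    (hW : ∀ v ∈ W, Matrix.toLin' (D.mat ℓ x.frob) v ∈ W) :
    (LinearMap.det ((Matrix.toLin' (D.mat ℓ x.frob)).restrict hW) ^ D.n) ^ 2 =
      (LinearMap.det (Matrix.toLin' (D.mat ℓ x.frob)) ^ Module.finrank ℚ_[ℓ] W) ^ 2 := by
  obtain ⟨_, hd⟩ := hd
  have hq : (x.q : ℚ_[ℓ]) ≠ 0 := by
    intro h0
    have := x.cyc_frob ℓ hℓ
    rw [h0, mul_zero] at this
    exact zero_ne_one this
  have hc : algebraMap ℚ ℚ_[ℓ] ((x.q : ℚ) ^ w) ≠ 0 := by
    rw [map_pow, map_natCast]
    exact pow_ne_zero _ hq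
  have hdet : LinearMap.det (Matrix.toLin' (D.mat ℓ x.frob)) ≠ 0 := by
    rw [LinearMap.det_toLin']
    exact ((Matrix.isUnit_iff_isUnit_det _).mp (mat_isUnit D ℓ x.frob)).ne_zero
  have hchar : (Matrix.toLin' (D.mat ℓ x.frob)).charpoly = (S.P x).map (algebraMap ℚ ℚ_[ℓ]) := by
    rw [← mat_charpoly D x hx ℓ hℓ, Matrix.charpoly_toLin']
  have hd' : ∀ g : ℚ_[ℓ][X], Irreducible g →
      g ∣ (Matrix.toLin' (D.mat ℓ x.frob)).charpoly →
      SelfDualPoly (algebraMap ℚ ℚ_[ℓ] ((x.q : ℚ) ^ w)) g := by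
    intro g hg hdvd
    rw [hchar] at hdvd
    exact hd g hg hdvd
  have h1 := det_sq _ hdet _ hc hd' W hW
  have h2 := det_sq_top _ hdet _ hc hd'
  rw [Module.finrank_fin_fun] at h2
  rw [← pow_mul, mul_comm D.n 2, pow_mul, h1, ← pow_mul (LinearMap.det _), mul_comm _ 2, pow_mul,
    h2, ← pow_mul, ← pow_mul, mul_comm]

/-- **Semisimplicity at the dual primes of a place where the Frobenius torus is maximal.** -/
theorem semisimple_of_rank_dual [CharZero k] (D : TensorData S) (x : Place k) (hx : x ∈ S.Pl)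
    (hT : TraceNondeg D.T) (hrank : RankLE D.T (S.P x)) (ℓ : ℕ) [Fact ℓ.Prime] (hℓ : ℓ ≠ x.p)
    (hd : ℓ ∈ S.dualPrimes x) : (S.rep ℓ).Semisimple := by
  refine ParFinal_semisimple D ℓ fun W hW => ?_
  have hfix : ∀ t ∈ D.T, ∃ Γ : Subgroup (Gal k), Γ.FiniteIndex ∧
      ∀ g ∈ Γ, Commute (tp t.1 (ParFinal_R D ℓ g)) (t.2.map (algebraMap ℚ ℚ_[ℓ])) := by
    intro t ht
    obtain ⟨Γ, h1, h2⟩ := D.fixed ℓ t ht
    exact ⟨Γ, h1, fun g hg => h2 g hg⟩
  exact main_abs ℓ (ParFinal_R D ℓ) (ParFinal_cont D ℓ) D.T hT hfix (S.P x) hrank x.frob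
    (mat_charpoly D x hx ℓ hℓ) W hW 2 two_pos (det_of_dual D x hx ℓ hℓ hd W (hW x.frob))

/-- **Semisimplicity at the dual primes of a place where the parabolic test holds.** -/
theorem semisimple_of_parabolic_dual [CharZero k] (D : TensorData S) (x : Place k) (hx : x ∈ S.Pl)
    (hT : TraceNondeg D.T) (htest : ParabolicTest D.T (S.P x) ℂ) (ℓ : ℕ) [Fact ℓ.Prime]
    (hnorm : D.Normal ℓ) (hℓ : ℓ ≠ x.p) (hd : ℓ ∈ S.dualPrimes x) : (S.rep ℓ).Semisimple := by
  have hfix : ∀ t ∈ D.T, ∃ Γ : Subgroup (Gal k), Γ.FiniteIndex ∧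
      ∀ g ∈ Γ, Commute (tp t.1 (ParFinal_R D ℓ g)) (t.2.map (algebraMap ℚ ℚ_[ℓ])) := by
    intro t ht
    obtain ⟨Γ, h1, h2⟩ := D.fixed ℓ t ht
    exact ⟨Γ, h1, fun g hg => h2 g hg⟩
  rcases semisimple_or_parabolic ℓ (ParFinal_R D ℓ) (ParFinal_cont D ℓ) D.T hT hfix
    (fun σ => hnorm σ) with h | ⟨q, hq, hne, hqn⟩
  · exact ParFinal_semisimple D ℓ h
  · exfalso
    obtain ⟨ι⟩ := exists_embedding ℓ
    let _ : Algebra ℚ_[ℓ] ℂ := (ι.comp (algebraMap ℚ_[ℓ] (AlgebraicClosure ℚ_[ℓ]))).toAlgebra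
    have hst : ∀ v ∈ fixedBy (orth (ann D.T ℚ_[ℓ]) q),
        Matrix.toLin' (D.mat ℓ x.frob) v ∈ fixedBy (orth (ann D.T ℚ_[ℓ]) q) :=
      fixedBy_stable _ q _ (mat_isUnit D ℓ x.frob) (hnorm x.frob) (hqn x.frob)
    refine not_balanced_of_test ℂ D.T (S.P x) htest (D.mat ℓ x.frob) (mat_isUnit D ℓ x.frob)
      (mat_charpoly D x hx ℓ hℓ) ?_ (hnorm x.frob) q hq hne (hqn x.frob) ?_
    · intro t ht
      obtain ⟨Γ, hΓ, hfixt⟩ := D.fixed ℓ t ht
      obtain ⟨N, hN, -, hgN⟩ := Γ.exists_pow_mem_of_index_ne_zero hΓ.index_ne_zero x.frob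
      refine ⟨N, hN, ?_⟩
      have h2 : D.mat ℓ x.frob ^ N = D.mat ℓ (x.frob ^ N) :=
        (map_pow (ParFinal_R D ℓ) x.frob N).symm
      rw [h2]
      exact hfixt _ hgN
    · refine ⟨hst, 2, two_pos, ?_⟩
      have h1 := det_of_dual D x hx ℓ hℓ hd _ hst
      rw [LinearMap.det_toLin'] at h1
      exact h1

end System

end Pool.Agent.T10
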