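import Pool.Agent.W_b4801b_t10.Final
import Pool.Agent.W_b4801b_t10.RootC

/-! The density theorem when the Frobenius tori of the neat places are maximal. -/

set_option autoImplicit false

noncomputable section

open Polynomial

universe u v

namespace Pool.Agent.T10

open Pool.Agent.B4801b Pool.Agent.B4801bT

variable {k : Type u} [Field k] {w : ℕ}

/-- For one place: the primes at which the Frobenius polynomial of `x` is self-dual. -/
theorem semisimple_of_tensor_dual [CharZero k] (S : CompSys.{u, v} k w) (Dt : TensorData S)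
    (hT : TraceNondeg Dt.T) (x : Place k) (hx : x ∈ S.Pl) (ℓ : ℕ) [Fact ℓ.Prime] (hℓ : ℓ ≠ x.p)
    (hd : ℓ ∈ S.dualPrimes x)
    (hC : RankLE Dt.T (S.P x) ∨ (Dt.Normal ℓ ∧ ParabolicTest Dt.T (S.P x) ℂ)) :
    (S.rep ℓ).Semisimple := by
  rcases hC with h | ⟨hn, h⟩
  · exact semisimple_of_rank_dual Dt x hx hT h ℓ hℓ hd
  · exact semisimple_of_parabolic_dual Dt x hx hT h ℓ hn hℓ hd

/-- If the Frobenius torus is maximal at every neat place then `V_ℓ` is semisimple for a set of primes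
of lower density at least `1 / [common S D : ℚ]`. -/
theorem semisimple_density_tensor [CharZero k] (S : CompSys.{u, v} k w) (hd : DenseFrob S) (D : ℕ)
    (hm : MaxRoots S D) (hx : ∃ x, Neat S D x) (Dt : TensorData S) (hT : TraceNondeg Dt.T)
    (hC : ∀ x, Neat S D x → RankLE Dt.T (S.P x) ∨
      ((∀ (ℓ : ℕ) [Fact ℓ.Prime], Dt.Normal ℓ) ∧ ParabolicTest Dt.T (S.P x) ℂ)) :
    0 < Module.finrank ℚ (common S D) ∧
      LowerDensityGE (semisimplePrimes S) (1 / Module.finrank ℚ (common S D)) := by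
  obtain ⟨hpos, hdens⟩ := density_theorem S hd D hm hx
  refine ⟨hpos, hdens.mono ∅ ?_⟩
  rintro ℓ ⟨hℓ, z, hz, hzp, hzd⟩ _
  have : Fact ℓ.Prime := ⟨hℓ⟩
  refine ⟨hℓ, semisimple_of_tensor_dual S Dt hT z hz.1 ℓ (fun h => hzp h.symm) hzd ?_⟩
  rcases hC z hz with h | ⟨h1, h2⟩
  · exact Or.inl h
  · exact Or.inr ⟨h1 ℓ, h2⟩

end Pool.Agent.T10
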