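import Pool.Agent.W_b4801b_t10.Defs

/-! Elementary properties of Dirichlet densities. -/

set_option autoImplicit false

noncomputable section

open Filter Topology

namespace Pool.Agent.T10

theorem HDens_summable (s : ℝ) (hs : 1 < s) : Summable (fun n : ℕ => (n : ℝ) ^ (-s)) :=
  Real.summable_nat_rpow.2 (by linarith)

theorem HDens_eq (A : Set ℕ) (s : ℝ) :
    dsum A s = ∑' n : ℕ, A.indicator (fun n : ℕ => (n : ℝ) ^ (-s)) n := by
  unfold dsum
  exact tsum_subtype A (fun n : ℕ => (n : ℝ) ^ (-s))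

theorem HDens_term_nonneg (n : ℕ) (s : ℝ) : 0 ≤ (n : ℝ) ^ (-s) :=
  Real.rpow_nonneg (Nat.cast_nonneg n) _

theorem HDens_term_le_one (n : ℕ) (s : ℝ) (hs : 1 < s) : (n : ℝ) ^ (-s) ≤ 1 := by
  rcases Nat.eq_zero_or_pos n with rfl | hn
  · rw [Nat.cast_zero, Real.zero_rpow (by linarith)]
    exact zero_le_one
  · exact Real.rpow_le_one_of_one_le_of_nonpos (by exact_mod_cast hn) (by linarith)

theorem HDens_ev : ∀ᶠ s : ℝ in 𝓝[>] 1, 1 < s := self_mem_nhdsWithin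

theorem summable_dsum (A : Set ℕ) (s : ℝ) (hs : 1 < s) :
    Summable (fun ℓ : A => ((ℓ : ℕ) : ℝ) ^ (-s)) :=
  (HDens_summable s hs).subtype A

theorem dsum_nonneg (A : Set ℕ) (s : ℝ) : 0 ≤ dsum A s :=
  tsum_nonneg fun ℓ => HDens_term_nonneg (ℓ : ℕ) s

/-- Elements outside of a finite set `T` decide, up to the number of elements of `T`
(each term is at most `1`: `0 ^ (-s) ≤ 1` also for `ℓ = 0`, `s > 1`, as `0 ^ (-s) = 0`). -/
theorem dsum_le_add {A B : Set ℕ} (T : Finset ℕ) (h : ∀ ℓ ∈ A, ℓ ∉ T → ℓ ∈ B) (s : ℝ)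
    (hs : 1 < s) : dsum A s ≤ dsum B s + T.card := by
  classical
  have hg : HasSum (fun n : ℕ => if n ∈ T then (1 : ℝ) else 0) (T.card : ℝ) := by
    have h1 : HasSum (fun n : ℕ => if n ∈ T then (1 : ℝ) else 0)
        (∑ n ∈ T, if n ∈ T then (1 : ℝ) else 0) :=
      hasSum_sum_of_ne_finset_zero fun n hn => if_neg hn
    have h2 : (∑ n ∈ T, if n ∈ T then (1 : ℝ) else 0) = (T.card : ℝ) := by
      rw [Finset.sum_congr rfl (fun n hn => if_pos hn), Finset.sum_const, nsmul_eq_mul, mul_one]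
    rwa [h2] at h1
  have hA : Summable (A.indicator (fun n : ℕ => (n : ℝ) ^ (-s))) :=
    (HDens_summable s hs).indicator A
  have hB : Summable (B.indicator (fun n : ℕ => (n : ℝ) ^ (-s))) :=
    (HDens_summable s hs).indicator B
  rw [HDens_eq A, HDens_eq B, ← hg.tsum_eq, ← hB.tsum_add hg.summable]
  refine hA.tsum_le_tsum (fun n => ?_) (hB.add hg.summable)
  have hn0 := HDens_term_nonneg n s
  have hn1 := HDens_term_le_one n s hs
  have hB0 : 0 ≤ B.indicator (fun n : ℕ => (n : ℝ) ^ (-s)) n :=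
    Set.indicator_nonneg (fun m _ => HDens_term_nonneg m s) n
  by_cases hA' : n ∈ A
  · rw [Set.indicator_of_mem hA']
    by_cases hT : n ∈ T
    · rw [if_pos hT]
      linarith
    · rw [if_neg hT, Set.indicator_of_mem (h n hA' hT)]
      linarith
  · rw [Set.indicator_of_notMem hA']
    split_ifs
    · linarith
    · linarith

theorem dsum_mono {A B : Set ℕ} (h : A ⊆ B) (s : ℝ) (hs : 1 < s) : dsum A s ≤ dsum B s := by
  have h1 := dsum_le_add (A := A) (B := B) ∅ (fun ℓ hℓ _ => h hℓ) s hs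
  simpa using h1

theorem dsum_diff {A B : Set ℕ} (h : B ⊆ A) (s : ℝ) (hs : 1 < s) :
    dsum (A \ B) s = dsum A s - dsum B s := by
  have hA : Summable (A.indicator (fun n : ℕ => (n : ℝ) ^ (-s))) :=
    (HDens_summable s hs).indicator A
  have hB : Summable (B.indicator (fun n : ℕ => (n : ℝ) ^ (-s))) :=
    (HDens_summable s hs).indicator B
  rw [HDens_eq, HDens_eq, HDens_eq, ← hA.tsum_sub hB]
  refine tsum_congr fun n => ?_
  by_cases hnB : n ∈ B
  · rw [Set.indicator_of_mem hnB, Set.indicator_of_mem (h hnB),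
      Set.indicator_of_notMem (fun h' => h'.2 hnB), sub_self]
  · by_cases hnA : n ∈ A
    · rw [Set.indicator_of_notMem hnB, Set.indicator_of_mem hnA,
        Set.indicator_of_mem (Set.mem_diff_of_mem hnA hnB), sub_zero]
    · rw [Set.indicator_of_notMem hnB, Set.indicator_of_notMem hnA,
        Set.indicator_of_notMem (fun h' => hnA h'.1), sub_zero]

theorem log_tendsto : Tendsto (fun s : ℝ => Real.log (1 / (s - 1))) (𝓝[>] 1) atTop := by
  have h1 : Tendsto (fun s : ℝ => s - 1) (𝓝[>] 1) (𝓝[>] 0) := by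
    rw [tendsto_nhdsWithin_iff]
    constructor
    · have h2 : Tendsto (fun s : ℝ => s - 1) (𝓝 1) (𝓝 (1 - 1)) :=
        (continuous_id.sub continuous_const).tendsto 1
      rw [sub_self] at h2
      exact h2.mono_left nhdsWithin_le_nhds
    · filter_upwards [HDens_ev] with s hs
      exact sub_pos.2 hs
  have h3 : Tendsto (fun s : ℝ => (s - 1)⁻¹) (𝓝[>] 1) atTop := tendsto_inv_nhdsGT_zero.comp h1
  have h4 := Real.tendsto_log_atTop.comp h3
  refine h4.congr fun s => ?_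
  rw [Function.comp_apply, one_div]

theorem HasDens.diff {A B : Set ℕ} {a b : ℝ} (hA : HasDens A a) (hB : HasDens B b) (h : B ⊆ A) :
    HasDens (A \ B) (a - b) := by
  obtain ⟨hA1, C, hC⟩ := hA
  obtain ⟨_, D, hD⟩ := hB
  refine ⟨fun ℓ hℓ => hA1 ℓ hℓ.1, C + D, ?_⟩
  filter_upwards [hC, hD, HDens_ev] with s h1 h2 hs
  rw [dsum_diff h s hs]
  rw [abs_le] at h1 h2 ⊢
  constructor
  · linarith
  · linarith

theorem HasDens.infinite {A : Set ℕ} {a : ℝ} (hA : HasDens A a) (ha : 0 < a) : A.Infinite := by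
  intro hfin
  obtain ⟨_, C, hC⟩ := hA
  have h1 : ∀ᶠ s : ℝ in 𝓝[>] 1,
      (C + hfin.toFinset.card) / a < Real.log (1 / (s - 1)) :=
    log_tendsto.eventually_gt_atTop _
  obtain ⟨s, ⟨h2, h3⟩, h4⟩ := ((hC.and h1).and HDens_ev).exists
  have h5 := dsum_le_add (A := A) (B := ∅) hfin.toFinset
    (fun ℓ hℓ hT => absurd (hfin.mem_toFinset.2 hℓ) hT) s h4
  have h6 : dsum ∅ s = 0 := by
    rw [HDens_eq]
    simp
  rw [h6, zero_add] at h5
  rw [div_lt_iff₀ ha] at h3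
  rw [abs_le] at h2
  nlinarith [h2.1, h2.2]

theorem HasDens.lower {A : Set ℕ} {a : ℝ} (hA : HasDens A a) : LowerDensityGE A a := by
  intro ε hε
  obtain ⟨_, C, hC⟩ := hA
  have h1 : ∀ᶠ s : ℝ in 𝓝[>] 1, C / ε < Real.log (1 / (s - 1)) :=
    log_tendsto.eventually_gt_atTop _
  filter_upwards [hC, h1] with s h2 h3
  rw [div_lt_iff₀ hε] at h3
  rw [abs_le] at h2
  nlinarith [h2.1, h2.2]

/-- Monotonicity, up to a finite set. -/
theorem LowerDensityGE.mono {A B : Set ℕ} {a : ℝ} (hA : LowerDensityGE A a) (T : Finset ℕ)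
    (h : ∀ ℓ ∈ A, ℓ ∉ T → ℓ ∈ B) : LowerDensityGE B a := by
  intro ε hε
  have h1 : ∀ᶠ s : ℝ in 𝓝[>] 1, (T.card : ℝ) / (ε / 2) < Real.log (1 / (s - 1)) :=
    log_tendsto.eventually_gt_atTop _
  filter_upwards [hA (ε / 2) (by linarith), h1, HDens_ev] with s h2 h3 hs
  rw [div_lt_iff₀ (by linarith)] at h3
  have h4 := dsum_le_add T h s hs
  nlinarith [h2, h3, h4]

/-- `1_{A₁ \ B₁} 1_{A₂ \ B₂} = 1_{A₁ ∩ A₂} - 1_{A₁ ∩ B₂} - 1_{B₁ ∩ A₂} + 1_{B₁ ∩ B₂}`. -/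
theorem HasDens.inter_diff {A₁ A₂ B₁ B₂ : Set ℕ} {a b c d : ℝ} (h₁ : B₁ ⊆ A₁) (h₂ : B₂ ⊆ A₂)
    (ha : HasDens (A₁ ∩ A₂) a) (hb : HasDens (A₁ ∩ B₂) b) (hc : HasDens (B₁ ∩ A₂) c)
    (hd : HasDens (B₁ ∩ B₂) d) : HasDens ((A₁ \ B₁) ∩ (A₂ \ B₂)) (a - b - c + d) := by
  have e1 := ha.diff hc (Set.inter_subset_inter_left _ h₁)
  have e2 := hb.diff hd (Set.inter_subset_inter_left _ h₁)
  have e3 := e1.diff e2 (by
    rintro x ⟨⟨h3, h4⟩, h5⟩
    refine ⟨⟨h3, h₂ h4⟩, fun h6 => h5 ⟨h6.1, h4⟩⟩)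
  have e4 : ((A₁ ∩ A₂) \ (B₁ ∩ A₂)) \ ((A₁ ∩ B₂) \ (B₁ ∩ B₂)) = (A₁ \ B₁) ∩ (A₂ \ B₂) := by
    ext x
    simp only [Set.mem_diff, Set.mem_inter_iff]
    have := @h₂ x
    tauto
  have e5 : a - c - (b - d) = a - b - c + d := by ring
  rwa [e4, e5] at e3

end Pool.Agent.T10
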