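import Pool.Agent.W_b4801b_t10.LocA1

/-! Frobenius elements and the reduction of roots. -/

set_option autoImplicit false

noncomputable section

open Polynomial NumberField

namespace Pool.Agent.T10

open Pool.Agent.B4801b

variable {ℓ : ℕ} [Fact ℓ.Prime]

theorem LocA_sub_lt {x y z : PadicAlgCl ℓ} (h1 : ‖x - y‖ < 1) (h2 : ‖y - z‖ < 1) : ‖x - z‖ < 1 := by
  have h3 : x - z = (x - y) + (y - z) := by ring
  rw [h3]
  exact lt_of_le_of_lt (IsUltrametricDist.norm_add_le_max _ _) (max_lt h1 h2)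

theorem LocA_add_lt {x y : PadicAlgCl ℓ} (h1 : ‖x‖ < 1) (h2 : ‖y‖ < 1) : ‖x + y‖ < 1 :=
  lt_of_le_of_lt (IsUltrametricDist.norm_add_le_max _ _) (max_lt h1 h2)

theorem LocA_pow_sub {x y : PadicAlgCl ℓ} (hx : ‖x‖ ≤ 1) (hy : ‖y‖ ≤ 1) (k : ℕ) :
    ‖x ^ k - y ^ k‖ ≤ ‖x - y‖ := by
  induction k with
  | zero => simp
  | succ k ih =>
    have h1 : x ^ (k + 1) - y ^ (k + 1) = x ^ k * (x - y) + (x ^ k - y ^ k) * y := by ring
    rw [h1]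
    refine (IsUltrametricDist.norm_add_le_max _ _).trans (max_le ?_ ?_)
    · rw [norm_mul, norm_pow]
      exact mul_le_of_le_one_left (norm_nonneg _) (pow_le_one₀ (norm_nonneg _) hx)
    · rw [norm_mul]
      exact (mul_le_of_le_one_right (norm_nonneg _) hy).trans ih

theorem LocA_norm_nat (n : ℕ) : ‖(n : PadicAlgCl ℓ)‖ = ‖(n : ℚ_[ℓ])‖ := by
  have h1 : (n : PadicAlgCl ℓ) = algebraMap ℚ_[ℓ] (PadicAlgCl ℓ) (n : ℚ_[ℓ]) := by simp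
  rw [h1]
  exact PadicAlgCl.norm_extends ℓ (n : ℚ_[ℓ])

theorem LocA_norm_ell : ‖(ℓ : PadicAlgCl ℓ)‖ < 1 := by
  rw [LocA_norm_nat, Padic.norm_p]
  exact inv_lt_one_of_one_lt₀ (by exact_mod_cast (Fact.out : ℓ.Prime).one_lt)

theorem LocA_norm_coprime {n : ℕ} (hn : n.Coprime ℓ) : ‖(n : PadicAlgCl ℓ)‖ = 1 := by
  rw [LocA_norm_nat]
  exact Padic.norm_natCast_eq_one_iff.2 hn.symm

/-- Elements of `ℤ_ℓ` are fixed by the `ℓ`-th power modulo the maximal ideal. -/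
theorem LocA_frobZ (c : ℚ_[ℓ]) (hc : ‖c‖ ≤ 1) :
    ‖(algebraMap ℚ_[ℓ] (PadicAlgCl ℓ) c) ^ ℓ - algebraMap ℚ_[ℓ] (PadicAlgCl ℓ) c‖ < 1 := by
  rw [← map_pow, ← map_sub]
  refine lt_of_eq_of_lt (PadicAlgCl.norm_extends ℓ (c ^ ℓ - c)) ?_
  obtain ⟨x, hx⟩ : ∃ x : ℤ_[ℓ], (x : ℚ_[ℓ]) = c := ⟨⟨c, hc⟩, rfl⟩
  have h1 : x ^ ℓ - x ∈ RingHom.ker (PadicInt.toZMod (p := ℓ)) := by
    rw [RingHom.mem_ker, map_sub, map_pow, ZMod.pow_card, sub_self]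
  rw [PadicInt.ker_toZMod, IsLocalRing.mem_maximalIdeal, PadicInt.mem_nonunits] at h1
  rw [← hx]
  exact h1

theorem LocA_natfrob (n : ℕ) : ‖(n : PadicAlgCl ℓ) ^ ℓ - n‖ < 1 := by
  have h1 : ‖(n : ℚ_[ℓ])‖ ≤ 1 := by
    have := Padic.norm_int_le_one (p := ℓ) (n : ℤ)
    simpa using this
  simpa using LocA_frobZ (n : ℚ_[ℓ]) h1

/-- Frobenius acts as the `ℓ`-th power modulo the maximal ideal also on the elements `a` of `K` which are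
integral at `ℓ` (`n a` integral, `n` prime to `ℓ`).

Proof. `a = x / n`, `σ a = σ x / n ≡ x ^ ℓ / n`, and `n ^ (ℓ - 1) ≡ 1` modulo `ℓ`, so `x ^ ℓ / n ≡ a ^ ℓ`.
Induction on `m`: `σ ^ (m + 1) a = σ (σ ^ m a)`, `σ ^ m a` is again integral at `ℓ`, and
`y ≡ z` implies `y ^ ℓ ≡ z ^ ℓ` for `y`, `z` of norm at most `1`. -/
theorem LocA_frob (K : Type) [Field K] [NumberField K] (ℓ : ℕ) [Fact ℓ.Prime] (Q : Ideal (𝓞 K))
    (σ : K ≃ₐ[ℚ] K) (hσ : ∀ x : 𝓞 K, σ • x - x ^ ℓ ∈ Q) (τ : K →+* PadicAlgCl ℓ)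
    (hτ : ∀ x : 𝓞 K, x ∈ Q ↔ ‖τ (x : K)‖ < 1) (a : K) (n : ℕ) (hn : n.Coprime ℓ)
    (ha : IsIntegral ℤ ((n : K) * a)) (m : ℕ) :
    ‖τ ((σ ^ m) a) - τ a ^ (ℓ ^ m)‖ < 1 := by
  have hn1 := LocA_norm_coprime hn
  have hn0 : (n : PadicAlgCl ℓ) ≠ 0 := by
    intro h0
    rw [h0, norm_zero] at hn1
    exact zero_ne_one hn1
  -- norms
  have hle : ∀ y : K, IsIntegral ℤ ((n : K) * y) → ‖τ y‖ ≤ 1 := by
    intro y hy
    have h1 := LocA1_norm_le (hy.map (τ.toIntAlgHom))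
    have h2 : τ.toIntAlgHom ((n : K) * y) = (n : PadicAlgCl ℓ) * τ y := by
      show τ ((n : K) * y) = _
      rw [map_mul, map_natCast]
    rw [h2, norm_mul, hn1, one_mul] at h1
    exact h1
  -- one step
  have hone : ∀ y : K, IsIntegral ℤ ((n : K) * y) → ‖τ (σ y) - τ y ^ ℓ‖ < 1 := by
    intro y hy
    obtain ⟨x, hx⟩ : ∃ x : 𝓞 K, (x : K) = (n : K) * y := ⟨⟨(n : K) * y, hy⟩, rfl⟩
    have h1 := (hτ _).1 (hσ x)
    have h2 : ((σ • x - x ^ ℓ : 𝓞 K) : K) = σ (x : K) - (x : K) ^ ℓ := rfl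
    rw [h2, hx, map_mul, map_natCast, map_sub, map_mul, map_natCast, map_pow, map_mul, map_natCast,
      mul_pow] at h1
    have h3 : ‖((n : PadicAlgCl ℓ) ^ ℓ - n) * τ y ^ ℓ‖ < 1 := by
      rw [norm_mul, norm_pow]
      exact lt_of_le_of_lt (mul_le_of_le_one_right (norm_nonneg _)
        (pow_le_one₀ (norm_nonneg _) (hle y hy))) (LocA_natfrob n)
    have h4 := LocA_add_lt h1 h3
    have h5 : (n : PadicAlgCl ℓ) * τ (σ y) - (n : PadicAlgCl ℓ) ^ ℓ * τ y ^ ℓ +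
        ((n : PadicAlgCl ℓ) ^ ℓ - n) * τ y ^ ℓ = n * (τ (σ y) - τ y ^ ℓ) := by ring
    rw [h5, norm_mul, hn1, one_mul] at h4
    exact h4
  have hint : ∀ m : ℕ, IsIntegral ℤ ((n : K) * (σ ^ m) a) := by
    intro m
    have h1 : (n : K) * (σ ^ m) a = (σ ^ m) ((n : K) * a) := by
      rw [map_mul, map_natCast]
    rw [h1]
    exact ha.map (((σ ^ m : K ≃ₐ[ℚ] K) : K →ₐ[ℚ] K).restrictScalars ℤ)
  induction m with
  | zero => simp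
  | succ m ih =>
    have h1 := hone ((σ ^ m) a) (hint m)
    have h2 : (σ ^ (m + 1)) a = σ ((σ ^ m) a) := by
      rw [pow_succ']
      rfl
    have h3 : ‖τ a ^ (ℓ ^ m)‖ ≤ 1 := by
      rw [norm_pow]
      exact pow_le_one₀ (norm_nonneg _) (hle a ha)
    have h4 := lt_of_le_of_lt (LocA_pow_sub (hle _ (hint m)) h3 ℓ) ih
    rw [h2, pow_succ (ℓ), pow_mul]
    exact LocA_sub_lt h1 h4

/-- The integers of the algebraic closure. -/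
def LocA_O (ℓ : ℕ) [Fact ℓ.Prime] : Subring (PadicAlgCl ℓ) where
  carrier := {x | ‖x‖ ≤ 1}
  mul_mem' := fun {a b} ha hb => by
    show ‖a * b‖ ≤ 1
    rw [norm_mul]
    exact mul_le_one₀ ha (norm_nonneg _) hb
  one_mem' := by
    show ‖(1 : PadicAlgCl ℓ)‖ ≤ 1
    rw [norm_one]
  add_mem' := fun {a b} ha hb => by
    show ‖a + b‖ ≤ 1
    exact (IsUltrametricDist.norm_add_le_max _ _).trans (max_le ha hb)
  zero_mem' := by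
    show ‖(0 : PadicAlgCl ℓ)‖ ≤ 1
    rw [norm_zero]
    exact zero_le_one
  neg_mem' := fun {a} ha => by
    show ‖-a‖ ≤ 1
    rw [norm_neg]
    exact ha

theorem LocA_dream {x y : PadicAlgCl ℓ} (hx : ‖x‖ ≤ 1) (hy : ‖y‖ ≤ 1) :
    ‖x ^ ℓ + y ^ ℓ - (x + y) ^ ℓ‖ < 1 := by
  obtain ⟨r, hr⟩ := exists_add_pow_prime_eq (Fact.out : ℓ.Prime) (⟨x, hx⟩ : LocA_O ℓ)
    (⟨y, hy⟩ : LocA_O ℓ)
  have h1 : (x + y) ^ ℓ = x ^ ℓ + y ^ ℓ + (ℓ : PadicAlgCl ℓ) * x * y * (r : PadicAlgCl ℓ) := by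
    have := congrArg (Subtype.val) hr
    simpa using this
  have h2 : x ^ ℓ + y ^ ℓ - (x + y) ^ ℓ =
      -((ℓ : PadicAlgCl ℓ) * (x * y * (r : PadicAlgCl ℓ))) := by
    rw [h1]
    ring
  rw [h2, norm_neg, norm_mul, norm_mul, norm_mul]
  exact lt_of_le_of_lt (mul_le_of_le_one_right (norm_nonneg _)
    (mul_le_one₀ (mul_le_one₀ hx (norm_nonneg _) hy) (norm_nonneg _) r.2)) LocA_norm_ell

theorem LocA_sum_pow {ι : Type} (I : Finset ι) (s t : ι → PadicAlgCl ℓ) (ht : ∀ i, ‖t i‖ ≤ 1)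
    (hst : ∀ i, ‖s i - t i ^ ℓ‖ < 1) :
    ‖(∑ i ∈ I, t i)‖ ≤ 1 ∧ ‖∑ i ∈ I, s i - (∑ i ∈ I, t i) ^ ℓ‖ < 1 := by
  classical
  induction I using Finset.induction_on with
  | empty =>
    simp [(Fact.out : ℓ.Prime).ne_zero]
  | insert i I hi ih =>
    rw [Finset.sum_insert hi, Finset.sum_insert hi]
    refine ⟨(IsUltrametricDist.norm_add_le_max _ _).trans (max_le (ht i) ih.1), ?_⟩
    have h1 := LocA_dream (ht i) ih.1
    have h2 := LocA_add_lt (hst i) ih.2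
    have h3 := LocA_add_lt h1 h2
    refine lt_of_eq_of_lt (congrArg _ ?_) h3
    ring

/-- `g (α ^ ℓ) = g (α) ^ ℓ` modulo the maximal ideal. -/
theorem LocA_eval_pow (g : ℚ_[ℓ][X]) (hg : ∀ i, ‖g.coeff i‖ ≤ 1) (α : PadicAlgCl ℓ)
    (hα : ‖α‖ ≤ 1) : ‖aeval (α ^ ℓ) g - (aeval α g) ^ ℓ‖ < 1 := by
  rw [aeval_eq_sum_range, aeval_eq_sum_range]
  refine (LocA_sum_pow _ _ _ (fun i => ?_) fun i => ?_).2
  · rw [Algebra.smul_def, norm_mul, norm_pow]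
    exact mul_le_one₀ ((PadicAlgCl.norm_extends ℓ _).le.trans (hg i)) (by positivity)
      (pow_le_one₀ (norm_nonneg _) hα)
  · rw [Algebra.smul_def, Algebra.smul_def, mul_pow, ← pow_mul, ← pow_mul, mul_comm ℓ i]
    have h1 : (algebraMap ℚ_[ℓ] (PadicAlgCl ℓ)) (g.coeff i) * α ^ (i * ℓ) -
        (algebraMap ℚ_[ℓ] (PadicAlgCl ℓ)) (g.coeff i) ^ ℓ * α ^ (i * ℓ) =
        -((algebraMap ℚ_[ℓ] (PadicAlgCl ℓ) (g.coeff i)) ^ ℓ -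
          algebraMap ℚ_[ℓ] (PadicAlgCl ℓ) (g.coeff i)) * α ^ (i * ℓ) := by ring
    rw [h1, norm_mul, norm_neg, norm_pow]
    exact lt_of_le_of_lt (mul_le_of_le_one_right (norm_nonneg _)
      (pow_le_one₀ (norm_nonneg _) hα)) (LocA_frobZ _ (hg i))

/-- `g` is Lipschitz on the integers. -/
theorem LocA_eval_sub (g : ℚ_[ℓ][X]) (hg : ∀ i, ‖g.coeff i‖ ≤ 1) (α β : PadicAlgCl ℓ)
    (hα : ‖α‖ ≤ 1) (hβ : ‖β‖ ≤ 1) : ‖aeval α g - aeval β g‖ ≤ ‖α - β‖ := by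
  rw [aeval_eq_sum_range, aeval_eq_sum_range, ← Finset.sum_sub_distrib]
  refine IsUltrametricDist.norm_sum_le_of_forall_le_of_nonneg (norm_nonneg _) fun i _ => ?_
  rw [← smul_sub, Algebra.smul_def, norm_mul]
  exact (mul_le_of_le_one_left (norm_nonneg _)
    ((PadicAlgCl.norm_extends ℓ _).le.trans (hg i))).trans (LocA_pow_sub hα hβ i)

/-- Let `g ∈ ℤ_ℓ[X]` and `α` of norm at most one in the algebraic closure of `ℚ_ℓ`, `g(α) = 0`, and `|β - α ^ (ℓ ^ m)| < 1`.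
Then `|g(β)| < 1`.

Proof. `|g(β) - g(α ^ (ℓ ^ m))| < 1` (`Polynomial.sub_dvd_eval_sub`, norms at most `1`), and modulo the maximal ideal
`g(X ^ ℓ) = g(X) ^ ℓ` (coefficients `u ∈ ℤ_ℓ` satisfy `u ^ ℓ ≡ u`), so `|g(α ^ (ℓ ^ m))| < 1`. -/
theorem LocA_eval (ℓ : ℕ) [Fact ℓ.Prime] (g : ℚ_[ℓ][X]) (hg : ∀ i, ‖g.coeff i‖ ≤ 1)
    (α β : PadicAlgCl ℓ) (hα : ‖α‖ ≤ 1) (m : ℕ) (h0 : aeval α g = 0)
    (hβ : ‖β - α ^ (ℓ ^ m)‖ < 1) : ‖aeval β g‖ < 1 := by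
  have hαm : ∀ k : ℕ, ‖α ^ k‖ ≤ 1 := fun k => by
    rw [norm_pow]
    exact pow_le_one₀ (norm_nonneg _) hα
  have h1 : ∀ m : ℕ, ‖aeval (α ^ (ℓ ^ m)) g‖ < 1 := by
    intro m
    induction m with
    | zero => simp [h0]
    | succ m ih =>
      have h2 := LocA_eval_pow g hg (α ^ (ℓ ^ m)) (hαm _)
      rw [← pow_mul, ← pow_succ] at h2
      have h3 : ‖aeval (α ^ (ℓ ^ m)) g ^ ℓ‖ < 1 := by
        rw [norm_pow]
        exact pow_lt_one₀ (norm_nonneg _) ih (Fact.out : ℓ.Prime).ne_zero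
      have h4 := LocA_add_lt h2 h3
      rwa [sub_add_cancel] at h4
  have hβ1 : ‖β‖ ≤ 1 := by
    have h2 : β = (β - α ^ (ℓ ^ m)) + α ^ (ℓ ^ m) := by ring
    rw [h2]
    exact (IsUltrametricDist.norm_add_le_max _ _).trans (max_le hβ.le (hαm _))
  have h2 := lt_of_le_of_lt (LocA_eval_sub g hg β (α ^ (ℓ ^ m)) hβ1 (hαm _)) hβ
  have h3 := LocA_add_lt h2 (h1 m)
  rwa [sub_add_cancel] at h3

end Pool.Agent.T10
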