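import Pool.Agent.W_b4801b_t10.Defs

/-! Prime ideals and embeddings into the algebraic closure of `ℚ_ℓ`. -/

set_option autoImplicit false

noncomputable section

open Polynomial NumberField

namespace Pool.Agent.T10

open Pool.Agent.B4801b

/-- Integral elements have norm at most one. -/
theorem LocA1_norm_le {ℓ : ℕ} [Fact ℓ.Prime] {x : PadicAlgCl ℓ} (hx : IsIntegral ℤ x) : ‖x‖ ≤ 1 := by
  by_contra hcon
  rw [not_le] at hcon
  obtain ⟨f, hf, hfx⟩ := hx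
  have hx0 : 0 < ‖x‖ := lt_trans one_pos hcon
  have h1 : x ^ f.natDegree = -∑ i ∈ Finset.range f.natDegree, (f.coeff i : PadicAlgCl ℓ) * x ^ i := by
    rw [eval₂_eq_sum_range, Finset.sum_range_succ, hf.coeff_natDegree] at hfx
    simp only [map_one, one_mul, eq_intCast] at hfx
    rw [eq_neg_iff_add_eq_zero, add_comm]
    exact hfx
  rcases Nat.eq_zero_or_pos f.natDegree with h0 | h0
  · rw [h0] at h1
    simp at h1
  have h2 : ‖x ^ f.natDegree‖ ≤ ‖x‖ ^ (f.natDegree - 1) := by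
    rw [h1, norm_neg]
    refine IsUltrametricDist.norm_sum_le_of_forall_le_of_nonneg (by positivity) fun i hi => ?_
    have hi' := Finset.mem_range.1 hi
    rw [norm_mul, norm_pow]
    calc ‖(f.coeff i : PadicAlgCl ℓ)‖ * ‖x‖ ^ i ≤ 1 * ‖x‖ ^ (f.natDegree - 1) := by
          refine mul_le_mul (IsUltrametricDist.norm_intCast_le_one _ _)
            (pow_le_pow_right₀ hcon.le (by omega)) (by positivity) zero_le_one
      _ = _ := one_mul _
  rw [norm_pow] at h2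
  have h3 : ‖x‖ ^ (f.natDegree - 1) < ‖x‖ ^ f.natDegree :=
    pow_lt_pow_right₀ hcon (by omega)
  linarith

/-- For every prime `Q` of `K` over `ℓ` there is an embedding `τ` of `K` into the algebraic closure of `ℚ_ℓ` such
that `Q` is the set of the integers `x` with `|τ x| < 1`.

Proof. `K / ℚ` is Galois.  Take any embedding `τ₀ : K → PadicAlgCl ℓ`; the integers have norm at most `1` under `τ₀` (roots of monic
integral polynomials), `Q₀ = {x | ‖τ₀ x‖ < 1}` is a prime ideal of `𝓞 K` containing `ℓ`. The Galois group acts transitively on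
the primes over `ℓ` (`Ideal.exists_map_eq_of_isGalois` or `Ideal.exists_smul_eq_of_isGaloisGroup`…): `Q₀ = ρ Q`, `τ = τ₀ ∘ ρ`. -/
theorem LocA_embedding (K : Type) [Field K] [NumberField K] [IsGalois ℚ K] (ℓ : ℕ) [Fact ℓ.Prime]
    (Q : Ideal (𝓞 K)) (hQ : Q.IsPrime) (hℓ : (ℓ : 𝓞 K) ∈ Q) :
    ∃ τ : K →+* PadicAlgCl ℓ, ∀ x : 𝓞 K, x ∈ Q ↔ ‖τ (x : K)‖ < 1 := by
  have hp : ℓ.Prime := Fact.out
  let τ₀ : K →ₐ[ℚ] PadicAlgCl ℓ := IsAlgClosed.lift
  have hle : ∀ x : 𝓞 K, ‖τ₀ (x : K)‖ ≤ 1 := fun x =>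
    LocA1_norm_le ((RingOfIntegers.isIntegral_coe x).map (τ₀.restrictScalars ℤ))
  let Q₀ : Ideal (𝓞 K) :=
    { carrier := {x | ‖τ₀ (x : K)‖ < 1}
      add_mem' := fun {a b} ha hb => by
        show ‖τ₀ ((a + b : 𝓞 K) : K)‖ < 1
        rw [show ((a + b : 𝓞 K) : K) = (a : K) + (b : K) from rfl, map_add]
        exact lt_of_le_of_lt (IsUltrametricDist.norm_add_le_max _ _) (max_lt ha hb)
      zero_mem' := by
        show ‖τ₀ ((0 : 𝓞 K) : K)‖ < 1
        simp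
      smul_mem' := fun c x hx => by
        show ‖τ₀ ((c * x : 𝓞 K) : K)‖ < 1
        rw [show ((c * x : 𝓞 K) : K) = (c : K) * (x : K) from rfl, map_mul, norm_mul]
        exact lt_of_le_of_lt (mul_le_of_le_one_left (norm_nonneg _) (hle c)) hx }
  have hmem : ∀ x : 𝓞 K, x ∈ Q₀ ↔ ‖τ₀ (x : K)‖ < 1 := fun _ => Iff.rfl
  have hQ₀ : Q₀.IsPrime := by
    refine ⟨?_, fun {x y} hxy => ?_⟩
    · rw [Ideal.ne_top_iff_one, hmem]
      simp
    · rw [hmem] at hxy ⊢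
      rw [hmem]
      by_contra hcon
      rw [not_or, not_lt, not_lt] at hcon
      rw [show ((x * y : 𝓞 K) : K) = (x : K) * (y : K) from rfl, map_mul, norm_mul] at hxy
      have h1 := hle x
      have h2 := hle y
      have h3 : ‖τ₀ (x : K)‖ = 1 := le_antisymm h1 hcon.1
      have h4 : ‖τ₀ (y : K)‖ = 1 := le_antisymm h2 hcon.2
      rw [h3, h4] at hxy
      norm_num at hxy
  have hℓ₀ : (ℓ : 𝓞 K) ∈ Q₀ := by
    rw [hmem]
    have h1 : τ₀ (((ℓ : ℕ) : 𝓞 K) : K) = algebraMap ℚ_[ℓ] (PadicAlgCl ℓ) (ℓ : ℚ_[ℓ]) := by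
      simp
    rw [h1]
    have h2 := PadicAlgCl.norm_extends ℓ (ℓ : ℚ_[ℓ])
    rw [h2, Padic.norm_p]
    exact inv_lt_one_of_one_lt₀ (by exact_mod_cast hp.one_lt)
  have hmax : (Ideal.span ({(ℓ : ℤ)} : Set ℤ)).IsMaximal :=
    (Ideal.span_singleton_prime (by exact_mod_cast hp.ne_zero)).2
      (Nat.prime_iff_prime_int.1 hp) |>.isMaximal (by simp [hp.ne_zero])
  have hover : ∀ I : Ideal (𝓞 K), I.IsPrime → (ℓ : 𝓞 K) ∈ I →
      I.LiesOver (Ideal.span ({(ℓ : ℤ)} : Set ℤ)) := by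
    intro I hI hIℓ
    refine ⟨?_⟩
    refine hmax.eq_of_le (Ideal.IsPrime.ne_top (Ideal.IsPrime.under ℤ I)) ?_
    rw [Ideal.span_singleton_le_iff_mem]
    show algebraMap ℤ (𝓞 K) (ℓ : ℤ) ∈ I
    simpa using hIℓ
  have i1 := hover Q hQ hℓ
  have i2 := hover Q₀ hQ₀ hℓ₀
  obtain ⟨σ, hσ⟩ := Ideal.exists_smul_eq_of_isGaloisGroup (Ideal.span ({(ℓ : ℤ)} : Set ℤ)) Q Q₀
    (K ≃ₐ[ℚ] K)
  refine ⟨(τ₀ : K →+* PadicAlgCl ℓ).comp (σ : K →+* K), fun x => ?_⟩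
  have h1 : x ∈ Q ↔ σ • x ∈ Q₀ := by
    rw [← hσ, Ideal.smul_mem_pointwise_smul_iff]
  rw [h1, hmem]
  rfl

end Pool.Agent.T10
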