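import Pool.Agent.W_b4801b_t10.LocA

/-! Frobenius orbits and irreducible factors over `ℚ_ℓ`. -/

set_option autoImplicit false

noncomputable section

open Polynomial NumberField

namespace Pool.Agent.T10

open Pool.Agent.B4801b

/-- Elements integral over `ℤ` have norm at most `1`. -/
theorem LocB_norm_int (ℓ : ℕ) [Fact ℓ.Prime] (x : PadicAlgCl ℓ) (hx : IsIntegral ℤ x) : ‖x‖ ≤ 1 := by
  have h1 : IsIntegral (Valued.v : Valuation (PadicAlgCl ℓ) NNReal).integer x := hx.tower_top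
  have h2 := (Valuation.integer.integers (Valued.v : Valuation (PadicAlgCl ℓ) NNReal)).mem_of_integral
    h1
  have h3 : (Valued.v x : NNReal) ≤ 1 := h2
  rw [PadicAlgCl.valuation_def] at h3
  exact_mod_cast h3

/-- Elements integral at `ℓ` have norm at most `1` under every embedding. -/
theorem LocB_norm_le {K : Type} [Field K] (ℓ : ℕ) [Fact ℓ.Prime] (τ : K →+* PadicAlgCl ℓ) (x : K)
    (n : ℕ) (hn : n.Coprime ℓ) (h : IsIntegral ℤ ((n : K) * x)) : ‖τ x‖ ≤ 1 := by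
  have h1 : IsIntegral ℤ (τ ((n : K) * x)) := h.map τ.toIntAlgHom
  have h2 := LocB_norm_int ℓ _ h1
  have h3 : ‖((n : ℕ) : PadicAlgCl ℓ)‖ = 1 := by
    have h4 : ‖((n : ℕ) : ℚ_[ℓ])‖ = 1 := Padic.norm_natCast_eq_one_iff.2 hn.symm
    rw [← map_natCast (algebraMap ℚ_[ℓ] (PadicAlgCl ℓ)) n, PadicAlgCl.norm_extends, h4]
  rwa [map_mul, map_natCast, norm_mul, h3, one_mul] at h2

theorem LocB_den (K : Type) [Field K] [NumberField K] (x : K) :
    ∃ n : ℕ, n ≠ 0 ∧ IsIntegral ℤ ((n : K) * x) := by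
  have h1 : IsAlgebraic ℤ x :=
    (IsFractionRing.isAlgebraic_iff ℤ ℚ K).2 (Algebra.IsAlgebraic.isAlgebraic x)
  obtain ⟨y, hy, hint⟩ := h1.exists_integral_multiple
  refine ⟨y.natAbs, Int.natAbs_ne_zero.2 hy, ?_⟩
  rw [zsmul_eq_mul] at hint
  rcases Int.natAbs_eq y with h | h
  · have h2 : ((y.natAbs : ℕ) : K) = (y : K) := by
      conv_rhs => rw [h]
      rw [Int.cast_natCast]
    rwa [h2]
  · have h2 : ((y.natAbs : ℕ) : K) = -(y : K) := by
      conv_rhs => rw [h]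
      rw [Int.cast_neg, Int.cast_natCast, neg_neg]
    rw [h2, neg_mul]
    exact hint.neg

/-- Proof. Let `R ∈ ℚ[X]` be the product of the different monic irreducible factors of `P` (monic, separable, same roots as `P`). `T` contains the
primes dividing the denominators of the coefficients of `R` and the primes `ℓ` with `|disc R|_ℓ ≠ 1` (`disc R ≠ 0`; one can take
the resultant of `R` and `R'`, or: there are `u, v ∈ ℚ[X]` with `u R + v R' = 1`, and `T` contains the primes in the denominators of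
`u, v, R`). Let `ℓ ∉ T`, `g` an irreducible factor of `P` over `ℚ_ℓ`, w.l.o.g. monic (the statement `SelfDualPoly` does not change under
scalars). `g ∣ R` over `ℚ_ℓ` (`g` is irreducible and divides a power of `R`), `R = g h`; all roots of `R`, `g`, `h` have norm at
most `1` in `PadicAlgCl ℓ` (`R` monic with coefficients of norm at most one), so `g` and `h` have coefficients of norm at
most `1` (coefficients = symmetric functions of roots). Let `α` be a root of `g` in `PadicAlgCl ℓ` (this is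
`AlgebraicClosure ℚ_[ℓ]`), `τ` the embedding of `LocA_embedding`, `α = τ a`, `a` a root of `P` (`P` splits in `K`). By `LocA_frob`
(the denominator of `a`: `n` = product of the denominators of the coefficients of `R`; `n ^ …`: `n a` is
integral because `R` is monic and `n R` integral) `|c / α - α ^ (ℓ ^ m)| < 1`, so `|g(c / α)| < 1` (`LocA_eval`). `c / α = τ (c / a)` is a root of `R`
(`hι`), so of `g` (done) or of `h`; in the second case `R'(c/α) = g(c/α) h'(c/α)` has norm `< 1`, contradicting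
`u R + v R' = 1` at `c / α` (`v` has coefficients of norm at most one). -/
theorem LocB_dual (K : Type) [Field K] [NumberField K] [IsGalois ℚ K] (P : ℚ[X]) (hP : P ≠ 0)
    (hs : (P.map (algebraMap ℚ K)).Splits) (c : ℚ) (hc : c ≠ 0)
    (hι : ∀ a : K, aeval a P = 0 → aeval (algebraMap ℚ K c / a) P = 0) :
    ∃ T : Finset ℕ, ∀ (ℓ : ℕ) [Fact ℓ.Prime], ℓ ∉ T → ∀ (σ : K ≃ₐ[ℚ] K) (Q : Ideal (𝓞 K)),
      Q.IsPrime → (ℓ : 𝓞 K) ∈ Q → (∀ x : 𝓞 K, σ • x - x ^ ℓ ∈ Q) →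
      (∀ a : K, aeval a P = 0 → ∃ m : ℕ, (σ ^ m) a = algebraMap ℚ K c / a) →
      ℓ ∈ dualPrimes P c := by
  classical
  choose nn hnn0 hnn using LocB_den K
  set Z : Finset K := (P.map (algebraMap ℚ K)).roots.toFinset with hZ
  have hPK : P.map (algebraMap ℚ K) ≠ 0 :=
    (Polynomial.map_ne_zero_iff (algebraMap ℚ K).injective).2 hP
  have hmemZ : ∀ a : K, a ∈ Z ↔ aeval a P = 0 := by
    intro a
    rw [hZ, Multiset.mem_toFinset, mem_roots hPK, IsRoot.def, eval_map_algebraMap]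
  set N : ℕ := (∏ a ∈ Z, nn a) * ∏ p ∈ Z ×ˢ Z, nn ((p.2 - p.1)⁻¹) with hN
  have hN0 : N ≠ 0 := mul_ne_zero (Finset.prod_ne_zero_iff.2 fun a _ => hnn0 a)
    (Finset.prod_ne_zero_iff.2 fun p _ => hnn0 _)
  refine ⟨N.primeFactors, ?_⟩
  intro ℓ hℓ hℓT σ Q hQp hQℓ hσ hdual
  have hℓN : ¬ ℓ ∣ N := fun h => hℓT (Nat.mem_primeFactors.2 ⟨hℓ.out, h, hN0⟩)
  have hcop1 : ∀ a ∈ Z, (nn a).Coprime ℓ := by
    intro a ha
    refine ((Nat.Prime.coprime_iff_not_dvd hℓ.out).2 fun h => hℓN ?_).symm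
    exact Dvd.dvd.mul_right (h.trans (Finset.dvd_prod_of_mem _ ha)) _
  have hcop2 : ∀ a ∈ Z, ∀ b ∈ Z, (nn ((b - a)⁻¹)).Coprime ℓ := by
    intro a ha b hb
    refine ((Nat.Prime.coprime_iff_not_dvd hℓ.out).2 fun h => hℓN ?_).symm
    exact Dvd.dvd.mul_left (h.trans (Finset.dvd_prod_of_mem (fun p : K × K => nn ((p.2 - p.1)⁻¹))
      (Finset.mk_mem_product ha hb))) _
  obtain ⟨τ, hτ⟩ := LocA_embedding K ℓ Q hQp hQℓ
  have hle : ∀ a ∈ Z, ‖τ a‖ ≤ 1 := fun a ha => LocB_norm_le ℓ τ a _ (hcop1 a ha) (hnn a)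
  have hsep : ∀ a ∈ Z, ∀ b ∈ Z, a ≠ b → ‖τ b - τ a‖ = 1 := by
    intro a ha b hb hab
    refine le_antisymm ?_ ?_
    · have h1 := (PadicAlgCl.isNonarchimedean ℓ) (τ b) (-τ a)
      rw [← sub_eq_add_neg, norm_neg] at h1
      exact h1.trans (max_le (hle b hb) (hle a ha))
    · have h1 := LocB_norm_le ℓ τ _ _ (hcop2 a ha b hb) (hnn _)
      rw [map_inv₀, norm_inv, map_sub] at h1
      have h2 : 0 < ‖τ b - τ a‖ := by
        rw [norm_pos_iff, sub_ne_zero]
        exact fun h => hab (τ.injective h).symm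
      rw [inv_le_one₀ h2] at h1
      exact h1
  -- the roots of `P` in `PadicAlgCl ℓ`
  have hcomp : τ.comp (algebraMap ℚ K) = algebraMap ℚ (PadicAlgCl ℓ) := Subsingleton.elim _ _
  have hroot : ∀ α : PadicAlgCl ℓ, aeval α P = 0 → ∃ a ∈ Z, τ a = α := by
    intro α hα
    have h1 : α ∈ ((P.map (algebraMap ℚ K)).map τ).roots := by
      rw [Polynomial.map_map, hcomp, mem_roots ((Polynomial.map_ne_zero_iff
        (algebraMap ℚ (PadicAlgCl ℓ)).injective).2 hP), IsRoot.def, eval_map_algebraMap]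
      exact hα
    rw [hs.roots_map, Multiset.mem_map] at h1
    obtain ⟨a, ha, rfl⟩ := h1
    exact ⟨a, Multiset.mem_toFinset.2 ha, rfl⟩
  refine ⟨hℓ.out, ?_⟩
  intro g hg hgP α hα
  have hαP : aeval α P = 0 := by
    obtain ⟨q, hq⟩ := hgP
    have h1 : aeval α (P.map (algebraMap ℚ ℚ_[ℓ])) = 0 := by
      rw [hq, map_mul, hα, zero_mul]
    rwa [aeval_map_algebraMap] at h1
  obtain ⟨a, haZ, rfl⟩ := hroot α hαP
  have haP : aeval a P = 0 := (hmemZ a).1 haZ
  set b : K := algebraMap ℚ K c / a with hb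
  have hbZ : b ∈ Z := (hmemZ b).2 (hι a haP)
  have hβ : algebraMap ℚ_[ℓ] (AlgebraicClosure ℚ_[ℓ]) (algebraMap ℚ ℚ_[ℓ] c) / τ a = τ b := by
    rw [hb, map_div₀]
    congr 1
    have h1 : algebraMap ℚ_[ℓ] (AlgebraicClosure ℚ_[ℓ]) (algebraMap ℚ ℚ_[ℓ] c) =
        algebraMap ℚ (AlgebraicClosure ℚ_[ℓ]) c :=
      (IsScalarTower.algebraMap_apply ℚ ℚ_[ℓ] (AlgebraicClosure ℚ_[ℓ]) c).symm
    rw [h1, ← hcomp]
    rfl
  rw [hβ]
  set G : ℚ_[ℓ][X] := minpoly ℚ_[ℓ] (τ a) with hG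
  have hint : IsIntegral ℚ_[ℓ] (τ a) := Algebra.IsIntegral.isIntegral _
  have hGm : G.Monic := minpoly.monic hint
  have hGc : ∀ i, ‖G.coeff i‖ ≤ 1 := (spectralValue_le_one_iff hGm).1 (hle a haZ)
  obtain ⟨m, hm⟩ := hdual a haP
  have hfrob := LocA_frob K ℓ Q σ hσ τ hτ a _ (hcop1 a haZ) (hnn a) m
  rw [hm] at hfrob
  have hlt := LocA_eval ℓ G hGc (τ a) (τ b) (hle a haZ) m (minpoly.aeval _ _) hfrob
  have hGP : G ∣ P.map (algebraMap ℚ ℚ_[ℓ]) :=
    minpoly.dvd _ _ (by rw [aeval_map_algebraMap]; exact hαP)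
  have hGs : (G.map (algebraMap ℚ_[ℓ] (PadicAlgCl ℓ))).Splits := IsAlgClosed.splits _
  have hG0 : aeval (τ b) G = 0 := by
    by_contra hcon
    rw [hGs.aeval_eq_prod_aroots_of_monic hGm] at hlt
    have h1 : ‖((G.aroots (PadicAlgCl ℓ)).map fun z => τ b - z).prod‖ = 1 := by
      have h2 : ‖((G.aroots (PadicAlgCl ℓ)).map fun z => τ b - z).prod‖ =
          (((G.aroots (PadicAlgCl ℓ)).map fun z => τ b - z).map fun y => ‖y‖).prod :=
        (map_multiset_prod (normHom : PadicAlgCl ℓ →*₀ ℝ) _)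
      rw [h2, Multiset.map_map]
      refine Multiset.prod_eq_one fun y hy => ?_
      obtain ⟨z, hz, rfl⟩ := Multiset.mem_map.1 hy
      have hz0 : aeval z G = 0 := ((mem_aroots.1 hz).2)
      have hzP : aeval z P = 0 := by
        obtain ⟨q, hq⟩ := hGP
        have h1 : aeval z (P.map (algebraMap ℚ ℚ_[ℓ])) = 0 := by
          rw [hq, map_mul, hz0, zero_mul]
        rwa [aeval_map_algebraMap] at h1
      obtain ⟨e, heZ, rfl⟩ := hroot z hzP
      refine hsep e heZ b hbZ ?_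
      rintro rfl
      exact hcon hz0
    rw [h1] at hlt
    exact lt_irrefl _ hlt
  have h3 : G ∣ g := minpoly.dvd _ _ hα
  have h4 : g ∣ G := by
    obtain ⟨q, hq⟩ := h3
    have h5 : ¬ IsUnit G := minpoly.not_isUnit _ _
    have h6 : IsUnit q := (hg.isUnit_or_isUnit hq).resolve_left h5
    obtain ⟨u, rfl⟩ := h6
    exact ⟨(u⁻¹ : ℚ_[ℓ][X]ˣ), by rw [hq, mul_assoc, Units.mul_inv, mul_one]⟩
  obtain ⟨q, hq⟩ := h3
  rw [hq, map_mul, hG0, zero_mul]

end Pool.Agent.T10
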