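import Mathlib

/-!
# Signed permutation matrices and their principal minors

`G` acts on the finite set `R`, commuting with the involution `ι`. `P` is a set of representatives of the
pairs `{r, ι r}`, `ι r ≠ r`; `sm g` is the signed permutation matrix of `g` on `P`.
-/

set_option autoImplicit false

noncomputable section

open Finset Matrix

namespace Pool.Agent.T10

/-- The signed permutation matrix of `g` on the representatives `P ⊆ R`. -/
def sm {G R : Type*} [Group G] [MulAction G R] [DecidableEq R] (ι : R → R) (P : Finset R) (g : G) :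
    Matrix P P ℤ :=
  Matrix.of fun q p => (if g • (p : R) = q then 1 else 0) - (if g • (p : R) = ι q then 1 else 0)

/-- The rows of `A` in `s` and the rows of the identity matrix outside of `s`. -/
def rw' {n : Type*} [DecidableEq n] (s : Finset n) (A : Matrix n n ℤ) : Matrix n n ℤ :=
  Matrix.of (s.piecewise A (1 : Matrix n n ℤ))

section

variable {G R : Type*} [Group G] [Finite G] [Finite R] [MulAction G R] [DecidableEq R] (ι : R → R)
  (P : Finset R)

/-- `P` is a set of representatives: it meets each pair `{r, ι r}`, `ι r ≠ r` exactly once. -/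
structure Reps : Prop where
  inv : ∀ r, ι (ι r) = r
  comm : ∀ (g : G) (r : R), g • ι r = ι (g • r)
  not_mem : ∀ r ∈ P, ι r ∉ P
  cover : ∀ r, ι r ≠ r → r ∈ P ∨ ι r ∈ P

variable {ι P}

theorem Reps.ne (h : Reps (G := G) ι P) (p : R) (hp : p ∈ P) : ι p ≠ p := by
  intro h1
  exact h.not_mem p hp (h1.symm ▸ hp)

theorem Reps.ne' (h : Reps (G := G) ι P) (p q : R) (hp : p ∈ P) (hq : q ∈ P) : ι p ≠ q := by
  intro h1
  exact h.not_mem p hp (h1.symm ▸ hq)

/-- `g p` is `r` or `ι r` for exactly one representative `r`. -/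
theorem Reps.exists_rep (h : Reps (G := G) ι P) (g : G) (p : R) (hp : p ∈ P) :
    ∃ r ∈ P, (g • p = r ∨ g • p = ι r) := by
  have h1 : ι (g • p) ≠ g • p := by
    rw [← h.comm]
    intro h2
    exact h.ne p hp ((MulAction.injective g) h2)
  rcases h.cover _ h1 with h2 | h2
  · exact ⟨_, h2, Or.inl rfl⟩
  · exact ⟨_, h2, Or.inr (h.inv _).symm⟩

theorem Reps.sm_pos (h : Reps (G := G) ι P) (g : G) (p r : P) (hr : g • (p : R) = r) (q : P) :
    sm ι P g q p = if q = r then 1 else 0 := by
  have h1 : g • (p : R) ≠ ι q := by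
    rw [hr]
    exact (h.ne' q r q.2 r.2).symm
  rw [sm, Matrix.of_apply, if_neg h1, sub_zero, hr]
  by_cases h2 : q = r
  · rw [if_pos h2, if_pos (by rw [h2])]
  · rw [if_neg h2, if_neg (fun h3 => h2 (Subtype.ext h3.symm))]

theorem Reps.sm_neg (h : Reps (G := G) ι P) (g : G) (p r : P) (hr : g • (p : R) = ι r) (q : P) :
    sm ι P g q p = if q = r then -1 else 0 := by
  have h1 : g • (p : R) ≠ q := by
    rw [hr]
    exact h.ne' r q r.2 q.2
  rw [sm, Matrix.of_apply, if_neg h1, zero_sub, hr]
  by_cases h2 : q = r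
  · rw [if_pos h2, if_pos (by rw [h2])]
  · rw [if_neg h2, if_neg (fun h3 => h2 (Subtype.ext (by
      have h4 := congrArg ι h3
      rw [h.inv, h.inv] at h4
      exact h4.symm))), neg_zero]

theorem Reps.sm_mul (h : Reps (G := G) ι P) (g g' : G) :
    sm ι P (g * g') = sm ι P g * sm ι P g' := by
  ext q p
  rw [Matrix.mul_apply]
  obtain ⟨r, hr, hr'⟩ := h.exists_rep g' p p.2
  rcases hr' with h1 | h1
  · rw [Finset.sum_eq_single (⟨r, hr⟩ : P)]
    · rw [h.sm_pos g' p ⟨r, hr⟩ h1, if_pos rfl, mul_one, sm, sm, Matrix.of_apply, Matrix.of_apply,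
        mul_smul, h1]
    · intro b _ hb
      rw [h.sm_pos g' p ⟨r, hr⟩ h1, if_neg hb, mul_zero]
    · intro h2
      exact absurd (Finset.mem_univ _) h2
  · rw [Finset.sum_eq_single (⟨r, hr⟩ : P)]
    · rw [h.sm_neg g' p ⟨r, hr⟩ h1, if_pos rfl, sm, sm, Matrix.of_apply, Matrix.of_apply,
        mul_smul, h1, h.comm]
      have h3 : (ι (g • r) = (q : R)) ↔ (g • r = ι q) := by
        constructor
        · intro h4
          rw [← h4, h.inv]
        · intro h4
          rw [h4, h.inv]
      have h5 : (ι (g • r) = ι (q : R)) ↔ (g • r = q) := by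
        constructor
        · intro h4
          rw [← h.inv (g • r), h4, h.inv]
        · intro h4
          rw [h4]
      simp only [h3, h5]
      ring
    · intro b _ hb
      rw [h.sm_neg g' p ⟨r, hr⟩ h1, if_neg hb, mul_zero]
    · intro h2
      exact absurd (Finset.mem_univ _) h2

theorem Reps.sm_one (h : Reps (G := G) ι P) : sm ι P (1 : G) = 1 := by
  ext q p
  rw [h.sm_pos 1 p p (one_smul G _), Matrix.one_apply]

theorem Reps.sm_c (h : Reps (G := G) ι P) (c : G) (hc : ∀ r : R, c • r = ι r) :
    sm ι P c = -1 := by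
  ext q p
  rw [h.sm_neg c p p (hc _), Matrix.neg_apply, Matrix.one_apply]
  split_ifs <;> simp

end

end Pool.Agent.T10
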