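import Pool.Agent.W_b4801b_t10.MeanA

/-! Sums of principal minors of signed permutation matrices. -/

set_option autoImplicit false

noncomputable section

open Finset Matrix
open scoped Pointwise

namespace Pool.Agent.T10

theorem det_one_add_expand {n : Type*} [DecidableEq n] [Fintype n] (A : Matrix n n ℤ) :
    (A + 1).det = ∑ s : Finset n, (rw' s A).det := by
  have h := (Matrix.detRowAlternating (n := n) (R := ℤ)).toMultilinearMap.map_add_univ A
    (1 : Matrix n n ℤ)
  exact h

variable {G R : Type*} [Group G] [Finite G] [Finite R] [MulAction G R] [DecidableEq R] {ι : R → R}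
  {P : Finset R}

/-- The elements of `s` and their images under `ι`. -/
def st (ι : R → R) (s : Finset P) : Set R := {r | ∃ p ∈ s, r = (p : R) ∨ r = ι p}

theorem st_inv (h : Reps (G := G) ι P) (s : Finset P) (r : R) (hr : ι r ∈ st ι s) : r ∈ st ι s := by
  obtain ⟨p, hp, h1 | h1⟩ := hr
  · exact ⟨p, hp, Or.inr (by rw [← h1, h.inv])⟩
  · refine ⟨p, hp, Or.inl ?_⟩
    have h2 := congrArg ι h1
    rwa [h.inv, h.inv] at h2

theorem mem_of_mem_st (h : Reps (G := G) ι P) (s : Finset P) (p : P) (hp : (p : R) ∈ st ι s) :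
    p ∈ s := by
  obtain ⟨q, hq, h1 | h1⟩ := hp
  · rw [Subtype.ext h1]
    exact hq
  · exact absurd h1.symm (h.ne' q p q.2 p.2)

theorem sm_ne_zero (g : G) (i p : P) (hne : sm ι P g i p ≠ 0) :
    g • (p : R) = i ∨ g • (p : R) = ι i := by
  by_contra hcon
  push Not at hcon
  apply hne
  rw [sm, Matrix.of_apply, if_neg hcon.1, if_neg hcon.2, sub_zero]

theorem sm_eq_zero_of_stab (h : Reps (G := G) ι P) (s : Finset P) (g : G)
    (hg : g ∈ MulAction.stabilizer G (st ι s)) (i p : P) (hi : i ∈ s) (hp : p ∉ s) :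
    sm ι P g i p = 0 := by
  by_contra hne
  apply hp
  apply mem_of_mem_st h
  have h1 : g • (p : R) ∈ st ι s := by
    rcases sm_ne_zero g i p hne with h2 | h2
    · exact ⟨i, hi, Or.inl h2⟩
    · exact ⟨i, hi, Or.inr h2⟩
  rw [MulAction.mem_stabilizer_iff] at hg
  rw [← hg] at h1
  exact (Set.smul_mem_smul_set_iff).1 h1

theorem rw_mul (h : Reps (G := G) ι P) (s : Finset P) (g g' : G)
    (hg : g ∈ MulAction.stabilizer G (st ι s)) :
    rw' s (sm ι P (g * g')) = rw' s (sm ι P g) * rw' s (sm ι P g') := by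
  ext i p
  rw [Matrix.mul_apply, h.sm_mul]
  by_cases hi : i ∈ s
  · simp only [rw', Matrix.of_apply, Finset.piecewise_eq_of_mem _ _ _ hi, Matrix.mul_apply]
    refine Finset.sum_congr rfl fun j _ => ?_
    by_cases hj : j ∈ s
    · rw [Finset.piecewise_eq_of_mem _ _ _ hj]
    · rw [sm_eq_zero_of_stab h s g hg i j hi hj, zero_mul, zero_mul]
  · simp only [rw', Matrix.of_apply, Finset.piecewise_eq_of_notMem _ _ _ hi]
    rw [Finset.sum_eq_single i]
    · rw [Finset.piecewise_eq_of_notMem _ _ _ hi, Matrix.one_apply_eq, one_mul]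
    · intro b _ hb
      rw [Matrix.one_apply_ne hb.symm, zero_mul]
    · intro h2
      exact absurd (Finset.mem_univ _) h2

theorem exists_of_not_stab (h : Reps (G := G) ι P) (s : Finset P) (g : G)
    (hg : g ∉ MulAction.stabilizer G (st ι s)) :
    ∃ i ∈ s, ∃ p ∉ s, g • (p : R) = i ∨ g • (p : R) = ι i := by
  have h1 : ¬ (st ι s ⊆ g • st ι s) := by
    intro h2
    apply hg
    rw [MulAction.mem_stabilizer_iff]
    refine (Set.eq_of_subset_of_ncard_le h2 ?_ (Set.toFinite _)).symm
    rw [Set.ncard_smul_set]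
  rw [Set.not_subset] at h1
  obtain ⟨r, hr, hr'⟩ := h1
  rw [Set.mem_smul_set_iff_inv_smul_mem] at hr'
  obtain ⟨i, hi, hri⟩ := hr
  have h3 : g⁻¹ • (i : R) ∉ st ι s := by
    rcases hri with rfl | rfl
    · exact hr'
    · intro h4
      apply hr'
      rw [h.comm]
      apply st_inv h
      rw [h.inv]
      exact h4
  obtain ⟨p, hp, h5⟩ := h.exists_rep g⁻¹ i i.2
  refine ⟨i, hi, ⟨p, hp⟩, ?_, ?_⟩
  · intro h6
    exact h3 ⟨_, h6, h5⟩
  · rcases h5 with h5 | h5
    · left
      change g • p = (i : R)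
      rw [← h5, smul_inv_smul]
    · right
      change g • p = ι (i : R)
      have h6 : g • ι p = (i : R) := by rw [← h5, smul_inv_smul]
      rw [← h6, h.comm, h.inv]

theorem det_rw_of_not_stab (h : Reps (G := G) ι P) (s : Finset P) (g : G)
    (hg : g ∉ MulAction.stabilizer G (st ι s)) : (rw' s (sm ι P g)).det = 0 := by
  obtain ⟨i, hi, p, hp, hgp⟩ := exists_of_not_stab h s g hg
  have hip : i ≠ p := fun h1 => hp (h1 ▸ hi)
  have hrow : ∀ q : P, q ≠ p → sm ι P g i q = 0 := by
    intro q hq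
    by_contra hne
    apply hq
    have h1 := sm_ne_zero g i q hne
    apply Subtype.ext
    have hinj := MulAction.injective (β := R) g
    rcases h1 with h1 | h1 <;> rcases hgp with h2 | h2
    · exact hinj (h1.trans h2.symm)
    · exfalso
      refine h.ne' q p q.2 p.2 (hinj ?_)
      change g • ι (q : R) = g • (p : R)
      rw [h.comm, h1, h2]
    · exfalso
      refine h.ne' q p q.2 p.2 (hinj ?_)
      change g • ι (q : R) = g • (p : R)
      rw [h.comm, h1, h2, h.inv]
    · exact hinj (h1.trans h2.symm)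
  rw [← Matrix.exists_vecMul_eq_zero_iff]
  refine ⟨Pi.single i 1 - Pi.single p (sm ι P g i p), ?_, ?_⟩
  · intro h0
    have h1 := congrFun h0 i
    rw [Pi.sub_apply, Pi.single_eq_same, Pi.single_eq_of_ne hip, sub_zero, Pi.zero_apply] at h1
    exact one_ne_zero h1
  · ext q
    rw [Matrix.sub_vecMul, Pi.sub_apply, Matrix.single_vecMul, Matrix.single_vecMul]
    simp only [rw', Matrix.row, Matrix.of_apply, Pi.smul_apply, smul_eq_mul, one_mul,
      Finset.piecewise_eq_of_mem _ _ _ hi, Finset.piecewise_eq_of_notMem _ _ _ hp, Pi.zero_apply]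
    by_cases hq : q = p
    · rw [hq, Matrix.one_apply_eq, mul_one, sub_self]
    · rw [hrow q hq, Matrix.one_apply_ne (Ne.symm hq), mul_zero, sub_zero]

theorem rw_one (s : Finset P) : rw' s (1 : Matrix P P ℤ) = 1 := by
  ext i j
  simp only [rw', Matrix.of_apply, Finset.piecewise, ite_self]

theorem abs_det_rw_le (h : Reps (G := G) ι P) (s : Finset P) (g : G) :
    (rw' s (sm ι P g)).det ≤ 1 := by
  by_cases hg : g ∈ MulAction.stabilizer G (st ι s)
  · have h1 := congrArg Matrix.det (rw_mul h s g g⁻¹ hg)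
    rw [mul_inv_cancel, h.sm_one, rw_one, Matrix.det_one, Matrix.det_mul] at h1
    rcases Int.eq_one_or_neg_one_of_mul_eq_one h1.symm with h2 | h2 <;> rw [h2] <;> norm_num
  · rw [det_rw_of_not_stab h s g hg]
    exact zero_le_one

theorem sum_det_rw_nonneg [Fintype G] (h : Reps (G := G) ι P) (s : Finset P) :
    0 ≤ ∑ g : G, (rw' s (sm ι P g)).det := by
  by_cases hall : ∀ g ∈ MulAction.stabilizer G (st ι s), (rw' s (sm ι P g)).det = 1
  · refine Finset.sum_nonneg fun g _ => ?_
    by_cases hg : g ∈ MulAction.stabilizer G (st ι s)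
    · rw [hall g hg]
      exact zero_le_one
    · rw [det_rw_of_not_stab h s g hg]
  · push Not at hall
    obtain ⟨t, ht, hne⟩ := hall
    have h1 : ∑ g : G, (rw' s (sm ι P g)).det =
        ∑ g : G, (rw' s (sm ι P g)).det * (rw' s (sm ι P t)).det := by
      rw [← Equiv.sum_comp (Equiv.mulRight t) (fun g => (rw' s (sm ι P g)).det)]
      refine Finset.sum_congr rfl fun g _ => ?_
      rw [Equiv.coe_mulRight]
      by_cases hg : g ∈ MulAction.stabilizer G (st ι s)
      · rw [rw_mul h s g t hg, Matrix.det_mul]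
      · rw [det_rw_of_not_stab h s g hg, zero_mul]
        apply det_rw_of_not_stab h s
        intro h2
        apply hg
        have h3 := mul_mem h2 (inv_mem ht)
        rwa [mul_inv_cancel_right] at h3
    rw [← Finset.sum_mul] at h1
    have h2 : (∑ g : G, (rw' s (sm ι P g)).det) * ((rw' s (sm ι P t)).det - 1) = 0 := by
      rw [mul_sub, mul_one, ← h1, sub_self]
    rcases mul_eq_zero.1 h2 with h3 | h3
    · rw [h3]
    · exact absurd (sub_eq_zero.1 h3) hne

end Pool.Agent.T10
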