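import Pool.Agent.W_b4801b_t10.NeatDefs

/-!
# The discriminant of a matrix
-/

set_option autoImplicit false

noncomputable section

open Polynomial

namespace Pool.Agent.T10

/-- `resultant_map_map`, `Matrix.charpoly_map`, `derivative_map`. -/
theorem dmat_map {R S : Type*} [CommRing R] [CommRing S] (φ : R →+* S) {n : ℕ}
    (M : Matrix (Fin n) (Fin n) R) : dmat (M.map φ) = φ (dmat M) := by
  unfold dmat
  rw [Matrix.charpoly_map, derivative_map, resultant_map_map]

/-- `resultant_eq_zero_iff` or `isUnit_resultant_iff_isCoprime` (the characteristic polynomial is monic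
of degree `n`; its derivative has degree `n - 1` in characteristic zero; `n = 0` separately: both sides
hold). -/
theorem dmat_ne_zero_iff {K : Type*} [Field K] [CharZero K] {n : ℕ} (M : Matrix (Fin n) (Fin n) K) :
    dmat M ≠ 0 ↔ M.charpoly.Separable := by
  have h1 : dmat M = resultant M.charpoly (derivative M.charpoly) := by
    unfold dmat
    rw [natDegree_derivative, Matrix.charpoly_natDegree_eq_dim, Fintype.card_fin]
  rw [h1, Ne, resultant_eq_zero_iff]
  constructor
  · intro h
    by_contra hns
    exact h ⟨Or.inl (Matrix.charpoly_monic M).ne_zero, hns⟩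
  · intro h h2
    exact h2.2 h

/-- `dmat M` is a polynomial in the entries of `M` (apply `dmat_map` to the generic matrix
`Matrix.mvPolynomialX` and use `MvPolynomial.continuous_eval`; `Matrix.mvPolynomialX_mapMatrix_eval`). -/
theorem continuous_dmat {K : Type*} [Field K] [TopologicalSpace K] [IsTopologicalRing K] {n : ℕ} :
    Continuous fun M : Matrix (Fin n) (Fin n) K => dmat M := by
  have h : (fun M : Matrix (Fin n) (Fin n) K => dmat M) = fun M : Matrix (Fin n) (Fin n) K =>
      MvPolynomial.eval (fun p : Fin n × Fin n => M p.1 p.2)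
        (dmat (Matrix.mvPolynomialX (Fin n) (Fin n) K)) := by
    funext M
    rw [← dmat_map]
    congr 1
    exact (Matrix.mvPolynomialX_mapMatrix_eval M).symm
  rw [h]
  refine (MvPolynomial.continuous_eval _).comp ?_
  refine continuous_pi fun p => ?_
  exact (continuous_apply p.2).comp (continuous_apply p.1)

/-- the generic linear combination -/
theorem neatA_generic {F L : Type*} [Field F] [Field L] {n r : ℕ}
    (X : Fin r → Matrix (Fin n) (Fin n) F) (φ : MvPolynomial (Fin r) F →+* L) :
    (∑ i, (MvPolynomial.X i : MvPolynomial (Fin r) F) • (X i).map MvPolynomial.C).map φ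
      = ∑ i, φ (MvPolynomial.X i) • (X i).map (φ.comp MvPolynomial.C) := by
  ext a b
  simp [Matrix.sum_apply]

/-- If a linear combination of the matrices `X_i` with coefficients in `K` has distinct eigenvalues,
then so has one with coefficients in `ℕ`.

Proof. `E = dmat (∑ t_i X_i)` is a polynomial in `t_1, ..., t_r` over `F` (`dmat_map`), its value at `c` is
not zero, so `E ≠ 0`, so `E` does not vanish at some point of `ℕ ^ r` (`MvPolynomial.funext_set` or
induction; `F` has characteristic zero). -/
theorem exists_nat_comb {F K : Type*} [Field F] [CharZero F] [Field K] [Algebra F K] {n r : ℕ}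
    (X : Fin r → Matrix (Fin n) (Fin n) F) (c : Fin r → K)
    (h : (∑ i, c i • (X i).map (algebraMap F K)).charpoly.Separable) :
    ∃ m : Fin r → ℕ, (∑ i, m i • X i).charpoly.Separable := by
  have hK : CharZero K := charZero_of_injective_algebraMap (algebraMap F K).injective
  let G : Matrix (Fin n) (Fin n) (MvPolynomial (Fin r) F) :=
    ∑ i, (MvPolynomial.X i : MvPolynomial (Fin r) F) • (X i).map MvPolynomial.C
  have hE : dmat G ≠ 0 := by
    intro h0
    have h1 : G.map (MvPolynomial.aeval c : MvPolynomial (Fin r) F →ₐ[F] K).toRingHom = _ :=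
      neatA_generic X (MvPolynomial.aeval c : MvPolynomial (Fin r) F →ₐ[F] K).toRingHom
    have h2 : G.map (MvPolynomial.aeval c : MvPolynomial (Fin r) F →ₐ[F] K).toRingHom
        = ∑ i, c i • (X i).map (algebraMap F K) := by
      rw [h1]
      refine Finset.sum_congr rfl fun i _ => ?_
      ext a b
      simp
    have h3 := (dmat_ne_zero_iff _).mpr h
    rw [← h2, dmat_map, h0, map_zero] at h3
    exact h3 rfl
  obtain ⟨m, hm⟩ : ∃ m : Fin r → ℕ,
      MvPolynomial.eval (fun i => (m i : F)) (dmat G) ≠ 0 := by
    by_contra hcon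
    push Not at hcon
    apply hE
    refine MvPolynomial.funext_set (fun _ : Fin r => Set.range (Nat.cast : ℕ → F))
      (fun _ => Set.infinite_range_of_injective Nat.cast_injective) ?_
    intro x hx
    have hx' : ∀ i, ∃ k : ℕ, (k : F) = x i := fun i => hx i (Set.mem_univ i)
    choose k hk using hx'
    have hxk : x = fun i => (k i : F) := funext fun i => (hk i).symm
    rw [hxk, hcon k, map_zero]
  refine ⟨m, ?_⟩
  rw [← dmat_ne_zero_iff]
  rw [← dmat_map, neatA_generic X] at hm
  convert hm using 2
  refine Finset.sum_congr rfl fun i _ => ?_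
  ext a b
  simp

/-- `charpoly (1 + a Z)` is separable if `charpoly Z` is, for `a ≠ 0`:
`charpoly (1 + a Z) = a ^ n * charpoly Z ((X - 1) / a)`. -/
theorem separable_one_add {K : Type*} [Field K] {n : ℕ} (Z : Matrix (Fin n) (Fin n) K) (a : K)
    (ha : a ≠ 0) (h : Z.charpoly.Separable) : (1 + a • Z).charpoly.Separable := by
  let q : K[X] := C a⁻¹ * (X - 1)
  have hq : C a * q = X - 1 := by
    change C a * (C a⁻¹ * (X - 1)) = _
    rw [← mul_assoc, ← C_mul, mul_inv_cancel₀ ha, C_1, one_mul]
  have hchar : (1 + a • Z).charpoly = C (a ^ n) * Z.charpoly.comp q := by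
    have h1 : Z.charpoly.comp q = ((compRingHom q).mapMatrix (Matrix.charmatrix Z)).det := by
      rw [← RingHom.map_det]
      rfl
    have h2 : Matrix.charmatrix (1 + a • Z) =
        (C a : K[X]) • ((compRingHom q).mapMatrix (Matrix.charmatrix Z)) := by
      ext1 i j
      by_cases hij : i = j
      · subst hij
        rw [Matrix.charmatrix_apply_eq, Matrix.smul_apply, RingHom.mapMatrix_apply, Matrix.map_apply,
          Matrix.charmatrix_apply_eq, map_sub, smul_eq_mul, mul_sub]
        have e1 : (compRingHom q) (X : K[X]) = q := by simp [compRingHom]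
        have e2 : (compRingHom q) (C (Z i i)) = C (Z i i) := by simp [compRingHom]
        rw [e1, e2, hq, Matrix.add_apply, Matrix.one_apply_eq, Matrix.smul_apply, smul_eq_mul,
          C_add, C_mul, C_1]
        ring
      · rw [Matrix.charmatrix_apply_ne _ _ _ hij, Matrix.smul_apply, RingHom.mapMatrix_apply,
          Matrix.map_apply, Matrix.charmatrix_apply_ne _ _ _ hij, map_neg, smul_eq_mul]
        have e2 : (compRingHom q) (C (Z i j)) = C (Z i j) := by simp [compRingHom]
        rw [e2, Matrix.add_apply, Matrix.one_apply_ne hij, Matrix.smul_apply, smul_eq_mul,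
          zero_add, C_mul]
        ring
    rw [h1, Matrix.charpoly, h2, Matrix.det_smul, Fintype.card_fin, C_pow]
  rw [hchar]
  have hu : IsUnit (C (a ^ n) : K[X]) := isUnit_C.mpr (pow_ne_zero n ha).isUnit
  have hcomp : (Z.charpoly.comp q).Separable := by
    unfold Separable
    rw [derivative_comp]
    have hder : derivative q = C a⁻¹ := by
      change derivative (C a⁻¹ * (X - 1)) = _
      simp
    rw [hder]
    have hu2 : IsUnit (C a⁻¹ : K[X]) := isUnit_C.mpr (inv_ne_zero ha).isUnit
    rw [isCoprime_mul_unit_left_right hu2]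
    have h3 : IsCoprime (compRingHom q Z.charpoly) (compRingHom q (derivative Z.charpoly)) :=
      IsCoprime.map h (compRingHom q)
    exact h3
  obtain ⟨u, hu⟩ := hu
  have h4 : (C (a ^ n) * Z.charpoly.comp q : K[X]) = (u : K[X]) * Z.charpoly.comp q := by rw [hu]
  unfold Separable
  rw [derivative_C_mul, isCoprime_mul_unit_left_left (isUnit_C.mpr (pow_ne_zero n ha).isUnit),
    isCoprime_mul_unit_left_right (isUnit_C.mpr (pow_ne_zero n ha).isUnit)]
  exact hcomp

end Pool.Agent.T10
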