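import Pool.Agent.W_b4801b_t10.NeatA

/-!
# Products of powers of elements with given logarithms
-/

set_option autoImplicit false

noncomputable section

open Polynomial Filter Topology

namespace Pool.Agent.T10

variable {ℓ : ℕ} [Fact ℓ.Prime] {n : ℕ}

theorem NeatB_ne (t : ℕ) : ((ℓ : ℚ_[ℓ]) ^ t) ≠ 0 :=
  pow_ne_zero _ (Nat.cast_ne_zero.2 (Fact.out : ℓ.Prime).ne_zero)

theorem NeatB_pow_tendsto : Tendsto (fun t : ℕ => (ℓ : ℚ_[ℓ]) ^ t) atTop (𝓝 0) :=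
  tendsto_pow_atTop_nhds_zero_of_norm_lt_one Padic.norm_p_lt_one

/-- First order expansions multiply: if `(A_t - 1) / ℓ^t → X` and `(B_t - 1) / ℓ^t → Y`, then
`(A_t B_t - 1) / ℓ^t → X + Y`, because
`A B - 1 = (A - 1) + (B - 1) + (A - 1) (B - 1)` and `(A_t - 1) (B_t - 1) / ℓ^t → 0`
(`ℓ ^ t → 0` in `ℚ_ℓ`). -/
theorem tendsto_mul_log (A B : ℕ → Matrix (Fin n) (Fin n) ℚ_[ℓ]) (X Y : Matrix (Fin n) (Fin n) ℚ_[ℓ])
    (hA : Tendsto (fun t => ((ℓ : ℚ_[ℓ]) ^ t)⁻¹ • (A t - 1)) atTop (𝓝 X))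
    (hB : Tendsto (fun t => ((ℓ : ℚ_[ℓ]) ^ t)⁻¹ • (B t - 1)) atTop (𝓝 Y)) :
    Tendsto (fun t => ((ℓ : ℚ_[ℓ]) ^ t)⁻¹ • (A t * B t - 1)) atTop (𝓝 (X + Y)) := by
  have h1 := (hA.add hB).add ((NeatB_pow_tendsto (ℓ := ℓ)).smul (hA.mul hB))
  rw [zero_smul, add_zero] at h1
  refine h1.congr fun t => ?_
  have h2 : A t * B t - 1 = (A t - 1) + (B t - 1) + (A t - 1) * (B t - 1) := by noncomm_ring
  rw [h2, smul_add, smul_add, Matrix.smul_mul, Matrix.mul_smul, smul_smul, smul_smul,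
    mul_inv_cancel₀ (NeatB_ne t), one_mul]

/-- Powers. -/
theorem tendsto_pow_log (A : ℕ → Matrix (Fin n) (Fin n) ℚ_[ℓ]) (X : Matrix (Fin n) (Fin n) ℚ_[ℓ])
    (hA : Tendsto (fun t => ((ℓ : ℚ_[ℓ]) ^ t)⁻¹ • (A t - 1)) atTop (𝓝 X)) (m : ℕ) :
    Tendsto (fun t => ((ℓ : ℚ_[ℓ]) ^ t)⁻¹ • (A t ^ m - 1)) atTop (𝓝 (m • X)) := by
  induction m with
  | zero =>
    simp only [pow_zero, sub_self, smul_zero, zero_smul]
    exact tendsto_const_nhds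
  | succ m ih =>
    simp only [pow_succ, succ_nsmul]
    exact tendsto_mul_log _ _ _ _ ih hA

/-- Products (of the list of the `A i t ^ m i`). -/
theorem tendsto_prod_log {r : ℕ} (A : Fin r → ℕ → Matrix (Fin n) (Fin n) ℚ_[ℓ])
    (X : Fin r → Matrix (Fin n) (Fin n) ℚ_[ℓ]) (m : Fin r → ℕ)
    (hA : ∀ i, Tendsto (fun t => ((ℓ : ℚ_[ℓ]) ^ t)⁻¹ • (A i t - 1)) atTop (𝓝 (X i))) :
    Tendsto (fun t => ((ℓ : ℚ_[ℓ]) ^ t)⁻¹ • ((List.ofFn fun i => A i t ^ m i).prod - 1)) atTop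
      (𝓝 (∑ i, m i • X i)) := by
  induction r with
  | zero =>
    simp only [List.ofFn_zero, List.prod_nil, sub_self, smul_zero, Finset.univ_eq_empty,
      Finset.sum_empty]
    exact tendsto_const_nhds
  | succ r ih =>
    simp only [List.ofFn_succ, List.prod_cons, Fin.sum_univ_succ]
    exact tendsto_mul_log _ _ _ _ (tendsto_pow_log _ _ (hA 0) _)
      (ih (fun i => A i.succ) (fun i => X i.succ) (fun i => m i.succ) fun i => hA i.succ)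

/-- If `(A_t - 1) / ℓ^t` converges then `A_t` is congruent to `1` modulo `ℓ ^ 2` for large `t`:
the entries of `(A_t - 1) / ℓ^t` have norms at most `ℓ ^ c` for some `c` and all large `t`, so the entries of
`(A_t - 1) / ℓ^2` have norms at most `ℓ ^ (c + 2 - t) ≤ 1`. -/
theorem eventually_Cg (A : ℕ → Matrix (Fin n) (Fin n) ℚ_[ℓ]) (X : Matrix (Fin n) (Fin n) ℚ_[ℓ])
    (hA : Tendsto (fun t => ((ℓ : ℚ_[ℓ]) ^ t)⁻¹ • (A t - 1)) atTop (𝓝 X)) :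
    ∀ᶠ t in atTop, Cg ℓ 2 (A t) := by
  have h1 : Tendsto (fun t => ((ℓ : ℚ_[ℓ]) ^ 2)⁻¹ • (A t - 1)) atTop (𝓝 0) := by
    have h2 := ((NeatB_pow_tendsto (ℓ := ℓ)).smul hA).const_smul (((ℓ : ℚ_[ℓ]) ^ 2)⁻¹)
    rw [zero_smul, smul_zero] at h2
    refine h2.congr fun t => ?_
    rw [smul_smul ((ℓ : ℚ_[ℓ]) ^ t), mul_inv_cancel₀ (NeatB_ne t), one_smul]
  have h2 : ∀ i j : Fin n, ∀ᶠ t in atTop, ‖(((ℓ : ℚ_[ℓ]) ^ 2)⁻¹ • (A t - 1)) i j‖ ≤ 1 := by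
    intro i j
    have h3 : Tendsto (fun t => (((ℓ : ℚ_[ℓ]) ^ 2)⁻¹ • (A t - 1)) i j) atTop (𝓝 0) :=
      ((continuous_apply_apply i j).tendsto (0 : Matrix (Fin n) (Fin n) ℚ_[ℓ])).comp h1
    have h4 := h3.norm
    rw [norm_zero] at h4
    exact (h4.eventually_lt_const one_pos).mono fun t ht => ht.le
  have h3 : ∀ᶠ t in atTop, ∀ i j : Fin n, ‖(((ℓ : ℚ_[ℓ]) ^ 2)⁻¹ • (A t - 1)) i j‖ ≤ 1 := by
    rw [eventually_all]
    intro i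
    rw [eventually_all]
    exact h2 i
  refine h3.mono fun t ht => ?_
  obtain ⟨Z, hZ⟩ : ∃ Z : Matrix (Fin n) (Fin n) ℤ_[ℓ], ∀ i j,
      algebraMap ℤ_[ℓ] ℚ_[ℓ] (Z i j) = (((ℓ : ℚ_[ℓ]) ^ 2)⁻¹ • (A t - 1)) i j :=
    ⟨fun i j => ⟨_, ht i j⟩, fun i j => rfl⟩
  refine ⟨Z, ?_⟩
  ext i j
  have h4 : (A t) i j = (1 : Matrix (Fin n) (Fin n) ℚ_[ℓ]) i j +
      (ℓ : ℚ_[ℓ]) ^ 2 * algebraMap ℤ_[ℓ] ℚ_[ℓ] (Z i j) := by
    rw [hZ, Matrix.smul_apply, smul_eq_mul, mul_inv_cancel_left₀ (NeatB_ne 2), Matrix.sub_apply]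
    ring
  rw [h4]
  unfold toQ
  rw [Matrix.map_apply, Matrix.add_apply, map_add, Matrix.smul_apply, smul_eq_mul, map_mul,
    map_pow, map_natCast]
  congr 1
  rw [Matrix.one_apply, Matrix.one_apply]
  split_ifs
  · exact (map_one _).symm
  · exact (map_zero _).symm

/-- If `(A_t - 1) / ℓ^t → X` and `X` has distinct eigenvalues then so has `A_t` for large `t`
(`continuous_dmat`, `dmat_ne_zero_iff`, `separable_one_add`). -/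
theorem eventually_separable (A : ℕ → Matrix (Fin n) (Fin n) ℚ_[ℓ])
    (X : Matrix (Fin n) (Fin n) ℚ_[ℓ])
    (hA : Tendsto (fun t => ((ℓ : ℚ_[ℓ]) ^ t)⁻¹ • (A t - 1)) atTop (𝓝 X))
    (hX : X.charpoly.Separable) : ∀ᶠ t in atTop, (A t).charpoly.Separable := by
  have h1 : Tendsto (fun t => dmat (((ℓ : ℚ_[ℓ]) ^ t)⁻¹ • (A t - 1))) atTop (𝓝 (dmat X)) :=
    (continuous_dmat.tendsto X).comp hA
  have h2 : ∀ᶠ t in atTop, dmat (((ℓ : ℚ_[ℓ]) ^ t)⁻¹ • (A t - 1)) ≠ 0 :=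
    h1.eventually_ne ((dmat_ne_zero_iff X).2 hX)
  refine h2.mono fun t ht => ?_
  have h3 := separable_one_add _ ((ℓ : ℚ_[ℓ]) ^ t) (NeatB_ne t) ((dmat_ne_zero_iff _).1 ht)
  rw [smul_smul, mul_inv_cancel₀ (NeatB_ne t), one_smul, add_sub_cancel] at h3
  exact h3

end Pool.Agent.T10
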