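import Pool.Agent.W_b4801b_t10.ApxP
import Pool.Agent.W_b4801b_t10.NeatB

/-!
# Existence of neat places
-/

set_option autoImplicit false

noncomputable section

open Polynomial Filter Topology

universe u v

namespace Pool.Agent.T10

open Pool.Agent.B4801b

variable {k : Type u} [Field k] {w : ℕ}

/-- A Frobenius element congruent to `1` modulo `ℓ ^ 2` is neat. -/
theorem neat_of_cg (S : CompSys.{u, v} k w) (ℓ : ℕ) [Fact ℓ.Prime] (x : Place k) (hx : x ∈ S.Pl)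
    (hp : ℓ ≠ x.p) (h : Gal k) (hC : Cg ℓ 2 ((chartOf S ℓ).M (h * x.frob * h⁻¹))) :
    NeatPoly ((S.P x).rootSet ℂ).ncard (S.P x) :=
  neatPoly_of_charpoly (S.P x) _ hC (by rw [charpoly_conj, charpoly_frob_eq S ℓ _ x hx hp])

/-- The number of distinct eigenvalues, in matrix form. -/
theorem eigGE_iff (S : CompSys.{u, v} k w) (ℓ : ℕ) [Fact ℓ.Prime] (c : Chart (S.rep ℓ)) (D : ℕ)
    (g : Gal k) : EigGE (S.rep ℓ) D g ↔
      D ≤ ((c.M g).charpoly.rootSet (AlgebraicClosure ℚ_[ℓ])).ncard := by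
  rw [EigGE, c.charpoly_eq]

theorem exists_injective_of_le_ncard {α : Type*} (s : Set α) (hs : s.Finite) (D : ℕ)
    (h : D ≤ s.ncard) : ∃ f : Fin D → α, Function.Injective f ∧ ∀ i, f i ∈ s := by
  obtain ⟨f, hf, hr⟩ := exists_enum s hs s.ncard rfl
  refine ⟨fun i => f (Fin.castLE h i), fun i j hij => Fin.castLE_injective h (hf hij), fun i => ?_⟩
  have h1 : f (Fin.castLE h i) ∈ Set.range f := Set.mem_range_self _
  rwa [hr] at h1

/-- An element `g` congruent to `1` modulo `ℓ ^ 2` with `D` distinct eigenvalues gives a neat place. -/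
theorem exists_neat_aux (S : CompSys.{u, v} k w) (hd : DenseFrob S) (D : ℕ)
    (U : Subgroup (Gal k)) (hU : IsOpen (U : Set (Gal k)))
    (hmax : ∀ x ∈ S.Pl, (∃ h : Gal k, h * x.frob * h⁻¹ ∈ U) → ((S.P x).rootSet ℂ).ncard ≤ D)
    (ℓ : ℕ) [Fact ℓ.Prime] (g : Gal k) (hg : g ∈ U) (hC : Cg ℓ 2 ((chartOf S ℓ).M g))
    (hD : EigGE (S.rep ℓ) D g) : ∃ x, Neat S D x := by
  obtain ⟨X, hX⟩ := hC
  rw [eigGE_iff S ℓ (chartOf S ℓ)] at hD
  obtain ⟨γ, hγ, hγr⟩ := exists_injective_of_le_ncard _ (Polynomial.rootSet_finite _ _) D hD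
  obtain ⟨N, hN⟩ := exists_near_roots (D := D) (1 + (ℓ : ℤ_[ℓ]) ^ 2 • X) γ hγ (by
    intro i
    rw [← hX]
    exact Polynomial.aeval_eq_zero_of_mem_rootSet (hγr i))
  obtain ⟨x, hx, hxT, ⟨h, u, hu, hconj⟩, hP⟩ := exists_frob_near S hd (U ⊓ UT S {ℓ} 2)
    (by rw [Subgroup.coe_inf]; exact hU.inter (isOpen_UT S {ℓ} 2)) g {ℓ} N
  have hp : ℓ ≠ x.p := fun h => hxT (h ▸ Finset.mem_singleton_self ℓ)
  obtain ⟨Y, hY⟩ := hP ℓ (Finset.mem_singleton_self ℓ) _ hX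
  obtain ⟨hP0, β, h1, h2, -⟩ := hN N le_rfl Y (S.P x) hY
  have hge := le_ncard_of_near (S.P x) hP0 β h1 h2
  have hle := hmax x hx ⟨h, by rw [hconj]; exact U.mul_mem hg hu.1⟩
  have hC' : Cg ℓ 2 ((chartOf S ℓ).M (h * x.frob * h⁻¹)) := by
    obtain ⟨X', hX'⟩ := (chartOf S ℓ).cong 2 u (UT_le S {ℓ} 2 ℓ (Finset.mem_singleton_self ℓ) hu.2)
    rw [hconj, map_mul, hX, hX', ← toQ_mul]
    refine ⟨X + X' + (ℓ : ℤ_[ℓ]) ^ 2 • (X * X'), ?_⟩
    congr 1
    simp only [add_mul, mul_add, one_mul, mul_one, Matrix.smul_mul, Matrix.mul_smul, smul_add]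
    abel
  have h3 := neat_of_cg S ℓ x hx hp h hC'
  rw [le_antisymm hle hge] at h3
  exact ⟨x, hx, h3⟩

/-- If every open subgroup contains an element with `D` distinct eigenvalues then there is a neat
place. -/
theorem exists_neat_of_open (S : CompSys.{u, v} k w) (hd : DenseFrob S) (D : ℕ) (hm : MaxRoots S D)
    (ℓ : ℕ) [Fact ℓ.Prime]
    (h : ∀ U : Subgroup (Gal k), IsOpen (U : Set (Gal k)) → ∃ g ∈ U, EigGE (S.rep ℓ) D g) :
    ∃ x, Neat S D x := by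
  obtain ⟨U, hU, hmax⟩ := hm
  obtain ⟨g, hg, hD⟩ := h (U ⊓ UT S {ℓ} 2)
    (by rw [Subgroup.coe_inf]; exact hU.inter (isOpen_UT S {ℓ} 2))
  exact exists_neat_aux S hd D U hU hmax ℓ g hg.1
    ((chartOf S ℓ).cong 2 g (UT_le S {ℓ} 2 ℓ (Finset.mem_singleton_self ℓ) hg.2)) hD

/-- A neat element `g` (at one prime `ℓ`) gives a neat place. -/
theorem exists_neat_of_neatAt (S : CompSys.{u, v} k w) (hd : DenseFrob S) (D : ℕ)
    (hm : MaxRoots S D) (ℓ : ℕ) [Fact ℓ.Prime] (g : Gal k) (hg : NeatAt (S.rep ℓ) D g) :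
    ∃ x, Neat S D x := by
  refine exists_neat_of_open S hd D hm ℓ fun U hU => ?_
  obtain ⟨a, ha, haU⟩ := exists_pow_mem U hU g
  refine ⟨g ^ a, haU, ?_⟩
  obtain ⟨hD, htors⟩ := hg
  rw [eigGE_iff S ℓ (chartOf S ℓ)] at hD ⊢
  rw [(chartOf S ℓ).charpoly_eq] at htors
  obtain ⟨γ, hγ, hγr⟩ := exists_injective_of_le_ncard _ (Polynomial.rootSet_finite _ _) D hD
  have hr : ∀ i, aeval (γ i) ((chartOf S ℓ).M g).charpoly = 0 := fun i =>
    Polynomial.aeval_eq_zero_of_mem_rootSet (hγr i)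
  refine le_ncard_of_injective _ (Polynomial.rootSet_finite _ _) D (fun i => γ i ^ a) ?_ ?_
  · intro i j hij
    by_contra hne
    exact htors _ _ (hr i) (hr j) (fun h => hne (hγ h)) a ha hij
  · intro i
    rw [Polynomial.mem_rootSet]
    refine ⟨(Matrix.charpoly_monic _).ne_zero, ?_⟩
    rw [map_pow]
    exact aeval_charpoly_pow _ _ (hr i) a

/-! ### The dimension -/

theorem natDegree_P (S : CompSys.{u, v} k w) (x : Place k) (hx : x ∈ S.Pl) (ℓ : ℕ) [Fact ℓ.Prime]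
    (hp : ℓ ≠ x.p) : (S.P x).natDegree = Module.finrank ℚ_[ℓ] (S.rep ℓ).V := by
  have h := S.charpoly_frob x hx ℓ hp
  rw [PolRep.HasCharpoly] at h
  rw [← Polynomial.natDegree_map (algebraMap ℚ ℚ_[ℓ]), ← h, LinearMap.charpoly_natDegree]

theorem P_ne_zero (S : CompSys.{u, v} k w) (x : Place k) (hx : x ∈ S.Pl) (ℓ : ℕ) [Fact ℓ.Prime]
    (hp : ℓ ≠ x.p) : S.P x ≠ 0 := by
  intro h0
  have h := S.charpoly_frob x hx ℓ hp
  rw [PolRep.HasCharpoly, h0, Polynomial.map_zero] at h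
  exact (LinearMap.charpoly_monic _).ne_zero h

theorem ncard_le_natDegree (P : ℚ[X]) : (P.rootSet ℂ).ncard ≤ P.natDegree := by
  classical
  have h : (P.rootSet ℂ).ncard = (P.aroots ℂ).toFinset.card := by
    rw [Polynomial.rootSet, Set.ncard_coe_finset]
  rw [h]
  refine (Multiset.toFinset_card_le _).trans ?_
  refine (Polynomial.card_roots' _).trans ?_
  exact Polynomial.natDegree_map_le

/-- All `V_ℓ` have the same dimension. -/
theorem finrank_eq (S : CompSys.{u, v} k w) (hd : DenseFrob S) (ℓ ℓ' : ℕ) [Fact ℓ.Prime]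
    [Fact ℓ'.Prime] :
    Module.finrank ℚ_[ℓ] (S.rep ℓ).V = Module.finrank ℚ_[ℓ'] (S.rep ℓ').V := by
  obtain ⟨x, hx, hxT, -⟩ := hd ⊤ (by simp) 1 {ℓ, ℓ'}
  have h1 : ℓ ≠ x.p := fun h => hxT (by rw [← h]; simp)
  have h2 : ℓ' ≠ x.p := fun h => hxT (by rw [← h]; simp)
  rw [← natDegree_P S x hx ℓ h1, ← natDegree_P S x hx ℓ' h2]

theorem natDegree_P' (S : CompSys.{u, v} k w) (hd : DenseFrob S) (x : Place k) (hx : x ∈ S.Pl)
    (ℓ : ℕ) [Fact ℓ.Prime] : (S.P x).natDegree = Module.finrank ℚ_[ℓ] (S.rep ℓ).V := by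
  by_cases hp : ℓ = x.p
  · obtain ⟨ℓ', hℓ', hgt⟩ := Nat.exists_infinite_primes (x.p + 1)
    have hF : Fact ℓ'.Prime := ⟨hgt⟩
    rw [finrank_eq S hd ℓ ℓ', natDegree_P S x hx ℓ' (by omega)]
  · exact natDegree_P S x hx ℓ hp

theorem maxRoots_finrank (S : CompSys.{u, v} k w) (hd : DenseFrob S) (ℓ : ℕ) [Fact ℓ.Prime] :
    ∀ x ∈ S.Pl, ((S.P x).rootSet ℂ).ncard ≤ Module.finrank ℚ_[ℓ] (S.rep ℓ).V := by
  intro x hx
  rw [← natDegree_P' S hd x hx ℓ]
  exact ncard_le_natDegree _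

/-- The number `D` exists for every system: it is the smallest number such that, for the places whose
Frobenius elements lie in some open subgroup, the Frobenius polynomials have at most `D` distinct
roots. -/
theorem exists_maxRoots (S : CompSys.{u, v} k w) (hd : DenseFrob S) :
    ∃ D : ℕ, MaxRoots S D ∧ ∃ x, Neat S D x := by
  classical
  have hF2 : Fact (2 : ℕ).Prime := ⟨Nat.prime_two⟩
  have hF3 : Fact (3 : ℕ).Prime := ⟨Nat.prime_three⟩
  have hex : ∃ D : ℕ, MaxRoots S D :=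
    ⟨_, ⊤, by simp, fun x hx _ => maxRoots_finrank S hd 2 x hx⟩
  have hD := Nat.find_spec hex
  have hmin := fun d => Nat.find_min (H := hex) (m := d)
  set D := Nat.find hex with hDdef
  refine ⟨D, hD, ?_⟩
  obtain ⟨U, hU, hmax⟩ := hD
  set V := U ⊓ UT S {2, 3} 2 with hV
  have hVo : IsOpen (V : Set (Gal k)) := by
    rw [hV, Subgroup.coe_inf]; exact hU.inter (isOpen_UT S {2, 3} 2)
  have hx : ∃ x ∈ S.Pl, (∃ h : Gal k, h * x.frob * h⁻¹ ∈ V) ∧ D ≤ ((S.P x).rootSet ℂ).ncard := by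
    by_contra hcon
    push Not at hcon
    rcases Nat.eq_zero_or_pos D with h0 | h0
    · obtain ⟨x, hx, -, h, hh⟩ := hd V hVo 1 ∅
      have h1 := hcon x hx ⟨h, by simpa using hh⟩
      omega
    · refine hmin (D - 1) (by omega) ⟨V, hVo, fun x hx h => ?_⟩
      have h1 := hcon x hx h
      omega
  obtain ⟨x, hx, ⟨h, hh⟩, hge⟩ := hx
  have hle := hmax x hx ⟨h, hh.1⟩
  have hne : NeatPoly ((S.P x).rootSet ℂ).ncard (S.P x) := by
    by_cases h2 : (2 : ℕ) = x.p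
    · have h3 : (3 : ℕ) ≠ x.p := by omega
      exact neat_of_cg S 3 x hx h3 h ((chartOf S 3).cong 2 _ (UT_le S {2, 3} 2 3 (by simp) hh.2))
    · exact neat_of_cg S 2 x hx h2 h ((chartOf S 2).cong 2 _ (UT_le S {2, 3} 2 2 (by simp) hh.2))
  rw [le_antisymm hle hge] at hne
  exact ⟨x, hx, hne⟩

/-! ### Regular logarithms -/

theorem eigGE_of_separable (S : CompSys.{u, v} k w) (ℓ : ℕ) [Fact ℓ.Prime] (g : Gal k)
    (h : ((chartOf S ℓ).M g).charpoly.Separable) :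
    EigGE (S.rep ℓ) (Module.finrank ℚ_[ℓ] (S.rep ℓ).V) g := by
  rw [eigGE_iff S ℓ (chartOf S ℓ)]
  have h1 : Fintype.card (((chartOf S ℓ).M g).charpoly.rootSet (AlgebraicClosure ℚ_[ℓ])) =
      ((chartOf S ℓ).M g).charpoly.natDegree :=
    Polynomial.card_rootSet_eq_natDegree h (IsAlgClosed.splits _)
  have h2 : (((chartOf S ℓ).M g).charpoly.rootSet (AlgebraicClosure ℚ_[ℓ])).ncard =
      ((chartOf S ℓ).M g).charpoly.natDegree := by
    rw [← h1, Set.ncard_eq_toFinset_card', Set.toFinset_card]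
  rw [h2, Matrix.charpoly_natDegree_eq_dim, Fintype.card_fin,
    Module.finrank_eq_card_basis (chartOf S ℓ).b, Fintype.card_fin]

/-- A regular linear combination of logarithms gives a neat place `x` with `P_x` separable. -/
theorem exists_neat_of_regularLog (S : CompSys.{u, v} k w) (hd : DenseFrob S) (ℓ : ℕ)
    [Fact ℓ.Prime] (h : RegularLog (S.rep ℓ)) :
    ∃ x, Neat S (Module.finrank ℚ_[ℓ] (S.rep ℓ).V) x ∧
      (S.P x).natDegree = Module.finrank ℚ_[ℓ] (S.rep ℓ).V := by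
  obtain ⟨K, _, _, r, g, X, c, hlog, hsep⟩ := h
  set C := chartOf S ℓ with hCdef
  set Xm : Fin r → Matrix (Fin C.n) (Fin C.n) ℚ_[ℓ] := fun i => LinearMap.toMatrix C.b C.b (X i)
    with hXm
  have h1 : (∑ i, c i • (Xm i).map (algebraMap ℚ_[ℓ] K)).charpoly.Separable := by
    have h2 : LinearMap.toMatrix (Algebra.TensorProduct.basis K C.b)
        (Algebra.TensorProduct.basis K C.b)
        (∑ i, c i • LinearMap.baseChange K (X i)) = ∑ i, c i • (Xm i).map (algebraMap ℚ_[ℓ] K) := by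
      rw [map_sum]
      refine Finset.sum_congr rfl fun i _ => ?_
      rw [map_smul, LinearMap.toMatrix_baseChange]
    rw [← h2, LinearMap.charpoly_toMatrix]
    exact hsep
  obtain ⟨m, hm⟩ := exists_nat_comb Xm c h1
  have hA : ∀ i, Tendsto (fun t : ℕ => ((ℓ : ℚ_[ℓ]) ^ t)⁻¹ • (C.M (g i ^ (ℓ ^ t)) - 1)) atTop
      (𝓝 (Xm i)) := by
    intro i
    refine tendsto_pi_nhds.2 fun a => tendsto_pi_nhds.2 fun j => ?_
    have h3 := hlog i (C.b.coord a) (C.b j)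
    have h4 : (fun t : ℕ => (((ℓ : ℚ_[ℓ]) ^ t)⁻¹ • (C.M (g i ^ (ℓ ^ t)) - 1)) a j) =
        fun t : ℕ => C.b.coord a (((ℓ : ℚ_[ℓ]) ^ t)⁻¹ •
          ((S.rep ℓ).ρ (g i ^ (ℓ ^ t)) (C.b j) - C.b j)) := by
      funext t
      rw [Matrix.smul_apply, Matrix.sub_apply, C.M_eq, LinearMap.toMatrix_apply, map_smul, map_sub]
      congr 2
      simp [Matrix.one_apply, Finsupp.single_apply, eq_comm]
    have h5 : Xm i a j = C.b.coord a (X i (C.b j)) := by
      rw [hXm]; simp [LinearMap.toMatrix_apply]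
    rw [h4, h5]
    exact h3
  have hprod := tendsto_prod_log (fun i t => C.M (g i ^ (ℓ ^ t))) Xm m hA
  obtain ⟨t, ht1, ht2⟩ := ((eventually_Cg _ _ hprod).and
    (eventually_separable _ _ hprod hm)).exists
  have hM : C.M ((List.ofFn fun i => (g i ^ (ℓ ^ t)) ^ m i).prod) =
      (List.ofFn fun i => C.M (g i ^ (ℓ ^ t)) ^ m i).prod := by
    rw [map_list_prod, List.map_ofFn]
    congr 2
    funext i
    simp
  rw [← hM] at ht1 ht2
  obtain ⟨x, hx⟩ := exists_neat_aux S hd _ ⊤ (by simp)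
    (fun x hx _ => maxRoots_finrank S hd ℓ x hx) ℓ _ (Subgroup.mem_top _) ht1
    (eigGE_of_separable S ℓ _ ht2)
  exact ⟨x, hx, natDegree_P' S hd x hx.1 ℓ⟩

end Pool.Agent.T10
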