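import Pool.Agent.W_b4801b_t10.ApxDefs

/-!
# Neat elements and logarithms (definitions)

By Sen's theorem the Sen operator of a place above `ℓ` is a linear combination, with coefficients in
`K = ℂ_ℓ`, of logarithms of elements of the image of Galois, and for a Hodge-Tate representation its
eigenvalues are the Hodge-Tate weights.
-/

set_option autoImplicit false

noncomputable section

open Polynomial Filter Topology

universe u v

namespace Pool.Agent.T10

open Pool.Agent.B4801b

/-- `X` is the logarithm of the operator `ρ(g)`: `X = lim (ρ(g)^(ℓ^t) - 1) / ℓ^t` for `t → ∞`. -/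
def IsLog {k : Type u} [Field k] {w ℓ : ℕ} [Fact ℓ.Prime] (R : PolRep.{u, v} k w ℓ) (g : Gal k)
    (X : Module.End ℚ_[ℓ] R.V) : Prop :=
  ∀ (f : Module.Dual ℚ_[ℓ] R.V) (x : R.V),
    Tendsto (fun t : ℕ => f (((ℓ : ℚ_[ℓ]) ^ t)⁻¹ • (R.ρ (g ^ (ℓ ^ t)) x - x))) atTop (𝓝 (f (X x)))

/-- Some linear combination, with coefficients in an extension field `K` of `ℚ_ℓ`, of logarithms of
operators `ρ(g)` has distinct eigenvalues. -/
def RegularLog {k : Type u} [Field k] {w ℓ : ℕ} [Fact ℓ.Prime] (R : PolRep.{u, v} k w ℓ) : Prop :=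
  ∃ (K : Type) (_ : Field K) (_ : Algebra ℚ_[ℓ] K) (r : ℕ) (g : Fin r → Gal k)
    (X : Fin r → Module.End ℚ_[ℓ] R.V) (c : Fin r → K),
    (∀ i, IsLog R (g i) (X i)) ∧
      (∑ i, c i • LinearMap.baseChange K (X i)).charpoly.Separable

/-- `ρ(g)` has at least `D` distinct eigenvalues. -/
def EigGE {k : Type u} [Field k] {w ℓ : ℕ} [Fact ℓ.Prime] (R : PolRep.{u, v} k w ℓ) (D : ℕ)
    (g : Gal k) : Prop :=
  D ≤ ((R.ρ g).charpoly.rootSet (AlgebraicClosure ℚ_[ℓ])).ncard

/-- `ρ(g)` has at least `D` distinct eigenvalues and no quotient of two different eigenvalues is a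
root of unity. -/
def NeatAt {k : Type u} [Field k] {w ℓ : ℕ} [Fact ℓ.Prime] (R : PolRep.{u, v} k w ℓ) (D : ℕ)
    (g : Gal k) : Prop :=
  EigGE R D g ∧ ∀ a b : AlgebraicClosure ℚ_[ℓ],
    aeval a (R.ρ g).charpoly = 0 → aeval b (R.ρ g).charpoly = 0 → a ≠ b →
      ∀ m : ℕ, 0 < m → a ^ m ≠ b ^ m

/-- The resultant of the characteristic polynomial of `M` and its derivative. -/
def dmat {R : Type*} [CommRing R] {n : ℕ} (M : Matrix (Fin n) (Fin n) R) : R :=
  resultant M.charpoly (derivative M.charpoly) n (n - 1)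

end Pool.Agent.T10
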