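import Pool.Agent.W_b4801b_t10.Choice

/-! A sequence of neat places with constant pairwise intersection of the splitting fields. -/

set_option autoImplicit false

noncomputable section

open Polynomial

universe u v

namespace Pool.Agent.T10

open Pool.Agent.B4801b

variable {k : Type u} [Field k] {w : ℕ}

/-- Proof. `common S D ≤ frobField (S.P x)` (`iInf_le`), which is finite over `ℚ`. -/
theorem common_fd (S : CompSys.{u, v} k w) (D : ℕ) (hx : ∃ x, Neat S D x) :
    FiniteDimensional ℚ (common S D) := by
  obtain ⟨x, hx⟩ := hx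
  have hle : common S D ≤ frobField (S.P x) :=
    iInf_le (fun y : {x : Place k // Neat S D x} => frobField (S.P y.1)) ⟨x, hx⟩
  have := frobField_fd (S.P x)
  exact FiniteDimensional.of_injective (IntermediateField.inclusion hle).toLinearMap
    (IntermediateField.inclusion_injective hle)

/-- Proof. Recursion: given the finitely many places chosen so far, let `M` be the composite of their
splitting fields (finite, Galois: `sup_fd`, `sup_galois`; start with `⊥`), and let the next place be
given by `exists_neat_inf_le`. Then for `i < j`, `frobField P_{x_j} ⊓ frobField P_{x_i} ≤ common S D`, and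
`≥` is `iInf_le`. (Carry the composite in the recursion: a sequence of pairs `(x_n, M_n)` with
`M_{n+1} = M_n ⊔ frobField P_{x_n}` and `frobField P_{x_n} ⊓ M_n ≤ common S D`.) -/
theorem exists_seq (S : CompSys.{u, v} k w) (hd : DenseFrob S) (D : ℕ) (hm : MaxRoots S D)
    (hx : ∃ x, Neat S D x) :
    ∃ x : ℕ → Place k, (∀ i, Neat S D (x i)) ∧
      ∀ i j, i ≠ j → frobField (S.P (x i)) ⊓ frobField (S.P (x j)) = common S D := by
  classical
  have hstep : ∀ M : {M : IntermediateField ℚ ℂ // FiniteDimensional ℚ M ∧ IsGalois ℚ M},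
      ∃ x, Neat S D x ∧ frobField (S.P x) ⊓ M.1 ≤ common S D := fun M =>
    exists_neat_inf_le S hd D hm hx M.1 M.2.1 M.2.2
  choose f hf1 hf2 using hstep
  let nxt : {M : IntermediateField ℚ ℂ // FiniteDimensional ℚ M ∧ IsGalois ℚ M} →
      {M : IntermediateField ℚ ℂ // FiniteDimensional ℚ M ∧ IsGalois ℚ M} := fun M =>
    ⟨M.1 ⊔ frobField (S.P (f M)), sup_fd _ _ M.2.1 (frobField_fd _),
      sup_galois _ _ M.2.2 (frobField_galois _)⟩
  have hbot : FiniteDimensional ℚ (⊥ : IntermediateField ℚ ℂ) ∧
      IsGalois ℚ (⊥ : IntermediateField ℚ ℂ) := ⟨inferInstance, isGalois_bot⟩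
  let M : ℕ → {M : IntermediateField ℚ ℂ // FiniteDimensional ℚ M ∧ IsGalois ℚ M} := fun n =>
    nxt^[n] ⟨⊥, hbot⟩
  have hM : ∀ n, M (n + 1) = nxt (M n) := fun n => Function.iterate_succ_apply' nxt n _
  have hmono : Monotone fun n => (M n).1 := by
    refine monotone_nat_of_le_succ fun n => ?_
    rw [hM]
    exact le_sup_left
  have hlt : ∀ i j, i < j → frobField (S.P (f (M i))) ≤ (M j).1 := by
    intro i j hij
    refine le_trans ?_ (hmono (Nat.succ_le_of_lt hij))
    change _ ≤ (M (i + 1)).1
    rw [hM]
    exact le_sup_right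
  have hle : ∀ i j, i < j →
      frobField (S.P (f (M i))) ⊓ frobField (S.P (f (M j))) ≤ common S D := by
    intro i j hij
    refine le_trans ?_ (hf2 (M j))
    exact le_inf inf_le_right (inf_le_left.trans (hlt i j hij))
  have hge : ∀ i, common S D ≤ frobField (S.P (f (M i))) := fun i =>
    iInf_le (fun y : {x : Place k // Neat S D x} => frobField (S.P y.1)) ⟨_, hf1 (M i)⟩
  refine ⟨fun n => f (M n), fun i => hf1 _, fun i j hij => ?_⟩
  refine le_antisymm ?_ (le_inf (hge i) (hge j))
  rcases lt_or_gt_of_ne hij with h | h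
  · exact hle i j h
  · rw [inf_comm]
    exact hle j i h

end Pool.Agent.T10
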