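import Pool.Agent.W_b4801b_t10.NeatD
import Pool.Agent.W_MP_b4801b_h67.Rel
import Pool.Agent.W_MP_b4801b_h67.Main

/-!
# Semisimplicity for all primes in dimension at most five

Paper proof (helper32).  Let `x` be a neat place such that `P_x` has distinct roots, `c = q_x ^ w`, `W` an
isotropic stable subspace of `V_ℓ`, `ℓ ≠ p_x`, with eigenvalues `T` of `F_x`.  Then `T ∪ c / T` consists of
different roots of `P_x`, and `(∏ T) ^ (2 N) = c ^ (N |T|)` by the balancedness of the determinants. If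
`T = {a}` then `a ^ N = (c / a) ^ N`, if `T = {a, b}` then `a ^ (2 N) = (c / b) ^ (2 N)`: this is impossible
for a neat place.  So `dim W ≥ 3` or `W = 0`.
-/

set_option autoImplicit false

noncomputable section

open Polynomial

universe u v

namespace Pool.Agent.T10

open Pool.Agent.B4801b

variable {k : Type u} [Field k] {w : ℕ}

/-- The determinants of the isotropic stable subspaces `W` are balanced: for some `N > 0` the character
`det(W) ^ 2 ⊗ χ_ℓ ^ (w dim W)` of the Galois group is killed by `N`. -/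
def Balanced {ℓ : ℕ} [Fact ℓ.Prime] (R : PolRep.{u, v} k w ℓ) : Prop :=
  ∃ N : ℕ, 0 < N ∧ ∀ (W : Submodule ℚ_[ℓ] R.V) (hW : ∀ σ, ∀ x ∈ W, R.ρ σ x ∈ W),
    (∀ x ∈ W, ∀ y ∈ W, R.ψ x y = 0) → ∀ σ : Gal k,
      (LinearMap.det ((R.ρ σ).restrict (hW σ)) ^ 2 *
        cyc k ℓ σ ^ (w * Module.finrank ℚ_[ℓ] W)) ^ N = 1

/-- An element `g` congruent to `1` modulo `ℓ ^ 2` with `D` distinct eigenvalues gives a neat place. -/
theorem exists_neat_aux' (S : CompSys.{u, v} k w) (hd : DenseFrob S) (D : ℕ)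
    (U : Subgroup (Gal k)) (hU : IsOpen (U : Set (Gal k)))
    (hmax : ∀ x ∈ S.Pl, (∃ h : Gal k, h * x.frob * h⁻¹ ∈ U) → ((S.P x).rootSet ℂ).ncard ≤ D)
    (ℓ : ℕ) [Fact ℓ.Prime] (g : Gal k) (hg : g ∈ U) (hC : Cg ℓ 2 ((chartOf S ℓ).M g))
    (hD : EigGE (S.rep ℓ) D g) (T : Finset ℕ) : ∃ x, Neat S D x ∧ x.p ∉ T := by
  obtain ⟨X, hX⟩ := hC
  rw [eigGE_iff S ℓ (chartOf S ℓ)] at hD
  obtain ⟨γ, hγ, hγr⟩ := exists_injective_of_le_ncard _ (Polynomial.rootSet_finite _ _) D hD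
  obtain ⟨N, hN⟩ := exists_near_roots (D := D) (1 + (ℓ : ℤ_[ℓ]) ^ 2 • X) γ hγ (by
    intro i
    rw [← hX]
    exact Polynomial.aeval_eq_zero_of_mem_rootSet (hγr i))
  obtain ⟨x, hx, hxT, ⟨h, u, hu, hconj⟩, hP⟩ := exists_frob_near S hd (U ⊓ UT S {ℓ} 2)
    (by rw [Subgroup.coe_inf]; exact hU.inter (isOpen_UT S {ℓ} 2)) g (insert ℓ T) N
  have hp : ℓ ≠ x.p := fun h => hxT (h ▸ Finset.mem_insert_self ℓ T)
  obtain ⟨Y, hY⟩ := hP ℓ (Finset.mem_insert_self ℓ T) _ hX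
  obtain ⟨hP0, β, h1, h2, -⟩ := hN N le_rfl Y (S.P x) hY
  have hge := le_ncard_of_near (S.P x) hP0 β h1 h2
  have hle := hmax x hx ⟨h, by rw [hconj]; exact U.mul_mem hg hu.1⟩
  have hC' : Cg ℓ 2 ((chartOf S ℓ).M (h * x.frob * h⁻¹)) := by
    obtain ⟨X', hX'⟩ := (chartOf S ℓ).cong 2 u (UT_le S {ℓ} 2 ℓ (Finset.mem_singleton_self ℓ) hu.2)
    rw [hconj, map_mul, hX, hX', ← toQ_mul]
    refine ⟨X + X' + (ℓ : ℤ_[ℓ]) ^ 2 • (X * X'), ?_⟩
    congr 1
    simp only [add_mul, mul_add, one_mul, mul_one, Matrix.smul_mul, Matrix.mul_smul, smul_add]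
    abel
  have h3 := neat_of_cg S ℓ x hx hp h hC'
  rw [le_antisymm hle hge] at h3
  exact ⟨x, ⟨hx, h3⟩, fun h => hxT (Finset.mem_insert_of_mem h)⟩

/-- There are neat places outside of any finite set of residue characteristics. -/
theorem exists_neat_avoid (S : CompSys.{u, v} k w) (hd : DenseFrob S) (D : ℕ)
    (hm : MaxRoots S D) (hx : ∃ x, Neat S D x) (T : Finset ℕ) : ∃ x, Neat S D x ∧ x.p ∉ T := by
  obtain ⟨x, hx⟩ := hx
  obtain ⟨ℓ, hℓ, hgt⟩ := Nat.exists_infinite_primes (x.p + 1)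
  have hF : Fact ℓ.Prime := ⟨hgt⟩
  obtain ⟨U, hU, hmax⟩ := hm
  obtain ⟨a, ha, haU⟩ := exists_pow_mem (U ⊓ UT S {ℓ} 2)
    (by rw [Subgroup.coe_inf]; exact hU.inter (isOpen_UT S {ℓ} 2)) x.frob
  obtain ⟨hD, htors⟩ := neatAt_of_neat S D x hx ℓ (by omega)
  refine exists_neat_aux' S hd D U hU hmax ℓ (x.frob ^ a) haU.1
    ((chartOf S ℓ).cong 2 _ (UT_le S {ℓ} 2 ℓ (Finset.mem_singleton_self ℓ) haU.2)) ?_ T
  rw [eigGE_iff S ℓ (chartOf S ℓ)] at hD ⊢
  rw [(chartOf S ℓ).charpoly_eq] at htors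
  obtain ⟨γ, hγ, hγr⟩ := exists_injective_of_le_ncard _ (Polynomial.rootSet_finite _ _) D hD
  have hr : ∀ i, aeval (γ i) ((chartOf S ℓ).M x.frob).charpoly = 0 := fun i =>
    Polynomial.aeval_eq_zero_of_mem_rootSet (hγr i)
  refine le_ncard_of_injective _ (Polynomial.rootSet_finite _ _) D (fun i => γ i ^ a) ?_ ?_
  · intro i j hij
    by_contra hne
    exact htors _ _ (hr i) (hr j) (fun h => hne (hγ h)) a ha hij
  · intro i
    rw [Polynomial.mem_rootSet]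
    refine ⟨(Matrix.charpoly_monic _).ne_zero, ?_⟩
    rw [map_pow]
    exact aeval_charpoly_pow _ _ (hr i) a

/-- Let `P` be a neat polynomial with distinct roots, `T` a multiset of at most two elements such that
`T ∪ c / T` is contained in the multiset of roots, and `(∏ T) ^ (2 N) = c ^ (N |T|)`. Then `T` is empty. -/
theorem small_aux {L : Type*} [Field L] (A : Multiset L) (hA : A.Nodup)
    (hneat : ∀ a ∈ A, ∀ b ∈ A, a ≠ b → ∀ m : ℕ, 0 < m → a ^ m ≠ b ^ m) (c : L)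
    (h0 : ∀ a ∈ A, a ≠ 0) (T : Multiset L) (hT : T + T.map (fun a => c / a) ≤ A)
    (h2 : Multiset.card T ≤ 2) (N : ℕ) (hN : 0 < N)
    (hp : T.prod ^ (2 * N) = c ^ (Multiset.card T * N)) : T = 0 := by
  have hnd : (T + T.map (fun a => c / a)).Nodup := Multiset.nodup_of_le hT hA
  have hmem : ∀ a ∈ T, a ∈ A ∧ c / a ∈ A := by
    intro a ha
    exact ⟨Multiset.mem_of_le hT (Multiset.mem_add.2 (Or.inl ha)),
      Multiset.mem_of_le hT (Multiset.mem_add.2 (Or.inr (Multiset.mem_map_of_mem _ ha)))⟩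
  have hdis : ∀ a ∈ T, ∀ b ∈ T, a ≠ c / b := by
    intro a ha b hb
    intro hab
    have h1 : Disjoint T (T.map (fun a => c / a)) := (Multiset.nodup_add.1 hnd).2.2
    exact (Multiset.disjoint_left.1 h1 ha) (hab ▸ Multiset.mem_map_of_mem (fun a => c / a) hb)
  interval_cases hc : Multiset.card T
  · exact Multiset.card_eq_zero.1 hc
  · exfalso
    obtain ⟨a, rfl⟩ := Multiset.card_eq_one.1 hc
    have ha := hmem a (Multiset.mem_singleton_self a)
    have ha0 := h0 a ha.1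
    refine hneat a ha.1 (c / a) ha.2 (hdis a (Multiset.mem_singleton_self a) a
      (Multiset.mem_singleton_self a)) N hN ?_
    rw [Multiset.prod_singleton, one_mul, two_mul, pow_add] at hp
    rw [div_pow, eq_div_iff (pow_ne_zero _ ha0), hp]
  · exfalso
    obtain ⟨a, b, rfl⟩ := Multiset.card_eq_two.1 hc
    have ha := hmem a (by simp)
    have hb := hmem b (by simp)
    have hb0 := h0 b hb.1
    refine hneat a ha.1 (c / b) hb.2 (hdis a (by simp) b (by simp)) (2 * N) (by omega) ?_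
    rw [Multiset.insert_eq_cons, Multiset.prod_cons, Multiset.prod_singleton, mul_pow] at hp
    rw [div_pow, eq_div_iff (pow_ne_zero _ hb0), hp]

/-- In dimension at most five `V_ℓ` is semisimple for all primes `ℓ` with balanced determinants. -/
theorem semisimple_of_small (S : CompSys.{u, v} k w) (hd : DenseFrob S) (D : ℕ)
    (hm : MaxRoots S D) (hx : ∃ x, Neat S D x) (ℓ : ℕ) [Fact ℓ.Prime]
    (hdim : Module.finrank ℚ_[ℓ] (S.rep ℓ).V = D) (h5 : D ≤ 5) (hb : Balanced (S.rep ℓ)) :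
    (S.rep ℓ).Semisimple := by
  obtain ⟨x, hxn, hxT⟩ := exists_neat_avoid S hd D hm hx {ℓ}
  have hℓ : ℓ ≠ x.p := fun h => hxT (by rw [← h]; exact Finset.mem_singleton_self ℓ)
  have hxP : x ∈ S.Pl := hxn.1
  obtain ⟨N, hN, hbal⟩ := hb
  intro W hW
  have hq0 : x.q ≠ 0 := by
    intro h0
    have := x.cyc_frob ℓ hℓ
    rw [h0, Nat.cast_zero, mul_zero] at this
    exact zero_ne_one this
  have hqc : ((x.q : ℚ_[ℓ]) ^ w) ≠ 0 := pow_ne_zero _ (Nat.cast_ne_zero.mpr hq0)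
  have hφc : ∀ a b, (S.rep ℓ).ψ ((S.rep ℓ).ρ x.frob a) ((S.rep ℓ).ρ x.frob b) =
      (x.q : ℚ_[ℓ]) ^ w * (S.rep ℓ).ψ a b := by
    intro a b
    rw [← (S.rep ℓ).equivariant x.frob a b, ← mul_assoc, ← mul_pow, mul_comm (x.q : ℚ_[ℓ]),
      x.cyc_frob ℓ hℓ, one_pow, one_mul]
  have hperp : ∀ σ, ∀ y ∈ perp (S.rep ℓ).ψ W, (S.rep ℓ).ρ σ y ∈ perp (S.rep ℓ).ψ W := by
    intro σ y hy z hz
    have h1 : (S.rep ℓ).ρ σ ((S.rep ℓ).ρ σ⁻¹ z) = z := by
      rw [← Module.End.mul_apply, ← map_mul, mul_inv_cancel, map_one, Module.End.one_apply]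
    have h2 : (S.rep ℓ).ψ ((S.rep ℓ).ρ σ⁻¹ z) y = 0 := hy _ (hW _ _ hz)
    have h3 := (S.rep ℓ).equivariant σ ((S.rep ℓ).ρ σ⁻¹ z) y
    rw [h1, h2] at h3
    rcases mul_eq_zero.mp h3 with h | h
    · have : ∀ a b, (S.rep ℓ).ψ a b = 0 := fun a b => by
        rw [← (S.rep ℓ).equivariant σ a b, h, zero_mul]
      exact this _ _
    · exact h
  refine ⟨perp (S.rep ℓ).ψ W, hperp, isCompl_perp _ _ ?_⟩
  have hI : ∀ σ, ∀ y ∈ W ⊓ perp (S.rep ℓ).ψ W, (S.rep ℓ).ρ σ y ∈ W ⊓ perp (S.rep ℓ).ψ W :=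
    fun σ y hy => ⟨hW σ y hy.1, hperp σ y hy.2⟩
  have hiso : ∀ a ∈ W ⊓ perp (S.rep ℓ).ψ W, ∀ b ∈ W ⊓ perp (S.rep ℓ).ψ W, (S.rep ℓ).ψ a b = 0 :=
    fun a ha b hb => hb.2 a ha.1
  have hdet := hbal (W ⊓ perp (S.rep ℓ).ψ W) hI hiso x.frob
  have hbot : W ⊓ perp (S.rep ℓ).ψ W = ⊥ := by
    obtain ⟨T, hT1, hT2, hT3⟩ := exists_relation (AlgebraicClosure ℚ_[ℓ]) (S.rep ℓ).ψ
      (S.rep ℓ).nondeg ((S.rep ℓ).ρ x.frob) _ hqc hφc (W ⊓ perp (S.rep ℓ).ψ W) (hI x.frob) hiso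
    obtain ⟨hge, hneat⟩ := neatAt_of_neat S D x hxn ℓ hℓ
    have hcard : Multiset.card ((((S.rep ℓ).ρ x.frob).charpoly).aroots (AlgebraicClosure ℚ_[ℓ])) = D := by
      rw [card_aroots, hdim]
    have hmem : ∀ a, a ∈ (((S.rep ℓ).ρ x.frob).charpoly).aroots (AlgebraicClosure ℚ_[ℓ]) →
        aeval a ((S.rep ℓ).ρ x.frob).charpoly = 0 := by
      intro a ha
      exact (Polynomial.mem_aroots.1 ha).2
    have hnd : ((((S.rep ℓ).ρ x.frob).charpoly).aroots (AlgebraicClosure ℚ_[ℓ])).Nodup := by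
      classical
      rw [← Multiset.toFinset_card_eq_card_iff_nodup]
      refine le_antisymm (Multiset.toFinset_card_le _) ?_
      rw [hcard]
      refine hge.trans (le_of_eq ?_)
      rw [Polynomial.rootSet, Set.ncard_coe_finset]
    have hcardT : 2 * Multiset.card T ≤ D := by
      have h1 := Multiset.card_le_card hT3
      rw [Multiset.card_add, Multiset.card_map, hcard] at h1
      omega
    have hT0 : T = 0 := by
      refine small_aux _ hnd (fun a ha b hb hab m hm => hneat a b (hmem a ha) (hmem b hb) hab m hm)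
        _ ?_ T hT3 (by omega) N hN ?_
      · intro a ha h0
        have h1 := hmem a ha
        rw [h0] at h1
        have h2 : ((S.rep ℓ).ρ x.frob).charpoly.eval 0 = 0 := by
          have h3 := h1
          rw [Polynomial.aeval_def, Polynomial.eval₂_at_zero] at h3
          rw [← Polynomial.coeff_zero_eq_eval_zero]
          exact (map_eq_zero_iff _ (algebraMap ℚ_[ℓ] (AlgebraicClosure ℚ_[ℓ])).injective).1 h3
        have h4 : LinearMap.det ((S.rep ℓ).ρ x.frob) = 0 := by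
          rw [LinearMap.det_eq_sign_charpoly_coeff, Polynomial.coeff_zero_eq_eval_zero, h2, mul_zero]
        have h5 : LinearMap.det ((S.rep ℓ).ρ x.frob) * LinearMap.det ((S.rep ℓ).ρ x.frob⁻¹) = 1 := by
          rw [← map_mul, ← map_mul, mul_inv_cancel, map_one, map_one]
        rw [h4, zero_mul] at h5
        exact zero_ne_one h5
      · rw [hT2, hT1, ← map_pow]
        rw [← map_pow (algebraMap ℚ_[ℓ] (AlgebraicClosure ℚ_[ℓ])) ((x.q : ℚ_[ℓ]) ^ w)]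
        congr 1
        have hc : cyc k ℓ x.frob * (x.q : ℚ_[ℓ]) = 1 := x.cyc_frob ℓ hℓ
        have h6 : (cyc k ℓ x.frob) ^ (w * Module.finrank ℚ_[ℓ] ↥(W ⊓ perp (S.rep ℓ).ψ W)) *
            ((x.q : ℚ_[ℓ]) ^ w) ^ (Module.finrank ℚ_[ℓ] ↥(W ⊓ perp (S.rep ℓ).ψ W)) = 1 := by
          rw [← pow_mul, ← mul_pow, hc, one_pow]
        rw [mul_pow] at hdet
        calc LinearMap.det (((S.rep ℓ).ρ x.frob).restrict (hI x.frob)) ^ (2 * N)
            = (LinearMap.det (((S.rep ℓ).ρ x.frob).restrict (hI x.frob)) ^ 2) ^ N *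
              ((cyc k ℓ x.frob) ^ (w * Module.finrank ℚ_[ℓ] ↥(W ⊓ perp (S.rep ℓ).ψ W)) *
              ((x.q : ℚ_[ℓ]) ^ w) ^ (Module.finrank ℚ_[ℓ] ↥(W ⊓ perp (S.rep ℓ).ψ W))) ^ N := by
                rw [h6, one_pow, mul_one, pow_mul]
          _ = ((x.q : ℚ_[ℓ]) ^ w) ^ (Module.finrank ℚ_[ℓ] ↥(W ⊓ perp (S.rep ℓ).ψ W) * N) := by
                rw [mul_pow, ← mul_assoc, hdet, one_mul, ← pow_mul]
    rw [hT0, Multiset.card_zero] at hT1
    exact Submodule.finrank_eq_zero.mp hT1.symm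
  intro y hy hy'
  have hyI : y ∈ W ⊓ perp (S.rep ℓ).ψ W := ⟨hy, hy'⟩
  rw [hbot] at hyI
  exact (Submodule.mem_bot _).mp hyI

end Pool.Agent.T10
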