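import Pool.Agent.W_b4801b_t10.Defs
import Pool.Agent.W_f569db_h62.NTF
import Pool.Agent.W_f569db_h62.NTG

/-! Primes of degree one in a Galois number field. -/

set_option autoImplicit false

noncomputable section

namespace Pool.Agent.T10

open Pool.Agent.H62D NumberField IsDedekindDomain

/-- For a Galois number field `K` and almost all primes `ℓ`: if `K` embeds into `ℚ_ℓ` there are exactly
`[K : ℚ]` primes of norm `ℓ`, otherwise there is none.

Proof. `T` = the set of `exists_embedding_of_prime K` together with the prime divisors of the norm of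
the different (`Ideal.absNorm (differentIdeal ℤ (𝓞 K))`), so that `ℓ ∉ T` is unramified. If
`ℓ ∉ Spl K` there is no prime of norm `ℓ` by `exists_embedding_of_prime`. If `ℓ ∈ Spl K` there is a prime
`P` of norm `ℓ` (`exists_prime_of_embedding`), so of inertia degree one; `K / ℚ` is Galois, so all primes
above `ℓ` have inertia degree one and ramification index one, so norm `ℓ`, and
their number is `[K : ℚ]` (`Ideal.ncard_primesOver_mul_ramificationIdxIn_mul_inertiaDegIn`, see also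
`card_primes_over_le` in `W_f569db_h62/NTE` for the passage from `HeightOneSpectrum` to
`Ideal.primesOver`). -/
theorem spl_count (K : Type) [Field K] [NumberField K] [IsGalois ℚ K] :
    ∃ T : Finset ℕ, ∀ ℓ : ℕ, ℓ.Prime → ℓ ∉ T →
      (ℓ ∈ Spl K → Nat.card {P : HeightOneSpectrum (𝓞 K) // Ideal.absNorm P.asIdeal = ℓ} =
        Module.finrank ℚ K) ∧
      (ℓ ∉ Spl K → ∀ P : HeightOneSpectrum (𝓞 K), Ideal.absNorm P.asIdeal ≠ ℓ) := by
  classical
  obtain ⟨S, hS⟩ := exists_embedding_of_prime K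
  refine ⟨S ∪ (Ideal.absNorm (differentIdeal ℤ (𝓞 K))).primeFactors, ?_⟩
  intro ℓ hℓ hT
  have : Fact ℓ.Prime := ⟨hℓ⟩
  rw [Finset.mem_union, not_or] at hT
  constructor
  swap
  · intro hn P hP
    obtain ⟨τ, -⟩ := hS ℓ hT.1 P hP
    exact hn ⟨hℓ, ⟨τ⟩⟩
  rintro ⟨_, ⟨τ⟩⟩
  obtain ⟨P, hN, -⟩ := exists_prime_of_embedding K ℓ τ
  set q : Ideal ℤ := Ideal.span {(ℓ : ℤ)} with hq
  have hp' : Prime (ℓ : ℤ) := Nat.prime_iff_prime_int.1 hℓ
  have hq0 : q ≠ ⊥ := by
    rw [hq, Ne, Ideal.span_singleton_eq_bot]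
    exact hp'.ne_zero
  have hqp : q.IsPrime := (Ideal.span_singleton_prime hp'.ne_zero).2 hp'
  have hqm : q.IsMaximal := hqp.isMaximal hq0
  have hover : ∀ Q : Ideal (𝓞 K), Q.IsPrime → Ideal.absNorm Q = ℓ → Q.LiesOver q := by
    intro Q hQ hQN
    have hmem : (ℓ : 𝓞 K) ∈ Q := by
      have := Ideal.absNorm_mem Q
      rwa [hQN] at this
    refine ⟨?_⟩
    have h2 : q ≤ Q.under ℤ := by
      rw [hq, Ideal.span_singleton_le_iff_mem, Ideal.mem_comap]
      simpa using hmem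
    exact hqm.eq_of_le (Ideal.comap_ne_top _ hQ.ne_top) h2
  have hPl : P.asIdeal.LiesOver q := hover _ P.isPrime hN
  have hPp : P.asIdeal.IsPrime := P.isPrime
  have hmap : q.map (algebraMap ℤ (𝓞 K)) ≠ ⊥ := Ideal.map_ne_bot_of_ne_bot hq0
  -- inertia degree one
  have hI1 : P.asIdeal.inertiaDeg ℤ = 1 := by
    rw [← Nat.pow_right_inj hℓ.one_lt, pow_one, Ideal.pow_inertiaDeg, hN]
  have hI : q.inertiaDegIn (𝓞 K) = 1 := by
    rw [Ideal.inertiaDegIn_eq_inertiaDeg q P.asIdeal Gal(K/ℚ), hI1]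
  -- ramification index one
  have hR1 : P.asIdeal.ramificationIdx ℤ = 1 := by
    have h0 : 0 < P.asIdeal.ramificationIdx ℤ := P.asIdeal.ramificationIdx_pos ℤ
    by_contra hne
    have h2 : 2 ≤ P.asIdeal.ramificationIdx ℤ := by omega
    rw [Ideal.IsDedekindDomain.ramificationIdx_eq_multiplicity q P.asIdeal hmap] at h2
    have hdvd : P.asIdeal ^ 2 ∣ q.map (algebraMap ℤ (𝓞 K)) := pow_dvd_of_le_multiplicity h2
    have h1 := pow_sub_one_dvd_differentIdeal (A := ℤ) P.asIdeal 2 hq0 hdvd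
    have h3 : P.asIdeal ∣ differentIdeal ℤ (𝓞 K) := by simpa using h1
    have h4 : Ideal.absNorm P.asIdeal ∣ Ideal.absNorm (differentIdeal ℤ (𝓞 K)) :=
      Ideal.absNorm_dvd_absNorm_of_le (Ideal.dvd_iff_le.mp h3)
    rw [hN] at h4
    have h5 : Ideal.absNorm (differentIdeal ℤ (𝓞 K)) ≠ 0 := by
      rw [Ne, Ideal.absNorm_eq_zero_iff]
      exact differentIdeal_ne_bot
    exact hT.2 (Nat.mem_primeFactors.mpr ⟨hℓ, h4, h5⟩)
  have hR : q.ramificationIdxIn (𝓞 K) = 1 := by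
    rw [Ideal.ramificationIdxIn_eq_ramificationIdx q P.asIdeal Gal(K/ℚ), hR1]
  have h_main := Ideal.ncard_primesOver_mul_ramificationIdxIn_mul_inertiaDegIn q (𝓞 K) Gal(K/ℚ)
  rw [hI, hR, mul_one, mul_one, IsGaloisGroup.card_eq_finrank Gal(K/ℚ) ℚ K] at h_main
  rw [← h_main, ← Nat.card_coe_set_eq]
  -- all primes over `q` have norm `ℓ`
  have hnorm : ∀ Q : Ideal (𝓞 K), Q.IsPrime → Q.LiesOver q → Ideal.absNorm Q = ℓ := by
    intro Q hQ hQl
    rw [← Ideal.pow_inertiaDeg ℓ Q, ← Ideal.inertiaDegIn_eq_inertiaDeg q Q Gal(K/ℚ), hI, pow_one]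
  refine Nat.card_congr ⟨fun Q => ⟨Q.1.asIdeal, Q.1.isPrime, hover _ Q.1.isPrime Q.2⟩,
    fun Q => ⟨⟨Q.1, Q.2.1, ?_⟩, hnorm _ Q.2.1 Q.2.2⟩, fun Q => rfl, fun Q => rfl⟩
  intro hbot
  have h6 := hnorm _ Q.2.1 Q.2.2
  rw [hbot, Ideal.absNorm_bot] at h6
  exact hℓ.ne_zero h6.symm

end Pool.Agent.T10
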