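import Pool.Agent.W_b4801b_t10.DegOne
import Pool.Agent.W_b4801b_t10.SplCount
import Pool.Agent.W_b4801b_t10.HDens

/-! The density of the totally split primes. -/

set_option autoImplicit false

noncomputable section

open Filter Topology NumberField IsDedekindDomain

namespace Pool.Agent.T10

open Pool.Agent.H62D in
/-- The number of primes of norm `ℓ` is at most the degree. -/
theorem SplDens_card_le (K : Type) [Field K] [NumberField K] (ℓ : ℕ) (hℓ : ℓ.Prime) :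
    Nat.card {P : HeightOneSpectrum (𝓞 K) // Ideal.absNorm P.asIdeal = ℓ} ≤
      Module.finrank ℚ K := by
  have h1 : {P : HeightOneSpectrum (𝓞 K) | Ideal.absNorm P.asIdeal = ℓ} ⊆
      {P : HeightOneSpectrum (𝓞 K) | (ℓ : 𝓞 K) ∈ P.asIdeal} := by
    intro P hP
    have hP' : Ideal.absNorm P.asIdeal = ℓ := hP
    have h := Ideal.absNorm_mem P.asIdeal
    rw [hP'] at h
    exact h
  have h2 := (Set.encard_le_encard h1).trans (card_primes_over_le K ℓ hℓ)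
  have h3 : ({P : HeightOneSpectrum (𝓞 K) | Ideal.absNorm P.asIdeal = ℓ}).ncard ≤
      Module.finrank ℚ K := by
    rw [Set.ncard_def]
    exact ENat.toNat_le_of_le_coe h2
  exact h3

/-- The fibre of the norm on the primes of degree one. -/
def SplDens_fib (K : Type) [Field K] [NumberField K] (ℓ : ℕ) (hℓ : ℓ.Prime) :
    {x : {P : HeightOneSpectrum (𝓞 K) // (Ideal.absNorm P.asIdeal).Prime} //
      Ideal.absNorm x.1.asIdeal = ℓ} ≃
      {P : HeightOneSpectrum (𝓞 K) // Ideal.absNorm P.asIdeal = ℓ} where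
  toFun x := ⟨x.1.1, x.2⟩
  invFun P := ⟨⟨P.1, by rw [P.2]; exact hℓ⟩, P.2⟩
  left_inv _ := rfl
  right_inv _ := rfl

/-- The number of primes of degree one with norm `ℓ`. -/
def SplDens_r (K : Type) [Field K] [NumberField K] (ℓ : ℕ) : ℕ :=
  Nat.card {x : {P : HeightOneSpectrum (𝓞 K) // (Ideal.absNorm P.asIdeal).Prime} //
      Ideal.absNorm x.1.asIdeal = ℓ}

theorem SplDens_r_prime (K : Type) [Field K] [NumberField K] (ℓ : ℕ) (hℓ : ℓ.Prime) :
    SplDens_r K ℓ = Nat.card {P : HeightOneSpectrum (𝓞 K) // Ideal.absNorm P.asIdeal = ℓ} :=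
  Nat.card_congr (SplDens_fib K ℓ hℓ)

theorem SplDens_r_not_prime (K : Type) [Field K] [NumberField K] (ℓ : ℕ) (hℓ : ¬ ℓ.Prime) :
    SplDens_r K ℓ = 0 := by
  have : IsEmpty {x : {P : HeightOneSpectrum (𝓞 K) // (Ideal.absNorm P.asIdeal).Prime} //
      Ideal.absNorm x.1.asIdeal = ℓ} := ⟨fun x => hℓ (by
        have h := x.1.2
        rw [x.2] at h
        exact h)⟩
  exact Nat.card_of_isEmpty

theorem SplDens_sum (K : Type) [Field K] [NumberField K] (s : ℝ) (hs : 1 < s) :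
    Summable (fun ℓ : ℕ => (SplDens_r K ℓ : ℝ) * (ℓ : ℝ) ^ (-s)) ∧
      d1sum K s = ∑' ℓ : ℕ, (SplDens_r K ℓ : ℝ) * (ℓ : ℝ) ^ (-s) := by
  set D := {P : HeightOneSpectrum (𝓞 K) // (Ideal.absNorm P.asIdeal).Prime} with hD
  set f : D → ℕ := fun x => Ideal.absNorm x.1.asIdeal with hf
  have h1 : Summable (fun x : D => ((f x : ℕ) : ℝ) ^ (-s)) :=
    (all_summable K s hs).comp_injective Subtype.val_injective
  have h2 : Summable (fun p : (Σ y : ℕ, {x : D // f x = y}) =>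
      ((f (Equiv.sigmaFiberEquiv f p) : ℕ) : ℝ) ^ (-s)) :=
    (Equiv.sigmaFiberEquiv f).summable_iff.2 h1
  have h3 : ∀ y : ℕ, ∑' x : {x : D // f x = y},
      ((f (Equiv.sigmaFiberEquiv f ⟨y, x⟩) : ℕ) : ℝ) ^ (-s) =
        (SplDens_r K y : ℝ) * (y : ℝ) ^ (-s) := by
    intro y
    have h4 : ∀ x : {x : D // f x = y},
        ((f (Equiv.sigmaFiberEquiv f ⟨y, x⟩) : ℕ) : ℝ) ^ (-s) = (y : ℝ) ^ (-s) := by
      intro x
      have h5 : f (Equiv.sigmaFiberEquiv f ⟨y, x⟩) = y := x.2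
      rw [h5]
    rw [tsum_congr h4, tsum_const, nsmul_eq_mul]
    rfl
  refine ⟨?_, ?_⟩
  · have h6 := h2.sigma
    refine h6.congr ?_
    intro y
    exact h3 y
  · have h7 : d1sum K s = ∑' x : D, ((f x : ℕ) : ℝ) ^ (-s) := rfl
    rw [h7, ← (Equiv.sigmaFiberEquiv f).tsum_eq (fun x : D => ((f x : ℕ) : ℝ) ^ (-s)),
      h2.tsum_sigma]
    exact tsum_congr h3

theorem SplDens_cmp (K : Type) [Field K] [NumberField K] [IsGalois ℚ K] :
    ∃ T : Finset ℕ, ∀ s : ℝ, 1 < s →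
      |d1sum K s - Module.finrank ℚ K * dsum (Spl K) s| ≤ Module.finrank ℚ K * T.card := by
  obtain ⟨T, hT⟩ := spl_count K
  refine ⟨T, fun s hs => ?_⟩
  set n : ℕ := Module.finrank ℚ K with hn
  obtain ⟨h1, h2⟩ := SplDens_sum K s hs
  have h3 : dsum (Spl K) s = ∑' ℓ : ℕ, (Spl K).indicator (fun ℓ : ℕ => (ℓ : ℝ) ^ (-s)) ℓ :=
    tsum_subtype (Spl K) (fun ℓ : ℕ => (ℓ : ℝ) ^ (-s))
  have h4 : Summable ((Spl K).indicator (fun ℓ : ℕ => (ℓ : ℝ) ^ (-s))) :=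
    summable_subtype_iff_indicator.1 (summable_dsum (Spl K) s hs)
  rw [h2, h3, ← tsum_mul_left, ← h1.tsum_sub (h4.mul_left (n : ℝ))]
  have h5 : ∀ ℓ : ℕ, ℓ ∉ T → (SplDens_r K ℓ : ℝ) * (ℓ : ℝ) ^ (-s) -
      n * (Spl K).indicator (fun ℓ : ℕ => (ℓ : ℝ) ^ (-s)) ℓ = 0 := by
    intro ℓ hℓ
    by_cases hp : ℓ.Prime
    · by_cases hS : ℓ ∈ Spl K
      · rw [Set.indicator_of_mem hS, SplDens_r_prime K ℓ hp, (hT ℓ hp hℓ).1 hS, sub_self]
      · rw [Set.indicator_of_notMem hS, SplDens_r_prime K ℓ hp]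
        have : IsEmpty {P : HeightOneSpectrum (𝓞 K) // Ideal.absNorm P.asIdeal = ℓ} :=
          ⟨fun P => (hT ℓ hp hℓ).2 hS P.1 P.2⟩
        rw [Nat.card_of_isEmpty]
        simp
    · have hS : ℓ ∉ Spl K := fun h => hp h.1
      rw [Set.indicator_of_notMem hS, SplDens_r_not_prime K ℓ hp]
      simp
  rw [tsum_eq_sum (s := T) (fun ℓ hℓ => h5 ℓ hℓ)]
  refine (Finset.abs_sum_le_sum_abs _ _).trans ?_
  have h6 : ∀ ℓ ∈ T, |(SplDens_r K ℓ : ℝ) * (ℓ : ℝ) ^ (-s) -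
      n * (Spl K).indicator (fun ℓ : ℕ => (ℓ : ℝ) ^ (-s)) ℓ| ≤ n := by
    intro ℓ _
    by_cases hp : ℓ.Prime
    · have hr : (SplDens_r K ℓ : ℝ) ≤ n := by
        rw [SplDens_r_prime K ℓ hp]
        exact_mod_cast SplDens_card_le K ℓ hp
      have hr0 : (0 : ℝ) ≤ SplDens_r K ℓ := Nat.cast_nonneg _
      have hn0 : (0 : ℝ) ≤ n := Nat.cast_nonneg _
      have hg0 : (0 : ℝ) ≤ (ℓ : ℝ) ^ (-s) := Real.rpow_nonneg (Nat.cast_nonneg _) _
      have hg1 : (ℓ : ℝ) ^ (-s) ≤ 1 :=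
        Real.rpow_le_one_of_one_le_of_nonpos (by exact_mod_cast hp.one_lt.le) (by linarith)
      have hi : (Spl K).indicator (fun ℓ : ℕ => (ℓ : ℝ) ^ (-s)) ℓ = 0 ∨
          (Spl K).indicator (fun ℓ : ℕ => (ℓ : ℝ) ^ (-s)) ℓ = (ℓ : ℝ) ^ (-s) := by
        by_cases hS : ℓ ∈ Spl K
        · right
          exact Set.indicator_of_mem hS _
        · left
          exact Set.indicator_of_notMem hS _
      have ha : (SplDens_r K ℓ : ℝ) * (ℓ : ℝ) ^ (-s) ≤ n * 1 :=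
        mul_le_mul hr hg1 hg0 hn0
      have ha0 : 0 ≤ (SplDens_r K ℓ : ℝ) * (ℓ : ℝ) ^ (-s) := mul_nonneg hr0 hg0
      have hb : (n : ℝ) * (ℓ : ℝ) ^ (-s) ≤ n * 1 := mul_le_mul_of_nonneg_left hg1 hn0
      have hb0 : 0 ≤ (n : ℝ) * (ℓ : ℝ) ^ (-s) := mul_nonneg hn0 hg0
      rw [abs_le]
      rcases hi with hi | hi <;> rw [hi]
      · constructor <;> nlinarith
      · constructor <;> nlinarith
    · have hS : ℓ ∉ Spl K := fun h => hp h.1
      rw [Set.indicator_of_notMem hS, SplDens_r_not_prime K ℓ hp]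
      simp
  refine (Finset.sum_le_sum h6).trans ?_
  rw [Finset.sum_const, nsmul_eq_mul, mul_comm]

/-- Proof. `d1sum K s = ∑_ℓ r(ℓ) ℓ ^ (-s)`, `r(ℓ)` = the number of primes of norm `ℓ`
(`Equiv.sigmaFiberEquiv`, finite fibres), `r(ℓ) ≤ [K : ℚ]` for all `ℓ` (`card_primes_over_le` in
`W_f569db_h62/NTE`), and `r(ℓ) = [K : ℚ]` or `0` for `ℓ ∉ T`, according to `ℓ ∈ Spl K` or not
(`spl_count`). So `|d1sum K s - [K : ℚ] dsum (Spl K) s| ≤ [K : ℚ] |T|`; conclude with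
`d1_asymp`. -/
theorem spl_dens_aux (K : Type) [Field K] [NumberField K] [IsGalois ℚ K] :
    HasDens (Spl K) (1 / Module.finrank ℚ K) := by
  refine ⟨fun ℓ hℓ => hℓ.1, ?_⟩
  obtain ⟨T, hT⟩ := SplDens_cmp K
  obtain ⟨C, hC⟩ := d1_asymp K
  have hn : (0 : ℝ) < Module.finrank ℚ K := by
    exact_mod_cast (Module.finrank_pos : 0 < Module.finrank ℚ K)
  refine ⟨(C + Module.finrank ℚ K * T.card) / Module.finrank ℚ K, ?_⟩
  filter_upwards [hC, self_mem_nhdsWithin] with s hs hs1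
  have h1 := hT s hs1
  rw [le_div_iff₀ hn]
  have h2 : |dsum (Spl K) s - 1 / (Module.finrank ℚ K : ℝ) * Real.log (1 / (s - 1))| *
      (Module.finrank ℚ K : ℝ) =
      |(Module.finrank ℚ K : ℝ) * dsum (Spl K) s - Real.log (1 / (s - 1))| := by
    nth_rewrite 2 [← abs_of_pos hn]
    rw [← abs_mul]
    congr 1
    field_simp
  rw [h2]
  have h3 : (Module.finrank ℚ K : ℝ) * dsum (Spl K) s - Real.log (1 / (s - 1)) =
      (d1sum K s - Real.log (1 / (s - 1))) -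
        (d1sum K s - (Module.finrank ℚ K : ℝ) * dsum (Spl K) s) := by ring
  rw [h3]
  exact (abs_sub _ _).trans (add_le_add hs h1)

/-- The same for any algebra structure. -/
theorem SplDens_gen (L : Type) [Field L] [CharZero L] (a : Algebra ℚ L)
    (hf : @FiniteDimensional ℚ L _ _ a.toModule) (hg : @IsGalois ℚ _ L _ a) :
    HasDens (Spl L) (1 / (@Module.finrank ℚ L _ _ a.toModule : ℕ)) := by
  obtain rfl : a = DivisionRing.toRatAlgebra := Subsingleton.elim _ _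
  haveI : NumberField L := ⟨⟩
  exact spl_dens_aux L

/-- The same for subfields of `ℂ`. Proof. `spl_dens_aux ↥K`; the `ℚ`-algebra structures on `↥K` agree
(`Subsingleton.elim`; use `convert` or `letI`). -/
theorem spl_dens (K : IntermediateField ℚ ℂ) (hf : FiniteDimensional ℚ K) (hg : IsGalois ℚ K) :
    HasDens (Spl ↥K) (1 / Module.finrank ℚ K) :=
  SplDens_gen ↥K _ hf hg

end Pool.Agent.T10
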