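import Pool.Agent.W_f569db_h62.NTA
import Pool.Agent.W_f569db_h62.NTB

/-! Multiset sums over finite sets. -/

set_option autoImplicit false

namespace Pool.Agent.T10

open Pool.Agent.H62D
open scoped ENNReal

/-- Proof. `x ≤ -log (1 - x) ≤ x + 2 x ^ 2` for `0 ≤ x ≤ 1 / 2`
(`Real.add_one_le_exp (-x)`, and `log (1 - x) ≥ - x - 2 x ^ 2`, e.g. from
`(1 - x) * (1 + x + 2 x ^ 2) ≥ 1` and `Real.add_one_le_exp`). -/
theorem exp_bounds (x : ℝ) (h0 : 0 ≤ x) (h1 : x ≤ 1 / 2) :
    Real.exp x ≤ (1 - x)⁻¹ ∧ (1 - x)⁻¹ ≤ Real.exp (x + 2 * x ^ 2) := by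
  have hx : 0 < 1 - x := by linarith
  constructor
  · have h := Real.add_one_le_exp (-x)
    rw [Real.exp_neg] at h
    have h2 : 1 - x ≤ (Real.exp x)⁻¹ := by linarith
    rw [le_inv_comm₀ (Real.exp_pos x) hx]
    exact h2
  · have h := Real.add_one_le_exp (x + 2 * x ^ 2)
    refine le_trans ?_ h
    rw [inv_le_iff_one_le_mul₀ hx]
    nlinarith [mul_nonneg (sq_nonneg x) (show (0 : ℝ) ≤ 1 - 2 * x by linarith)]

/-- multisets of one element -/
def ZmA_equiv : Multiset Unit ≃ ℕ where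
  toFun m := m.card
  invFun n := Multiset.replicate n ()
  left_inv m := by
    symm
    rw [Multiset.eq_replicate]
    exact ⟨rfl, fun _ _ => rfl⟩
  right_inv n := Multiset.card_replicate n ()

theorem ZmA_unit (w : Unit → ℝ≥0∞) : Zms w = (1 - w ())⁻¹ := by
  unfold Zms
  rw [← ENNReal.tsum_geometric, ← ZmA_equiv.symm.tsum_eq]
  refine tsum_congr fun n => ?_
  show ((Multiset.replicate n ()).map w).prod = _
  rw [Multiset.map_replicate, Multiset.prod_replicate]

theorem ZmA_bounds (A : Type) [Finite A] : ∀ w : A → ℝ, (∀ a, 0 ≤ w a) → (∀ a, w a ≤ 1 / 2) →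
    ENNReal.ofReal (Real.exp (∑ᶠ a, w a)) ≤ Zms (fun a => ENNReal.ofReal (w a)) ∧
    Zms (fun a => ENNReal.ofReal (w a)) ≤ ENNReal.ofReal (Real.exp (∑ᶠ a, (w a + 2 * w a ^ 2))) := by
  classical
  refine Finite.induction_empty_option (P := fun A : Type => ∀ w : A → ℝ, (∀ a, 0 ≤ w a) →
    (∀ a, w a ≤ 1 / 2) →
    ENNReal.ofReal (Real.exp (∑ᶠ a, w a)) ≤ Zms (fun a => ENNReal.ofReal (w a)) ∧
    Zms (fun a => ENNReal.ofReal (w a)) ≤
      ENNReal.ofReal (Real.exp (∑ᶠ a, (w a + 2 * w a ^ 2)))) ?_ ?_ ?_ A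
  · intro α β e hα w h0 h1
    rw [← Zms_equiv (fun a => ENNReal.ofReal (w (e a))) (fun b => ENNReal.ofReal (w b)) e
      fun a => rfl, ← finsum_comp_equiv e (f := w),
      ← finsum_comp_equiv e (f := fun a => w a + 2 * w a ^ 2)]
    exact hα (fun a => w (e a)) (fun a => h0 _) (fun a => h1 _)
  · intro w _ _
    have hz : Zms (fun a : PEmpty => ENNReal.ofReal (w a)) = 1 := by
      unfold Zms
      rw [tsum_eq_single (0 : Multiset PEmpty)]
      · simp
      · intro b hb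
        exact absurd (Multiset.eq_zero_of_forall_notMem fun x => x.elim) hb
    rw [hz, finsum_of_isEmpty, finsum_of_isEmpty]
    simp
  · intro α _ hα w h0 h1
    have hF : Fintype α := Fintype.ofFinite α
    have hw : Zms (fun a => ENNReal.ofReal (w a)) =
        Zms (fun a : α => ENNReal.ofReal (w (some a))) * (1 - ENNReal.ofReal (w none))⁻¹ := by
      rw [Zms_equiv (fun a => ENNReal.ofReal (w a))
        (Sum.elim (fun a => ENNReal.ofReal (w (some a))) (fun _ : Unit => ENNReal.ofReal (w none)))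
        (Equiv.optionEquivSumPUnit α) (by rintro (_ | a) <;> rfl), Zms_sum, ZmA_unit]
    have hsum : ∀ v : Option α → ℝ, ∑ᶠ a, v a = (∑ᶠ a, v (some a)) + v none := by
      intro v
      rw [finsum_eq_sum_of_fintype, finsum_eq_sum_of_fintype, Fintype.sum_option, add_comm]
    have hx0 := h0 none
    have hx1 := h1 none
    have hpos : 0 < 1 - w none := by linarith
    have hinv : (1 - ENNReal.ofReal (w none))⁻¹ = ENNReal.ofReal ((1 - w none)⁻¹) := by
      rw [ENNReal.ofReal_inv_of_pos hpos, ENNReal.ofReal_sub _ hx0, ENNReal.ofReal_one]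
    obtain ⟨hb1, hb2⟩ := exp_bounds (w none) hx0 hx1
    obtain ⟨ih1, ih2⟩ := hα (fun a => w (some a)) (fun a => h0 _) (fun a => h1 _)
    rw [hw, hinv, hsum, hsum, Real.exp_add, Real.exp_add,
      ENNReal.ofReal_mul (Real.exp_pos _).le, ENNReal.ofReal_mul (Real.exp_pos _).le]
    exact ⟨mul_le_mul' ih1 (ENNReal.ofReal_le_ofReal hb1),
      mul_le_mul' ih2 (ENNReal.ofReal_le_ofReal hb2)⟩

/-- Proof. For one element the multisets are `replicate k a` and the sum is the geometric series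
`∑_k x ^ k = (1 - x)⁻¹`; for `Fin n` (or `Finset` induction, `Option A ≃ A ⊕ Unit`) use `Zms_sum` and
`Zms_equiv`: `Zms w = ∏ (1 - w a)⁻¹`; then `exp_bounds`. -/
theorem Zms_fin {A : Type} [Fintype A] (w : A → ℝ) (h0 : ∀ a, 0 ≤ w a) (h1 : ∀ a, w a ≤ 1 / 2) :
    ENNReal.ofReal (Real.exp (∑ a, w a)) ≤ Zms (fun a => ENNReal.ofReal (w a)) ∧
    Zms (fun a => ENNReal.ofReal (w a)) ≤ ENNReal.ofReal (Real.exp (∑ a, (w a + 2 * w a ^ 2))) := by
  have h := ZmA_bounds A w h0 h1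
  rwa [finsum_eq_sum_of_fintype, finsum_eq_sum_of_fintype] at h

end Pool.Agent.T10
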