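import Pool.Agent.W_b4801b_t10.ZmA

/-! Multiset sums and exponentials. -/

set_option autoImplicit false

namespace Pool.Agent.T10

open Pool.Agent.H62D
open scoped ENNReal

/-- Proof. For finite `B ⊆ A` the map `Multiset.map Subtype.val` is injective and preserves products, so
`Zms (w|B) ≤ Zms w` (`Zms_le`), and `exp (∑_B w) ≤ Zms w` by `Zms_fin`; let `B` grow
(`HasSum`, continuity of `exp` and `ENNReal.ofReal`, `le_of_tendsto`). -/
theorem Zms_ge_exp {A : Type} (w : A → ℝ) (h0 : ∀ a, 0 ≤ w a) (h1 : ∀ a, w a ≤ 1 / 2)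
    (hs : Summable w) :
    ENNReal.ofReal (Real.exp (∑' a, w a)) ≤ Zms (fun a => ENNReal.ofReal (w a)) := by
  have hfin : ∀ s : Finset A, ENNReal.ofReal (Real.exp (∑ a ∈ s, w a)) ≤
      Zms (fun a => ENNReal.ofReal (w a)) := by
    intro s
    have h2 := (Zms_fin (A := s) (fun a => w a) (fun a => h0 _) (fun a => h1 _)).1
    rw [Finset.sum_coe_sort s w] at h2
    exact h2.trans (Zms_le _ _ Subtype.val Subtype.val_injective fun a => le_rfl)
  have ht := ((ENNReal.continuous_ofReal.tendsto _).comp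
    ((Real.continuous_exp.tendsto _).comp hs.hasSum))
  exact le_of_tendsto' ht hfin

/-- Proof. `Zms w` is the supremum of the sums over finite sets `F` of multisets
(`ENNReal.tsum_eq_iSup_sum`); all elements of the members of `F` lie in a finite set `B ⊆ A`, and every
`m ∈ F` is the image of a multiset of elements of `B` (`Multiset.attach` / `Multiset.pmap`), so the sum
over `F` is at most `Zms (w|B) ≤ exp (∑_B (w + 2 w^2)) ≤ exp (∑' w + 2 ∑' w^2)` by `Zms_fin`
(`w ^ 2 ≤ w` is summable). -/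
theorem Zms_le_exp {A : Type} (w : A → ℝ) (h0 : ∀ a, 0 ≤ w a) (h1 : ∀ a, w a ≤ 1 / 2)
    (hs : Summable w) :
    Zms (fun a => ENNReal.ofReal (w a)) ≤
      ENNReal.ofReal (Real.exp (∑' a, w a + 2 * ∑' a, w a ^ 2)) := by
  classical
  have hs2 : Summable (fun a => w a ^ 2) := by
    refine Summable.of_nonneg_of_le (fun a => sq_nonneg _) (fun a => ?_) hs
    nlinarith [h0 a, h1 a]
  have hB : ∀ B : Finset A, Zms (fun a : B => ENNReal.ofReal (w a)) ≤
      ENNReal.ofReal (Real.exp (∑' a, w a + 2 * ∑' a, w a ^ 2)) := by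
    intro B
    refine ((Zms_fin (A := B) (fun a => w a) (fun a => h0 _) (fun a => h1 _)).2).trans ?_
    apply ENNReal.ofReal_le_ofReal
    apply Real.exp_le_exp.mpr
    rw [Finset.sum_coe_sort B (fun a => w a + 2 * w a ^ 2), Finset.sum_add_distrib,
      ← Finset.mul_sum]
    have h3 : ∑ a ∈ B, w a ≤ ∑' a, w a := hs.sum_le_tsum B fun a _ => h0 a
    have h4 : ∑ a ∈ B, w a ^ 2 ≤ ∑' a, w a ^ 2 := hs2.sum_le_tsum B fun a _ => sq_nonneg _
    linarith
  unfold Zms
  rw [ENNReal.tsum_eq_iSup_sum]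
  refine iSup_le fun F => ?_
  let B : Finset A := F.biUnion fun m => m.toFinset
  have hc : ∀ m : F, ∃ m' : Multiset B, m'.map Subtype.val = (m : Multiset A) := by
    intro m
    refine ⟨(m : Multiset A).attach.map fun x => ⟨x.1, ?_⟩, ?_⟩
    · exact Finset.mem_biUnion.mpr ⟨m, m.2, Multiset.mem_toFinset.mpr x.2⟩
    · rw [Multiset.map_map]
      exact Multiset.attach_map_val _
  choose c hc using hc
  have hcinj : Function.Injective c := by
    intro m m' h
    apply Subtype.ext
    rw [← hc m, ← hc m', h]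
  refine le_trans ?_ (hB B)
  unfold Zms
  rw [← Finset.sum_coe_sort F]
  refine le_trans (le_of_eq ?_) (ENNReal.tsum_comp_le_tsum_of_injective hcinj
    (fun m' : Multiset B => (m'.map fun a : B => ENNReal.ofReal (w a)).prod))
  rw [tsum_fintype]
  refine Finset.sum_congr rfl fun m _ => ?_
  conv_lhs => rw [← hc m, Multiset.map_map]
  rfl

end Pool.Agent.T10
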